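import Pool.Agent.P.MP_ac4909_gt.TLLoc

/-! Naturality of cabled crossings, hexagons, Reidemeister II and III, pitchfork moves. -/

namespace Pool.Agent.P.MP_ac4909_gt

variable {K : Type} [Field K] {R : Type} [Ring R] [Algebra K R]

namespace TL
variable (T : TL K R)

private theorem zp_mul (s : Bool) : zp T.a s * zp T.a (!s) = 1 := by
  have := T.ha
  cases s <;> simp [zp, this]

private theorem dlt_eq (s : Bool) : dlt T.a = -zp T.a s ^ 2 - zp T.a (!s) ^ 2 := by
  cases s <;> simp [zp, dlt]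
  ring

private theorem sig_U (s : Bool) (p q : ℕ) (c : K) (h : T.C p * T.U q = c • (1 : R)) :
    T.sig s p * T.U q = zp T.a s • T.U q + (zp T.a (!s) * c) • T.U p := by
  simp only [sig, add_mul, smul_mul_assoc, one_mul, mul_assoc, h, mul_smul_comm, mul_one, smul_smul]

private theorem C_sig (s : Bool) (p q : ℕ) (c : K) (h : T.C q * T.U p = c • (1 : R)) :
    T.C q * T.sig s p = zp T.a s • T.C q + (zp T.a (!s) * c) • T.C p := by
  simp only [sig, mul_add, smul_mul_assoc, one_mul, ← mul_assoc, h, mul_smul_comm, mul_one,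
    smul_smul]

private theorem loop' (p : ℕ) : T.C p * T.U p = dlt T.a • (1 : R) := by
  rw [T.loop, Algebra.algebraMap_eq_smul_one]

private theorem sig_sig_U (s : Bool) (p q : ℕ) (h : T.C p * T.U q = 1) (h' : T.C q * T.U p = 1) :
    T.sig s p * T.sig s q * T.U p = T.U q := by
  have e := T.zp_mul s
  rw [mul_assoc, T.sig_U s q p 1 (by rw [h', one_smul]), mul_add, mul_smul_comm, mul_smul_comm,
    T.sig_U s p p _ (T.loop' p), T.sig_U s p q 1 (by rw [h, one_smul]), T.dlt_eq s]
  match_scalars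
  · linear_combination (-zp T.a s ^ 2 - zp T.a (!s) ^ 2) * e
  · linear_combination e

private theorem C_sig_sig (s : Bool) (p q : ℕ) (h : T.C p * T.U q = 1) (h' : T.C q * T.U p = 1) :
    T.C p * T.sig s q * T.sig s p = T.C q := by
  have e := T.zp_mul s
  rw [T.C_sig s q p 1 (by rw [h, one_smul]), add_mul, smul_mul_assoc, smul_mul_assoc,
    T.C_sig s p p _ (T.loop' p), T.C_sig s p q 1 (by rw [h', one_smul]), T.dlt_eq s]
  match_scalars
  · linear_combination (-zp T.a s ^ 2 - zp T.a (!s) ^ 2) * e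
  · linear_combination e

theorem sig_mul_sig (s : Bool) (p : ℕ) : T.sig (!s) p * T.sig s p = 1 := by
  have e := T.zp_mul s
  nth_rewrite 2 [sig]
  rw [mul_add, mul_smul_comm, mul_smul_comm, mul_one, ← mul_assoc,
    T.sig_U (!s) p p _ (T.loop' p), sig, T.dlt_eq s, Bool.not_not, add_mul, smul_mul_assoc,
    smul_mul_assoc]
  match_scalars
  · linear_combination e
  · linear_combination (-zp T.a s ^ 2 - zp T.a (!s) ^ 2) * e

theorem crC_zero_left (s : Bool) (n p : ℕ) : T.crC s 0 n p = 1 := by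
  induction n generalizing p with
  | zero => rfl
  | succ n ih => rw [crC, ih, X, one_mul]

theorem crC_one_right (s : Bool) (m p : ℕ) : T.crC s m 1 p = T.X s m p := by
  rw [crC, crC, one_mul]

theorem crC_one_one (s : Bool) (p : ℕ) : T.crC s 1 1 p = T.sig s p := by
  rw [crC_one_right, X, X, mul_one]

private theorem X_add (s : Bool) (m n p : ℕ) :
    T.X s (m + n) p = T.X s m p * T.X s n (p + m) := by
  induction m generalizing p with
  | zero => simp [X]
  | succ m ih =>
    rw [show m + 1 + n = (m + n) + 1 by omega, X, ih, X, mul_assoc,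
      show p + 1 + m = p + (m + 1) by omega]

theorem hexL (s : Bool) (m₁ m₂ n p : ℕ) :
    T.crC s (m₁ + m₂) n p = T.crC s m₁ n p * T.crC s m₂ n (p + m₁) := by
  induction n generalizing p with
  | zero => simp [crC]
  | succ n ih =>
    have h := (T.loc_X s m₁).far' (T.loc_crC s m₂ n) p (p + m₁ + 1) (p + m₁ + 1) (by omega)
      (by omega)
    rw [crC, crC, crC, ih, X_add, show p + 1 + m₁ = p + m₁ + 1 by omega, mul_assoc,
      ← mul_assoc (T.crC s m₂ n _), ← h]
    simp only [mul_assoc]

theorem hexR (s : Bool) (m n₁ n₂ p : ℕ) :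
    T.crC s m (n₁ + n₂) p = T.crC s m n₂ (p + n₁) * T.crC s m n₁ p := by
  induction n₁ generalizing p with
  | zero => simp [crC]
  | succ n ih =>
    rw [show n + 1 + n₂ = (n + n₂) + 1 by omega, crC, ih, crC, mul_assoc,
      show p + 1 + n = p + (n + 1) by omega]

private theorem r2X (s : Bool) (m p : ℕ) : T.crC (!s) 1 m p * T.X s m p = 1 := by
  induction m generalizing p with
  | zero => simp [crC, X]
  | succ m ih =>
    rw [crC, X, X, X, mul_one, mul_assoc, ← mul_assoc (T.sig _ _), sig_mul_sig, one_mul, ih]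

theorem r2C (s : Bool) (m n p : ℕ) : T.crC (!s) n m p * T.crC s m n p = 1 := by
  induction n generalizing p with
  | zero => rw [crC_zero_left, crC, one_mul]
  | succ n ih =>
    rw [crC, add_comm n 1, hexL, mul_assoc, ← mul_assoc (T.crC _ n m _), ih, one_mul, r2X]

private theorem X_split (s : Bool) (j r p : ℕ) : T.X s (j + r + 2) p =
    T.X s j p * (T.sig s (p + j) * T.sig s (p + j + 1)) * T.X s r (p + j + 2) := by
  rw [show j + r + 2 = j + (r + 2) by omega, X_add, X, X]
  simp only [mul_assoc]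

private theorem crC_split (s : Bool) (j r p : ℕ) : T.crC s 1 (j + r + 2) p =
    T.crC s 1 r (p + j + 2) * (T.sig s (p + j + 1) * T.sig s (p + j)) * T.crC s 1 j p := by
  rw [show j + r + 2 = j + (r + 2) by omega, hexR, crC, crC, X, X, X, X]
  simp only [mul_assoc, mul_one]

variable {T}

private theorem Loc.natX {m n : ℕ} {x : ℕ → R} (hx : T.Loc m n x) (s : Bool) (p : ℕ) :
    T.X s n p * x p = x (p + 1) * T.X s m p := by
  induction hx with
  | one => simp
  | U m j hj =>
    obtain ⟨r, rfl⟩ := Nat.exists_eq_add_of_le hj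
    have h₁ := T.loc_U.far' (T.loc_X s r) (p + j) (p + j) (p + j + 2) (by omega) (by omega)
    have h₂ := (T.loc_X s j).far' T.loc_U p (p + j + 1) (p + 1 + j) (by omega) (by omega)
    have h₃ := T.sig_sig_U s (p + j) (p + j + 1) (T.zag _) (T.zig _)
    beta_reduce
    rw [X_split, mul_assoc, ← h₁, ← mul_assoc, mul_assoc (T.X s j p), h₃, h₂, X_add, mul_assoc]
  | C m j hj =>
    obtain ⟨r, rfl⟩ := Nat.exists_eq_add_of_le hj
    have h₁ := T.loc_C.far' (T.loc_X s r) (p + j) (p + j + 2) (p + j) (by omega) (by omega)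
    have h₂ := (T.loc_X s j).far' T.loc_C p (p + j + 1) (p + 1 + j) (by omega) (by omega)
    have h₃ := T.C_sig_sig s (p + j + 1) (p + j) (T.zig _) (T.zag _)
    beta_reduce
    rw [X_split, X_add, mul_assoc, ← h₁, ← h₃]
    simp only [← mul_assoc, h₂]
  | mul _ _ ih₁ ih₂ => rw [← mul_assoc, ih₁, mul_assoc, ih₂, mul_assoc]
  | add _ _ ih₁ ih₂ => rw [mul_add, add_mul, ih₁, ih₂]
  | smul c _ ih => rw [mul_smul_comm, smul_mul_assoc, ih]
  | zero => simp

private theorem Loc.natY {m n : ℕ} {x : ℕ → R} (hx : T.Loc m n x) (s : Bool) (p : ℕ) :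
    T.crC s 1 n p * x (p + 1) = x p * T.crC s 1 m p := by
  induction hx with
  | one => simp
  | U m j hj =>
    obtain ⟨r, rfl⟩ := Nat.exists_eq_add_of_le hj
    have h₁ := T.loc_U.far' (T.loc_crC s 1 r) (p + j) (p + j) (p + j + 2) (by omega) (by omega)
    have h₂ := (T.loc_crC s 1 j).far' T.loc_U p (p + 1 + j) (p + j + 1) (by omega) (by omega)
    have h₃ := T.sig_sig_U s (p + j + 1) (p + j) (T.zig _) (T.zag _)
    beta_reduce
    rw [crC_split, mul_assoc, h₂, ← mul_assoc, mul_assoc (T.crC s 1 r _), h₃, ← h₁, hexR,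
      mul_assoc]
  | C m j hj =>
    obtain ⟨r, rfl⟩ := Nat.exists_eq_add_of_le hj
    have h₁ := T.loc_C.far' (T.loc_crC s 1 r) (p + j) (p + j + 2) (p + j) (by omega) (by omega)
    have h₂ := (T.loc_crC s 1 j).far' T.loc_C p (p + 1 + j) (p + j + 1) (by omega) (by omega)
    have h₃ := T.C_sig_sig s (p + j) (p + j + 1) (T.zag _) (T.zig _)
    beta_reduce
    rw [crC_split, hexR, mul_assoc, h₂, ← h₃]
    simp only [← mul_assoc, h₁]
  | mul _ _ ih₁ ih₂ => rw [← mul_assoc, ih₁, mul_assoc, ih₂, mul_assoc]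
  | add _ _ ih₁ ih₂ => rw [mul_add, add_mul, ih₁, ih₂]
  | smul c _ ih => rw [mul_smul_comm, smul_mul_assoc, ih]
  | zero => simp

theorem Loc.natL {m n : ℕ} {x : ℕ → R} (hx : T.Loc m n x) (s : Bool) (k p : ℕ) :
    T.crC s n k p * x p = x (p + k) * T.crC s m k p := by
  induction k generalizing p with
  | zero => simp [crC]
  | succ k ih =>
    rw [crC, crC, mul_assoc, hx.natX, ← mul_assoc, ih, mul_assoc,
      show p + 1 + k = p + (k + 1) by omega]

theorem Loc.natR {m n : ℕ} {x : ℕ → R} (hx : T.Loc m n x) (s : Bool) (k p : ℕ) :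
    T.crC s k n p * x (p + k) = x p * T.crC s k m p := by
  induction k generalizing p with
  | zero => simp [crC_zero_left]
  | succ k ih =>
    rw [add_comm k 1, hexL, hexL, ← add_assoc, mul_assoc, ih, ← mul_assoc, hx.natY, mul_assoc]

variable (T)

theorem cupSlC (s : Bool) (k n p : ℕ) :
    T.crC s k n p * T.cupC n (p + k) = T.crC (!s) n k (p + n) * T.cupC n p := by
  have h := (T.loc_cupC n).natR s k p
  rw [hexR, crC, mul_one] at h
  rw [← h, ← mul_assoc, ← mul_assoc, r2C, one_mul]

theorem capSlC (s : Bool) (k n p : ℕ) :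
    T.capC n (p + k) * T.crC s n k p = T.capC n p * T.crC (!s) k n (p + n) := by
  have h := (T.loc_capC n).natL s k p
  have h' := T.r2C (!s) k n (p + n)
  rw [hexL, crC_zero_left, one_mul] at h
  rw [Bool.not_not] at h'
  rw [h, mul_assoc, mul_assoc, h', mul_one]

theorem r3C (a b c : Bool) (h : a = b ∨ b = c) (x y z p : ℕ) :
    T.crC c y z p * T.crC b x z (p + y) * T.crC a x y p =
      T.crC a x y (p + z) * T.crC b x z p * T.crC c y z (p + x) := by
  rcases h with rfl | rfl
  · rw [mul_assoc, ← hexR, ← hexR, (T.loc_crC c y z).natR]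
  · rw [← hexL, (T.loc_crC a x y).natL, hexL, mul_assoc]

end TL

end Pool.Agent.P.MP_ac4909_gt
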