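import Pool.Agent.P.MP_ac4909_gt.TLDefs

/-! Elementary facts on rows and words. -/

namespace Pool.Agent.P.MP_ac4909_gt

open Rev

variable {α β : Type}

@[simp] theorem wid_nil (n : α → ℕ) : wid n [] = 0 := rfl

@[simp] theorem wid_cons (n : α → ℕ) (x : α) (l : List α) : wid n (x :: l) = n x + wid n l := by
  simp [wid]

@[simp] theorem wid_append (n : α → ℕ) (l r : List α) :
    wid n (l ++ r) = wid n l + wid n r := by
  simp [wid]

theorem wid_map (n : β → ℕ) (φ : α → β) (l : List α) :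
    wid n (l.map φ) = wid (fun x => n (φ x)) l := by
  simp [wid, List.map_map, Function.comp_def]

theorem run_nil [Rev α] {ρ ρ' : List α} : Run ρ [] ρ' ↔ ρ = ρ' := Iff.rfl

theorem run_cons [Rev α] {ρ ρ' : List α} {s : Sl α} {w : List (Sl α)} :
    Run ρ (s :: w) ρ' ↔ ρ = s.src ∧ Run s.tgt w ρ' := Iff.rfl

theorem run_append [Rev α] {ρ ρ' : List α} {u w : List (Sl α)} :
    Run ρ (u ++ w) ρ' ↔ ∃ σ, Run ρ u σ ∧ Run σ w ρ' := by
  induction u generalizing ρ with
  | nil => simp [run_nil]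
  | cons s u ih =>
    simp only [List.cons_append, run_cons, ih]
    constructor
    · rintro ⟨h, σ, h₁, h₂⟩; exact ⟨σ, ⟨h, h₁⟩, h₂⟩
    · rintro ⟨σ, ⟨h, h₁⟩, h₂⟩; exact ⟨h, σ, h₁, h₂⟩

theorem Run.unique [Rev α] {ρ σ σ' : List α} {w : List (Sl α)} (h : Run ρ w σ)
    (h' : Run ρ w σ') : σ = σ' := by
  induction w generalizing ρ with
  | nil => exact h.symm.trans h'
  | cons s w ih => exact ih h.2 h'.2

theorem Sl.src_map [Rev α] [Rev β] (φ : α → β) (hφ : ∀ x, φ (rev x) = rev (φ x)) (s : Sl α) :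
    (s.map φ).src = s.src.map φ := by
  obtain ⟨l, g, r⟩ := s
  cases g <;> simp [Sl.map, Sl.src, Gen.map, Gen.src, hφ]

theorem Sl.tgt_map [Rev α] [Rev β] (φ : α → β) (hφ : ∀ x, φ (rev x) = rev (φ x)) (s : Sl α) :
    (s.map φ).tgt = s.tgt.map φ := by
  obtain ⟨l, g, r⟩ := s
  cases g <;> simp [Sl.map, Sl.tgt, Gen.map, Gen.tgt, hφ]

theorem Run.map [Rev α] [Rev β] (φ : α → β) (hφ : ∀ x, φ (rev x) = rev (φ x)) {ρ ρ' : List α}
    {w : List (Sl α)} (h : Run ρ w ρ') : Run (ρ.map φ) (w.map (Sl.map φ)) (ρ'.map φ) := by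
  induction w generalizing ρ with
  | nil => exact congrArg _ h
  | cons s w ih =>
    refine ⟨?_, ?_⟩
    · rw [Sl.src_map φ hφ, h.1]
    · rw [Sl.tgt_map φ hφ]; exact ih h.2

@[simp] theorem rev_none [Rev α] : rev (none : Option α) = none := rfl

@[simp] theorem rev_some [Rev α] (x : α) : rev (some x) = some (rev x) := rfl

@[simp] theorem rev_pair [Rev α] (x : α) (n : ℕ) : rev (x, n) = (rev x, n) := rfl

@[simp] theorem rev_arc {ι : Type} (i : ι) (b : Bool) : rev (Arc.mk i b) = ⟨i, !b⟩ := rfl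

@[simp] theorem rev_name {ι : Type} (a : Arc ι) : (rev a).name = a.name := rfl

@[simp] theorem rev_up {ι : Type} (a : Arc ι) : (rev a).up = !a.up := rfl

end Pool.Agent.P.MP_ac4909_gt
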