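import Pool.Agent.P.MP_ac4909_gt.JW
import Pool.Agent.P.MP_ac4909_gt.TLNat
import Pool.Agent.P.MP_ac4909_gt.Words

/-! Basic properties of coloured evaluation; the transfer lemma. -/

namespace Pool.Agent.P.MP_ac4909_gt

open Rev

variable {K : Type} [Field K] {R : Type} [Ring R] [Algebra K R] {α β ι : Type}

theorem row_append (n : α → ℕ) (I : α → ℕ → R) (l r : List α) (p : ℕ) :
    row n I (l ++ r) p = row n I l p * row n I r (p + wid n l) := by
  induction l generalizing p with
  | nil => simp [row]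
  | cons x l ih => simp only [List.cons_append, row, ih, wid_cons, mul_assoc, add_assoc]

theorem row_eq_zero (n : α → ℕ) (I : α → ℕ → R) {ρ : List α} {x : α} (hx : x ∈ ρ)
    (h0 : ∀ p, I x p = 0) (p : ℕ) : row n I ρ p = 0 := by
  obtain ⟨l, r, rfl⟩ := List.append_of_mem hx
  simp [row_append, row, h0]

namespace TL
variable {T : TL K R}

theorem loc_row {n n' : α → ℕ} {I : α → ℕ → R} (h : ∀ x, T.Loc (n x) (n' x) (I x))
    (ρ : List α) : T.Loc (wid n ρ) (wid n' ρ) (row n I ρ) := by
  induction ρ with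
  | nil => exact Loc.one 0
  | cons x ρ ih => rw [wid_cons, wid_cons]; exact (h x).tens ih

/-- rows multiply strand by strand -/
theorem row_mul_row {n n' n'' : α → ℕ} {I I' : α → ℕ → R} (h : ∀ x, T.Loc (n x) (n' x) (I x))
    (h' : ∀ x, T.Loc (n' x) (n'' x) (I' x)) (ρ : List α) (p : ℕ) :
    row n' I' ρ p * row n I ρ p = row n (fun x q => I' x q * I x q) ρ p := by
  induction ρ generalizing p with
  | nil => simp [row]
  | cons x ρ ih =>
    have := (h x).far' (loc_row h' ρ) p (p + n x) (p + n' x) le_rfl (by omega)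
    simp only [row, ← ih]
    rw [mul_assoc, ← mul_assoc (row n' I' ρ _), ← this]
    simp only [mul_assoc]

theorem ev_append (T : TL K R) (c : Col α R) (u w : List (Sl α)) :
    T.ev c (u ++ w) = T.ev c w * T.ev c u := by
  induction u with
  | nil => simp [ev]
  | cons s u ih => simp only [List.cons_append, ev, ih, mul_assoc]

theorem ev_map (T : TL K R) (c : Col β R) (φ : α → β) (w : List (Sl α)) :
    T.ev c (w.map (Sl.map φ)) = T.ev (c.comap φ) w := by
  induction w with
  | nil => rfl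
  | cons s w ih =>
    obtain ⟨l, g, r⟩ := s
    simp only [List.map_cons, ev, ih, val, Sl.map, wid_map]
    cases g <;> rfl

theorem ev_lift (T : TL K R) (c : Col α R) (L : List (Sl α)) :
    T.ev c.opt (lift L) = T.ev c L := T.ev_map c.opt some L

variable [Rev α] {c c' : Col α R} {I P : α → ℕ → R}

theorem Good.loc_gval (hc : T.Good c) (g : Gen α) :
    T.Loc (wid c.n g.src) (wid c.n g.tgt) (T.gval c g) := by
  rcases g with o | o | ⟨x, y, s⟩
  · exact (Loc.mul ((hc.loc o).padR (c.n o)) (T.loc_cupC (c.n o))).cast rfl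
      (by simp [Gen.tgt, hc.n_rev]) fun _ => rfl
  · exact (Loc.mul (T.loc_capC (c.n o)) ((hc.loc o).padR (c.n o))).cast
      (by simp [Gen.src, hc.n_rev]) rfl fun _ => rfl
  · exact (T.loc_crC s (c.n x) (c.n y)).cast (by simp [Gen.src]) (by simp [Gen.tgt]) fun _ => rfl

theorem Good.iso_self (hc : T.Good c) : T.Iso c c c.F c.F :=
  ⟨hc.loc, hc.loc, hc.idem, hc.idem, hc.idem, hc.idem, hc.rot⟩

theorem Iso.ev_gval (h : T.Iso c c' I P) (hc : T.Good c) (hc' : T.Good c') (g : Gen α) (p : ℕ) :
    T.gval c g p * row c'.n I g.src p = row c'.n I g.tgt p * T.gval c' g p := by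
  rcases g with o | o | ⟨x, y, s⟩ <;> simp only [gval, Gen.src, Gen.tgt, row, mul_one, one_mul]
  · have h1 := (hc'.loc o).far' (h.locI (rev o)) p (p + c'.n o) (p + c'.n o) le_rfl rfl
    rw [mul_assoc, ← mul_assoc (I (rev o) _), ← h1, mul_assoc, ← h.rot o p, ← mul_assoc,
      h.IF, ← mul_assoc, h.IP]
  · have h1 := (h.locI o).far' (h.locI (rev o)) p (p + c'.n o) (p + c.n o) le_rfl (by omega)
    have h2 := (h.rot o).cap' (h.locP o)
      ((h.locI (rev o)).cast (hc'.n_rev o) (hc.n_rev o) fun _ => rfl) p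
    have h3 : c.F o p * I o p = I o p := by rw [← h.IP, mul_assoc, h.PI, h.IF]
    rw [mul_assoc, ← mul_assoc (c.F o p), h3, h1, ← mul_assoc, h2, mul_assoc, h.PI]
  · have h1 := (h.locI y).far' (h.locI x) p (p + c'.n y) (p + c.n y) le_rfl (by omega)
    rw [← mul_assoc, (h.locI x).natL, mul_assoc, (h.locI y).natR, h1, mul_assoc]

/-- transfer lemma -/
theorem Iso.transfer (h : T.Iso c c' I P) (hc : T.Good c) (hc' : T.Good c') {ρ ρ' : List α}
    {w : List (Sl α)} (hw : Run ρ w ρ') :
    T.ev c w * row c'.n I ρ 0 = row c'.n I ρ' 0 * T.ev c' w := by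
  induction w generalizing ρ with
  | nil => rw [show ρ = ρ' from hw, ev, ev, one_mul, mul_one]
  | cons s w ih =>
    obtain ⟨rfl, h2⟩ := hw
    rw [ev, ev, ← mul_assoc, ← ih h2, mul_assoc, mul_assoc]
    congr 1
    obtain ⟨l, g, r⟩ := s
    have h3 := (loc_row h.locI l).far' (hc.loc_gval g) 0 (wid c'.n l) (wid c.n l) (by omega)
      (by omega)
    have h4 := (hc'.loc_gval g).far' (loc_row h.locI r) (wid c'.n l) (wid c'.n l + wid c'.n g.src)
      (wid c'.n l + wid c'.n g.tgt) le_rfl (by omega)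
    simp only [val, Sl.src, Sl.tgt, row_append, wid_append, zero_add]
    rw [← mul_assoc, ← mul_assoc, ← h3, mul_assoc (row c'.n I l 0), h.ev_gval hc hc', mul_assoc,
      mul_assoc, h4]
    simp only [mul_assoc]

theorem Iso.ev_eq (h : T.Iso c c' I P) (hc : T.Good c) (hc' : T.Good c')
    {w : List (Sl α)} (hw : Run [] w []) : T.ev c w = T.ev c' w := by
  simpa [row] using h.transfer hc hc' hw

theorem Good.row_idem (hc : T.Good c) (ρ : List α) (p : ℕ) :
    row c.n c.F ρ p * row c.n c.F ρ p = row c.n c.F ρ p := by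
  simp only [row_mul_row hc.loc hc.loc, hc.idem]

theorem Good.row_mul_ev (hc : T.Good c) {ρ : List α} {w : List (Sl α)} (hw : Run [] w ρ) :
    row c.n c.F ρ 0 * T.ev c w = T.ev c w := by
  simpa [row] using (hc.iso_self.transfer hc hc hw).symm

theorem Good.ev_mul_row (hc : T.Good c) {ρ : List α} {w : List (Sl α)} (hw : Run ρ w []) :
    T.ev c w * row c.n c.F ρ 0 = T.ev c w := by
  simpa [row] using hc.iso_self.transfer hc hc hw

/-- the idempotent of a single strand of the top row is absorbed -/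
theorem Good.F_mul_ev (hc : T.Good c) {l r : List α} {x : α} {w : List (Sl α)}
    (hw : Run [] w (l ++ x :: r)) : c.F x (wid c.n l) * T.ev c w = T.ev c w := by
  have h1 := (loc_row hc.loc l).far' (hc.loc x) 0 (wid c.n l) (wid c.n l) (by omega) rfl
  have h2 : c.F x (wid c.n l) * row c.n c.F (l ++ x :: r) 0 = row c.n c.F (l ++ x :: r) 0 := by
    rw [row_append, row, zero_add, ← mul_assoc, ← h1, mul_assoc, ← mul_assoc (c.F x _), hc.idem]
  rw [← hc.row_mul_ev hw, ← mul_assoc, h2]

/-- the idempotent of a single strand of the bottom row is absorbed -/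
theorem Good.ev_mul_F (hc : T.Good c) {l r : List α} {x : α} {w : List (Sl α)}
    (hw : Run (l ++ x :: r) w []) : T.ev c w * c.F x (wid c.n l) = T.ev c w := by
  have h1 := (hc.loc x).far' (loc_row hc.loc r) (wid c.n l) (wid c.n l + c.n x)
    (wid c.n l + c.n x) le_rfl rfl
  have h2 : row c.n c.F (l ++ x :: r) 0 * c.F x (wid c.n l) = row c.n c.F (l ++ x :: r) 0 := by
    rw [row_append, row, zero_add, mul_assoc, mul_assoc, ← h1, ← mul_assoc (c.F x _), hc.idem]
  rw [← hc.ev_mul_row hw, mul_assoc, h2]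

theorem Good.opt (hc : T.Good c) : T.Good c.opt := by
  refine ⟨?_, ?_, ?_, ?_⟩ <;> rintro (_ | x)
  exacts [rfl, hc.n_rev x, Loc.one 1, hc.loc x, fun _ => one_mul _, hc.idem x, T.rot_one 1,
    hc.rot x]

theorem good_plain (T : TL K R) (n : α → ℕ) (hn : ∀ x, n (rev x) = n x) :
    T.Good (Col.plain n : Col α R) :=
  ⟨hn, fun _ => Loc.one _, fun _ _ => one_mul _, fun _ => T.rot_one _⟩

theorem good_jcA (T : TL K R) {m : ι → ℕ} (j : ι → ℕ) (sd : ι → Bool) (h : ∀ i, Adm T.a (m i)) :
    T.Good (T.jcA m j sd) := by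
  refine ⟨fun _ => rfl, fun a => ?_, fun a p => ?_, fun a => ?_⟩
  · by_cases e : a.up = sd a.name
    · exact ((T.loc_f _).padR (j a.name)).cast rfl rfl fun p => by simp [jcA, e]
    · exact ((T.loc_f _).padL (j a.name)).cast (add_comm _ _) (add_comm _ _)
        fun p => by simp [jcA, e]
  · simp only [jcA]
    split_ifs <;> exact T.f_idem (h _) _
  · by_cases e : a.up = sd a.name
    · simpa [jcA, e] using (T.rot_f (h a.name)).pad (T.loc_f _) (T.loc_f _) (j a.name)
    · have e' : (!a.up) = sd a.name := by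
        revert e; cases a.up <;> cases sd a.name <;> simp
      simpa only [jcA, e, rev_up, rev_name, e', if_true, if_false] using
        (T.rot_f (h a.name)).pad' (T.loc_f _) (T.loc_f _) (j a.name)

theorem good_jc (T : TL K R) {m : ι → ℕ} (j : ι → ℕ) (sd : ι → Bool) (h : ∀ i, Adm T.a (m i)) :
    T.Good (T.jc m j sd) := (T.good_jcA j sd h).opt

end TL

end Pool.Agent.P.MP_ac4909_gt
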