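import Pool.Agent.P.MP_ac4909_gt.Words

/-! Refinements of a word of slices by marks in `ℕ` that are constant along strands. -/

namespace Pool.Agent.P.MP_ac4909_gt

open Rev

variable {α ι : Type}

/-- every cup labelled `o` has its mark in `A o` -/
def Allowed (A : α → Finset ℕ) (w : List (Sl (α × ℕ))) : Prop :=
  ∀ s ∈ w, ∀ o n, s.g = .cup (o, n) → n ∈ A o

/-- the top row of a word that starts at `ρ` -/
def endRow [Rev α] : List α → List (Sl α) → List α
  | ρ, [] => ρ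
  | _, s :: w => endRow s.tgt w

theorem Run.eq_endRow [Rev α] {ρ ρ' : List α} {w : List (Sl α)} (h : Run ρ w ρ') :
    ρ' = endRow ρ w := by
  induction w generalizing ρ with
  | nil => exact h.symm
  | cons s w ih => exact ih h.2

def RefSet [Rev α] (A : α → Finset ℕ) (w : List (Sl α)) (ρ : List (α × ℕ)) :
    Set (List (Sl (α × ℕ))) :=
  {w' | w'.map (Sl.map Prod.fst) = w ∧ (∃ σ, Run ρ w' σ) ∧ Allowed A w'}

theorem ref_cons [Rev α] {A : α → Finset ℕ} {s : Sl α} {w : List (Sl α)} {ρ : List (α × ℕ)}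
    {w' : List (Sl (α × ℕ))} : w' ∈ RefSet A (s :: w) ρ ↔ ∃ s' w'', w' = s' :: w'' ∧
      (s'.map Prod.fst = s ∧ ρ = s'.src ∧ ∀ o n, s'.g = .cup (o, n) → n ∈ A o) ∧
      w'' ∈ RefSet A w s'.tgt := by
  constructor
  · rintro ⟨h1, ⟨σ, h2⟩, h3⟩
    obtain ⟨s', w'', rfl, h4, h5⟩ := List.map_eq_cons_iff.1 h1
    exact ⟨s', w'', rfl, ⟨h4, h2.1, h3 s' List.mem_cons_self⟩, h5, ⟨σ, h2.2⟩,
      fun t ht => h3 t (List.mem_cons_of_mem _ ht)⟩
  · rintro ⟨s', w'', rfl, ⟨h1, h2, h3⟩, h4, ⟨σ, h5⟩, h6⟩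
    exact ⟨by rw [List.map_cons, h1, h4], ⟨σ, h2, h5⟩, List.forall_mem_cons.2 ⟨h3, h6⟩⟩

/-- the mark of a cup -/
def refCm (s : Sl (α × ℕ)) : ℕ :=
  match s.g with
  | .cup x => x.2
  | _ => 0

theorem ref_unique [Rev α] {s t : Sl (α × ℕ)} (h1 : s.map Prod.fst = t.map Prod.fst)
    (h2 : s.src = t.src) (h3 : refCm s = refCm t) : s = t := by
  obtain ⟨l, g, r⟩ := s
  obtain ⟨l', g', r'⟩ := t
  simp only [Sl.map, Sl.mk.injEq] at h1
  have hl : l.length = l'.length := by simpa using congrArg List.length h1.1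
  simp only [Sl.src, List.append_assoc] at h2
  obtain ⟨rfl, h4⟩ := List.append_inj h2 hl
  have h5 := h1.2.1
  cases g <;> cases g' <;> simp only [Gen.map, reduceCtorEq, Gen.cup.injEq, Gen.cr.injEq] at h5 <;>
    simp_all [Gen.src, refCm, Prod.ext_iff]

theorem refSet_finite [Rev α] (A : α → Finset ℕ) (w : List (Sl α)) (ρ : List (α × ℕ)) :
    (RefSet A w ρ).Finite := by
  induction w generalizing ρ with
  | nil => exact (Set.finite_singleton []).subset fun w' h => List.map_eq_nil_iff.1 h.1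
  | cons s w ih =>
    have h1 : {s' : Sl (α × ℕ) | s'.map Prod.fst = s ∧ ρ = s'.src ∧
        ∀ o n, s'.g = .cup (o, n) → n ∈ A o}.Finite := by
      obtain ⟨T, hT⟩ : ∃ T : Finset ℕ, ∀ o, s.g = .cup o → A o ⊆ T := by
        rcases hg : s.g with o | o | _
        · exact ⟨A o, fun o' h => by cases h; exact subset_rfl⟩
        · exact ⟨∅, fun o' h => by cases h⟩
        · exact ⟨∅, fun o' h => by cases h⟩
      refine Set.Finite.of_injOn (f := refCm) (t := insert 0 T) ?_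
        (fun a ha b hb h => ref_unique (ha.1.trans hb.1.symm) (ha.2.1.symm.trans hb.2.1) h)
        (T.finite_toSet.insert 0)
      rintro ⟨l, g, r⟩ ⟨h1, -, h2⟩
      rcases g with ⟨o, n⟩ | o | _
      · exact Or.inr (hT o (by rw [← h1]; rfl) (h2 o n rfl))
      · exact Or.inl rfl
      · exact Or.inl rfl
    refine (h1.biUnion fun s' _ => (ih s'.tgt).image (s' :: ·)).subset fun w' h => ?_
    obtain ⟨s', w'', rfl, h2, h3⟩ := ref_cons.1 h
    exact Set.mem_biUnion h2 ⟨w'', h3, rfl⟩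

/-- the allowed marked words over `w` that start at the marked row `ρ` -/
noncomputable def Ref [Rev α] (A : α → Finset ℕ) (w : List (Sl α)) (ρ : List (α × ℕ)) :
    Finset (List (Sl (α × ℕ))) := (refSet_finite A w ρ).toFinset

section
variable [Rev α] (A : α → Finset ℕ) {M : Type} [AddCommMonoid M]

theorem mem_Ref {w : List (Sl α)} {ρ : List (α × ℕ)} {w' : List (Sl (α × ℕ))} :
    w' ∈ Ref A w ρ ↔ w'.map (Sl.map Prod.fst) = w ∧ (∃ σ, Run ρ w' σ) ∧ Allowed A w' :=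
  Set.Finite.mem_toFinset _

theorem Ref_nil (ρ : List (α × ℕ)) : Ref A [] ρ = {[]} := by
  ext w'
  rw [mem_Ref, Finset.mem_singleton, List.map_eq_nil_iff]
  exact ⟨fun h => h.1, by rintro rfl; exact ⟨rfl, ⟨ρ, rfl⟩, fun s hs => by cases hs⟩⟩

theorem ref_sum {κ : Type} (g : List (Sl (α × ℕ)) → M) (s : Sl α) (w : List (Sl α))
    (ρ : List (α × ℕ)) (T : Finset κ) (φ : κ → Sl (α × ℕ)) (hφ : Function.Injective φ)
    (h : ∀ s', (s'.map Prod.fst = s ∧ ρ = s'.src ∧ ∀ o n, s'.g = .cup (o, n) → n ∈ A o) ↔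
      ∃ t ∈ T, φ t = s') :
    ∑ w' ∈ Ref A (s :: w) ρ, g w' = ∑ t ∈ T, ∑ w' ∈ Ref A w (φ t).tgt, g (φ t :: w') := by
  rw [Finset.sum_sigma']
  symm
  refine Finset.sum_bij (fun x _ => φ x.1 :: x.2) (fun x hx => ?_) (fun x _ y _ e => ?_)
    (fun w' hw' => ?_) fun _ _ => rfl
  · obtain ⟨h1, h2⟩ := Finset.mem_sigma.1 hx
    exact (Set.Finite.mem_toFinset _).2 (ref_cons.2 ⟨_, _, rfl, (h _).2 ⟨_, h1, rfl⟩,
      (Set.Finite.mem_toFinset _).1 h2⟩)
  · obtain ⟨e1, e2⟩ := List.cons.inj e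
    exact Sigma.ext (hφ e1) (heq_of_eq e2)
  · obtain ⟨s', w'', rfl, h2, h3⟩ := ref_cons.1 ((Set.Finite.mem_toFinset _).1 hw')
    obtain ⟨t, ht, rfl⟩ := (h s').1 h2
    exact ⟨⟨t, w''⟩, Finset.mem_sigma.2 ⟨ht, (Set.Finite.mem_toFinset _).2 h3⟩, rfl⟩

theorem sum_Ref_cup (g : List (Sl (α × ℕ)) → M) (l r : List (α × ℕ)) (o : α) (w : List (Sl α)) :
    ∑ w' ∈ Ref A (⟨l.map Prod.fst, .cup o, r.map Prod.fst⟩ :: w) (l ++ r), g w' =
      ∑ n ∈ A o, ∑ w' ∈ Ref A w (l ++ [(o, n), (rev o, n)] ++ r),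
        g (⟨l, .cup (o, n), r⟩ :: w') := by
  refine ref_sum A g _ w _ (A o) (fun n => ⟨l, .cup (o, n), r⟩) (fun a b e => by simpa using e)
    fun s' => ⟨fun ⟨h1, h2, h3⟩ => ?_, ?_⟩
  · obtain ⟨l', g', r'⟩ := s'
    have h4 := congrArg Sl.g h1
    rcases g' with ⟨o', n⟩ | _ | _ <;> cases h4
    exact ⟨n, h3 _ _ rfl, ref_unique h1.symm (by simpa [Sl.src, Gen.src] using h2) rfl⟩
  · rintro ⟨n, hn, rfl⟩
    exact ⟨rfl, by simp [Sl.src, Gen.src], fun o' n' e => by cases e; exact hn⟩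

theorem sum_Ref_cap (g : List (Sl (α × ℕ)) → M) (l r : List (α × ℕ)) (o : α) (n n' : ℕ)
    (w : List (Sl α)) :
    ∑ w' ∈ Ref A (⟨l.map Prod.fst, .cap o, r.map Prod.fst⟩ :: w)
        (l ++ [(o, n), (rev o, n')] ++ r), g w' =
      if n = n' then ∑ w' ∈ Ref A w (l ++ r), g (⟨l, .cap (o, n), r⟩ :: w') else 0 := by
  split_ifs with hn
  · subst hn
    refine (ref_sum A g _ w _ {()} (fun _ => ⟨l, .cap (o, n), r⟩) (fun a b _ => rfl)
      fun s' => ⟨?_, ?_⟩).trans (by simp [Sl.tgt, Gen.tgt])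
    · rintro ⟨h1, h2, h3⟩
      obtain ⟨l', g', r'⟩ := s'
      have h4 := congrArg Sl.g h1
      rcases g' with _ | _ | _ <;> cases h4
      exact ⟨(), by simp, ref_unique h1.symm h2 rfl⟩
    · rintro ⟨_, -, rfl⟩
      exact ⟨rfl, rfl, fun o' n' e => by cases e⟩
  · refine Finset.sum_eq_zero fun w' hw' => absurd ?_ hn
    obtain ⟨⟨l', g', r'⟩, w'', rfl, ⟨h1, h2, -⟩, -⟩ :=
      ref_cons.1 ((Set.Finite.mem_toFinset _).1 hw')
    have h4 := congrArg Sl.g h1
    have hl : l.length = l'.length := by simpa [Sl.map] using (congrArg (·.l.length) h1).symm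
    rcases g' with _ | ⟨o', m⟩ | _ <;> cases h4
    simp only [Sl.src, List.append_assoc] at h2
    have h5 := (List.append_inj h2 hl).2
    simp only [Gen.src, rev_pair, List.cons_append, List.cons.injEq, Prod.mk.injEq] at h5
    exact h5.1.2.trans h5.2.1.2.symm

theorem sum_Ref_cr (g : List (Sl (α × ℕ)) → M) (l r : List (α × ℕ)) (x y : α × ℕ) (s : Bool)
    (w : List (Sl α)) :
    ∑ w' ∈ Ref A (⟨l.map Prod.fst, .cr x.1 y.1 s, r.map Prod.fst⟩ :: w) (l ++ [x, y] ++ r),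
        g w' =
      ∑ w' ∈ Ref A w (l ++ [y, x] ++ r), g (⟨l, .cr x y s, r⟩ :: w') := by
  refine (ref_sum A g _ w _ {()} (fun _ => ⟨l, .cr x y s, r⟩) (fun a b _ => rfl)
    fun s' => ⟨?_, ?_⟩).trans (by simp [Sl.tgt, Gen.tgt])
  · rintro ⟨h1, h2, h3⟩
    obtain ⟨l', g', r'⟩ := s'
    have h4 := congrArg Sl.g h1
    rcases g' with _ | _ | _
    · cases h4
    · cases h4
    · exact ⟨(), by simp, ref_unique h1.symm h2 rfl⟩
  · rintro ⟨_, -, rfl⟩
    exact ⟨rfl, rfl, fun o' n' e => by cases e⟩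

theorem ref_pred (P : α → Prop) (hP : ∀ x, P x → P (rev x)) {ρ σ : List α} {w : List (Sl α)}
    (h : Run ρ w σ) (hw : ∀ s ∈ w, ∀ x, s.g = .cup x → P x) (hρ : ∀ x ∈ ρ, P x) :
    (∀ s ∈ w, (∀ x ∈ s.src, P x) ∧ ∀ x ∈ s.tgt, P x) ∧ ∀ x ∈ σ, P x := by
  induction w generalizing ρ with
  | nil => exact ⟨fun s hs => (by cases hs), (show ρ = σ from h) ▸ hρ⟩
  | cons s w ih =>
    obtain ⟨rfl, h2⟩ := h
    have h3 : ∀ x ∈ s.tgt, P x := by
      have h4 := hw s List.mem_cons_self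
      obtain ⟨l, g, r⟩ := s
      simp only [Sl.src, Sl.tgt, List.forall_mem_append] at hρ ⊢
      refine ⟨⟨hρ.1.1, ?_⟩, hρ.2⟩
      have h5 := hρ.1.2
      rcases g with o | o | _
      · simpa [Gen.tgt] using ⟨h4 o rfl, hP o (h4 o rfl)⟩
      · simp [Gen.tgt]
      · simpa [Gen.tgt, Gen.src, and_comm] using h5
    obtain ⟨h4, h5⟩ := ih h2 (fun t ht => hw t (List.mem_cons_of_mem _ ht)) h3
    exact ⟨List.forall_mem_cons.2 ⟨⟨hρ, h3⟩, h4⟩, h5⟩

/-- marks in the rows of an allowed word are allowed -/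
theorem Run.mark_mem (hA : ∀ x, A (rev x) = A x) {ρ σ : List (α × ℕ)} {w : List (Sl (α × ℕ))}
    (h : Run ρ w σ) (hw : Allowed A w) (hρ : ∀ x ∈ ρ, x.2 ∈ A x.1) : ∀ x ∈ σ, x.2 ∈ A x.1 :=
  (ref_pred (fun x : α × ℕ => x.2 ∈ A x.1) (fun x hx => (hA x.1).symm ▸ hx) h
    (fun s hs x e => hw s hs x.1 x.2 e) hρ).2

/-- parity: a class of labels closed under `rev` keeps its parity along a word -/
theorem Run.countP_mod_two {ρ σ : List α} {w : List (Sl α)} (h : Run ρ w σ) (P : α → Bool)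
    (hP : ∀ x, P (rev x) = P x) : ρ.countP P % 2 = σ.countP P % 2 := by
  induction w generalizing ρ with
  | nil => rw [show ρ = σ from h]
  | cons s w ih =>
    obtain ⟨rfl, h2⟩ := h
    rw [← ih h2]
    obtain ⟨l, g, r⟩ := s
    rcases g with o | o | _ <;>
      simp only [Sl.src, Sl.tgt, Gen.src, Gen.tgt, List.countP_append, List.countP_cons,
        List.countP_nil, hP] <;> (try split_ifs) <;> omega

end

/-- marking of `L ∪ J` by a function of the name, `0` on `J` -/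
def mark (g : ι → ℕ) (x : Option (Arc ι)) : Option (Arc ι) × ℕ := (x, x.elim 0 fun a => g a.name)

theorem ref_map_map {β γ : Type} (φ : α → β) (ψ : β → γ) (s : Sl α) :
    (s.map φ).map ψ = s.map (ψ ∘ φ) := by
  obtain ⟨l, g, r⟩ := s
  cases g <;> simp [Sl.map, Gen.map]

theorem ref_map_fix [Rev α] (φ : α → α) (s : Sl α) (h1 : ∀ x ∈ s.src, φ x = x)
    (h2 : ∀ x ∈ s.tgt, φ x = x) : s.map φ = s := by
  obtain ⟨l, g, r⟩ := s
  simp only [Sl.src, Sl.tgt, List.forall_mem_append] at h1 h2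
  have h3 := h1.1.2
  have h4 := h2.1.2
  simp only [Sl.map, Sl.mk.injEq]
  refine ⟨by simpa using List.map_congr_left (g := id) h1.1.1, ?_,
    by simpa using List.map_congr_left (g := id) h1.2⟩
  cases g <;> simp_all [Gen.map, Gen.src, Gen.tgt]

theorem ref_run_erase [Rev α] {ρ σ : List (Option α)} {w : List (Sl (Option α))}
    (h : Run ρ w σ) : Run ρ.reduceOption (erase w) σ.reduceOption := by
  induction w generalizing ρ with
  | nil => exact congrArg _ h
  | cons s w ih =>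
    obtain ⟨rfl, h2⟩ := h
    have h3 := ih h2
    obtain ⟨l, g, r⟩ := s
    rcases g with (_ | o) | (_ | o) | ⟨_ | x, _ | y, b⟩ <;>
      simpa [erase, Gen.erase, Sl.src, Sl.tgt, Gen.src, Gen.tgt, List.reduceOption_append,
        run_cons] using h3

theorem ref_erase_map {β : Type} (φ : α → β) (w : List (Sl (Option α))) :
    (erase w).map (Sl.map φ) = erase (w.map (Sl.map (Option.map φ))) := by
  induction w with
  | nil => rfl
  | cons s w ih =>
    obtain ⟨l, g, r⟩ := s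
    rcases g with (_ | o) | (_ | o) | ⟨_ | x, _ | y, b⟩ <;>
      simpa [erase, Gen.erase, Sl.map, Gen.map, List.reduceOption_map] using ih

theorem ref_mem_erase {w : List (Sl (Option α))} {o : α} :
    (∃ s ∈ erase w, s.g = .cup o) ↔ ∃ s ∈ w, s.g = .cup (some o) := by
  induction w with
  | nil => simp [erase]
  | cons s w ih =>
    obtain ⟨l, g, r⟩ := s
    rcases g with (_ | o) | (_ | o) | ⟨_ | x, _ | y, b⟩ <;>
      simp only [erase, Gen.erase, List.filterMap_cons, Option.map_none, Option.map_some,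
        List.mem_cons, exists_eq_or_imp, reduceCtorEq, Gen.cup.injEq, Option.some.injEq,
        false_or] <;>
      first | exact ih | exact or_congr Iff.rfl ih

theorem IsFramedLink.eq_map_mark {L : List (Sl (Arc ι))} (hL : IsFramedLink L) (D : Diagram L)
    (A : Option (Arc ι) → Finset ℕ) (hA : A none = {0})
    {D' : List (Sl (Option (Arc ι) × ℕ))} (h₁ : D'.map (Sl.map Prod.fst) = D.1)
    (h₂ : Run [] D' []) (h₃ : Allowed A D') : ∃ g : ι → ℕ, D' = D.1.map (Sl.map (mark g)) := by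
  let ψ : Option (Arc ι) × ℕ → Option (Arc ι × ℕ) := fun x => x.1.map (·, x.2)
  have h4 : Run [] (D'.map (Sl.map ψ)) [] := h₂.map ψ (by rintro ⟨_ | a, n⟩ <;> rfl)
  obtain ⟨g, hg⟩ := hL.2.2 _ (ref_run_erase h4) (by
    rw [ref_erase_map, List.map_map, ← D.2.2, ← h₁]
    congr 1
    refine List.map_congr_left fun s _ => ?_
    rw [Function.comp_apply, ref_map_map]
    congr 1
    funext ⟨x, n⟩
    cases x <;> rfl)
  refine ⟨g, ?_⟩
  have h5 := (ref_pred (fun x : Option (Arc ι) × ℕ => mark g x.1 = x) ?_ h₂ ?_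
    fun x hx => by cases hx).1
  · rw [← h₁, List.map_map]
    symm
    refine (List.map_congr_left (g := id) fun s hs => ?_).trans (List.map_id _)
    rw [Function.comp_apply, ref_map_map]
    exact ref_map_fix _ s (h5 s hs).1 (h5 s hs).2
  · rintro ⟨_ | a, n⟩ h <;> simpa [mark] using h
  · rintro s hs ⟨_ | a, n⟩ e
    · have := h₃ s hs _ _ e
      rw [hA, Finset.mem_singleton] at this
      rw [this]; rfl
    · obtain ⟨t, ht, e'⟩ := (ref_mem_erase (w := D'.map (Sl.map ψ)) (o := (a, n))).2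
        ⟨_, List.mem_map_of_mem hs, by simp only [Sl.map, e]; rfl⟩
      rw [hg] at ht
      obtain ⟨⟨l, g', r⟩, -, rfl⟩ := List.mem_map.1 ht
      cases g' <;> cases e'
      rfl

theorem IsFramedLink.exists_cup {L : List (Sl (Arc ι))} (hL : IsFramedLink L) (D : Diagram L)
    (i : ι) : ∃ w₁ w₂ l r b, D.1 = w₁ ++ ⟨l, .cup (some ⟨i, b⟩), r⟩ :: w₂ := by
  obtain ⟨s, hs, b, e⟩ := hL.2.1 i
  obtain ⟨⟨l, g, r⟩, ht, rfl⟩ := ref_mem_erase.1 ⟨s, D.2.2.symm ▸ hs, e⟩
  obtain ⟨w₁, w₂, h⟩ := List.append_of_mem ht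
  exact ⟨w₁, w₂, l, r, b, h⟩

theorem erase_append (u w : List (Sl (Option α))) : erase (u ++ w) = erase u ++ erase w :=
  List.filterMap_append

theorem erase_lift (L : List (Sl α)) : erase (lift L) = L := by
  induction L with
  | nil => rfl
  | cons s w ih =>
    obtain ⟨l, g, r⟩ := s
    cases g <;> simpa [erase, lift, Gen.erase, Sl.map, Gen.map, List.reduceOption] using ih

theorem run_lift [Rev α] {L : List (Sl α)} (h : Run [] L []) : Run [] (lift L) [] :=
  h.map some fun _ => rfl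

/-- the empty skein -/
def IsFramedLink.empty {L : List (Sl (Arc ι))} (hL : IsFramedLink L) : Diagram L :=
  ⟨lift L, run_lift hL.1, erase_lift L⟩

/-- the allowed closed refinements of a framed link are the markings by functions of the name -/
theorem IsFramedLink.sum_Ref [Fintype ι] [DecidableEq ι] {M : Type} [AddCommMonoid M]
    {L : List (Sl (Arc ι))} (hL : IsFramedLink L) (B : ι → Finset ℕ)
    (g : List (Sl (Arc ι × ℕ)) → M) :
    ∑ w' ∈ Ref (fun a : Arc ι => B a.name) L [], g w' =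
      ∑ u ∈ Fintype.piFinset B, g (L.map (Sl.map fun a => (a, u a.name))) := by
  symm
  refine Finset.sum_bij (fun u _ => L.map (Sl.map fun a => (a, u a.name))) (fun u hu => ?_)
    (fun u _ v _ e => funext fun i => ?_) (fun w' hw' => ?_) fun _ _ => rfl
  · refine (mem_Ref _).2 ⟨?_, ⟨_, hL.1.map (fun a : Arc ι => (a, u a.name)) fun _ => rfl⟩, ?_⟩
    · rw [List.map_map]
      refine (List.map_congr_left (g := id) fun s _ => ?_).trans (List.map_id _)
      rw [Function.comp_apply, ref_map_map]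
      exact ref_map_fix _ s (fun _ _ => rfl) fun _ _ => rfl
    · intro t ht o n e
      obtain ⟨⟨l, g', r⟩, -, rfl⟩ := List.mem_map.1 ht
      cases g' <;> cases e
      exact Fintype.mem_piFinset.1 hu _
  · obtain ⟨s, hs, b, h⟩ := hL.2.1 i
    have := congrArg Sl.g (List.map_inj_left.1 e s hs)
    simpa [Sl.map, h, Gen.map] using this
  · obtain ⟨h1, ⟨σ, h2⟩, h3⟩ := (mem_Ref _).1 hw'
    have h4 := h2.map Prod.fst fun _ => rfl
    rw [h1] at h4
    obtain rfl := List.map_eq_nil_iff.1 (h4.unique hL.1)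
    obtain ⟨u, rfl⟩ := hL.2.2 w' h2 h1
    refine ⟨u, Fintype.mem_piFinset.2 fun i => ?_, rfl⟩
    obtain ⟨s, hs, b, h⟩ := hL.2.1 i
    exact h3 _ (List.mem_map_of_mem hs) ⟨i, b⟩ _ (by simp only [Sl.map, h]; rfl)

end Pool.Agent.P.MP_ac4909_gt
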