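import Pool.Agent.P.MP_ac4909_gt.Ev

/-! Evaluation of a cabled diagram. -/

namespace Pool.Agent.P.MP_ac4909_gt

variable {K : Type} [Field K] {R : Type} [Ring R] [Algebra K R] {α β ι : Type}

theorem wid_flatMap (c : Col β R) (κ : α → List β) (l : List α) :
    wid c.n (l.flatMap κ) = wid (c.tens κ).n l := by
  induction l with
  | nil => rfl
  | cons x l ih => rw [List.flatMap_cons, wid_append, wid_cons, ih]; rfl

namespace TL
variable (T : TL K R)

theorem cable_cups [Rev β] (c : Col β R) (hc : ∀ y, T.Loc (c.n y) (c.n y) (c.F y))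
    (l ys r : List β) : T.ev c (cups l ys r) =
      row c.n c.F ys (wid c.n l) * T.cupC (wid c.n ys) (wid c.n l) := by
  induction ys generalizing l r with
  | nil => simp [cups, ev, row, cupC]
  | cons y ys ih =>
    have h1 := (hc y).far' (loc_row hc ys) (wid c.n l) (wid c.n l + c.n y) (wid c.n l + c.n y)
      le_rfl rfl
    have h2 := (hc y).far' (T.loc_cupC (wid c.n ys)) (wid c.n l) (wid c.n l + c.n y)
      (wid c.n l + c.n y) le_rfl rfl
    simp only [cups, ev, ih, val, gval, row, wid_append, wid_cons, wid_nil, add_zero]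
    rw [T.cupC_add, h1, mul_assoc, mul_assoc, ← mul_assoc (c.F y _), h2, mul_assoc]

theorem cable_caps [Rev β] (c : Col β R) (hc : ∀ y, T.Loc (c.n y) (c.n y) (c.F y))
    (l ys r : List β) : T.ev c (caps l ys r) =
      T.capC (wid c.n ys) (wid c.n l) * row c.n c.F ys (wid c.n l) := by
  induction ys generalizing l r with
  | nil => simp [caps, ev, row, capC]
  | cons y ys ih =>
    have h2 := (hc y).far' (T.loc_capC (wid c.n ys)) (wid c.n l) (wid c.n l + c.n y)
      (wid c.n l + c.n y) le_rfl rfl
    simp only [caps, ev_append, ev, ih, val, gval, row, wid_append, wid_cons, wid_nil, add_zero,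
      one_mul]
    rw [T.capC_add, mul_assoc, mul_assoc, ← mul_assoc (c.F y _), h2, mul_assoc]

theorem cable_cross1 (c : Col β R) (s : Bool) (y : β) (r l xs : List β) :
    T.ev c (cross1 s y r l xs) = T.crC s (wid c.n xs) (c.n y) (wid c.n l) := by
  induction xs generalizing l with
  | nil => simp [cross1, ev, crC_zero_left]
  | cons x xs ih =>
    simp only [cross1, ev_append, ev, ih, val, gval, wid_append, wid_cons, wid_nil, add_zero,
      one_mul]
    rw [T.hexL]

theorem cable_cross (c : Col β R) (s : Bool) (xs r l ys : List β) :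
    T.ev c (cross s xs r l ys) = T.crC s (wid c.n xs) (wid c.n ys) (wid c.n l) := by
  induction ys generalizing l with
  | nil => simp [cross, ev, crC]
  | cons y ys ih =>
    simp only [cross, ev_append, ih, cable_cross1, wid_append, wid_cons, wid_nil, add_zero]
    rw [T.hexR]

theorem ev_cable [Rev β] (c : Col β R) (hc : ∀ y, T.Loc (c.n y) (c.n y) (c.F y))
    (κ : α → List β) (w : List (Sl α)) : T.ev c (cable κ w) = T.ev (c.tens κ) w := by
  induction w with
  | nil => rfl
  | cons s w ih =>
    unfold cable at ih ⊢
    rw [List.flatMap_cons, ev_append, ih, ev]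
    congr 1
    obtain ⟨l, g, r⟩ := s
    cases g with
    | cup o =>
      simp only [val, gval]
      rw [T.cable_cups c hc, wid_flatMap]; rfl
    | cap o =>
      simp only [val, gval]
      rw [T.cable_caps c hc, wid_flatMap]; rfl
    | cr x y b =>
      simp only [val, gval]
      rw [T.cable_cross c, wid_flatMap]; rfl

theorem tens_pushoff [DecidableEq ι] (m : ι → ℕ) (a : Arc ι) :
    (T.jw m).tens (pushoff a) = T.jc m (Pi.single a.name 1) fun _ => a.up := by
  have key : ∀ x, wid (T.jw m).n (pushoff a x) =
        (T.jc m (Pi.single a.name 1) fun _ => a.up).n x ∧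
      ∀ p, row (T.jw m).n (T.jw m).F (pushoff a x) p =
        (T.jc m (Pi.single a.name 1) fun _ => a.up).F x p := by
    obtain ⟨i, u⟩ := a
    intro x
    cases x with
    | none => simp [pushoff, jc, Col.opt, row]
    | some b =>
      obtain ⟨j, v⟩ := b
      by_cases h : j = i
      · subst h
        cases u <;> cases v <;> simp [pushoff, jc, jcA, Col.opt, row, add_comm]
      · simp [pushoff, jc, jcA, Col.opt, row, h]
  unfold Col.tens
  congr 1
  · exact funext fun x => (key x).1
  · exact funext fun x => funext (key x).2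

end TL

end Pool.Agent.P.MP_ac4909_gt
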