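import Pool.Agent.P.MP_ac4909_gt.VDefs
import Pool.Agent.P.MP_ac4909_gt.Ref

/-! The state sum at `a = -1`, up to a sign that depends only on the parities of the colours. -/

namespace Pool.Agent.P.MP_ac4909_gt

open Rev

theorem minusOne_gb_neg {K : Type} [Field K] (Q : K) (m : ℕ) (j : ℤ) (hj : j < 0) :
    gb Q m j = 0 := by
  induction m generalizing j with
  | zero => simp [gb, hj.ne]
  | succ m ih => rw [gb, ih j hj, ih (j - 1) (by omega), mul_zero, add_zero]

theorem gb_one (m : ℕ) (j : ℕ) : gb (1 : ℚ) m j = (m.choose j : ℚ) := by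
  induction m generalizing j with
  | zero =>
    cases j with
    | zero => simp [gb]
    | succ j =>
      rw [gb, if_neg (by omega)]
      simp
  | succ m ih =>
    rw [gb, one_zpow, one_mul, ih]
    cases j with
    | zero => rw [minusOne_gb_neg _ _ _ (by simp)]; simp
    | succ j =>
      have e : ((j + 1 : ℕ) : ℤ) - 1 = (j : ℤ) := by push_cast; ring
      rw [e, ih, Nat.choose_succ_succ']
      push_cast
      ring

theorem minusOne_gbZ (m j : ℕ) : gbZ (1 : ℚ) m j = (m.choose j : ℚ) := by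
  rw [gbZ, if_pos (Int.natCast_nonneg m), Int.toNat_natCast, gb_one]

theorem minusOne_gbZ_zero {m : ℤ} (hm : 0 ≤ m) : gbZ (1 : ℚ) m 0 = 1 := by
  obtain ⟨n, rfl⟩ := Int.eq_ofNat_of_zero_le hm
  simpa using minusOne_gbZ n 0

theorem minusOne_neg_four : (-1 : ℚ) ^ (-4 : ℤ) = 1 := by norm_num

theorem minusOne_four : (-1 : ℚ) ^ (4 : ℤ) = 1 := by norm_num

theorem minusOne_poch_pos (i : ℤ) {t : ℤ} (ht : 0 < t) : poch (1 : ℚ) i t = 0 := by
  unfold poch
  split_ifs with h
  · refine Finset.prod_eq_zero (i := 0) (Finset.mem_range.2 (by omega)) ?_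
    simp
  · rfl

theorem minusOne_poch_zero {i : ℤ} (hi : 0 ≤ i) : poch (1 : ℚ) i 0 = 1 := by
  simp [poch, hi]

theorem minusOne_zpow_congr {a b : ℤ} (h : Even (a - b)) : (-1 : ℚ) ^ a = (-1) ^ b := by
  have : a = (a - b) + b := by ring
  rw [this, zpow_add₀ (by norm_num), h.neg_one_zpow, one_mul]

theorem minusOne_crK_pos (s : Bool) (m n i j : ℤ) {t : ℤ} (ht : 0 < t) :
    crK (-1 : ℚ) s m n i j t = 0 := by
  unfold crK
  rw [minusOne_neg_four, minusOne_four, minusOne_poch_pos _ ht, minusOne_poch_pos _ ht]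
  simp

theorem minusOne_crK_zero (s : Bool) {m n i j : ℤ} (hi : 0 ≤ i) (him : i ≤ m) (hj : 0 ≤ j)
    (hjn : j ≤ n) : crK (-1 : ℚ) s m n i j 0 = (-1) ^ (m * n) := by
  unfold crK
  rw [minusOne_neg_four, minusOne_four, minusOne_poch_zero hi,
    minusOne_poch_zero (sub_nonneg.2 him), minusOne_gbZ_zero (by omega),
    minusOne_gbZ_zero (by omega)]
  split_ifs
  · rw [mul_one, mul_one]
    exact minusOne_zpow_congr ⟨2 * i * j - i * n - m * j, by ring⟩
  · rw [mul_one, mul_one]
    exact minusOne_zpow_congr ⟨-(2 * i * j - i * n - m * j) - m * n, by ring⟩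

variable {ι : Type}

/-- the state of a marked strand -/
def minusOneSt (m : ι → ℕ) (x : Arc ι × ℕ) : ℤ :=
  if x.1.up then (x.2 : ℤ) else (m x.1.name : ℤ) - x.2

theorem minusOneSt_rev (m : ι → ℕ) (o : Arc ι) (n : ℕ) :
    minusOneSt m (rev o, n) = (m o.name : ℤ) - minusOneSt m (o, n) := by
  obtain ⟨i, b⟩ := o
  cases b <;> simp [minusOneSt]

theorem minusOneSt_mem (m : ι → ℕ) {x : Arc ι × ℕ} (h : x.2 ≤ m x.1.name) :
    0 ≤ minusOneSt m x ∧ minusOneSt m x ≤ m x.1.name := by
  unfold minusOneSt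
  split_ifs <;> omega

theorem minusOneSt_inj (m : ι → ℕ) (o : Arc ι) {n n' : ℕ}
    (h : minusOneSt m (o, n) = minusOneSt m (o, n')) : n = n' := by
  unfold minusOneSt at h
  split_ifs at h <;> simp only at h <;> omega

/-- the weight of a marked elementary tangle -/
def minusOneW (m : ι → ℕ) : Gen (Arc ι × ℕ) → ℚ
  | .cup x => cuC (-1) (m x.1.name) (minusOneSt m x)
  | .cap x => caC (-1) (m x.1.name) (minusOneSt m x) (m x.1.name - minusOneSt m x)
  | .cr x y _ => (-1) ^ ((m x.1.name : ℤ) * m y.1.name)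

/-- the weight of a marked word -/
def minusOneWt (m : ι → ℕ) (w : List (Sl (Arc ι × ℕ))) : ℚ :=
  (w.map fun s => minusOneW m s.g).prod

theorem minusOneWt_cons (m : ι → ℕ) (s : Sl (Arc ι × ℕ)) (w : List (Sl (Arc ι × ℕ))) :
    minusOneWt m (s :: w) = minusOneW m s.g * minusOneWt m w := by
  simp [minusOneWt]

theorem minusOne_SS (m : ι → ℕ) (w : List (Sl (Arc ι))) :
    ∀ ρ : List (Arc ι × ℕ), (∃ σ, Run (ρ.map Prod.fst) w σ) → (∀ x ∈ ρ, x.2 ≤ m x.1.name) →
      SS (-1 : ℚ) (fun i => (m i : ℤ)) w (ρ.map (minusOneSt m)) =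
        ∑ w' ∈ Ref (fun a : Arc ι => Finset.range (m a.name + 1)) w ρ, minusOneWt m w' := by
  induction w with
  | nil =>
    intro ρ _ _
    rw [Ref_nil, Finset.sum_singleton]
    rfl
  | cons s w ih =>
    rintro ρ ⟨σ, h1, h2⟩ hρ
    obtain ⟨l, g, r⟩ := s
    obtain ⟨ρ1, r', rfl, h3, rfl⟩ := List.map_eq_append_iff.1 h1
    obtain ⟨l', c, rfl, rfl, h4⟩ := List.map_eq_append_iff.1 h3
    have hl : ∀ x ∈ l', x.2 ≤ m x.1.name := fun x hx => hρ x (by simp [hx])
    have hr : ∀ x ∈ r', x.2 ≤ m x.1.name := fun x hx => hρ x (by simp [hx])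
    have hd : List.drop (l'.length + 2) (l'.map (minusOneSt m)) = [] :=
      List.drop_eq_nil_of_le (by simp)
    cases g with
    | cup o =>
      obtain rfl : c = [] := List.map_eq_nil_iff.1 h4
      rw [List.append_nil, sum_Ref_cup, SS]
      symm
      refine Finset.sum_nbij (fun n => minusOneSt m (o, n)) ?_ ?_ ?_ ?_
      · intro n hn
        exact Finset.mem_Icc.2 (minusOneSt_mem m (x := (o, n))
          (Nat.lt_succ_iff.1 (Finset.mem_range.1 hn)))
      · intro n _ n' _ h
        exact minusOneSt_inj m o h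
      · intro j hj
        obtain ⟨a1, a2⟩ := Finset.mem_Icc.1 (Finset.mem_coe.1 hj)
        by_cases hb : o.up = true
        · refine ⟨j.toNat, Finset.mem_coe.2 (Finset.mem_range.2 (by omega)), ?_⟩
          simp only [minusOneSt, hb, if_true]
          omega
        · refine ⟨((m o.name : ℤ) - j).toNat, Finset.mem_coe.2 (Finset.mem_range.2 (by omega)), ?_⟩
          simp only [minusOneSt, hb]
          rw [if_neg (by simp)]
          omega
      · intro n hn
        have hn' : n ≤ m o.name := Nat.lt_succ_iff.1 (Finset.mem_range.1 hn)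
        simp only [minusOneWt_cons]
        rw [← Finset.mul_sum, ← ih (l' ++ [(o, n), (rev o, n)] ++ r') ⟨σ, by
          simpa [Sl.tgt, Gen.tgt] using h2⟩ (by
          intro x hx
          simp only [List.mem_append, List.mem_cons, List.not_mem_nil, or_false] at hx
          rcases hx with (hx | rfl | rfl) | hx
          · exact hl x hx
          · exact hn'
          · exact hn'
          · exact hr x hx)]
        simp [minusOneW, minusOneSt_rev]
    | cap o =>
      obtain ⟨⟨o1, n⟩, c1, rfl, e1, h5⟩ := List.map_eq_cons_iff.1 h4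
      obtain ⟨⟨o2, n'⟩, c2, rfl, e2, h6⟩ := List.map_eq_cons_iff.1 h5
      obtain rfl : c2 = [] := List.map_eq_nil_iff.1 h6
      simp only at e1 e2
      subst e1 e2
      rw [sum_Ref_cap, SS]
      have hi := ih (l' ++ r') ⟨σ, by simpa [Sl.tgt, Gen.tgt] using h2⟩ (by
        intro x hx
        rcases List.mem_append.1 hx with hx | hx
        · exact hl x hx
        · exact hr x hx)
      split_ifs with hn
      · subst hn
        simp only [minusOneWt_cons]
        rw [← Finset.mul_sum, ← hi]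
        simp [minusOneW, minusOneSt_rev, List.drop_append, hd]
      · have : caC (-1 : ℚ) (m o1.name) (minusOneSt m (o1, n))
            ((m o1.name : ℤ) - minusOneSt m (o1, n')) = 0 := by
          rw [caC, if_neg]
          intro h
          exact hn (minusOneSt_inj m o1 (by omega))
        simp [minusOneSt_rev, this]
    | cr x y s =>
      obtain ⟨x', c1, rfl, rfl, h5⟩ := List.map_eq_cons_iff.1 h4
      obtain ⟨y', c2, rfl, rfl, h6⟩ := List.map_eq_cons_iff.1 h5
      obtain rfl : c2 = [] := List.map_eq_nil_iff.1 h6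
      have hx : x'.2 ≤ m x'.1.name := hρ x' (by simp)
      have hy : y'.2 ≤ m y'.1.name := hρ y' (by simp)
      rw [sum_Ref_cr, SS, Finset.sum_eq_single 0]
      · simp only [minusOneWt_cons]
        rw [← Finset.mul_sum, ← ih (l' ++ [y', x'] ++ r') ⟨σ, by
          simpa [Sl.tgt, Gen.tgt] using h2⟩ (by
          intro z hz
          simp only [List.mem_append, List.mem_cons, List.not_mem_nil, or_false] at hz
          rcases hz with (hz | rfl | rfl) | hz
          · exact hl z hz
          · exact hy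
          · exact hx
          · exact hr z hz)]
        have := minusOne_crK_zero s (minusOneSt_mem m hx).1 (minusOneSt_mem m hx).2
          (minusOneSt_mem m hy).1 (minusOneSt_mem m hy).2
        simp [minusOneW, this, List.drop_append, hd]
      · intro t ht h0
        rw [minusOne_crK_pos _ _ _ _ _ (lt_of_le_of_ne (Finset.mem_Icc.1 ht).1 h0.symm), zero_mul]
      · intro h
        exact absurd (Finset.mem_Icc.2 ⟨le_rfl, Int.natCast_nonneg _⟩) h

/-- the sign of a parity -/
def minusOnePm (z : ZMod 2) : ℤ := if z = 0 then 1 else -1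

theorem minusOnePm_cast (n : ℕ) : (minusOnePm (n : ZMod 2) : ℚ) = (-1) ^ n := by
  unfold minusOnePm
  rcases Nat.even_or_odd n with h | h
  · rw [if_pos (ZMod.natCast_eq_zero_iff_even.2 h), h.neg_one_pow]
    simp
  · rw [if_neg (fun h0 => Nat.not_even_iff_odd.2 h (ZMod.natCast_eq_zero_iff_even.1 h0)),
      h.neg_one_pow]
    simp

theorem minusOnePm_or (z : ZMod 2) : minusOnePm z = 1 ∨ minusOnePm z = -1 := by
  unfold minusOnePm
  split_ifs <;> simp

/-- the sign of an elementary tangle -/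
def minusOneS (x : ι → ZMod 2) : Gen (Arc ι) → ℤ
  | .cup o => if o.up then 1 else minusOnePm (x o.name)
  | .cap o => if o.up then minusOnePm (x o.name) else 1
  | .cr a b _ => minusOnePm (x a.name * x b.name)

theorem minusOneS_or (x : ι → ZMod 2) (g : Gen (Arc ι)) :
    minusOneS x g = 1 ∨ minusOneS x g = -1 := by
  cases g with
  | cup o =>
    simp only [minusOneS]
    split_ifs
    · exact Or.inl rfl
    · exact minusOnePm_or _
  | cap o =>
    simp only [minusOneS]
    split_ifs
    · exact minusOnePm_or _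
    · exact Or.inl rfl
  | cr a b s => exact minusOnePm_or _

/-- the sign of a word -/
def minusOneSg (x : ι → ZMod 2) (w : List (Sl (Arc ι))) : ℤ :=
  (w.map fun s => minusOneS x s.g).prod

theorem minusOneSg_or (x : ι → ZMod 2) (w : List (Sl (Arc ι))) :
    minusOneSg x w = 1 ∨ minusOneSg x w = -1 := by
  induction w with
  | nil => exact Or.inl rfl
  | cons s w ih =>
    have e : minusOneSg x (s :: w) = minusOneS x s.g * minusOneSg x w := by simp [minusOneSg]
    rw [e]
    rcases minusOneS_or x s.g with h | h <;> rcases ih with h' | h' <;> simp [h, h']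

/-- the potential of a row -/
def minusOnePot (c : ι → ℚ) (ρ : List (Arc ι)) : ℚ :=
  (ρ.map fun a => if a.up then c a.name else 1).prod

theorem minusOne_cup (m u : ι → ℕ) (hu : ∀ i, u i ≤ m i) (o : Arc ι) :
    minusOneW m (.cup (o, u o.name)) * ((-1) ^ u o.name * ((m o.name).choose (u o.name) : ℚ)) =
      (minusOneS (fun i => (m i : ZMod 2)) (.cup o) : ℚ) := by
  obtain ⟨i, b⟩ := o
  have hc : ((m i).choose (u i) : ℚ) ≠ 0 := Nat.cast_ne_zero.2 (Nat.choose_pos (hu i)).ne'
  have h2 : ∀ j : ℤ, (-1 : ℚ) ^ (2 * j) = 1 := fun j => (even_two_mul j).neg_one_zpow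
  have h3 : (-1 : ℚ) ^ u i * (-1) ^ u i = 1 := by rw [← mul_pow]; simp
  cases b with
  | true =>
    simp only [minusOneW, minusOneSt, minusOneS, cuC, if_true, h2, minusOne_neg_four,
      minusOne_gbZ, zpow_natCast, Int.cast_one]
    field_simp
    linear_combination h3
  | false =>
    have e : (m i : ℤ) - u i = ((m i - u i : ℕ) : ℤ) := by have := hu i; omega
    have h4 : (-1 : ℚ) ^ (m i - u i) * (-1) ^ u i = (-1) ^ m i := by
      rw [← pow_add, Nat.sub_add_cancel (hu i)]
    simp only [minusOneW, minusOneSt, minusOneS, cuC, Bool.false_eq_true, if_false, h2,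
      minusOne_neg_four, e, minusOne_gbZ, zpow_natCast, minusOnePm_cast, Nat.choose_symm (hu i)]
    field_simp
    linear_combination h4

theorem minusOne_cap (m u : ι → ℕ) (hu : ∀ i, u i ≤ m i) (o : Arc ι) :
    minusOneW m (.cap (o, u o.name)) = (minusOneS (fun i => (m i : ZMod 2)) (.cap o) : ℚ) *
      ((-1) ^ u o.name * ((m o.name).choose (u o.name) : ℚ)) := by
  obtain ⟨i, b⟩ := o
  have h2 : ∀ j : ℤ, (-1 : ℚ) ^ (-2 * j) = 1 := fun j =>
    Even.neg_one_zpow ⟨-j, by ring⟩
  have h3 : (-1 : ℚ) ^ u i * (-1) ^ u i = 1 := by rw [← mul_pow]; simp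
  have e : (m i : ℤ) - u i = ((m i - u i : ℕ) : ℤ) := by have := hu i; omega
  have h4 : (-1 : ℚ) ^ (m i - u i) * (-1) ^ u i = (-1) ^ m i := by
    rw [← pow_add, Nat.sub_add_cancel (hu i)]
  cases b with
  | true =>
    simp only [minusOneW, minusOneSt, minusOneS, caC, if_true, h2, minusOne_neg_four,
      minusOne_gbZ, add_sub_cancel, minusOnePm_cast]
    rw [e, zpow_natCast]
    linear_combination
      ((m i).choose (u i) : ℚ) * ((-1) ^ u i * h4 - (-1) ^ (m i - u i) * h3)
  | false =>
    simp only [minusOneW, minusOneSt, minusOneS, caC, Bool.false_eq_true, if_false, h2,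
      minusOne_neg_four, sub_sub_cancel, sub_add_cancel, if_true, zpow_natCast, Int.cast_one]
    rw [e, minusOne_gbZ, Nat.choose_symm (hu i)]
    ring

theorem minusOne_wt (m u : ι → ℕ) (hu : ∀ i, u i ≤ m i) (w : List (Sl (Arc ι))) :
    ∀ ρ σ : List (Arc ι), Run ρ w σ →
      minusOneWt m (w.map (Sl.map fun a => (a, u a.name))) *
          minusOnePot (fun i => (-1) ^ u i * ((m i).choose (u i) : ℚ)) σ =
        (minusOneSg (fun i => (m i : ZMod 2)) w : ℚ) *
          minusOnePot (fun i => (-1) ^ u i * ((m i).choose (u i) : ℚ)) ρ := by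
  induction w with
  | nil =>
    intro ρ σ h
    rw [run_nil.1 h]
    simp [minusOneWt, minusOneSg]
  | cons s w ih =>
    rintro ρ σ ⟨rfl, h2⟩
    have e : minusOneSg (fun i => (m i : ZMod 2)) (s :: w) =
        minusOneS (fun i => (m i : ZMod 2)) s.g * minusOneSg (fun i => (m i : ZMod 2)) w := by
      simp [minusOneSg]
    rw [List.map_cons, minusOneWt_cons, mul_assoc, ih _ _ h2, e, Int.cast_mul]
    obtain ⟨l, g, r⟩ := s
    cases g with
    | cup o =>
      rw [← minusOne_cup m u hu o]
      obtain ⟨i, b⟩ := o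
      cases b <;> simp [Sl.map, Gen.map, Sl.src, Sl.tgt, Gen.src, Gen.tgt, minusOnePot] <;> ring
    | cap o =>
      have := minusOne_cap m u hu o
      obtain ⟨i, b⟩ := o
      cases b <;>
        simp [Sl.map, Gen.map, Sl.src, Sl.tgt, Gen.src, Gen.tgt, minusOnePot, this] <;> ring
    | cr x y s =>
      have : (minusOneS (fun i => (m i : ZMod 2)) (.cr x y s) : ℚ) =
          (-1) ^ ((m x.name : ℤ) * m y.name) := by
        rw [minusOneS, ← Nat.cast_mul, minusOnePm_cast, ← Nat.cast_mul, zpow_natCast]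
      simp only [Sl.map, Gen.map, Sl.src, Sl.tgt, Gen.src, Gen.tgt, minusOnePot, minusOneW, this,
        List.map_append, List.prod_append, List.map_cons, List.prod_cons, List.map_nil,
        List.prod_nil]
      ring

theorem SS_neg_one {ι : Type} [Fintype ι] [DecidableEq ι] {L : List (Sl (Arc ι))}
    (hL : IsFramedLink L) : ∃ ε : (ι → ZMod 2) → ℤ, (∀ x, ε x = 1 ∨ ε x = -1) ∧
      ∀ m : ι → ℕ, SS (-1 : ℚ) (fun i => (m i : ℤ)) L [] =
        (ε (fun i => (m i : ZMod 2)) : ℚ) * ∏ i, ((m i : ℚ) + 1) := by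
  refine ⟨fun x => minusOneSg x L, fun x => minusOneSg_or x L, fun m => ?_⟩
  have h1 := minusOne_SS m L [] ⟨[], hL.1⟩ (by simp)
  rw [List.map_nil] at h1
  rw [h1, hL.sum_Ref (fun i => Finset.range (m i + 1)),
    Finset.sum_congr rfl (g := fun _ => (minusOneSg (fun i => (m i : ZMod 2)) L : ℚ))]
  · rw [Finset.sum_const, Fintype.card_piFinset, nsmul_eq_mul, mul_comm]
    simp
  · intro u hu
    have := minusOne_wt m u (fun i => Nat.lt_succ_iff.1
      (Finset.mem_range.1 (Fintype.mem_piFinset.1 hu i))) L [] [] hL.1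
    simpa [minusOnePot] using this

end Pool.Agent.P.MP_ac4909_gt
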