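import Pool.Agent.P.MP_ac4909_gt.TLDefs

/-! Scalar facts: closed forms of `Dl`, evaluation of Laurent polynomials. -/

namespace Pool.Agent.P.MP_ac4909_gt

open Filter Topology

variable {K : Type} [Field K]

theorem scal_Dl_succ (a : K) (ha : a ≠ 0) (m : ℕ) :
    Dl a (m + 1) = -a ^ 2 * Dl a m + (-a⁻¹ ^ 2) ^ (m + 1) := by
  have h1 : a * a⁻¹ = 1 := mul_inv_cancel₀ ha
  induction m with
  | zero => simp only [Dl, dlt]; ring
  | succ m ih =>
    rw [Dl, dlt, pow_succ (-a⁻¹ ^ 2) (m + 1)]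
    linear_combination (-a⁻¹ ^ 2) * ih + (a * a⁻¹ + 1) * Dl a m * h1

theorem Dl_closed (a : K) (ha : a ≠ 0) (m : ℕ) :
    (a ^ 2 - a⁻¹ ^ 2) * Dl a m = (-1) ^ m * (a ^ (2 * m + 2) - a⁻¹ ^ (2 * m + 2)) := by
  have h1 : a * a⁻¹ = 1 := mul_inv_cancel₀ ha
  induction m with
  | zero => simp [Dl]
  | succ m ih =>
    rw [scal_Dl_succ a ha, neg_pow (a⁻¹ ^ 2), ← pow_mul]
    have e1 : a ^ (2 * (m + 1) + 2) = a ^ (2 * m + 2) * a ^ 2 := by ring
    have e2 : a⁻¹ ^ (2 * (m + 1) + 2) = a⁻¹ ^ (2 * m + 2) * a⁻¹ ^ 2 := by ring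
    have e3 : a⁻¹ ^ (2 * (m + 1)) = a⁻¹ ^ (2 * m + 2) := by ring
    rw [e1, e2, e3, pow_succ (-1 : K) m]
    linear_combination (-a ^ 2) * ih

theorem Dl_neg_one (m : ℕ) : Dl (-1 : K) m = (-1) ^ m * ((m : K) + 1) := by
  induction m with
  | zero => simp [Dl]
  | succ m ih =>
    rw [scal_Dl_succ (-1 : K) (neg_ne_zero.2 one_ne_zero), ih, inv_neg_one]
    push_cast
    ring

theorem adm_neg_one [CharZero K] (n : ℕ) : Adm (-1 : K) n := by
  intro j _
  rw [Dl_neg_one]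
  exact mul_ne_zero (pow_ne_zero _ (neg_ne_zero.2 one_ne_zero)) (Nat.cast_add_one_ne_zero j)

/-- for `a` of infinite order all colours are admissible -/
theorem adm_of_nontorsion (a : K) (ha : a ≠ 0) (h : ∀ n : ℤ, a ^ n = 1 → n = 0) (n : ℕ) :
    Adm a n := by
  intro j _ h0
  have h1 := Dl_closed a ha j
  rw [h0, mul_zero] at h1
  have h2 : a ^ (2 * j + 2) = a⁻¹ ^ (2 * j + 2) :=
    sub_eq_zero.1 ((mul_eq_zero.1 h1.symm).resolve_left
      (pow_ne_zero _ (neg_ne_zero.2 one_ne_zero)))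
  have h3 : a ^ (((2 * j + 2) + (2 * j + 2) : ℕ) : ℤ) = 1 := by
    rw [zpow_natCast, pow_add]
    nth_rewrite 2 [h2]
    rw [← mul_pow, mul_inv_cancel₀ ha, one_pow]
  have := h _ h3
  omega

theorem norm_Dl_le (a : ℂ) (ha : ‖a‖ = 1) (m : ℕ) : ‖Dl a m‖ ≤ (m : ℝ) + 1 := by
  have ha0 : a ≠ 0 := by
    intro h; rw [h, norm_zero] at ha; exact zero_ne_one ha
  induction m with
  | zero => simp [Dl]
  | succ m ih =>
    rw [scal_Dl_succ a ha0]
    refine (norm_add_le _ _).trans ?_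
    simp only [norm_mul, norm_neg, norm_pow, norm_inv, ha, one_pow, inv_one, one_mul]
    push_cast
    linarith

theorem conj_Dl (a : ℂ) (ha : ‖a‖ = 1) (m : ℕ) : (starRingEnd ℂ) (Dl a m) = Dl a m := by
  have h1 : (starRingEnd ℂ) a = a⁻¹ := (Complex.inv_eq_conj ha).symm
  have h2 : (starRingEnd ℂ) (dlt a) = dlt a := by
    simp only [dlt, map_sub, map_neg, map_pow, map_inv₀, h1, inv_inv]; ring
  have key : ∀ m, (starRingEnd ℂ) (Dl a m) = Dl a m ∧
      (starRingEnd ℂ) (Dl a (m + 1)) = Dl a (m + 1) := by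
    intro m
    induction m with
    | zero => exact ⟨by simp [Dl], h2⟩
    | succ m ih => exact ⟨ih.2, by rw [Dl, map_sub, map_mul, h2, ih.1, ih.2]⟩
  exact (key m).1

theorem lev_T (a : K) (ha : a ≠ 0) (n : ℤ) : lev a ha (LaurentPolynomial.T n) = a ^ n := by
  simp [lev]

theorem lev_C (a : K) (ha : a ≠ 0) (n : ℤ) : lev a ha (LaurentPolynomial.C n) = (n : K) := by
  rw [lev, LaurentPolynomial.eval₂_C]; rfl

/-- two ring maps out of `ℤ[T;T⁻¹]` agree if they agree on all `T n` -/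
theorem laurent_hom_ext {S : Type} [Ring S] (φ ψ : LaurentPolynomial ℤ →+* S)
    (h : ∀ n : ℤ, φ (LaurentPolynomial.T n) = ψ (LaurentPolynomial.T n)) : φ = ψ := by
  refine RingHom.ext fun c => ?_
  induction c using LaurentPolynomial.induction_on' with
  | add p q hp hq => rw [map_add, map_add, hp, hq]
  | C_mul_T n z => rw [map_mul, map_mul, h, eq_intCast, map_intCast, map_intCast]

/-- the value at `-1` is an integer, the same in every field -/
theorem exists_lev_neg_one (c : LaurentPolynomial ℤ) :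
    ∃ z : ℤ, ∀ (F : Type) [Field F] (h : (-1 : F) ≠ 0), lev (-1 : F) h c = (z : F) := by
  induction c using LaurentPolynomial.induction_on' with
  | add p q hp hq =>
    obtain ⟨x, hx⟩ := hp
    obtain ⟨y, hy⟩ := hq
    exact ⟨x + y, fun F _ h => by rw [map_add, hx F h, hy F h, Int.cast_add]⟩
  | C_mul_T n z =>
    rcases Int.even_or_odd n with hn | hn
    · exact ⟨z, fun F _ h => by rw [map_mul, lev_C, lev_T, hn.neg_one_zpow, mul_one]⟩
    · exact ⟨-z, fun F _ h => by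
        rw [map_mul, lev_C, lev_T, hn.neg_one_zpow, Int.cast_neg, mul_neg_one]⟩

theorem tendsto_lev {a : ℕ → ℂ} (ha : ∀ t, a t ≠ 0) {b : ℂ} (hb : b ≠ 0)
    (h : Tendsto a atTop (𝓝 b)) (c : LaurentPolynomial ℤ) :
    Tendsto (fun t => lev (a t) (ha t) c) atTop (𝓝 (lev b hb c)) := by
  induction c using LaurentPolynomial.induction_on' with
  | add p q hp hq => simpa only [map_add] using hp.add hq
  | C_mul_T n z =>
    simp only [map_mul, lev_C, lev_T]
    exact (h.zpow₀ n (Or.inl hb)).const_mul _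

end Pool.Agent.P.MP_ac4909_gt
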