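import Pool.Agent.P.MP_ac4909_gt.VState
import Pool.Agent.P.MP_ac4909_gt.MinusOne
import Pool.Agent.P.MP_ac4909_gt.Scal

/-! The coloured Jones function at `a = -1`. -/

namespace Pool.Agent.P.MP_ac4909_gt

/-- the model `U = C = 1` over the field with three elements -/
theorem exists_trivial_model : ∃ T : TL (ZMod 3) (ZMod 3),
    T.a = -1 ∧ (∀ i, T.U i = 1) ∧ ∀ i, T.C i = 1 :=
  ⟨{ a := -1
     ha := by simp
     U := fun _ => 1
     C := fun _ => 1
     loop := fun _ => by
       simp only [dlt, inv_neg, inv_one, Algebra.algebraMap_self, RingHom.id_apply]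
       decide
     zig := fun _ => one_mul 1
     zag := fun _ => one_mul 1
     UU := fun _ _ _ => rfl
     CC := fun _ _ _ => rfl
     CU := fun _ _ _ => rfl
     CU' := fun _ _ _ => rfl }, rfl, fun _ => rfl, fun _ => rfl⟩

theorem limit_ev_one {T : TL (ZMod 3) (ZMod 3)} (ha : T.a = -1) (hU : ∀ i, T.U i = 1)
    (hC : ∀ i, T.C i = 1) {α : Type} (c : Col α (ZMod 3)) (hc : ∀ x p, c.F x p = 1)
    (w : List (Sl α)) : T.ev c w = 1 := by
  have h1 : ∀ s p, T.sig s p = 1 := fun s p => by
    have : ∀ s, zp T.a s = -1 := fun s => by cases s <;> simp [zp, ha]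
    simp only [TL.sig, this, hU, hC, smul_eq_mul]
    decide
  have h2 : ∀ s m p, T.X s m p = 1 := fun s m => by
    induction m with
    | zero => exact fun _ => rfl
    | succ m ih => exact fun p => by rw [TL.X, h1, ih, one_mul]
  have h3 : ∀ s m n p, T.crC s m n p = 1 := fun s m n => by
    induction n with
    | zero => exact fun _ => rfl
    | succ n ih => exact fun p => by rw [TL.crC, h2, ih, one_mul]
  have h4 : ∀ m p, T.cupC m p = 1 := fun m => by
    induction m with
    | zero => exact fun _ => rfl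
    | succ m ih => exact fun p => by rw [TL.cupC, hU, ih, one_mul]
  have h5 : ∀ m p, T.capC m p = 1 := fun m => by
    induction m with
    | zero => exact fun _ => rfl
    | succ m ih => exact fun p => by rw [TL.capC, hC, ih, one_mul]
  induction w with
  | nil => rfl
  | cons s w ih =>
    obtain ⟨l, g, r⟩ := s
    cases g <;> simp [TL.ev, TL.val, TL.gval, ih, hc, h3, h4, h5]

theorem limit_nat {ι : Type} [Fintype ι] [DecidableEq ι] {L : List (Sl (Arc ι))}
    (hL : IsFramedLink L) (m : ι → ℕ) (F : Type) [Field F] (h : (-1 : F) ≠ 0) :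
    lev (-1 : F) h (JP L fun i => (m i : ℤ) + 1) = ∏ i, ((-1 : F) ^ m i * ((m i : F) + 1)) := by
  obtain ⟨ε, h1, h2⟩ := SS_neg_one hL
  have h3 : ∀ (m : ι → ℕ) (F : Type) [Field F] (h : (-1 : F) ≠ 0),
      lev (-1 : F) h (JP L fun i => (m i : ℤ) + 1)
        = (ε (fun i => (m i : ZMod 2)) : F) * ∏ i, ((m i : F) + 1) := by
    intro m F _ h
    obtain ⟨z, hz⟩ := exists_lev_neg_one (JP L fun i => (m i : ℤ) + 1)
    have h4 := lev_JP_eq_SS (-1 : ℚ) (by simp) adm_neg_one (fun n j h0 hj => by
      lift j to ℕ using h0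
      rw [show (-1 : ℚ) ^ (-4 : ℤ) = 1 by norm_num, gb_one]
      exact Nat.cast_ne_zero.2 (Nat.choose_pos (by exact_mod_cast hj)).ne') hL m
    rw [hz, h2] at h4
    have h5 : z = ε (fun i => (m i : ZMod 2)) * ∏ i, ((m i : ℤ) + 1) := by exact_mod_cast h4
    rw [hz, h5]
    push_cast
    rfl
  obtain ⟨T, a1, a2, a3⟩ := exists_trivial_model
  have h6 := T.ev_eq_JP hL (fun i => m i % 2) fun i => (adm_one _).mono (by omega)
  have h7 : ∀ i p, T.f (m i % 2) p = 1 := fun i p => by
    rcases Nat.mod_two_eq_zero_or_one (m i) with h | h <;> rw [h] <;> rfl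
  rw [limit_ev_one a1 a2 a3 _ (fun x p => by simp [TL.jcA, h7])] at h6
  have h8 : lev T.a T.ha = lev (-1 : ZMod 3) (by simp) := by simp only [a1]
  have h9 : ∀ i, (((m i % 2 : ℕ) : ZMod 3) + 1) = (-1) ^ m i := fun i => by
    rcases Nat.even_or_odd (m i) with h | h
    · rw [h.neg_one_pow, Nat.even_iff.1 h]; rfl
    · rw [h.neg_one_pow, Nat.odd_iff.1 h]; rfl
  rw [h8, h3] at h6
  simp only [ZMod.natCast_mod, h9, Finset.prod_pow_eq_pow_sum, Algebra.algebraMap_self,
    RingHom.id_apply] at h6
  rw [h3, Finset.prod_mul_distrib, Finset.prod_pow_eq_pow_sum]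
  congr 1
  rcases h1 fun i => (m i : ZMod 2) with h | h <;> rw [h] at h6 ⊢ <;>
    rcases Nat.even_or_odd (∑ i, m i) with h' | h' <;> rw [h'.neg_one_pow] at h6 ⊢
  · exact Int.cast_one
  · exact absurd h6 (by decide)
  · exact absurd h6 (by decide)
  · simp

theorem lev_JP_neg_one {ι : Type} [Fintype ι] [DecidableEq ι] {L : List (Sl (Arc ι))}
    (hL : IsFramedLink L) (k : ι → ℤ) :
    lev (-1 : ℂ) (by simp) (JP L k) = ∏ i, ((-1 : ℂ) ^ (k i - 1) * (k i : ℂ)) := by
  have h1 : ∀ (k : ι → ℤ) (i : ι), ∏ j, ((-1 : ℂ) ^ (Function.update k i (-k i) j - 1) *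
      (Function.update k i (-k i) j : ℂ)) = -∏ j, ((-1 : ℂ) ^ (k j - 1) * (k j : ℂ)) := by
    intro k i
    rw [← Finset.mul_prod_erase _ _ (Finset.mem_univ i), ← Finset.mul_prod_erase _ _
      (Finset.mem_univ i), Function.update_self, ← neg_mul,
      show k i - 1 = -k i - 1 + 2 * k i by ring, zpow_add₀ (by simp), zpow_mul]
    congr 1
    · norm_num
    · exact Finset.prod_congr rfl fun j hj => by
        rw [Function.update_of_ne (Finset.ne_of_mem_erase hj)]
  have key : ∀ (s : Finset ι) (k : ι → ℤ), (∀ i ∉ s, 1 ≤ k i) →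
      lev (-1 : ℂ) (by simp) (JP L k) = ∏ i, ((-1 : ℂ) ^ (k i - 1) * (k i : ℂ)) := by
    intro s
    induction s using Finset.induction_on with
    | empty =>
      intro k hk
      obtain ⟨m, rfl⟩ : ∃ m : ι → ℕ, k = fun i => (m i : ℤ) + 1 :=
        ⟨fun i => (k i - 1).toNat, funext fun i => by have := hk i (by simp); simp only; omega⟩
      rw [limit_nat hL]
      simp
    | insert i s hi ih =>
      intro k hk
      have h2 := congrArg (lev (-1 : ℂ) (by simp)) (JP_neg L k i)
      have h3 := h1 k i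
      rw [map_neg] at h2
      rcases lt_trichotomy (k i) 0 with h | h | h
      · rw [ih _ fun j hj => ?_, h3, neg_inj] at h2
        · exact h2.symm
        · rcases eq_or_ne j i with rfl | hji
          · rw [Function.update_self]; omega
          · rw [Function.update_of_ne hji]; exact hk j (by simp [hj, hji])
      · rw [show Function.update k i (-k i) = k by rw [h, neg_zero, ← h, Function.update_eq_self]]
          at h2 h3
        rw [self_eq_neg.1 h2, self_eq_neg.1 h3]
      · refine ih k fun j hj => ?_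
        rcases eq_or_ne j i with rfl | hji
        · omega
        · exact hk j (by simp [hj, hji])
  exact key Finset.univ k fun i hi => absurd (Finset.mem_univ i) hi

end Pool.Agent.P.MP_ac4909_gt
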