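import Pool.Agent.P.MP_ac4909_gt.Words

/-! The plainly cabled evaluation of a closed diagram is a universal Laurent polynomial. -/

namespace Pool.Agent.P.MP_ac4909_gt

open Rev

variable {α : Type}

def IsUniv (n : α → ℕ) (w : List (Sl α)) (c : LaurentPolynomial ℤ) : Prop :=
  ∀ (K : Type) [Field K] (R : Type) [Ring R] [Algebra K R] (T : TL K R),
    T.ev (Col.plain n) w = algebraMap K R (lev T.a T.ha c)

/-- an element in every model -/
abbrev UnivFam : Type 1 :=
  ∀ (K : Type) [Field K] (R : Type) [Ring R] [Algebra K R], TL K R → R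

/-- universal combinations of crossingless diagrams without caps, of a given width -/
inductive UnivP : ℕ → UnivFam → Prop
  | one : UnivP 0 fun _ _ _ _ _ _ => 1
  | U (n j : ℕ) (x : UnivFam) : j ≤ n → UnivP n x → UnivP (n + 2) fun K _ R _ _ T => T.U j * x K R T
  | add (n : ℕ) (x y : UnivFam) : UnivP n x → UnivP n y →
      UnivP n fun K _ R _ _ T => x K R T + y K R T
  | smul (n : ℕ) (c : LaurentPolynomial ℤ) (x : UnivFam) : UnivP n x →
      UnivP n fun K _ R _ _ T => lev T.a T.ha c • x K R T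

theorem UnivP.congr {n : ℕ} {x y : UnivFam} (h : UnivP n x)
    (e : ∀ (K : Type) [Field K] (R : Type) [Ring R] [Algebra K R] (T : TL K R),
      y K R T = x K R T) : UnivP n y := by
  have : y = x := by
    funext K _ R _ _ T
    exact e K R T
  rwa [this]

theorem univ_lev_T {K : Type} [Field K] (a : K) (ha : a ≠ 0) (m : ℤ) :
    lev a ha (LaurentPolynomial.T m) = a ^ m := by
  simp [lev, LaurentPolynomial.eval₂_T]

theorem univ_lev_dlt {K : Type} [Field K] (a : K) (ha : a ≠ 0) :
    lev a ha (-LaurentPolynomial.T 2 - LaurentPolynomial.T (-2)) = dlt a := by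
  rw [map_sub, map_neg, univ_lev_T, univ_lev_T, dlt, zpow_neg, inv_pow, zpow_ofNat]

theorem univ_lev_zp {K : Type} [Field K] (a : K) (ha : a ≠ 0) (s : Bool) :
    lev a ha (LaurentPolynomial.T (if s then 1 else -1)) = zp a s := by
  rw [univ_lev_T]
  cases s <;> simp [zp]

theorem UnivP.C {n : ℕ} {x : UnivFam} (h : UnivP n x) :
    ∀ m j, n = m + 2 → j ≤ m → UnivP m fun K _ R _ _ T => T.C j * x K R T := by
  induction h with
  | one => intro m j h; omega
  | U n i x hi hx ih =>
    intro m j hm hj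
    obtain rfl : n = m := by omega
    rcases Nat.lt_trichotomy i j with h | rfl | h
    · rcases Nat.lt_or_ge (i + 1) j with h' | h'
      · obtain ⟨j, rfl⟩ : ∃ k, j = k + 2 := ⟨j - 2, by omega⟩
        obtain ⟨n, rfl⟩ : ∃ k, n = k + 2 := ⟨n - 2, by omega⟩
        exact (UnivP.U n i _ (by omega) (ih n j rfl (by omega))).congr fun K _ R _ _ T => by
          rw [← mul_assoc, T.CU i j (by omega), mul_assoc]
      · obtain rfl : j = i + 1 := by omega
        exact hx.congr fun K _ R _ _ T => by rw [← mul_assoc, T.zig, one_mul]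
    · exact (UnivP.smul n (-LaurentPolynomial.T 2 - LaurentPolynomial.T (-2)) _ hx).congr
        fun K _ R _ _ T => by rw [← mul_assoc, T.loop, univ_lev_dlt, Algebra.smul_def]
    · rcases Nat.lt_or_ge (j + 1) i with h' | h'
      · obtain ⟨i, rfl⟩ : ∃ k, i = k + 2 := ⟨i - 2, by omega⟩
        obtain ⟨n, rfl⟩ : ∃ k, n = k + 2 := ⟨n - 2, by omega⟩
        exact (UnivP.U n i _ (by omega) (ih n j rfl (by omega))).congr fun K _ R _ _ T => by
          rw [← mul_assoc, T.CU' j i (by omega), mul_assoc]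
      · obtain rfl : i = j + 1 := by omega
        exact hx.congr fun K _ R _ _ T => by rw [← mul_assoc, T.zag, one_mul]
  | add n x y _ _ ihx ihy =>
    intro m j hm hj
    exact (UnivP.add m _ _ (ihx m j hm hj) (ihy m j hm hj)).congr fun K _ R _ _ T => mul_add _ _ _
  | smul n c x _ ih =>
    intro m j hm hj
    exact (UnivP.smul m c _ (ih m j hm hj)).congr fun K _ R _ _ T => mul_smul_comm _ _ _

theorem UnivP.scalar {n : ℕ} {x : UnivFam} (h : UnivP n x) (hn : n = 0) :
    ∃ c, ∀ (K : Type) [Field K] (R : Type) [Ring R] [Algebra K R] (T : TL K R),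
      x K R T = algebraMap K R (lev T.a T.ha c) := by
  induction h with
  | one => exact ⟨1, fun K _ R _ _ T => by simp⟩
  | U n i x hi hx ih => omega
  | add n x y _ _ ihx ihy =>
    obtain ⟨c, hc⟩ := ihx hn
    obtain ⟨d, hd⟩ := ihy hn
    exact ⟨c + d, fun K _ R _ _ T => by beta_reduce; rw [hc, hd, map_add, map_add]⟩
  | smul n c x _ ih =>
    obtain ⟨d, hd⟩ := ih hn
    exact ⟨c * d, fun K _ R _ _ T => by beta_reduce; rw [hd, map_mul, map_mul, Algebra.smul_def]⟩

theorem UnivP.sig {n : ℕ} {x : UnivFam} (h : UnivP n x) (s : Bool) {p : ℕ} (hp : p + 2 ≤ n) :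
    UnivP n fun K _ R _ _ T => T.sig s p * x K R T := by
  obtain ⟨n, rfl⟩ : ∃ k, n = k + 2 := ⟨n - 2, by omega⟩
  exact (UnivP.add _ _ _ (UnivP.smul _ (LaurentPolynomial.T (if s then 1 else -1)) _ h)
    (UnivP.smul _ (LaurentPolynomial.T (if !s then 1 else -1)) _
      (UnivP.U n p _ (by omega) (h.C n p rfl (by omega))))).congr fun K _ R _ _ T => by
    rw [univ_lev_zp, univ_lev_zp, TL.sig, add_mul, smul_mul_assoc, smul_mul_assoc, one_mul,
      mul_assoc]

theorem UnivP.X {n : ℕ} {x : UnivFam} (h : UnivP n x) (s : Bool) (m : ℕ) :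
    ∀ p, p + m + 1 ≤ n → UnivP n fun K _ R _ _ T => T.X s m p * x K R T := by
  induction m with
  | zero => exact fun p _ => h.congr fun K _ R _ _ T => one_mul _
  | succ m ih =>
    exact fun p hp => ((ih (p + 1) (by omega)).sig s (p := p) (by omega)).congr
      fun K _ R _ _ T => mul_assoc _ _ _

theorem UnivP.crC {n : ℕ} (s : Bool) (m k : ℕ) : ∀ {x : UnivFam}, UnivP n x →
    ∀ p, p + m + k ≤ n → UnivP n fun K _ R _ _ T => T.crC s m k p * x K R T := by
  induction k with
  | zero => exact fun h p _ => h.congr fun K _ R _ _ T => one_mul _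
  | succ k ih =>
    exact fun h p hp => (ih (h.X s m p (by omega)) (p + 1) (by omega)).congr
      fun K _ R _ _ T => mul_assoc _ _ _

theorem UnivP.cupC (m : ℕ) : ∀ {n : ℕ} {x : UnivFam}, UnivP n x →
    ∀ p N, p ≤ n → N = n + 2 * m → UnivP N fun K _ R _ _ T => T.cupC m p * x K R T := by
  induction m with
  | zero =>
    rintro n x h p N - rfl
    exact h.congr fun K _ R _ _ T => one_mul _
  | succ m ih =>
    exact fun h p N hp hN => (ih (UnivP.U _ p _ hp h) (p + 1) N (by omega) (by omega)).congr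
      fun K _ R _ _ T => mul_assoc _ _ _

theorem UnivP.capC {N : ℕ} {x : UnivFam} (h : UnivP N x) (m : ℕ) :
    ∀ p n, p ≤ n → N = n + 2 * m → UnivP n fun K _ R _ _ T => T.capC m p * x K R T := by
  induction m with
  | zero =>
    rintro p n - rfl
    exact h.congr fun K _ R _ _ T => one_mul _
  | succ m ih =>
    exact fun p n hp hN => ((ih (p + 1) (n + 2) (by omega) (by omega)).C n p rfl hp).congr
      fun K _ R _ _ T => mul_assoc _ _ _

theorem UnivP.val [Rev α] (n : α → ℕ) (hn : ∀ x, n (rev x) = n x) (s : Sl α) {x : UnivFam}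
    (h : UnivP (wid n s.src) x) :
    UnivP (wid n s.tgt) fun K _ R _ _ T => T.val (Col.plain n) s * x K R T := by
  obtain ⟨l, g, r⟩ := s
  cases g with
  | cup o =>
    refine (h.cupC (n o) (wid n l) _ ?_ ?_).congr fun K _ R _ _ T => ?_
    · simp [Sl.src]
    · simp [Sl.src, Sl.tgt, Gen.src, Gen.tgt, hn]
      omega
    · simp [TL.val, TL.gval, Col.plain]
  | cap o =>
    refine (h.capC (n o) (wid n l) _ ?_ ?_).congr fun K _ R _ _ T => ?_
    · simp [Sl.tgt]
    · simp [Sl.src, Sl.tgt, Gen.src, Gen.tgt, hn]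
      omega
    · simp [TL.val, TL.gval, Col.plain]
  | cr a b s =>
    have e : wid n (Sl.tgt ⟨l, .cr a b s, r⟩) = wid n (Sl.src ⟨l, .cr a b s, r⟩) := by
      simp [Sl.src, Sl.tgt, Gen.src, Gen.tgt]
      omega
    rw [e]
    refine (h.crC s (n a) (n b) (wid n l) ?_).congr fun K _ R _ _ T => rfl
    simp [Sl.src, Gen.src]
    omega

theorem UnivP.ev [Rev α] (n : α → ℕ) (hn : ∀ x, n (rev x) = n x) (w : List (Sl α)) :
    ∀ {ρ ρ' : List α} {x : UnivFam}, Run ρ w ρ' → UnivP (wid n ρ) x →
      UnivP (wid n ρ') fun K _ R _ _ T => T.ev (Col.plain n) w * x K R T := by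
  induction w with
  | nil =>
    rintro ρ ρ' x rfl h
    exact h.congr fun K _ R _ _ T => one_mul _
  | cons s w ih =>
    rintro ρ ρ' x ⟨rfl, hw⟩ h
    exact (ih hw (h.val n hn s)).congr fun K _ R _ _ T => mul_assoc _ _ _

theorem exists_isUniv [Rev α] (n : α → ℕ) (hn : ∀ x, n (rev x) = n x) {w : List (Sl α)}
    (hw : Run [] w []) : ∃ c, IsUniv n w c := by
  obtain ⟨c, hc⟩ := (UnivP.ev n hn w hw UnivP.one).scalar rfl
  exact ⟨c, fun K _ R _ _ T => by rw [← hc K R T, mul_one]⟩

end Pool.Agent.P.MP_ac4909_gt
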