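import Pool.Agent.P.MP_ac4909_gt.Split
import Pool.Agent.P.MP_ac4909_gt.Univ

/-! The coloured Jones function as an integral Laurent polynomial; oddness and periodicity. -/

namespace Pool.Agent.P.MP_ac4909_gt

variable {ι : Type}

/-- bracket of the cable of `L` with `n i` parallel copies of component `i` -/
noncomputable def cf (L : List (Sl (Arc ι))) (n : ι →₀ ℕ) : LaurentPolynomial ℤ :=
  Classical.epsilon (IsUniv (fun a : Arc ι => n a.name) L)

noncomputable def beta (L : List (Sl (Arc ι))) : MvPolynomial ι ℤ →ₗ[ℤ] LaurentPolynomial ℤ :=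
  (MvPolynomial.basisMonomials ι ℤ).constr ℤ (cf L)

variable [Fintype ι]

noncomputable def chb (k : ι → ℤ) : MvPolynomial ι ℤ :=
  ∏ i, Polynomial.aeval (MvPolynomial.X i : MvPolynomial ι ℤ) (Polynomial.Chebyshev.S ℤ (k i - 1))

/-- coloured Jones function, `k i` the dimension of the colour -/
noncomputable def JP (L : List (Sl (Arc ι))) (k : ι → ℤ) : LaurentPolynomial ℤ := beta L (chb k)

variable [DecidableEq ι] {K : Type} [Field K] {R : Type} [Ring R] [Algebra K R]

open Polynomial.Chebyshev in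
theorem cheb_update (k : ι → ℤ) (i : ι) (z : ℤ) : chb (Function.update k i z) =
    Polynomial.aeval (MvPolynomial.X i : MvPolynomial ι ℤ) (S ℤ (z - 1)) *
      ∏ i' ∈ Finset.univ.erase i,
        Polynomial.aeval (MvPolynomial.X i' : MvPolynomial ι ℤ) (S ℤ (k i' - 1)) := by
  rw [chb, ← Finset.mul_prod_erase _ _ (Finset.mem_univ i), Function.update_self]
  congr 1
  refine Finset.prod_congr rfl fun i' hi' => ?_
  rw [Function.update_of_ne (Finset.ne_of_mem_erase hi')]

omit [DecidableEq ι] in
theorem cheb_monomial (j : ι → ℕ) : (∏ i, MvPolynomial.X i ^ j i : MvPolynomial ι ℤ) =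
    MvPolynomial.monomial (Finsupp.equivFunOnFinite.symm j) 1 := by
  rw [MvPolynomial.monomial_eq, MvPolynomial.C_1, one_mul, Finsupp.prod_fintype]
  · rfl
  · intro i
    exact pow_zero _

omit [DecidableEq ι] [Fintype ι] in
theorem cheb_beta (L : List (Sl (Arc ι))) (n : ι →₀ ℕ) :
    beta L (MvPolynomial.monomial n 1) = cf L n := by
  have := (MvPolynomial.basisMonomials ι ℤ).constr_basis ℤ (cf L) n
  rwa [MvPolynomial.coe_basisMonomials] at this

open Polynomial.Chebyshev in
theorem cheb_dvd_nat (a : ℤ) : ∀ k : ℕ, S ℤ a ∣ S ℤ (a + k) + S ℤ (a - k) ∧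
    S ℤ a ∣ S ℤ (a + (k + 1)) + S ℤ (a - (k + 1)) := by
  intro k
  induction k with
  | zero =>
    refine ⟨⟨2, by simp [mul_two]⟩, ⟨Polynomial.X, ?_⟩⟩
    have := S_add_one ℤ a
    simp only [Nat.cast_zero, zero_add]
    linear_combination this
  | succ k ih =>
    refine ⟨by exact_mod_cast ih.2, ?_⟩
    have h1 := S_add_two ℤ (a + k)
    have h2 := S_sub_two ℤ (a - k)
    have e : S ℤ (a + (((k + 1 : ℕ) : ℤ) + 1)) + S ℤ (a - (((k + 1 : ℕ) : ℤ) + 1)) =
        Polynomial.X * (S ℤ (a + (k + 1)) + S ℤ (a - (k + 1))) - (S ℤ (a + k) + S ℤ (a - k)) := by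
      rw [show a + (((k + 1 : ℕ) : ℤ) + 1) = a + k + 2 by push_cast; ring,
        show a - (((k + 1 : ℕ) : ℤ) + 1) = a - k - 2 by push_cast; ring, h1, h2,
        show a + ((k : ℤ) + 1) = a + k + 1 by ring, show a - ((k : ℤ) + 1) = a - k - 1 by ring]
      ring
    rw [e]
    exact dvd_sub (Dvd.dvd.mul_left ih.2 _) ih.1

open Polynomial.Chebyshev in
theorem cheb_dvd (a k : ℤ) : S ℤ a ∣ S ℤ (a + k) + S ℤ (a - k) := by
  obtain ⟨n, rfl | rfl⟩ := Int.eq_nat_or_neg k
  · exact (cheb_dvd_nat a n).1
  · rw [← sub_eq_add_neg, sub_neg_eq_add, add_comm]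
    exact (cheb_dvd_nat a n).1

theorem TL.ev_jcA (T : TL K R) {L : List (Sl (Arc ι))} (hL : IsFramedLink L) (m j : ι → ℕ)
    (sd : ι → Bool) (hadm : ∀ i, Adm T.a (m i)) :
    T.ev (T.jcA m j sd) L = algebraMap K R (lev T.a T.ha
      (beta L (chb (fun i => (m i : ℤ) + 1) * ∏ i, MvPolynomial.X i ^ j i))) := by
  induction hs : ∑ i, m i using Nat.strong_induction_on generalizing m j with
  | _ s ih =>
  by_cases hm : ∀ i, m i ≤ 1
  · have e1 : T.jcA m j sd = Col.plain (fun a : Arc ι => m a.name + j a.name) := by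
      rw [TL.jcA, Col.plain]
      congr 1
      funext a p
      rcases Nat.le_one_iff_eq_zero_or_eq_one.1 (hm a.name) with h | h <;> simp [h, TL.f]
    have e2 : chb (fun i => (m i : ℤ) + 1) = ∏ i, MvPolynomial.X i ^ m i := by
      refine Finset.prod_congr rfl fun i _ => ?_
      rcases Nat.le_one_iff_eq_zero_or_eq_one.1 (hm i) with h | h <;> simp [h]
    rw [e1, e2, ← Finset.prod_mul_distrib]
    simp only [← pow_add]
    rw [cheb_monomial, cheb_beta]
    exact Classical.epsilon_spec (exists_isUniv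
      (fun a : Arc ι => (Finsupp.equivFunOnFinite.symm fun i => m i + j i) a.name)
      (fun _ => rfl) hL.1) K R T
  · push Not at hm
    obtain ⟨i, hi⟩ := hm
    obtain ⟨k, hk⟩ : ∃ k, m i = k + 2 := ⟨m i - 2, by omega⟩
    have hadm' : ∀ z, z ≤ k + 2 → ∀ i', Adm T.a (Function.update m i z i') := by
      intro z hz i'
      by_cases h : i' = i
      · subst h
        rw [Function.update_self]
        exact (hadm i').mono (by omega)
      · rw [Function.update_of_ne h]
        exact hadm i'
    have hsum : ∀ z, z < k + 2 → ∑ i', Function.update m i z i' < s := by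
      intro z hz
      rw [← hs, Finset.sum_update_of_mem (Finset.mem_univ i),
        ← Finset.add_sum_erase _ _ (Finset.mem_univ i), Finset.sdiff_singleton_eq_erase]
      omega
    have h := T.split_closed hL hL.empty (Function.update m i (k + 1))
      (Function.update j i (j i + 1)) sd i k (j i) (Function.update_self ..)
      (Function.update_self ..) (hadm' _ (by omega)) (hk ▸ hadm i)
    simp only [Function.update_idem, Function.update_eq_self] at h
    rw [← hk, Function.update_eq_self] at h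
    simp only [IsFramedLink.empty, TL.jc, TL.ev_lift] at h
    rw [ih _ (hsum (k + 1) (by omega)) _ _ (hadm' _ (by omega)) rfl,
      ih _ (hsum k (by omega)) _ _ (hadm' _ (by omega)) rfl] at h
    rw [eq_sub_of_add_eq h.symm, ← map_sub, ← map_sub, ← map_sub]
    congr 3
    have c : ∀ z : ℕ, (fun i' => ((Function.update m i z i' : ℕ) : ℤ) + 1) =
        Function.update (fun i' => (m i' : ℤ) + 1) i ((z : ℤ) + 1) := by
      intro z
      funext i'
      by_cases h : i' = i
      · subst h
        simp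
      · simp [Function.update_of_ne h]
    have c0 : (fun i' => (m i' : ℤ) + 1) =
        Function.update (fun i' => (m i' : ℤ) + 1) i (((k + 2 : ℕ) : ℤ) + 1) := by
      rw [← hk, Function.update_eq_self (f := fun i' => (m i' : ℤ) + 1)]
    have d : (∏ i', MvPolynomial.X i' ^ Function.update j i (j i + 1) i' : MvPolynomial ι ℤ) =
        MvPolynomial.X i * ∏ i', MvPolynomial.X i' ^ j i' := by
      rw [← Finset.mul_prod_erase _ _ (Finset.mem_univ i),
        ← Finset.mul_prod_erase _ _ (Finset.mem_univ i), Function.update_self, pow_succ',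
        mul_assoc]
      congr 2
      refine Finset.prod_congr rfl fun i' hi' => ?_
      rw [Function.update_of_ne (Finset.ne_of_mem_erase hi')]
    rw [c, c, d, cheb_update, cheb_update]
    conv_rhs => rw [c0, cheb_update]
    simp only [add_sub_cancel_right]
    rw [show ((k + 2 : ℕ) : ℤ) = (k : ℤ) + 2 by push_cast; ring, Polynomial.Chebyshev.S_add_two]
    simp only [map_sub, map_mul, Polynomial.aeval_X, Nat.cast_add, Nat.cast_one]
    ring

theorem TL.ev_eq_JP (T : TL K R) {L : List (Sl (Arc ι))} (hL : IsFramedLink L) (m : ι → ℕ)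
    (hadm : ∀ i, Adm T.a (m i)) :
    T.ev (T.jcA m 0 fun _ => true) L =
      algebraMap K R (lev T.a T.ha (JP L fun i => (m i : ℤ) + 1)) := by
  rw [T.ev_jcA hL m 0 _ hadm, JP]
  simp

theorem JP_neg (L : List (Sl (Arc ι))) (k : ι → ℤ) (i : ι) :
    JP L (Function.update k i (-k i)) = -JP L k := by
  rw [JP, JP, ← map_neg, cheb_update, Polynomial.Chebyshev.S_neg_sub_one]
  conv_rhs => rw [← Function.update_eq_self i k, cheb_update]
  simp

theorem cheb_vanish [Nontrivial R] (T : TL K R) {L : List (Sl (Arc ι))} (hL : IsFramedLink L)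
    (N : ℕ) (hN : Adm T.a N) (hf : ∀ p, T.f N p = 0) (i : ι) (h : MvPolynomial ι ℤ) :
    lev T.a T.ha (beta L (Polynomial.aeval (MvPolynomial.X i : MvPolynomial ι ℤ)
      (Polynomial.Chebyshev.S ℤ N) * h)) = 0 := by
  induction h using MvPolynomial.induction_on' with
  | add p q hp hq => rw [mul_add, map_add, map_add, hp, hq, add_zero]
  | monomial n c =>
    have hadm : ∀ i', Adm T.a ((Pi.single i N : ι → ℕ) i') := by
      intro i'
      by_cases h : i' = i
      · subst h
        rwa [Pi.single_eq_same]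
      · rw [Pi.single_eq_of_ne h]
        exact hN.mono (Nat.zero_le _)
    have h1 := T.ev_jcA hL (Pi.single i N) n (fun _ => true) hadm
    have h2 : T.ev (T.jcA (Pi.single i N) n fun _ => true) L = 0 := by
      obtain ⟨s, hs, b, hb⟩ := hL.2.1 i
      obtain ⟨w₁, w₂, rfl⟩ := List.append_of_mem hs
      rw [TL.ev_append, TL.ev, TL.val, hb, TL.gval]
      simp [TL.jcA, hf]
    have h3 : chb (fun i' => (((Pi.single i N : ι → ℕ) i' : ℕ) : ℤ) + 1) =
        Polynomial.aeval (MvPolynomial.X i : MvPolynomial ι ℤ) (Polynomial.Chebyshev.S ℤ N) := by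
      rw [chb, Finset.prod_eq_single i]
      · simp
      · intro i' _ h
        simp [Pi.single_eq_of_ne h]
      · simp
    rw [h2, h3, cheb_monomial, Finsupp.equivFunOnFinite_symm_coe, eq_comm, map_eq_zero] at h1
    have e : (MvPolynomial.monomial n c : MvPolynomial ι ℤ) = c • MvPolynomial.monomial n 1 := by
      rw [MvPolynomial.smul_monomial, smul_eq_mul, mul_one]
    rw [e, mul_smul_comm, map_smul, map_zsmul, h1, smul_zero]

theorem TL.JP_period [Nontrivial R] (T : TL K R) {L : List (Sl (Arc ι))} (hL : IsFramedLink L)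
    (N : ℕ) (hN : Adm T.a N) (hf : ∀ p, T.f N p = 0) (k : ι → ℤ) (i : ι) :
    lev T.a T.ha (JP L (k + Pi.single i (2 * ((N : ℤ) + 1)))) = lev T.a T.ha (JP L k) := by
  have e : k + Pi.single i (2 * ((N : ℤ) + 1)) =
      Function.update k i (k i + 2 * ((N : ℤ) + 1)) := by
    funext i'
    by_cases h : i' = i
    · subst h
      simp
    · simp [Function.update_of_ne h, Pi.single_eq_of_ne h]
  obtain ⟨c, hc⟩ := cheb_dvd (N : ℤ) (k i + N + 1)
  rw [show (N : ℤ) - (k i + N + 1) = -k i - 1 by ring, Polynomial.Chebyshev.S_neg_sub_one,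
    show (N : ℤ) + (k i + N + 1) = k i + 2 * ((N : ℤ) + 1) - 1 by ring] at hc
  rw [e, ← sub_eq_zero, ← map_sub, JP, JP, ← map_sub, cheb_update]
  conv_lhs => rw [← Function.update_eq_self i k, cheb_update]
  simp only [Function.update_eq_self]
  rw [← sub_mul, ← map_sub, sub_eq_add_neg, hc,
    map_mul (Polynomial.aeval (MvPolynomial.X i : MvPolynomial ι ℤ)), mul_assoc]
  exact cheb_vanish T hL N hN hf i _

end Pool.Agent.P.MP_ac4909_gt
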