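import Pool.Agent.P.MP_ac4909_gt.TLRot

/-! Jones-Wenzl elements. -/

namespace Pool.Agent.P.MP_ac4909_gt

variable {K : Type} [Field K] {R : Type} [Ring R] [Algebra K R]

theorem Adm.mono {a : K} {m n : ℕ} (h : Adm a n) (hm : m ≤ n) : Adm a m :=
  fun j hj => h j (hj.trans_le hm)

theorem adm_one (a : K) : Adm a 1 := fun j hj => by
  obtain rfl : j = 0 := by omega
  exact one_ne_zero

namespace TL
variable (T : TL K R)

theorem jw_f_two (m p : ℕ) : T.f (m + 2) p = T.f (m + 1) p -
    kap T.a m • (T.f (m + 1) p * T.U (p + m) * T.C (p + m) * T.f (m + 1) p) := rfl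

theorem f_mul_of_C {n p : ℕ} {y : R} (h : ∀ j, j + 2 ≤ n → T.C (p + j) * y = 0) :
    T.f n p * y = y := by
  induction n with
  | zero => exact one_mul y
  | succ n ih =>
    cases n with
    | zero => exact one_mul y
    | succ m =>
      have h1 := ih fun j hj => h j (by omega)
      rw [jw_f_two, sub_mul, smul_mul_assoc, mul_assoc _ _ y, h1, mul_assoc _ _ y, h m le_rfl,
        mul_zero, smul_zero, sub_zero]

theorem mul_f_of_U {n p : ℕ} {y : R} (h : ∀ j, j + 2 ≤ n → y * T.U (p + j) = 0) :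
    y * T.f n p = y := by
  induction n with
  | zero => exact mul_one y
  | succ n ih =>
    cases n with
    | zero => exact mul_one y
    | succ m =>
      have h1 := ih fun j hj => h j (by omega)
      rw [jw_f_two, mul_sub, mul_smul_comm, ← mul_assoc, ← mul_assoc, ← mul_assoc, h1, h m le_rfl,
        zero_mul, zero_mul, smul_zero, sub_zero]

theorem jw_f_C (n p j : ℕ) : T.f n p * T.C (p + n + j) = T.C (p + n + j) * T.f n p :=
  (T.loc_f n).far T.loc_C p j

theorem jw_f_U (n p j : ℕ) : T.f n p * T.U (p + n + j) = T.U (p + n + j) * T.f n p :=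
  (T.loc_f n).far T.loc_U p j

theorem jw_ptr {m : ℕ} (h : Adm T.a (m + 1)) (p : ℕ) (hi : T.f m p * T.f m p = T.f m p) :
    T.C (p + m) * T.f (m + 1) p * T.U (p + m) = (Dl T.a (m + 1) / Dl T.a m) • T.f m p := by
  cases m with
  | zero =>
    change T.C p * 1 * T.U p = (dlt T.a / 1) • (1 : R)
    rw [mul_one, div_one, T.loop, Algebra.algebraMap_eq_smul_one]
  | succ m =>
    have hC : T.C (p + (m + 1)) * T.f (m + 1) p = T.f (m + 1) p * T.C (p + (m + 1)) :=
      (T.jw_f_C (m + 1) p 0).symm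
    have hU : T.f (m + 1) p * T.U (p + (m + 1)) = T.U (p + (m + 1)) * T.f (m + 1) p :=
      T.jw_f_U (m + 1) p 0
    have z1 : T.C (p + (m + 1)) * T.U (p + m) = 1 := T.zig (p + m)
    have z2 : T.C (p + m) * T.U (p + (m + 1)) = 1 := T.zag (p + m)
    have e1 : T.C (p + (m + 1)) * T.f (m + 1) p * T.U (p + (m + 1)) = dlt T.a • T.f (m + 1) p := by
      rw [hC, mul_assoc, T.loop, Algebra.algebraMap_eq_smul_one, mul_smul_comm, mul_one]
    have e2 : T.C (p + (m + 1)) * (T.f (m + 1) p * T.U (p + m) * T.C (p + m) * T.f (m + 1) p) *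
        T.U (p + (m + 1)) = T.f (m + 1) p := by
      calc _ = T.C (p + (m + 1)) * T.f (m + 1) p * T.U (p + m) *
            (T.C (p + m) * (T.f (m + 1) p * T.U (p + (m + 1)))) := by simp only [mul_assoc]
        _ = T.f (m + 1) p * (T.C (p + (m + 1)) * T.U (p + m)) *
            (T.C (p + m) * T.U (p + (m + 1)) * T.f (m + 1) p) := by
          rw [hC, hU]; simp only [mul_assoc]
        _ = _ := by rw [z1, z2, mul_one, one_mul, hi]
    have hD : Dl T.a (m + 1) ≠ 0 := h (m + 1) (by omega)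
    rw [jw_f_two, mul_sub, sub_mul, e1, mul_smul_comm, smul_mul_assoc, e2, ← sub_smul]
    congr 1
    change dlt T.a - Dl T.a m / Dl T.a (m + 1) =
      (dlt T.a * Dl T.a (m + 1) - Dl T.a m) / Dl T.a (m + 1)
    field_simp

theorem jw_kill (p n : ℕ) (h : Adm T.a n) : (∀ j, j + 2 ≤ n → T.C (p + j) * T.f n p = 0) ∧
    ∀ j, j + 2 ≤ n → T.f n p * T.U (p + j) = 0 := by
  induction n using Nat.strong_induction_on with
  | _ n ih =>
    match n, h, ih with
    | 0, _, _ => exact ⟨fun j hj => by omega, fun j hj => by omega⟩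
    | 1, _, _ => exact ⟨fun j hj => by omega, fun j hj => by omega⟩
    | m + 2, h, ih =>
      obtain ⟨c1, u1⟩ := ih (m + 1) (by omega) (h.mono (by omega))
      obtain ⟨c0, -⟩ := ih m (by omega) (h.mono (by omega))
      have hp := T.jw_ptr (h.mono (Nat.le_succ _)) p (T.f_mul_of_C c0)
      have hk : kap T.a m * (Dl T.a (m + 1) / Dl T.a m) = 1 := by
        have a0 : Dl T.a m ≠ 0 := h m (by omega)
        have a1 : Dl T.a (m + 1) ≠ 0 := h (m + 1) (by omega)
        rw [kap]
        field_simp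
      have l : T.f m p * T.f (m + 1) p = T.f (m + 1) p :=
        T.f_mul_of_C fun j hj => c1 j (by omega)
      have r : T.f (m + 1) p * T.f m p = T.f (m + 1) p :=
        T.mul_f_of_U fun j hj => u1 j (by omega)
      have hC : T.f m p * T.C (p + m) = T.C (p + m) * T.f m p := T.jw_f_C m p 0
      have hU : T.f m p * T.U (p + m) = T.U (p + m) * T.f m p := T.jw_f_U m p 0
      constructor
      · intro j hj
        rw [jw_f_two, mul_sub, mul_smul_comm, ← mul_assoc, ← mul_assoc, ← mul_assoc]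
        rcases Nat.lt_or_ge j m with hlt | hge
        · rw [c1 j (by omega), zero_mul, zero_mul, zero_mul, smul_zero, sub_zero]
        · obtain rfl : j = m := by omega
          rw [hp, smul_mul_assoc, smul_mul_assoc, smul_smul, hk, one_smul, hC, mul_assoc, l,
            sub_self]
      · intro j hj
        rw [jw_f_two, sub_mul, smul_mul_assoc, mul_assoc, mul_assoc, mul_assoc]
        rcases Nat.lt_or_ge j m with hlt | hge
        · rw [u1 j (by omega), mul_zero, mul_zero, mul_zero, smul_zero, sub_zero]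
        · obtain rfl : j = m := by omega
          rw [← mul_assoc (T.C (p + j)), hp, mul_smul_comm, mul_smul_comm, smul_smul, hk, one_smul,
            ← hU, ← mul_assoc, r, sub_self]

theorem C_mul_f {n j : ℕ} (h : Adm T.a n) (hj : j + 2 ≤ n) (p : ℕ) :
    T.C (p + j) * T.f n p = 0 := (T.jw_kill p n h).1 j hj

theorem f_mul_U {n j : ℕ} (h : Adm T.a n) (hj : j + 2 ≤ n) (p : ℕ) :
    T.f n p * T.U (p + j) = 0 := (T.jw_kill p n h).2 j hj

theorem f_mul_f {n m j : ℕ} (h : Adm T.a n) (hm : m + j ≤ n) (p : ℕ) :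
    T.f n p * T.f m (p + j) = T.f n p :=
  T.mul_f_of_U fun i hi => by
    rw [add_assoc]
    exact T.f_mul_U h (by omega) p

theorem f_mul_f' {n m j : ℕ} (h : Adm T.a n) (hm : m + j ≤ n) (p : ℕ) :
    T.f m (p + j) * T.f n p = T.f n p :=
  T.f_mul_of_C fun i hi => by
    rw [add_assoc]
    exact T.C_mul_f h (by omega) p

theorem f_idem {n : ℕ} (h : Adm T.a n) (p : ℕ) : T.f n p * T.f n p = T.f n p :=
  T.f_mul_of_C fun _ hj => T.C_mul_f h hj p

theorem f_ptr {m : ℕ} (h : Adm T.a (m + 1)) (p : ℕ) :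
    T.C (p + m) * T.f (m + 1) p * T.U (p + m) = (Dl T.a (m + 1) / Dl T.a m) • T.f m p :=
  T.jw_ptr h p (T.f_idem (h.mono (Nat.le_succ m)) p)

theorem f_closure {n : ℕ} (h : Adm T.a n) (p : ℕ) :
    T.capC n p * T.f n p * T.cupC n p = algebraMap K R (Dl T.a n) := by
  induction n with
  | zero =>
    change (1 : R) * 1 * 1 = algebraMap K R 1
    rw [map_one, mul_one, mul_one]
  | succ n ih =>
    have a0 : Dl T.a n ≠ 0 := h n (Nat.lt_succ_self n)
    calc _ = T.capC n p * (T.C (p + n) * T.f (n + 1) p * T.U (p + n)) * T.cupC n p := by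
          rw [capC_add, cupC_add, capC_one, cupC_one]
          simp only [mul_assoc]
      _ = _ := by
          rw [T.f_ptr h, mul_smul_comm, smul_mul_assoc, ih (h.mono (Nat.le_succ n)),
            Algebra.smul_def, ← map_mul, div_mul_cancel₀ _ a0]

theorem rot_f {n : ℕ} (h : Adm T.a n) : T.Rot n n (T.f n) (T.f n) := fun p => by
  have hA : T.f n (p + n) * (T.f n p * T.cupC n p) = T.f n p * T.cupC n p :=
    T.f_mul_of_C fun j hj => by
      obtain ⟨i, rfl⟩ : ∃ i, n = i + j + 2 := ⟨n - (j + 2), by omega⟩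
      have e : T.U (p + i) * T.cupC (i + j) p =
        T.C (p + (i + j + 2) + j) * T.cupC (i + j + 2) p := T.rot_U rfl p
      rw [← mul_assoc, ← jw_f_C, mul_assoc, ← e, ← mul_assoc, T.f_mul_U h (by omega), zero_mul]
  have hB : T.f n p * (T.f n (p + n) * T.cupC n p) = T.f n (p + n) * T.cupC n p :=
    T.f_mul_of_C fun j hj => by
      obtain ⟨i, rfl⟩ : ∃ i, n = j + i + 2 := ⟨n - (j + 2), by omega⟩
      have e : T.C (p + j) * T.cupC (j + i + 2) p =
        T.U (p + (j + i) + i) * T.cupC (j + i) p := T.rot_C rfl p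
      rw [← mul_assoc, T.loc_C.far' (T.loc_f _) (p + j) (p + (j + i + 2)) (p + (j + i))
        (by omega) (by omega), mul_assoc, e, ← mul_assoc, T.f_mul_U h (by omega), zero_mul]
  have hc : T.f n p * T.f n (p + n) = T.f n (p + n) * T.f n p := (T.loc_f n).far (T.loc_f n) p 0
  rw [← hA, ← mul_assoc, ← hc, mul_assoc, hB]

end TL

end Pool.Agent.P.MP_ac4909_gt
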