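import Pool.Agent.P.MP_ac4909_gt.VDefs
import Pool.Agent.P.MP_ac4909_gt.JW

/-! The vertex model is a Temperley-Lieb model; basic properties of the vectors `I`. -/

namespace Pool.Agent.P.MP_ac4909_gt

variable {K : Type} [Field K] {R : Type} [Ring R] [Algebra K R]

/-- prepend a letter -/
def vmCons (b : Bool) (x : ℕ → Bool) : ℕ → Bool
  | 0 => b
  | n + 1 => x n

def vmUp (K : Type) [Field K] (b : Bool) : Module.End K ((ℕ → Bool) → K) where
  toFun F x := if x 0 = b then F (fun n => x (n + 1)) else 0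
  map_add' F G := by
    funext x
    simp only [Pi.add_apply]
    split_ifs
    · rfl
    · rw [add_zero]
  map_smul' c F := by
    funext x
    simp only [Pi.smul_apply, RingHom.id_apply]
    split_ifs
    · rfl
    · rw [smul_zero]

def vmDown (K : Type) [Field K] (b : Bool) : Module.End K ((ℕ → Bool) → K) where
  toFun F x := F (vmCons b x)
  map_add' _ _ := rfl
  map_smul' _ _ := rfl

theorem vmCons_eta (x : ℕ → Bool) : vmCons (x 0) (fun n => x (n + 1)) = x := by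
  funext n
  cases n <;> rfl

theorem exists_lv (K : Type) [Field K] : Nonempty (Lv (Module.End K ((ℕ → Bool) → K))) := by
  refine ⟨⟨vmUp K false, vmUp K true, vmDown K false, vmDown K true, rfl, rfl, rfl, rfl, ?_⟩⟩
  refine LinearMap.ext fun F => funext fun x => ?_
  change (if x 0 = false then F (vmCons false fun n => x (n + 1)) else 0) +
    (if x 0 = true then F (vmCons true fun n => x (n + 1)) else 0) = F x
  have h := vmCons_eta x
  cases h0 : x 0
  · rw [h0] at h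
    simp [h]
  · rw [h0] at h
    simp [h]

namespace Lv
variable (V : Lv R)

theorem vm_ZZ (x : R) : V.Z' * (V.Z * x) = x := by rw [← mul_assoc, V.ZZ, one_mul]

theorem vm_OO (x : R) : V.O' * (V.O * x) = x := by rw [← mul_assoc, V.OO, one_mul]

theorem vm_ZO (x : R) : V.Z' * (V.O * x) = 0 := by rw [← mul_assoc, V.ZO, zero_mul]

theorem vm_OZ (x : R) : V.O' * (V.Z * x) = 0 := by rw [← mul_assoc, V.OZ, zero_mul]

theorem Phi_one : V.Phi 1 = 1 := by rw [Phi, mul_one, mul_one, V.sum]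

theorem Phi_mul (x y : R) : V.Phi (x * y) = V.Phi x * V.Phi y := by
  simp only [Phi, mul_add, add_mul, mul_assoc, vm_ZZ, vm_OO, vm_ZO, vm_OZ, mul_zero, add_zero,
    zero_add]

theorem Phi_add (x y : R) : V.Phi (x + y) = V.Phi x + V.Phi y := by
  simp only [Phi, mul_add, add_mul]
  abel

theorem Phi_smul (c : K) (x : R) : V.Phi (c • x) = c • V.Phi x := by
  simp only [Phi, mul_smul_comm, smul_mul_assoc, smul_add]

theorem Phi_mul_Z (x : R) : V.Phi x * V.Z = V.Z * x := by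
  simp only [Phi, add_mul, mul_assoc, V.ZZ, V.OZ, mul_zero, add_zero, mul_one]

theorem Phi_mul_O (x : R) : V.Phi x * V.O = V.O * x := by
  simp only [Phi, add_mul, mul_assoc, V.OO, V.ZO, mul_zero, zero_add, mul_one]

theorem vm_Z_mul_Phi (x : R) : V.Z' * V.Phi x = x * V.Z' := by
  simp only [Phi, mul_add, mul_assoc, vm_ZZ, vm_ZO, add_zero]

theorem vm_O_mul_Phi (x : R) : V.O' * V.Phi x = x * V.O' := by
  simp only [Phi, mul_add, mul_assoc, vm_OO, vm_OZ, zero_add]

theorem vm_it_mul (i : ℕ) (x y : R) : V.Phi^[i] (x * y) = V.Phi^[i] x * V.Phi^[i] y := by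
  induction i with
  | zero => rfl
  | succ i ih => simp only [Function.iterate_succ_apply', ih, Phi_mul]

theorem vm_it_smul_one (i : ℕ) (c : K) : V.Phi^[i] (c • (1 : R)) = c • (1 : R) := by
  induction i with
  | zero => rfl
  | succ i ih => rw [Function.iterate_succ_apply', ih, Phi_smul, Phi_one]

theorem vm_it_one (i : ℕ) : V.Phi^[i] (1 : R) = 1 := Function.iterate_fixed V.Phi_one i

theorem vm_it_far (i d : ℕ) (x : R) :
    V.Phi^[i + d + 2] x = V.Phi^[i] (V.Phi (V.Phi (V.Phi^[d] x))) := by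
  rw [add_assoc, Function.iterate_add_apply, Function.iterate_succ_apply',
    Function.iterate_succ_apply']

theorem vm_far_U (c : K) (x : R) : V.Phi (V.Phi x) * (V.Z * V.O - c • (V.O * V.Z)) =
    (V.Z * V.O - c • (V.O * V.Z)) * x := by
  simp only [mul_sub, sub_mul, mul_smul_comm, smul_mul_assoc]
  rw [← mul_assoc, Phi_mul_Z, mul_assoc, Phi_mul_O, ← mul_assoc (V.Phi _), Phi_mul_O,
    mul_assoc V.O, Phi_mul_Z, mul_assoc, mul_assoc]

theorem vm_far_C (c : K) (x : R) : (V.Z' * V.O' - c • (V.O' * V.Z')) * V.Phi (V.Phi x) =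
    x * (V.Z' * V.O' - c • (V.O' * V.Z')) := by
  simp only [mul_sub, sub_mul, mul_smul_comm, smul_mul_assoc]
  rw [mul_assoc, vm_O_mul_Phi, ← mul_assoc, vm_Z_mul_Phi, mul_assoc V.O', vm_Z_mul_Phi,
    ← mul_assoc V.O', vm_O_mul_Phi, mul_assoc, mul_assoc]

theorem vm_loop (a : K) : (V.Z' * V.O' - a⁻¹ ^ 2 • (V.O' * V.Z')) *
    (V.Z * V.O - a ^ 2 • (V.O * V.Z)) = dlt a • (1 : R) := by
  simp only [mul_sub, sub_mul, mul_smul_comm, smul_mul_assoc, mul_assoc, vm_ZZ, vm_OO, vm_ZO,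
    vm_OZ, mul_zero, V.ZZ, V.OO, smul_zero, dlt, sub_smul, neg_smul]
  abel_nf

theorem vm_zig {a : K} (ha : a ≠ 0) : V.Phi (V.Z' * V.O' - a⁻¹ ^ 2 • (V.O' * V.Z')) *
    (V.Z * V.O - a ^ 2 • (V.O * V.Z)) = 1 := by
  rw [mul_sub, mul_smul_comm, ← mul_assoc, ← mul_assoc, Phi_mul_Z, Phi_mul_O]
  simp only [mul_sub, sub_mul, mul_smul_comm, smul_mul_assoc, mul_assoc, V.ZZ, V.OO, V.ZO, V.OZ,
    mul_zero, mul_one, smul_zero, sub_zero, zero_sub, smul_neg, smul_smul, sub_neg_eq_add]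
  rw [← mul_pow, mul_inv_cancel₀ ha, one_pow, one_smul, V.sum]

theorem vm_zag {a : K} (ha : a ≠ 0) : (V.Z' * V.O' - a⁻¹ ^ 2 • (V.O' * V.Z')) *
    V.Phi (V.Z * V.O - a ^ 2 • (V.O * V.Z)) = 1 := by
  rw [sub_mul, smul_mul_assoc, mul_assoc, mul_assoc, vm_Z_mul_Phi, vm_O_mul_Phi]
  simp only [mul_sub, sub_mul, mul_smul_comm, smul_mul_assoc, mul_assoc, vm_ZZ, vm_OO, vm_ZO,
    vm_OZ, smul_zero, sub_zero, zero_sub, smul_neg, smul_smul, sub_neg_eq_add]
  rw [← mul_pow, inv_mul_cancel₀ ha, one_pow, one_smul, add_comm, V.sum]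

/-- the vertex model -/
def tl (a : K) (ha : a ≠ 0) : TL K R where
  a := a
  ha := ha
  U := V.U a
  C := V.C a
  loop i := by rw [C, U, ← vm_it_mul, vm_loop, vm_it_smul_one, Algebra.algebraMap_eq_smul_one]
  zig i := by rw [C, U, Function.iterate_succ_apply, ← vm_it_mul, V.vm_zig ha, vm_it_one]
  zag i := by rw [C, U, Function.iterate_succ_apply, ← vm_it_mul, V.vm_zag ha, vm_it_one]
  UU i j h := by
    obtain ⟨d, rfl⟩ := Nat.exists_eq_add_of_le h
    simp only [U]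
    rw [vm_it_far, Function.iterate_add_apply, ← vm_it_mul, ← vm_it_mul, vm_far_U]
  CC i j h := by
    obtain ⟨d, rfl⟩ := Nat.exists_eq_add_of_le h
    simp only [C]
    rw [vm_it_far, Function.iterate_add_apply, ← vm_it_mul, ← vm_it_mul, vm_far_C]
  CU i j h := by
    obtain ⟨d, rfl⟩ := Nat.exists_eq_add_of_le h
    simp only [U, C]
    rw [vm_it_far, Function.iterate_add_apply, ← vm_it_mul, ← vm_it_mul, vm_far_U]
  CU' i j h := by
    obtain ⟨d, rfl⟩ := Nat.exists_eq_add_of_le h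
    simp only [U, C]
    rw [vm_it_far, Function.iterate_add_apply, ← vm_it_mul, ← vm_it_mul, vm_far_C]

variable (a : K) (ha : a ≠ 0)

theorem U_zero : (V.tl a ha).U 0 = V.Z * V.O - a ^ 2 • (V.O * V.Z) := rfl

theorem vm_C_zero : (V.tl a ha).C 0 = V.Z' * V.O' - a⁻¹ ^ 2 • (V.O' * V.Z') := rfl

theorem C_ZZ : (V.tl a ha).C 0 * (V.Z * V.Z) = 0 := by
  simp only [vm_C_zero, sub_mul, smul_mul_assoc, mul_assoc, vm_ZZ, vm_OZ, V.OZ, mul_zero,
    smul_zero, sub_zero]

theorem C_OO : (V.tl a ha).C 0 * (V.O * V.O) = 0 := by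
  simp only [vm_C_zero, sub_mul, smul_mul_assoc, mul_assoc, vm_OO, vm_ZO, V.ZO, mul_zero,
    smul_zero, sub_zero]

theorem C_ZO : (V.tl a ha).C 0 * (V.Z * V.O) = -(a⁻¹ ^ 2) • (1 : R) := by
  simp only [vm_C_zero, sub_mul, smul_mul_assoc, mul_assoc, vm_ZZ, vm_OZ, V.OO, mul_zero,
    zero_sub, neg_smul]

theorem C_OZ : (V.tl a ha).C 0 * (V.O * V.Z) = 1 := by
  simp only [vm_C_zero, sub_mul, smul_mul_assoc, mul_assoc, vm_OO, vm_ZO, V.ZZ, mul_zero,
    smul_zero, sub_zero]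

theorem vm_U_succ (i : ℕ) : (V.tl a ha).U (i + 1) = V.Phi ((V.tl a ha).U i) :=
  Function.iterate_succ_apply' _ _ _

theorem vm_C_succ (i : ℕ) : (V.tl a ha).C (i + 1) = V.Phi ((V.tl a ha).C i) :=
  Function.iterate_succ_apply' _ _ _

theorem loc_succ {m n : ℕ} {x : ℕ → R} (hx : (V.tl a ha).Loc m n x) (p : ℕ) :
    x (p + 1) = V.Phi (x p) := by
  induction hx with
  | one m => exact V.Phi_one.symm
  | U m j _ => simp only [Nat.add_right_comm p 1, vm_U_succ]
  | C m j _ => simp only [Nat.add_right_comm p 1, vm_C_succ]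
  | mul _ _ ih1 ih2 => simp only [ih1, ih2, Phi_mul]
  | add _ _ ih1 ih2 => simp only [ih1, ih2, Phi_add]
  | smul c _ ih => simp only [ih, Phi_smul]
  | zero m n => simp only [Phi, mul_zero, zero_mul, add_zero]

theorem loc_mul_Z {m n : ℕ} {x : ℕ → R} (hx : (V.tl a ha).Loc m n x) (p : ℕ) :
    x (p + 1) * V.Z = V.Z * x p := by rw [V.loc_succ a ha hx, Phi_mul_Z]

theorem loc_mul_O {m n : ℕ} {x : ℕ → R} (hx : (V.tl a ha).Loc m n x) (p : ℕ) :
    x (p + 1) * V.O = V.O * x p := by rw [V.loc_succ a ha hx, Phi_mul_O]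

theorem loc_mul_I {m n : ℕ} {x : ℕ → R} (hx : (V.tl a ha).Loc m n x) (k : ℕ) (j : ℤ) (p : ℕ) :
    x (p + k) * V.I a k j = V.I a k j * x p := by
  induction k generalizing j with
  | zero =>
    unfold I
    split_ifs
    · rw [mul_one, one_mul, add_zero]
    · rw [mul_zero, zero_mul]
  | succ k ih =>
    rw [I, mul_add, add_mul, mul_smul_comm, smul_mul_assoc, ← mul_assoc, ← mul_assoc,
      ← add_assoc, V.loc_mul_Z a ha hx, V.loc_mul_O a ha hx, mul_assoc, mul_assoc, ih, ih,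
      mul_assoc, mul_assoc]

theorem I_eq_zero (m : ℕ) {j : ℤ} (h : j < 0 ∨ (m : ℤ) < j) : V.I a m j = 0 := by
  induction m generalizing j with
  | zero => exact if_neg (by omega)
  | succ m ih => rw [I, ih (by omega), ih (by omega), mul_zero, mul_zero, smul_zero, add_zero]

include ha in
/-- recursion on the last letter -/
theorem I_succ' (m : ℕ) (j : ℤ) :
    V.I a (m + 1) j = V.I a m (j - 1) * V.O + a ^ (-2 * j) • (V.I a m j * V.Z) := by
  induction m generalizing j with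
  | zero =>
    simp only [I]
    by_cases h0 : j = 0
    · simp [h0]
    · by_cases h1 : j = 1
      · simp [h1]
      · simp [h0, sub_ne_zero.2 h1]
  | succ m ih =>
    have e : ∀ (n : ℕ) (i : ℤ), V.I a (n + 1) i =
        V.Z * V.I a n i + a ^ (-2 * ((n : ℤ) + 1 - i)) • (V.O * V.I a n (i - 1)) := fun _ _ => rfl
    conv_lhs => rw [e, ih j, ih (j - 1)]
    conv_rhs => rw [e, e]
    simp only [mul_add, add_mul, mul_smul_comm, smul_mul_assoc, smul_add, smul_smul, mul_assoc,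
      ← zpow_add₀ ha]
    rw [show -2 * (((m + 1 : ℕ) : ℤ) + 1 - j) + -2 * (j - 1) = -2 * j + -2 * ((m : ℤ) + 1 - j) by
        push_cast; ring,
      show ((m + 1 : ℕ) : ℤ) + 1 - j = (m : ℤ) + 1 - (j - 1) by push_cast; ring]
    abel

theorem C_mul_I {m k : ℕ} (hk : k + 2 ≤ m) (j : ℤ) : (V.tl a ha).C k * V.I a m j = 0 := by
  induction k generalizing m j with
  | zero =>
    obtain ⟨m, rfl⟩ : ∃ n, m = n + 2 := ⟨m - 2, by omega⟩
    have e : ∀ x y z : R, (V.tl a ha).C 0 * (x * (y * z)) = (V.tl a ha).C 0 * (x * y) * z :=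
      fun x y z => by simp only [mul_assoc]
    rw [I, I, I]
    simp only [mul_add, mul_smul_comm, smul_add]
    rw [e, e, e, e]
    simp only [C_ZZ, C_OO, C_ZO, C_OZ, zero_mul, smul_zero, zero_add,
      add_zero, smul_mul_assoc, one_mul, smul_smul]
    rw [← add_smul, show -2 * (((m + 1 : ℕ) : ℤ) + 1 - j) = -2 * ((m : ℤ) + 1 - j) + -2 by
      push_cast; ring, zpow_add₀ ha, zpow_neg a 2, inv_pow, zpow_ofNat, mul_neg, neg_add_cancel,
      zero_smul]
  | succ k ih =>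
    obtain ⟨m, rfl⟩ : ∃ n, m = n + 1 := ⟨m - 1, by omega⟩
    rw [I, vm_C_succ, mul_add, mul_smul_comm, ← mul_assoc, ← mul_assoc, Phi_mul_Z, Phi_mul_O,
      mul_assoc, mul_assoc, ih (by omega), ih (by omega), mul_zero, mul_zero, smul_zero, add_zero]

theorem f_mul_I (m : ℕ) (j : ℤ) : (V.tl a ha).f m 0 * V.I a m j = V.I a m j :=
  (V.tl a ha).f_mul_of_C fun k hk => by rw [zero_add, V.C_mul_I a ha hk]

end Lv

end Pool.Agent.P.MP_ac4909_gt
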