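import Pool.Agent.P.MP_ac4909_gt.Path
import Pool.Agent.P.MP_ac4909_gt.Ev

/-! Consequences of unitarity. -/

namespace Pool.Agent.P.MP_ac4909_gt

section BoundAux

variable {V : Type} [NormedAddCommGroup V] [InnerProductSpace ℂ V] {x y x' y' : Module.End ℂ V}

/-- `y` is the adjoint of `x` -/
def BoundAdj (x y : Module.End ℂ V) : Prop := ∀ u v : V, inner ℂ (x u) v = inner ℂ u (y v)

/-- `c` bounds the operator `x` -/
def BoundBd (x : Module.End ℂ V) (c : ℝ) : Prop := ∀ v : V, ‖x v‖ ≤ c * ‖v‖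

theorem BoundAdj.one : BoundAdj (1 : Module.End ℂ V) 1 := fun _ _ => rfl

theorem BoundAdj.mul (h : BoundAdj x y) (h' : BoundAdj x' y') : BoundAdj (x * x') (y' * y) := by
  intro u v
  rw [Module.End.mul_apply, Module.End.mul_apply, h, h']

theorem BoundAdj.add (h : BoundAdj x y) (h' : BoundAdj x' y') : BoundAdj (x + x') (y + y') := by
  intro u v
  rw [LinearMap.add_apply, LinearMap.add_apply, inner_add_left, inner_add_right, h, h']

theorem BoundAdj.sub (h : BoundAdj x y) (h' : BoundAdj x' y') : BoundAdj (x - x') (y - y') := by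
  intro u v
  rw [LinearMap.sub_apply, LinearMap.sub_apply, inner_sub_left, inner_sub_right, h, h']

theorem BoundAdj.smul (h : BoundAdj x y) (c : ℂ) :
    BoundAdj (c • x) ((starRingEnd ℂ) c • y) := by
  intro u v
  rw [LinearMap.smul_apply, LinearMap.smul_apply, inner_smul_left, inner_smul_right, h]

theorem BoundAdj.symm (h : BoundAdj x y) : BoundAdj y x := by
  intro u v
  rw [← inner_conj_symm, ← h, inner_conj_symm]

theorem BoundAdj.sq_le (h : BoundAdj x y) {z : ℂ} (hz : y * x = algebraMap ℂ _ z) (v : V) :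
    ‖x v‖ ^ 2 ≤ ‖z‖ * ‖v‖ ^ 2 := by
  have h1 : inner ℂ (x v) (x v) = z * inner ℂ v v := by
    rw [h, ← Module.End.mul_apply, hz, Module.algebraMap_end_apply, inner_smul_right]
  have h2 := congrArg norm h1
  rw [norm_mul, inner_self_eq_norm_sq_to_K, inner_self_eq_norm_sq_to_K, norm_pow, norm_pow,
    RCLike.norm_ofReal, RCLike.norm_ofReal, abs_norm, abs_norm] at h2
  exact h2.le

theorem BoundAdj.bd_of (h : BoundAdj x y) {z : ℂ} (hz : y * x = algebraMap ℂ _ z) {c : ℝ}
    (hc : 0 ≤ c) (hzc : ‖z‖ ≤ c ^ 2) : BoundBd x c := by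
  intro v
  have h1 := h.sq_le hz v
  have h2 : ‖x v‖ ^ 2 ≤ (c * ‖v‖) ^ 2 := by
    rw [mul_pow]
    exact h1.trans (mul_le_mul_of_nonneg_right hzc (sq_nonneg _))
  exact (pow_le_pow_iff_left₀ (norm_nonneg _) (by positivity) two_ne_zero).1 h2

theorem BoundAdj.bd_adj (h : BoundAdj x y) {c : ℝ} (hc : 0 ≤ c) (hx : BoundBd x c) :
    BoundBd y c := by
  intro v
  have h1 : ‖y v‖ ^ 2 ≤ c * ‖y v‖ * ‖v‖ := by
    have h2 : ‖inner ℂ (y v) (y v)‖ = ‖y v‖ ^ 2 := by
      rw [inner_self_eq_norm_sq_to_K, norm_pow, RCLike.norm_ofReal, abs_norm]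
    rw [← h2, ← h]
    exact (norm_inner_le_norm _ _).trans (mul_le_mul_of_nonneg_right (hx _) (norm_nonneg _))
  rcases (norm_nonneg (y v)).lt_or_eq with h0 | h0
  · nlinarith
  · rw [← h0]
    positivity

theorem BoundBd.one : BoundBd (1 : Module.End ℂ V) 1 := fun v => by simp

theorem BoundBd.mul {c c' : ℝ} (hc : 0 ≤ c) (h : BoundBd x c) (h' : BoundBd x' c') :
    BoundBd (x * x') (c * c') := by
  intro v
  rw [Module.End.mul_apply, mul_assoc]
  exact (h _).trans (mul_le_mul_of_nonneg_left (h' v) hc)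

theorem BoundBd.mono {c c' : ℝ} (h : BoundBd x c) (hc : c ≤ c') : BoundBd x c' := fun v =>
  (h v).trans (mul_le_mul_of_nonneg_right hc (norm_nonneg _))

end BoundAux

variable {a : ℂ} (M : UModel a)

theorem UModel.bound_U (p : ℕ) : BoundAdj (M.T.U p) (-M.T.C p) := by
  intro u v
  rw [M.adj, LinearMap.neg_apply, inner_neg_right]

theorem UModel.bound_UC (p : ℕ) : BoundAdj (M.T.U p * M.T.C p) (M.T.U p * M.T.C p) := by
  have h1 := (M.bound_U p).mul (M.bound_U p).symm
  intro u v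
  have h2 := h1 u v
  simp only [mul_neg, LinearMap.neg_apply, inner_neg_left, inner_neg_right, neg_inj] at h2
  exact h2

theorem UModel.bound_f (ha : ‖a‖ = 1) (p : ℕ) : ∀ n, BoundAdj (M.T.f n p) (M.T.f n p)
  | 0 => BoundAdj.one
  | 1 => BoundAdj.one
  | m + 2 => by
    have ih := UModel.bound_f ha p (m + 1)
    have hk : (starRingEnd ℂ) (kap M.T.a m) = kap M.T.a m := by
      rw [M.a_eq, kap, map_div₀, conj_Dl a ha, conj_Dl a ha]
    have h1 := ih.sub (((ih.mul (M.bound_UC (p + m))).mul ih).smul (kap M.T.a m))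
    rw [hk] at h1
    simp only [TL.f, mul_assoc] at h1 ⊢
    exact h1

theorem UModel.bound_cupC (m : ℕ) : ∀ p, BoundAdj (M.T.cupC m p) ((-1 : ℂ) ^ m • M.T.capC m p) := by
  induction m with
  | zero => intro p; simpa [TL.cupC, TL.capC] using BoundAdj.one
  | succ m ih =>
    intro p
    have h1 := (ih (p + 1)).mul (M.bound_U p)
    have e : -M.T.C p * ((-1 : ℂ) ^ m • M.T.capC m (p + 1)) =
        (-1 : ℂ) ^ (m + 1) • M.T.capC (m + 1) p := by
      rw [TL.capC, pow_succ, mul_neg_one, neg_smul, neg_mul, mul_smul_comm]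
    rwa [e] at h1

theorem UModel.bound_cup_adj (ha : ‖a‖ = 1) (m p : ℕ) :
    BoundAdj (M.T.f m p * M.T.cupC m p) (((-1 : ℂ) ^ m • M.T.capC m p) * M.T.f m p) :=
  (M.bound_f ha p m).mul (M.bound_cupC m p)

theorem UModel.bound_cup_mul {m : ℕ} (hm : Adm a m) (p : ℕ) :
    (((-1 : ℂ) ^ m • M.T.capC m p) * M.T.f m p) * (M.T.f m p * M.T.cupC m p) =
      algebraMap ℂ _ ((-1 : ℂ) ^ m * Dl a m) := by
  have hm' : Adm M.T.a m := by rwa [M.a_eq]
  have h1 := M.T.f_closure hm' p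
  rw [M.a_eq] at h1
  rw [mul_assoc, ← mul_assoc (M.T.f m p), M.T.f_idem hm', smul_mul_assoc, ← mul_assoc, h1,
    map_mul, Algebra.smul_def]

theorem UModel.f_eq_zero (ha : ‖a‖ = 1) {N : ℕ} (hN : Adm a N) (h0 : Dl a N = 0) (p : ℕ) :
    M.T.f N p = 0 := by
  have h1 : M.T.f N p * M.T.cupC N p = 0 := by
    ext v
    have := (M.bound_cup_adj ha N p).sq_le (M.bound_cup_mul hN p) v
    rw [h0, mul_zero, norm_zero, zero_mul] at this
    have h2 : ‖(M.T.f N p * M.T.cupC N p) v‖ = 0 := by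
      nlinarith [norm_nonneg ((M.T.f N p * M.T.cupC N p) v)]
    exact norm_eq_zero.1 h2
  have h3 := (M.T.loc_f N).far (M.T.loc_capC N) p 0
  rw [add_zero] at h3
  rw [← mul_one (M.T.f N p), ← M.T.zigC N p, ← mul_assoc, h3, mul_assoc, h1, mul_zero]

theorem UModel.bound_cup (ha : ‖a‖ = 1) {m : ℕ} (hm : Adm a m) (p : ℕ) :
    BoundBd (M.T.f m p * M.T.cupC m p) ((m : ℝ) + 1) := by
  refine (M.bound_cup_adj ha m p).bd_of (M.bound_cup_mul hm p) (by positivity) ?_
  rw [norm_mul, norm_pow, norm_neg, norm_one, one_pow, one_mul]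
  have h1 := norm_Dl_le a ha m
  have h2 : (0 : ℝ) ≤ m := Nat.cast_nonneg m
  nlinarith

theorem UModel.bound_cap (ha : ‖a‖ = 1) {m : ℕ} (hm : Adm a m) (p : ℕ) :
    BoundBd (M.T.capC m p * M.T.f m p) ((m : ℝ) + 1) := by
  have h1 := (M.bound_cup_adj ha m p).bd_adj (by positivity) (M.bound_cup ha hm p)
  intro v
  have h2 := h1 v
  rwa [smul_mul_assoc, LinearMap.smul_apply, norm_smul, norm_pow, norm_neg, norm_one, one_pow,
    one_mul] at h2

theorem UModel.bound_sig (ha : ‖a‖ = 1) (s : Bool) (p : ℕ) : BoundBd (M.T.sig s p) 1 := by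
  have hc : ∀ s, (starRingEnd ℂ) (zp M.T.a s) = zp M.T.a (!s) := by
    intro s
    have h1 : (starRingEnd ℂ) a = a⁻¹ := (Complex.inv_eq_conj ha).symm
    rw [M.a_eq]
    cases s
    · simp [zp, h1]
    · simp [zp, h1]
  have h1 : BoundAdj (M.T.sig s p) (M.T.sig (!s) p) := by
    have := (BoundAdj.one.smul (zp M.T.a s)).add ((M.bound_UC p).smul (zp M.T.a (!s)))
    rwa [hc, hc] at this
  refine h1.bd_of (z := 1) ?_ zero_le_one (by simp)
  rw [map_one]
  exact M.T.sig_mul_sig s p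

theorem UModel.bound_X (ha : ‖a‖ = 1) (s : Bool) (m : ℕ) : ∀ p, BoundBd (M.T.X s m p) 1 := by
  induction m with
  | zero => intro p; exact BoundBd.one
  | succ m ih =>
    intro p
    have := (M.bound_sig ha s p).mul zero_le_one (ih (p + 1))
    rwa [one_mul] at this

theorem UModel.bound_crC (ha : ‖a‖ = 1) (s : Bool) (m n : ℕ) :
    ∀ p, BoundBd (M.T.crC s m n p) 1 := by
  induction n with
  | zero => intro p; exact BoundBd.one
  | succ n ih =>
    intro p
    have := (ih (p + 1)).mul zero_le_one (M.bound_X ha s m p)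
    rwa [one_mul] at this

theorem UModel.norm_le (ha : ‖a‖ = 1) {ι : Type} [Fintype ι] (m : ι → ℕ) (hm : ∀ i, Adm a (m i))
    (L : List (Sl (Arc ι))) (z : ℂ)
    (hz : M.T.ev (M.T.jcA m 0 fun _ => true) L = algebraMap ℂ _ z) :
    ‖z‖ ≤ (∏ i, ((m i : ℝ) + 1)) ^ L.length := by
  classical
  have h1 : ∀ i, (1 : ℝ) ≤ (m i : ℝ) + 1 := fun i => by
    have : (0 : ℝ) ≤ m i := Nat.cast_nonneg _
    linarith
  have hB1 : (1 : ℝ) ≤ ∏ i, ((m i : ℝ) + 1) := by
    have := Finset.prod_le_prod (s := Finset.univ) (f := fun _ : ι => (1 : ℝ))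
      (fun _ _ => zero_le_one) (fun i _ => h1 i)
    simpa using this
  have hB : ∀ i, (m i : ℝ) + 1 ≤ ∏ i, ((m i : ℝ) + 1) := by
    intro i
    rw [← Finset.mul_prod_erase _ _ (Finset.mem_univ i)]
    have := Finset.prod_le_prod (s := Finset.univ.erase i) (f := fun _ : ι => (1 : ℝ))
      (fun _ _ => zero_le_one) (fun i _ => h1 i)
    rw [Finset.prod_const_one] at this
    nlinarith [h1 i]
  have hn : ∀ o : Arc ι, (M.T.jcA m 0 fun _ => true).n o = m o.name := fun o => rfl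
  have hF : ∀ (o : Arc ι) p, (M.T.jcA m 0 fun _ => true).F o p = M.T.f (m o.name) p := by
    intro o p
    simp [TL.jcA]
  have hg : ∀ (g : Gen (Arc ι)) p,
      BoundBd (M.T.gval (M.T.jcA m 0 fun _ => true) g p) (∏ i, ((m i : ℝ) + 1)) := by
    intro g p
    cases g with
    | cup o =>
      rw [TL.gval, hn, hF]
      exact (M.bound_cup ha (hm _) p).mono (hB _)
    | cap o =>
      rw [TL.gval, hn, hF]
      exact (M.bound_cap ha (hm _) p).mono (hB _)
    | cr x y s =>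
      rw [TL.gval]
      exact (M.bound_crC ha s _ _ p).mono hB1
  have hev : ∀ w : List (Sl (Arc ι)), BoundBd (M.T.ev (M.T.jcA m 0 fun _ => true) w)
      ((∏ i, ((m i : ℝ) + 1)) ^ w.length) := by
    intro w
    induction w with
    | nil => simpa [TL.ev] using BoundBd.one
    | cons s w ih =>
      rw [TL.ev, List.length_cons, pow_succ]
      exact ih.mul (by positivity) (hg _ _)
  obtain ⟨v, hv⟩ := exists_ne (0 : M.V)
  have h2 := hev L v
  rw [hz, Module.algebraMap_end_apply, norm_smul] at h2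
  exact le_of_mul_le_mul_right h2 (norm_pos_iff.2 hv)

end Pool.Agent.P.MP_ac4909_gt
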