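import Pool.Agent.P.MP_ac4909_gt.Ev

/-! Invariance of coloured evaluation under regular isotopy; the two skein relations. -/

namespace Pool.Agent.P.MP_ac4909_gt

variable {K : Type} [Field K] {R : Type} [Ring R] [Algebra K R] {α : Type}

namespace TL
variable {T : TL K R}

theorem moves_zig [Rev α] {c : Col α R} (hc : T.Good c) (o : α) (p : ℕ) :
    T.capC (c.n o) (p + c.n o) * c.F (Rev.rev o) (p + c.n o) * (c.F o p * T.cupC (c.n o) p) =
      c.F o p := by
  rw [hc.rot o p, mul_assoc, ← mul_assoc (c.F _ _), hc.idem, ← hc.rot o p, ← mul_assoc,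
    ← (hc.loc o).far' (T.loc_capC (c.n o)) p (p + c.n o) (p + c.n o) le_rfl rfl, mul_assoc, zigC,
    mul_one]

theorem moves_zag [Rev α] {c : Col α R} (hc : T.Good c) (o : α) (p : ℕ) :
    T.capC (c.n o) p * c.F o p * (c.F (Rev.rev o) (p + c.n o) * T.cupC (c.n o) (p + c.n o)) =
      c.F o p := by
  have hl : T.Loc (c.n o) (c.n o) (c.F (Rev.rev o)) := by
    have := hc.loc (Rev.rev o)
    rwa [hc.n_rev] at this
  have h1 := (hc.rot o).cap' (hc.loc o) hl p
  rw [← h1, mul_assoc, ← mul_assoc (c.F _ _), hc.idem, ← mul_assoc, h1, mul_assoc,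
    (hc.loc o).far' (T.loc_cupC (c.n o)) p (p + c.n o) (p + c.n o) le_rfl rfl, ← mul_assoc, zagC,
    one_mul]

theorem Good.ev_move [Rev α] {c : Col α R} (hc : T.Good c) {w₁ u u' w₂ : List (Sl α)}
    (h : Move u u') (hw : Run [] (w₁ ++ u ++ w₂) []) :
    T.ev c (w₁ ++ u ++ w₂) = T.ev c (w₁ ++ u' ++ w₂) := by
  obtain ⟨σ, hw, -⟩ := run_append.1 hw
  obtain ⟨ρ, h₁, hu⟩ := run_append.1 hw
  rw [ev_append, ev_append, ev_append, ev_append]
  congr 1
  cases h with
  | comm l m r g h =>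
    congr 1
    simp only [ev, val, one_mul, wid_append]
    exact ((hc.loc_gval g).far (hc.loc_gval h) _ _).symm
  | zig l r o =>
    have e : ρ = l ++ o :: r := by simpa [Sl.src, Gen.src] using hu.1
    subst e
    simp only [ev, val, gval, one_mul, wid_append, wid_cons, wid_nil, add_zero, hc.n_rev]
    rw [moves_zig hc, hc.F_mul_ev h₁]
  | zag l r o =>
    have e : ρ = l ++ o :: r := by simpa [Sl.src, Gen.src] using hu.1
    subst e
    simp only [ev, val, gval, one_mul, wid_append, wid_cons, wid_nil, add_zero, hc.n_rev]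
    rw [moves_zag hc, hc.F_mul_ev h₁]
  | cupSlide l r x o s =>
    congr 1
    simp only [ev, val, gval, one_mul, wid_append, wid_cons, wid_nil, add_zero, hc.n_rev]
    rw [← mul_assoc, (hc.loc o).natR, mul_assoc, cupSlC, ← mul_assoc, ← mul_assoc,
      (hc.loc o).far' (T.loc_crC (!s) (c.n o) (c.n x)) _ _ _ le_rfl rfl]
  | capSlide l r x o s =>
    congr 1
    simp only [ev, val, gval, one_mul, wid_append, wid_cons, wid_nil, add_zero, hc.n_rev]
    rw [mul_assoc, ← (hc.loc o).natL, ← mul_assoc, capSlC, mul_assoc, mul_assoc,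
      (hc.loc o).far' (T.loc_crC (!s) (c.n x) (c.n o)) _ _ _ le_rfl rfl]
  | reid2 l r x y s =>
    congr 1
    simp only [ev, val, gval, one_mul]
    exact T.r2C _ _ _ _
  | reid3 l r x y z a b d h =>
    congr 1
    simp only [ev, val, gval, one_mul, wid_append, wid_cons, wid_nil, add_zero]
    exact T.r3C a b d h _ _ _ _

theorem ev_skein (T : TL K R) (c : Col α R) (w₁ w₂ : List (Sl (Option α)))
    (l r : List (Option α)) (s : Bool) :
    T.ev c.opt (w₁ ++ [⟨l, .cr none none s, r⟩] ++ w₂) =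
      zp T.a s • T.ev c.opt (w₁ ++ w₂) +
        zp T.a (!s) • T.ev c.opt (w₁ ++ [⟨l, .cap none, r⟩, ⟨l, .cup none, r⟩] ++ w₂) := by
  have hn : c.opt.n none = 1 := rfl
  have hF : ∀ p, c.opt.F none p = 1 := fun _ => rfl
  simp only [ev_append, ev, val, gval, one_mul, mul_one, hn, hF, crC_one_one, cupC_one, capC_one,
    sig, add_mul, mul_add, smul_mul_assoc, mul_smul_comm]

theorem ev_loop (T : TL K R) (c : Col α R) (w₁ w₂ : List (Sl (Option α)))
    (l r : List (Option α)) :
    T.ev c.opt (w₁ ++ [⟨l, .cup none, r⟩, ⟨l, .cap none, r⟩] ++ w₂) =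
      dlt T.a • T.ev c.opt (w₁ ++ w₂) := by
  have hn : c.opt.n none = 1 := rfl
  have hF : ∀ p, c.opt.F none p = 1 := fun _ => rfl
  simp only [ev_append, ev, val, gval, one_mul, mul_one, hn, hF, cupC_one, capC_one, T.loop]
  rw [← Algebra.smul_def, mul_smul_comm]

end TL

end Pool.Agent.P.MP_ac4909_gt
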