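import Pool.Agent.P.MP_ac4909_gt.Split
import Pool.Agent.P.MP_ac4909_gt.Cable

/-! Invariance of the Kirby colour under handle slides (Lickorish's argument). -/

namespace Pool.Agent.P.MP_ac4909_gt

variable {K : Type} [Field K] {R : Type} [Ring R] [Algebra K R] {ι : Type} [DecidableEq ι]
  [Fintype ι]

namespace TL

open Function in
omit [Fintype ι] in
theorem slide_F (T : TL K R) (m : ι → ℕ) (a : Arc ι) (k p : ℕ) :
    (T.jw (update m a.name k)).F (some a) p = T.f k p := by
  simp [jc, jcA, Col.opt]

open Function in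
omit [Fintype ι] in
theorem slide_adm {a : K} {m : ι → ℕ} (hm : ∀ i, Adm a (m i)) (i : ι) {k : ℕ} (hk : Adm a k)
    (i' : ι) : Adm a (update m i k i') := by
  by_cases h : i' = i
  · subst h
    rwa [update_self]
  · rw [update_of_ne h]
    exact hm i'

open Function in
omit [Fintype ι] in
theorem slide_succ (T : TL K R) {w₁ w₂ : List (Sl (Option (Arc ι)))}
    {l r : List (Option (Arc ι))} {a : Arc ι} (h₁ : Run [] w₁ (l ++ some a :: r))
    (h₂ : Run (l ++ some a :: r) w₂ []) {m : ι → ℕ} (hm : ∀ i, Adm T.a (m i)) {k : ℕ}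
    (hk : Adm T.a (k + 1)) :
    T.ev (T.jw (update m a.name (k + 1))) (w₁ ++ w₂) =
      T.vv m a.name w₁ w₂ l (k + 1) + kap T.a k • T.uu m a.name w₁ w₂ l k := by
  have hg : T.Good (T.jw (update m a.name (k + 1))) :=
    T.good_jc _ _ (slide_adm hm a.name hk)
  have e₁ := hg.F_mul_ev h₁
  have e₂ := hg.ev_mul_F h₂
  rw [slide_F] at e₁ e₂
  rw [ev_append, vv, uu, f, mul_sub, sub_mul, e₂, mul_smul_comm, smul_mul_assoc]
  simp only [← mul_assoc]
  rw [e₂, mul_assoc _ (T.f (k + 1) _), e₁, sub_add_cancel]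

open Function in
omit [Fintype ι] in
theorem slide_bb (T : TL K R) (w₁ w₂ : List (Sl (Option (Arc ι))))
    (l r : List (Option (Arc ι))) (a : Arc ι) {m : ι → ℕ} (hm : ∀ i, Adm T.a (m i)) {k : ℕ}
    (hk : Adm T.a k) :
    T.ev (T.jw (update m a.name k)) (cable (pushoff a) w₁ ++
        [⟨l.flatMap (pushoff a) ++ [some a], .cap none, r.flatMap (pushoff a)⟩,
          ⟨l.flatMap (pushoff a) ++ [some a], .cup none, r.flatMap (pushoff a)⟩] ++
        cable (pushoff a) w₂) = T.bb m a w₁ w₂ l k := by
  have hg : T.Good (T.jw (update m a.name k)) := T.good_jc _ _ (slide_adm hm a.name hk)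
  have hn : (T.jc (update m a.name k) (Pi.single a.name 1) fun _ => a.up).n =
      (T.jw (update m a.name (k + 1))).n := by
    funext x
    cases x with
    | none => rfl
    | some b =>
      by_cases h : b.name = a.name
      · simp [jc, jcA, Col.opt, h]
      · simp [jc, jcA, Col.opt, h]
  have hw : wid (T.jw (update m a.name k)).n (l.flatMap (pushoff a) ++ [some a]) =
      wid (T.jw (update m a.name (k + 1))).n l + k := by
    rw [wid_append, wid_flatMap, tens_pushoff, hn]
    simp [jc, jcA, Col.opt]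
  rw [ev_append, ev_append, ev_cable T _ hg.loc, ev_cable T _ hg.loc, tens_pushoff, bb,
    mul_assoc]
  congr 2
  simp only [ev, val, gval, hw, one_mul]
  change 1 * T.cupC 1 _ * (T.capC 1 _ * 1) = _
  rw [cupC_one, capC_one, one_mul, mul_one]

open Function in
theorem slide_fib {N : ℕ} (i : ι) (h : (ι → ℕ) → R)
    (H : ∀ m ∈ Fintype.piFinset fun _ : ι => Finset.range (N + 1),
      ∑ k ∈ Finset.range (N + 1), h (update m i k) = 0) :
    ∑ m ∈ Fintype.piFinset fun _ : ι => Finset.range (N + 1), h m = 0 := by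
  have hup : ∀ m ∈ Fintype.piFinset fun _ : ι => Finset.range (N + 1),
      ∀ k ∈ Finset.range (N + 1),
        update m i k ∈ Fintype.piFinset fun _ : ι => Finset.range (N + 1) := by
    intro m hm k hk
    rw [Fintype.mem_piFinset] at hm ⊢
    intro j
    by_cases hj : j = i
    · subst hj
      rwa [update_self]
    · rw [update_of_ne hj]
      exact hm j
  rw [← Finset.sum_fiberwise_of_maps_to (g := fun m => update m i 0)
    (fun m hm => hup m hm 0 (by simp))]
  refine Finset.sum_eq_zero fun m₀ hm₀ => ?_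
  by_cases h0 : m₀ i = 0
  · rw [← H m₀ hm₀]
    refine Finset.sum_nbij' (fun m => m i) (fun k => update m₀ i k) ?_ ?_ ?_ ?_ ?_
    · intro m hm
      exact Fintype.mem_piFinset.mp (Finset.mem_filter.mp hm).1 i
    · intro k hk
      refine Finset.mem_filter.mpr ⟨hup m₀ hm₀ k hk, ?_⟩
      rw [update_idem, ← h0, update_eq_self]
    · intro m hm
      rw [← (Finset.mem_filter.mp hm).2, update_idem, update_eq_self]
    · intro k _
      exact update_self ..
    · intro m hm
      rw [← (Finset.mem_filter.mp hm).2, update_idem, update_eq_self]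
  · refine Finset.sum_eq_zero fun m hm => absurd ?_ h0
    rw [← (Finset.mem_filter.mp hm).2, update_self]

theorem om_slide (T : TL K R) {L : List (Sl (Arc ι))} (hL : IsFramedLink L) (N : ℕ)
    (hN : Adm T.a (N + 1)) (hf : ∀ p, T.f (N + 1) p = 0) (D : Diagram L)
    {w₁ w₂ : List (Sl (Option (Arc ι)))} {l r : List (Option (Arc ι))} {a : Arc ι}
    (hρ : Run [] w₁ (l ++ some a :: none :: r)) (hD : D.1 = w₁ ++ w₂) :
    T.om N D.1 = T.om N (cable (pushoff a) w₁ ++
        [⟨l.flatMap (pushoff a) ++ [some a], .cap none, r.flatMap (pushoff a)⟩,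
          ⟨l.flatMap (pushoff a) ++ [some a], .cup none, r.flatMap (pushoff a)⟩] ++
        cable (pushoff a) w₂) := by
  have h₂ : Run (l ++ some a :: none :: r) w₂ [] := by
    have h := D.2.1
    rw [hD] at h
    obtain ⟨σ, h₁, h₂⟩ := run_append.mp h
    rwa [h₁.unique hρ] at h₂
  rw [← sub_eq_zero, om, om, ← Finset.sum_sub_distrib]
  refine slide_fib a.name _ fun m hm => ?_
  have hadm : ∀ i, Adm T.a (m i) := fun i =>
    hN.mono (Finset.mem_range.mp (Fintype.mem_piFinset.mp hm i)).le
  have key : ∀ n, n ≤ N → ∑ k ∈ Finset.range (n + 1), Dl T.a k •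
      (T.ev (T.jw (Function.update m a.name k)) (w₁ ++ w₂) - T.bb m a w₁ w₂ l k) =
        Dl T.a n • (T.vv m a.name w₁ w₂ l n - T.uu m a.name w₁ w₂ l n) := by
    intro n
    induction n with
    | zero =>
      intro _
      rw [Finset.sum_range_one, bb_zero, ev_append, vv, f, mul_one]
    | succ n ih =>
      intro hn
      have h0 : Dl T.a (n + 1) * kap T.a n = Dl T.a n := by
        rw [kap, mul_div_cancel₀ _ (hN _ (by omega))]
      rw [Finset.sum_range_succ, ih (by omega), slide_succ T hρ h₂ hadm (hN.mono (by omega)),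
        T.bb_succ hL D hD hρ m n hadm (hN.mono (by omega)), ← h0]
      module
  have hv : T.vv m a.name w₁ w₂ l N = 0 := by rw [vv, hf, mul_zero, zero_mul]
  have hu : T.uu m a.name w₁ w₂ l N = 0 := by
    have hg : T.Good (T.jw (Function.update m a.name (N + 1))) :=
      T.good_jc _ _ (slide_adm hadm a.name hN)
    have e₁ := hg.F_mul_ev hρ
    rw [slide_F, hf, zero_mul] at e₁
    rw [uu, ← e₁, mul_zero]
  have key' := key N le_rfl
  rw [hv, hu, sub_zero, smul_zero] at key'
  calc _ = ∑ k ∈ Finset.range (N + 1), (∏ i ∈ Finset.univ.erase a.name, Dl T.a (m i)) •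
        Dl T.a k • (T.ev (T.jw (Function.update m a.name k)) (w₁ ++ w₂) -
          T.bb m a w₁ w₂ l k) := by
        refine Finset.sum_congr rfl fun k hk => ?_
        rw [slide_bb T w₁ w₂ l r a hadm (hN.mono (Finset.mem_range.mp hk).le), hD, ← smul_sub,
          smul_smul, ← Finset.mul_prod_erase _ _ (Finset.mem_univ a.name), Function.update_self,
          mul_comm]
        congr 2
        exact Finset.prod_congr rfl fun i hi => by
          rw [Function.update_of_ne (Finset.ne_of_mem_erase hi)]
    _ = 0 := by rw [← Finset.smul_sum, key', smul_zero]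

end TL

end Pool.Agent.P.MP_ac4909_gt
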