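import Pool.Agent.P.MP_ac4909_gt.DFT

/-! Vanishing of the meridian skeins means vanishing of the Fourier coefficients. -/

namespace Pool.Agent.P.MP_ac4909_gt

open Filter

variable {ι : Type} [Fintype ι] [DecidableEq ι]

omit [Fintype ι] in
theorem Fold_flip (r : ℤ) (G : (ι → ℤ) → ℂ)
    (hodd : ∀ k i, G (Function.update k i (-k i)) = -G k)
    (hper : ∀ k i, G (k + Pi.single i (2 * r)) = G k) (k : ι → ℤ) (S : Finset ι) :
    G (fun i => if i ∈ S then 2 * r - k i else k i) = (∏ _i ∈ S, (-1 : ℂ)) * G k := by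
  induction S using Finset.induction_on with
  | empty => simp
  | insert j S hj ih =>
    rw [Finset.prod_insert hj, mul_assoc, ← ih, neg_one_mul,
      ← hodd (fun i => if i ∈ S then 2 * r - k i else k i) j, ← hper (Function.update _ _ _) j]
    congr 1
    funext i
    by_cases hi : i = j
    · subst hi
      simp [hj]; ring
    · simp [hi]

theorem Fold_box (r : ℕ) (G : (ι → ℤ) → ℂ)
    (hodd : ∀ k i, G (Function.update k i (-k i)) = -G k)
    (hper : ∀ k i, G (k + Pi.single i (2 * (r : ℤ))) = G k) (w : ι → ℤ → ℂ) :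
    ∑ k ∈ Fintype.piFinset fun _ : ι => Finset.Ico (0 : ℤ) (2 * r), (∏ i, w i (k i)) * G k =
      ∑ m ∈ Fintype.piFinset fun _ : ι => Finset.range (r - 1),
        (∏ i, (w i ((m i : ℤ) + 1) - w i (2 * r - ((m i : ℤ) + 1)))) *
          G fun i => (m i : ℤ) + 1 := by
  have hz : ∀ (k : ι → ℤ) (i : ι), (k i = 0 ∨ k i = (r : ℤ)) → G k = 0 := by
    intro k i h
    have h1 : G k = -G k := by
      rcases h with h | h
      · rw [← hodd k i, h, neg_zero, ← h, Function.update_eq_self]
      · have := Fold_flip r G hodd hper k {i}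
        rw [Finset.prod_singleton, neg_one_mul] at this
        rw [← this]
        congr 1
        funext j
        by_cases hj : j = i
        · subst hj
          simp [h]; ring
        · simp [hj]
    linear_combination h1 / 2
  rw [← Finset.sum_subset (s₁ := Fintype.piFinset fun _ : ι =>
      (Finset.Ico (0 : ℤ) (2 * r)).filter fun x : ℤ => x ≠ 0 ∧ x ≠ (r : ℤ))
    (Fintype.piFinset_subset _ _ fun _ => Finset.filter_subset _ _)]
  swap
  · intro k hk hk'
    rw [Fintype.mem_piFinset] at hk hk'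
    push Not at hk'
    obtain ⟨i, hi⟩ := hk'
    rw [Finset.mem_filter, not_and] at hi
    have h2 := hi (hk i)
    rw [hz k i (by tauto), mul_zero]
  have e : ∀ m : ι → ℕ, (∏ i, (w i ((m i : ℤ) + 1) - w i (2 * r - ((m i : ℤ) + 1)))) *
      G (fun i => (m i : ℤ) + 1) = ∑ ε : ι → Bool,
        (∏ i, w i (if ε i then 2 * r - ((m i : ℤ) + 1) else (m i : ℤ) + 1)) *
          G fun i => if ε i then 2 * r - ((m i : ℤ) + 1) else (m i : ℤ) + 1 := by
    intro m
    have h1 : ∀ i, w i ((m i : ℤ) + 1) - w i (2 * r - ((m i : ℤ) + 1)) =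
        ∑ b ∈ (Finset.univ : Finset Bool), (if b then -1 else 1) *
          w i (if b then 2 * r - ((m i : ℤ) + 1) else (m i : ℤ) + 1) := by
      intro i
      simp; ring
    simp only [h1]
    rw [Finset.prod_univ_sum, Fintype.piFinset_univ, Finset.sum_mul]
    refine Finset.sum_congr rfl fun ε _ => ?_
    have h2 := Fold_flip r G hodd hper (fun i => (m i : ℤ) + 1)
      (Finset.univ.filter fun i => ε i = true)
    simp only [Finset.mem_filter, Finset.mem_univ, true_and] at h2
    rw [h2, Finset.prod_filter, Finset.prod_mul_distrib]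
    ring
  simp only [e]
  rw [← Finset.sum_product']
  symm
  refine Finset.sum_nbij'
    (fun p i => if p.2 i then 2 * r - ((p.1 i : ℤ) + 1) else (p.1 i : ℤ) + 1)
    (fun k => (fun i => if k i < r then (k i - 1).toNat else (2 * r - k i - 1).toNat,
      fun i => decide (¬ k i < r))) ?_ ?_ ?_ ?_ (fun _ _ => rfl)
  · intro p hp
    simp only [Finset.mem_product, Fintype.mem_piFinset, Finset.mem_range] at hp
    simp only [Fintype.mem_piFinset, Finset.mem_filter, Finset.mem_Ico]
    intro i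
    have := hp.1 i
    split_ifs <;> omega
  · intro k hk
    simp only [Fintype.mem_piFinset, Finset.mem_filter, Finset.mem_Ico] at hk
    simp only [Finset.mem_product, Fintype.mem_piFinset, Finset.mem_range, Finset.mem_univ,
      and_true]
    intro i
    have := hk i
    split_ifs <;> omega
  · intro p hp
    simp only [Finset.mem_product, Fintype.mem_piFinset, Finset.mem_range] at hp
    refine Prod.ext (funext fun i => ?_) (funext fun i => ?_)
    · have := hp.1 i
      dsimp only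
      split_ifs <;> omega
    · have := hp.1 i
      dsimp only
      by_cases h : p.2 i = true
      · simp [h]; omega
      · simp [h]; omega
  · intro k hk
    simp only [Fintype.mem_piFinset, Finset.mem_filter, Finset.mem_Ico] at hk
    funext i
    have := hk i
    by_cases h : k i < r
    · simp only [h, not_true_eq_false, decide_false, if_true, Bool.false_eq_true, if_false]
      omega
    · simp only [h, not_false_eq_true, decide_true, if_true, if_false]
      omega

theorem Fold_poly_nat (n : ℕ) : ∃ p : Polynomial ℂ, ∀ x : ℂ, x ≠ 0 →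
    x ^ n - x⁻¹ ^ n = (x - x⁻¹) * p.eval (-x - x⁻¹) := by
  induction n using Nat.twoStepInduction with
  | zero => exact ⟨0, fun x _ => by simp⟩
  | one => exact ⟨1, fun x _ => by simp⟩
  | more n h0 h1 =>
    obtain ⟨p, hp⟩ := h0
    obtain ⟨q, hq⟩ := h1
    refine ⟨-Polynomial.X * q - p, fun x hx => ?_⟩
    have h2 : x * x⁻¹ = 1 := mul_inv_cancel₀ hx
    simp only [Polynomial.eval_sub, Polynomial.eval_mul, Polynomial.eval_neg, Polynomial.eval_X]
    linear_combination (x + x⁻¹) * hq x hx - hp x hx - (x ^ n - x⁻¹ ^ n) * h2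

theorem Fold_poly (n : ℤ) : ∃ p : Polynomial ℂ, ∀ x : ℂ, x ≠ 0 →
    x ^ n - x⁻¹ ^ n = (x - x⁻¹) * p.eval (-x - x⁻¹) := by
  obtain ⟨m, rfl | rfl⟩ := Int.eq_nat_or_neg n
  · simpa using Fold_poly_nat m
  · obtain ⟨p, hp⟩ := Fold_poly_nat m
    refine ⟨-p, fun x hx => ?_⟩
    rw [zpow_neg, zpow_neg, zpow_natCast, zpow_natCast, ← inv_pow, ← inv_pow, inv_inv,
      Polynomial.eval_neg]
    linear_combination -hp x hx

theorem Psi_eventually_zero (J : ℕ → (ι → ℤ) → ℂ)
    (hodd : ∀ t k i, J t (Function.update k i (-k i)) = -J t k)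
    (hper : ∀ᶠ t in atTop, ∀ k i, J t (k + Pi.single i (2 * 2 ^ t)) = J t k)
    (hz : ∀ j : ι → ℕ, ∀ᶠ t in atTop,
      ∑ m ∈ Fintype.piFinset fun _ : ι => Finset.range (2 ^ t - 1),
        (∏ i, Dl (aa t) (m i)) * ((∏ i, mu (aa t) (m i) ^ j i) * J t fun i => (m i : ℤ) + 1) = 0)
    (n : ι → ℤ) :
    ∀ᶠ t in atTop, Psi (fun t k => (∏ i, (-1 : ℂ) ^ (k i - 1)) * J t k) t n = 0 := by
  choose p hp using fun i => Fold_poly (n i)
  have hall := (Filter.eventually_all_finset
    (Fintype.piFinset fun i => Finset.range ((p i).natDegree + 1))).2 fun j _ => hz j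
  filter_upwards [hper, hall] with t hp1 hz1
  have hm1 : (-1 : ℂ) ≠ 0 := by norm_num
  have hsq : ∀ z : ℤ, (-1 : ℂ) ^ (2 * z) = 1 := fun z => by
    rw [zpow_mul]; norm_num
  have hsign : ∀ (k : ι → ℤ) (i : ι) (z : ℤ), (∏ j, (-1 : ℂ) ^ ((k + Pi.single i (2 * z) :
      ι → ℤ) j - 1)) = ∏ j, (-1 : ℂ) ^ (k j - 1) := by
    intro k i z
    refine Finset.prod_congr rfl fun j _ => ?_
    by_cases hj : j = i
    · subst hj
      rw [Pi.add_apply, Pi.single_eq_same, add_sub_right_comm, zpow_add₀ hm1, hsq, mul_one]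
    · rw [Pi.add_apply, Pi.single_eq_of_ne hj, add_zero]
  have ha := aa_ne t
  have ha4 : aa t ^ (4 * (2 : ℤ) ^ t) = 1 := by
    have := (aa_prim t).pow_eq_one
    rw [← zpow_natCast] at this
    push_cast at this
    exact this
  have key := Fold_box (2 ^ t) (fun k => (∏ i, (-1 : ℂ) ^ (k i - 1)) * J t k)
    (fun k i => by
      have e : Function.update k i (-k i) = k + Pi.single i (2 * -k i) := by
        funext j
        by_cases hj : j = i
        · subst hj
          simp; ring
        · simp [hj]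
      rw [hodd, e, hsign, mul_neg])
    (fun k i => by
      push_cast
      rw [hp1, hsign])
    (fun i x => aa t ^ (2 * (n i * x)))
  have e1 : ∀ k : ι → ℤ, aa t ^ (2 * (n ⬝ᵥ k)) = ∏ i, aa t ^ (2 * (n i * k i)) := by
    intro k
    rw [dotProduct, Finset.mul_sum]
    induction (Finset.univ : Finset ι) using Finset.induction_on with
    | empty => simp
    | insert j S hj ih => rw [Finset.sum_insert hj, Finset.prod_insert hj, zpow_add₀ ha, ih]
  unfold Psi
  simp only [e1]
  push_cast at key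
  rw [key]
  have e2 : ∀ (i : ι) (m : ℕ), (aa t ^ (2 * (n i * ((m : ℤ) + 1))) -
      aa t ^ (2 * (n i * (2 * 2 ^ t - ((m : ℤ) + 1))))) * (-1 : ℂ) ^ ((m : ℤ) + 1 - 1) =
      (aa t ^ 2 - (aa t)⁻¹ ^ 2) * (Dl (aa t) m *
        ∑ j ∈ Finset.range ((p i).natDegree + 1), (p i).coeff j * mu (aa t) m ^ j) := by
    intro i m
    have h1 := hp i (aa t ^ (2 * m + 2)) (pow_ne_zero _ ha)
    have h2 : aa t ^ (2 * (n i * ((m : ℤ) + 1))) = (aa t ^ (2 * m + 2)) ^ n i := by
      rw [← zpow_natCast, ← zpow_mul]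
      congr 1
      push_cast; ring
    have h3 : aa t ^ (2 * (n i * (2 * 2 ^ t - ((m : ℤ) + 1)))) =
        (aa t ^ (2 * m + 2))⁻¹ ^ n i := by
      have h4 : 2 * (n i * (2 * 2 ^ t - ((m : ℤ) + 1))) =
          4 * 2 ^ t * n i + -(2 * (n i * ((m : ℤ) + 1))) := by ring
      rw [h4, zpow_add₀ ha, zpow_mul, ha4, one_zpow, one_mul, zpow_neg, h2, inv_zpow]
    rw [h2, h3, h1, ← Polynomial.eval_eq_sum_range, ← mul_assoc, Dl_closed _ ha,
      add_sub_cancel_right, zpow_natCast, mu, inv_pow]
    ring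
  have e3 : ∀ m : ι → ℕ, (∏ i, (aa t ^ (2 * (n i * ((m i : ℤ) + 1))) -
      aa t ^ (2 * (n i * (2 * 2 ^ t - ((m i : ℤ) + 1)))))) *
      ((∏ i, (-1 : ℂ) ^ ((m i : ℤ) + 1 - 1)) * J t fun i => (m i : ℤ) + 1) =
      ∑ j ∈ Fintype.piFinset fun i => Finset.range ((p i).natDegree + 1),
        ((∏ _i : ι, (aa t ^ 2 - (aa t)⁻¹ ^ 2)) * ∏ i, (p i).coeff (j i)) *
          ((∏ i, Dl (aa t) (m i)) *
            ((∏ i, mu (aa t) (m i) ^ j i) * J t fun i => (m i : ℤ) + 1)) := by
    intro m
    rw [← mul_assoc, ← Finset.prod_mul_distrib]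
    simp only [e2]
    rw [Finset.prod_mul_distrib, Finset.prod_mul_distrib, Finset.prod_univ_sum, Finset.mul_sum,
      Finset.mul_sum, Finset.sum_mul]
    refine Finset.sum_congr rfl fun j _ => ?_
    rw [Finset.prod_mul_distrib]
    ring
  simp only [e3]
  rw [Finset.sum_comm]
  refine Finset.sum_eq_zero fun j hj => ?_
  rw [← Finset.mul_sum, hz1 j hj, mul_zero]

end Pool.Agent.P.MP_ac4909_gt
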