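import Pool.Agent.P.MP_ac4909_gt.HolFun

/-! Summation over one variable preserves holonomic growth. -/

namespace Pool.Agent.P.MP_ac4909_gt

variable {K : Type} [Field K] {α : Type} [Fintype α] {q : Kˣ}

/-- functions with finite support in the extra variable -/
def holSumM (K : Type) [Field K] (α : Type) : Submodule K ((Option α → ℤ) → K) where
  carrier := {H | ∀ n : α → ℤ, (Function.support fun t : ℤ => H fun o => o.elim t n).Finite}
  add_mem' h h' n := ((h n).union (h' n)).subset (Function.support_add _ _)
  zero_mem' n := by simp
  smul_mem' c H h n := (h n).subset (Function.support_const_smul_subset c _)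

omit [Fintype α] in
theorem holSum_add (t : ℤ) (n : α → ℤ) (u : Option α → ℤ) :
    (fun o : Option α => o.elim t n) + u =
      fun o => o.elim (t + u none) (n + fun i => u (some i)) := by
  funext o
  cases o <;> rfl

/-- the quantum torus acts on them -/
noncomputable def holSumQT (q : Kˣ) (α : Type) [Fintype α] : QT q (Option α) (holSumM K α) where
  E u := ((funQT q (Option α)).E u).restrict fun H h n => by
    simp only [funQT_E, holSum_add]
    exact (h _).preimage (add_left_injective (u none)).injOn
  Q v := ((funQT q (Option α)).Q v).restrict fun H h n =>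
    (h n).subset (Function.support_mul_subset_right _ _)
  E_zero := LinearMap.ext fun x => Subtype.ext (LinearMap.congr_fun (funQT q _).E_zero x.1)
  E_add u v := LinearMap.ext fun x => Subtype.ext (LinearMap.congr_fun ((funQT q _).E_add u v) x.1)
  Q_zero := LinearMap.ext fun x => Subtype.ext (LinearMap.congr_fun (funQT q _).Q_zero x.1)
  Q_add u v := LinearMap.ext fun x => Subtype.ext (LinearMap.congr_fun ((funQT q _).Q_add u v) x.1)
  comm u v := LinearMap.ext fun x => Subtype.ext (LinearMap.congr_fun ((funQT q _).comm u v) x.1)

/-- summation over the extra variable -/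
noncomputable def holSumR (K : Type) [Field K] (α : Type) : holSumM K α →ₗ[K] (α → ℤ) → K where
  toFun H n := ∑ᶠ t : ℤ, H.1 fun o => o.elim t n
  map_add' H H' := funext fun n => finsum_add_distrib (H.2 n) (H'.2 n)
  map_smul' c H := funext fun n => (smul_finsum' c (H.2 n)).symm

theorem HolF.sum_opt (hq : ∀ n : ℤ, (q : K) ^ n = 1 → n = 0) {H : (Option α → ℤ) → K}
    (hH : HolF q H) (S : (α → ℤ) → Finset ℤ)
    (hS : ∀ (n : α → ℤ) (t : ℤ), t ∉ S n → H (fun o => o.elim t n) = 0) :
    HolF q fun n : α → ℤ => ∑ t ∈ S n, H fun o => o.elim t n := by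
  have hm : H ∈ holSumM K α := fun n => (S n).finite_toSet.subset fun t ht => by
    by_contra h
    exact ht (hS n t h)
  have h1 : (holSumQT q α).Hol ⟨H, hm⟩ :=
    QT.hol_of_injective _ (funQT q _) (holSumM K α).subtype Subtype.val_injective
      (fun _ _ => rfl) (fun _ _ => rfl) hH
  have h2 := QT.Hol.restrict (q := q⁻¹)
    (fun n h => hq n (by rwa [Units.val_inv_eq_inv_val, inv_zpow, inv_eq_one] at h))
    (holSumQT q α).swap (funQT q α).swap (holSumR K α)
    (AddMonoidHom.mk' (fun v o => o.elim 0 v) fun u v => funext fun o => by cases o <;> rfl)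
    (AddMonoidHom.mk' (fun z i => z (some i)) fun _ _ => rfl) (fun _ => 1) (fun _ => one_ne_zero)
    (fun v x => funext fun n => by
      refine Eq.trans (finsum_congr fun t => ?_) (mul_finsum' _ _ (x.2 n)).symm
      change (q : K) ^ (_ : ℤ) * _ = _
      simp [dotProduct, Fintype.sum_option])
    (fun z x => funext fun n => by
      rw [one_smul]
      refine Eq.trans (finsum_congr fun t => congrArg x.1 (holSum_add t n z)) ?_
      exact finsum_comp_equiv (Equiv.addRight (z none))
        (f := fun t => x.1 fun o => o.elim t (n + fun i => z (some i))))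
    ((QT.hol_swap _ _).2 h1)
  refine HolF.congr ((QT.hol_swap _ _).1 h2) fun n => ?_
  exact finsum_eq_sum_of_support_subset _ fun t ht => by
    by_contra h
    exact ht (hS n t h)

end Pool.Agent.P.MP_ac4909_gt
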