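import Pool.Agent.P.MP_ac4909_gt.VModel

/-! The crossing `true` in the vertex model. -/

namespace Pool.Agent.P.MP_ac4909_gt

variable {K : Type} [Field K] {R : Type} [Ring R] [Algebra K R]

theorem v3p_gb (Q : K) (m : ℕ) {j : ℤ} (h : j < 0 ∨ (m : ℤ) < j) : gb Q m j = 0 := by
  induction m generalizing j with
  | zero => exact if_neg (by omega)
  | succ m ih => rw [gb, ih (by omega), ih (by omega), mul_zero, add_zero]

theorem v3p_gbZ (Q : K) {m j : ℤ} (h : j < 0 ∨ m < j) : gbZ Q m j = 0 := by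
  unfold gbZ
  split_ifs with h1
  · exact v3p_gb Q _ (by omega)
  · rfl

theorem v3p_pascal (Q : K) {m : ℤ} (h : 0 ≤ m) (j : ℤ) :
    gbZ Q (m + 1) j = gbZ Q m j + Q ^ (m + 1 - j) * gbZ Q m (j - 1) := by
  obtain ⟨k, rfl⟩ := Int.eq_ofNat_of_zero_le h
  simp only [gbZ, if_pos h, if_pos (show (0 : ℤ) ≤ k + 1 by omega), Int.toNat_natCast,
    Int.toNat_natCast_add_one, gb]

theorem v3p_poch (Q : K) (i : ℤ) {t : ℤ} (h : 1 ≤ t) :
    poch Q i t = (1 - Q ^ (i + 1)) * poch Q (i + 1) (t - 1) := by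
  obtain ⟨k, rfl⟩ : ∃ k : ℕ, t = k + 1 := ⟨(t - 1).toNat, by omega⟩
  unfold poch
  rcases lt_trichotomy i (-1) with h1 | h1 | h1
  · rw [if_neg (by omega), if_neg (by omega), mul_zero]
  · rw [if_neg (by omega), h1]
    simp
  · rw [if_pos (by omega), if_pos (by omega), Int.toNat_natCast_add_one, add_sub_cancel_right,
      Int.toNat_natCast, Finset.prod_range_succ', mul_comm]
    simp only [Nat.cast_zero, add_zero, Nat.cast_add, Nat.cast_one, add_assoc, add_comm (1 : ℤ)]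

theorem v3p_O {a : K} (ha : a ≠ 0) (m n i j t : ℤ) :
    crK a true m (n + 1) i j t * a ^ (-2 * (n + 1 - (j - t))) =
      a ^ (-2 * (n + 1 - j)) * a ^ (2 * i - m) * crK a true m n i (j - 1) t := by
  simp only [crK, if_true]
  rw [show n - (j - 1) + t = n + 1 - j + t by ring]
  have : a ^ ((m - 2 * i) * (n + 1 - 2 * j) + 2 * t * (m - i + j - t)) *
      a ^ (-2 * (n + 1 - (j - t))) = a ^ (-2 * (n + 1 - j)) * a ^ (2 * i - m) *
        a ^ ((m - 2 * i) * (n - 2 * (j - 1)) + 2 * t * (m - i + (j - 1) - t)) := by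
    simp only [← zpow_add₀ ha]
    congr 1
    ring
  linear_combination (poch (a ^ (-4 : ℤ)) i t * gbZ (a ^ (-4 : ℤ)) (n + 1 - j + t) t) * this

theorem v3p_Z {a : K} (ha : a ≠ 0) (m n i j t : ℤ) (h : 0 ≤ n - j + t) :
    crK a true m (n + 1) i j t = a ^ (m - 2 * i) * crK a true m n i j t +
      a ^ (-2 * (n + 1 - j)) * (a ^ m * (1 - a ^ (-4 * (i + 1)))) *
        crK a true m n (i + 1) (j - 1) (t - 1) := by
  simp only [crK, if_true]
  rw [show n + 1 - j + t = n - j + t + 1 by ring, v3p_pascal _ h,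
    show n - (j - 1) + (t - 1) = n - j + t by ring, zpow_mul a (-4), ← zpow_mul a (-4) (_ - t)]
  have e1 : a ^ ((m - 2 * i) * (n + 1 - 2 * j) + 2 * t * (m - i + j - t)) =
      a ^ (m - 2 * i) * a ^ ((m - 2 * i) * (n - 2 * j) + 2 * t * (m - i + j - t)) := by
    rw [← zpow_add₀ ha]
    congr 1
    ring
  have e2 : a ^ ((m - 2 * i) * (n + 1 - 2 * j) + 2 * t * (m - i + j - t)) *
      a ^ (-4 * (n - j + t + 1 - t)) = a ^ (-2 * (n + 1 - j)) * a ^ m *
        a ^ ((m - 2 * (i + 1)) * (n - 2 * (j - 1)) +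
          2 * (t - 1) * (m - (i + 1) + (j - 1) - (t - 1))) := by
    simp only [← zpow_add₀ ha]
    congr 1
    ring
  have e3 : poch (a ^ (-4 : ℤ)) i t * gbZ (a ^ (-4 : ℤ)) (n - j + t) (t - 1) =
      (1 - (a ^ (-4 : ℤ)) ^ (i + 1)) * poch (a ^ (-4 : ℤ)) (i + 1) (t - 1) *
        gbZ (a ^ (-4 : ℤ)) (n - j + t) (t - 1) := by
    rcases le_or_gt 1 t with h1 | h1
    · rw [v3p_poch _ i h1]
    · rw [v3p_gbZ _ (Or.inl (by omega)), mul_zero, mul_zero]
  linear_combination (poch (a ^ (-4 : ℤ)) i t * gbZ (a ^ (-4 : ℤ)) (n - j + t) t) * e1 +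
    (poch (a ^ (-4 : ℤ)) i t * gbZ (a ^ (-4 : ℤ)) (n - j + t) (t - 1)) * e2 +
    (a ^ (-2 * (n + 1 - j)) * a ^ m * a ^ ((m - 2 * (i + 1)) * (n - 2 * (j - 1)) +
      2 * (t - 1) * (m - (i + 1) + (j - 1) - (t - 1)))) * e3

namespace Lv
variable (V : Lv R) (a : K) (ha : a ≠ 0)

theorem v3p_sig (x y : R) : (V.tl a ha).sig true 0 * (x * y) =
    a • (x * y) + a⁻¹ • ((V.tl a ha).U 0 * ((V.tl a ha).C 0 * x) * y) := by
  simp only [TL.sig, zp, add_mul, smul_mul_assoc, one_mul, mul_assoc]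
  rfl

theorem v3p_ZZ (y : R) : (V.tl a ha).sig true 0 * (V.Z * (V.Z * y)) =
    a ^ (1 : ℤ) • (V.Z * (V.Z * y)) := by
  rw [← mul_assoc V.Z, v3p_sig, C_ZZ, mul_zero, zero_mul, smul_zero, add_zero, zpow_one]

theorem v3p_OO (y : R) : (V.tl a ha).sig true 0 * (V.O * (V.O * y)) =
    a ^ (1 : ℤ) • (V.O * (V.O * y)) := by
  rw [← mul_assoc V.O, v3p_sig, C_OO, mul_zero, zero_mul, smul_zero, add_zero, zpow_one]

theorem v3p_OZ (y : R) : (V.tl a ha).sig true 0 * (V.O * (V.Z * y)) =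
    a ^ (-1 : ℤ) • (V.Z * (V.O * y)) := by
  rw [← mul_assoc V.O, v3p_sig, C_OZ, mul_one, U_zero, sub_mul, smul_mul_assoc, mul_assoc V.Z,
    zpow_neg_one]
  match_scalars <;> (field_simp; try ring)

theorem v3p_ZO (y : R) : (V.tl a ha).sig true 0 * (V.Z * (V.O * y)) =
    a ^ (-1 : ℤ) • (V.O * (V.Z * y)) + (a ^ (1 : ℤ) - a ^ (-3 : ℤ)) • (V.Z * (V.O * y)) := by
  rw [← mul_assoc V.Z, v3p_sig, C_ZO, mul_smul_comm, mul_one, U_zero, smul_mul_assoc, sub_mul,
    smul_mul_assoc, mul_assoc V.O, zpow_neg_one, zpow_one, zpow_neg, zpow_ofNat]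
  match_scalars <;> (field_simp; try ring)

theorem v3p_Z' {m n : ℕ} {x : ℕ → R} (hx : (V.tl a ha).Loc m n x) (y : R) :
    x (0 + 1) * (V.Z * y) = V.Z * (x 0 * y) := by
  rw [← mul_assoc, V.loc_mul_Z a ha hx, mul_assoc]

theorem v3p_O' {m n : ℕ} {x : ℕ → R} (hx : (V.tl a ha).Loc m n x) (y : R) :
    x (0 + 1) * (V.O * y) = V.O * (x 0 * y) := by
  rw [← mul_assoc, V.loc_mul_O a ha hx, mul_assoc]

theorem X_true_Z (m : ℕ) (i : ℤ) : (V.tl a ha).X true m 0 * (V.I a m i * V.Z) =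
    a ^ ((m : ℤ) - 2 * i) • (V.Z * V.I a m i) := by
  induction m generalizing i with
  | zero =>
    by_cases h : i = 0 <;> simp [TL.X, I, h]
  | succ m ih =>
    have hx := (V.tl a ha).loc_X true m
    simp only [TL.X, I, add_mul, mul_add, smul_mul_assoc, mul_smul_comm, mul_assoc,
      V.v3p_Z' a ha hx, V.v3p_O' a ha hx, ih, v3p_ZZ, v3p_OZ, smul_add, smul_smul,
      ← zpow_add₀ ha]
    congr 3 <;> push_cast <;> ring

theorem X_true_O (m : ℕ) (i : ℤ) : (V.tl a ha).X true m 0 * (V.I a m i * V.O) =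
    a ^ (2 * i - m) • (V.O * V.I a m i) +
      (a ^ (m : ℤ) * (1 - a ^ (-4 * (i + 1)))) • (V.Z * V.I a m (i + 1)) := by
  induction m generalizing i with
  | zero =>
    by_cases h : i = 0
    · simp [TL.X, I, h]
    · by_cases h' : i + 1 = 0 <;> simp [TL.X, I, h, h']
  | succ m ih =>
    have hx := (V.tl a ha).loc_X true m
    simp only [TL.X, I, add_mul, mul_add, smul_mul_assoc, mul_smul_comm, mul_assoc,
      V.v3p_Z' a ha hx, V.v3p_O' a ha hx, ih, v3p_ZZ, v3p_OZ, v3p_ZO, v3p_OO, sub_add_cancel,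
      add_sub_cancel_right]
    match_scalars <;>
      simp only [mul_one, mul_sub, sub_mul, ← zpow_add₀ ha] <;> ring_nf

/-- One term of the crossing formula. -/
def v3pT (m n : ℕ) (i j t : ℤ) : R :=
  crK a true m n i j t • (V.I a n (j - t) * V.I a m (i + t))

theorem v3pT_top (m n : ℕ) (i j : ℤ) : V.v3pT a m n i j (n + 1 : ℕ) = 0 := by
  unfold v3pT
  rcases lt_or_ge (j - (n + 1 : ℕ)) 0 with h | h
  · rw [V.I_eq_zero a n (Or.inl h), zero_mul, smul_zero]
  · simp only [crK, if_true]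
    rw [v3p_gbZ _ (Or.inr (by omega)), mul_zero, zero_smul]

theorem v3pT_bot (m n : ℕ) (i j : ℤ) : V.v3pT a m n i j ((0 : ℕ) - 1) = 0 := by
  simp [v3pT, crK, poch]

include ha in
theorem v3pT_succ (m n : ℕ) (i j t : ℤ) : V.v3pT a m (n + 1) i j t =
    a ^ ((m : ℤ) - 2 * i) • (V.Z * V.v3pT a m n i j t) +
      ((a ^ (-2 * ((n : ℤ) + 1 - j)) * a ^ (2 * i - m)) • (V.O * V.v3pT a m n i (j - 1) t) +
      (a ^ (-2 * ((n : ℤ) + 1 - j)) * (a ^ (m : ℤ) * (1 - a ^ (-4 * (i + 1))))) •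
        (V.Z * V.v3pT a m n (i + 1) (j - 1) (t - 1))) := by
  simp only [v3pT, I, Nat.cast_add, Nat.cast_one, add_mul, smul_mul_assoc, mul_smul_comm,
    mul_assoc, smul_add, smul_smul]
  rw [v3p_O ha, sub_sub_sub_cancel_right, show i + 1 + (t - 1) = i + t by ring,
    sub_right_comm j t 1]
  rcases le_or_gt 0 (n - j + t) with h | h
  · rw [v3p_Z ha _ _ _ _ _ h]
    module
  · rw [V.I_eq_zero a n (j := j - t) (Or.inr (by omega))]
    simp only [zero_mul, mul_zero, smul_zero, zero_add, add_zero, mul_assoc]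

theorem v3p_cr (m n : ℕ) (i j : ℤ) :
    (V.tl a ha).crC true m n 0 * (V.I a m i * V.I a n j) =
      ∑ t ∈ Finset.range (n + 1), V.v3pT a m n i j t := by
  induction n generalizing i j with
  | zero =>
    by_cases h : j = 0
    · rcases lt_or_ge i 0 with h1 | h1
      · simp [TL.crC, v3pT, V.I_eq_zero a m (Or.inl h1)]
      · simp [TL.crC, v3pT, I, crK, poch, gbZ, gb, h, h1]
    · simp [TL.crC, v3pT, I, h]
  | succ n ih =>
    have hx := (V.tl a ha).loc_crC true m n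
    simp only [V.v3pT_succ a ha, Finset.sum_add_distrib, ← Finset.smul_sum, ← Finset.mul_sum]
    rw [Finset.sum_range_succ, Finset.sum_range_succ (n := n + 1),
      Finset.sum_range_succ' (n := n + 1), v3pT_top, v3pT_top, v3pT_bot]
    simp only [Nat.cast_add, Nat.cast_one, add_sub_cancel_right, add_zero, ← ih]
    rw [TL.crC, I, mul_add, mul_smul_comm, ← mul_assoc (V.I a m i), ← mul_assoc (V.I a m i),
      mul_assoc, mul_add, mul_smul_comm, ← mul_assoc _ (V.I a m i * V.Z),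
      ← mul_assoc _ (V.I a m i * V.O), X_true_Z, X_true_O]
    simp only [add_mul, mul_add, smul_mul_assoc, mul_smul_comm, mul_assoc, V.v3p_Z' a ha hx,
      V.v3p_O' a ha hx, smul_add, smul_smul]

theorem cr_true (m n : ℕ) (i j : ℤ) :
    (V.tl a ha).crC true m n 0 * (V.I a m i * V.I a n j) =
      ∑ t ∈ Finset.Icc (0 : ℤ) n, crK a true m n i j t • (V.I a n (j - t) * V.I a m (i + t)) := by
  rw [v3p_cr, Int.Icc_eq_finset_map, Finset.sum_map, sub_zero, Int.toNat_natCast_add_one]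
  simp [v3pT]

end Lv

end Pool.Agent.P.MP_ac4909_gt
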