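import Pool.Agent.P.MP_ac4909_gt.VModel
import Pool.Agent.P.MP_ac4909_gt.V3P

/-! The crossing `false` in the vertex model. -/

namespace Pool.Agent.P.MP_ac4909_gt

variable {K : Type} [Field K] {R : Type} [Ring R] [Algebra K R]

theorem v3m_Z {a : K} (ha : a ≠ 0) (m n i j t : ℤ) :
    crK a false m (n + 1) i j t = a ^ (2 * i - m) * crK a false m n i j t := by
  simp only [crK, Bool.false_eq_true, if_false]
  have : a ^ (-((m - 2 * i) * (n + 1 - 2 * j)) - 2 * t * (m - i + j + t)) =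
      a ^ (2 * i - m) * a ^ (-((m - 2 * i) * (n - 2 * j)) - 2 * t * (m - i + j + t)) := by
    rw [← zpow_add₀ ha]
    congr 1
    ring
  rw [this]
  ring

theorem v3m_O {a : K} (ha : a ≠ 0) (m n i j t : ℤ) (h : 0 ≤ j + t - 1) :
    crK a false m (n + 1) i j t * a ^ (-2 * (n + 1 - (j + t))) =
      (a ^ (4 * i - 3 * m - 2) * (1 - a ^ (4 * (m - i + 1)))) *
          crK a false m n (i - 1) j (t - 1) +
        a ^ (-2 * (n + 1 - j)) * a ^ (m - 2 * i) * crK a false m n i (j - 1) t := by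
  simp only [crK, Bool.false_eq_true, if_false]
  have hp := v3p_pascal (a ^ (4 : ℤ)) h t
  rw [show j + t - 1 + 1 = j + t by ring, ← zpow_mul] at hp
  rw [hp, show j + (t - 1) = j + t - 1 by ring, show j - 1 + t = j + t - 1 by ring,
    show m - (i - 1) = m - i + 1 by ring, zpow_mul a 4 (m - i + 1)]
  have e1 : a ^ (-((m - 2 * i) * (n + 1 - 2 * j)) - 2 * t * (m - i + j + t)) *
      a ^ (-2 * (n + 1 - (j + t))) = a ^ (-2 * (n + 1 - j)) * a ^ (m - 2 * i) *
        a ^ (-((m - 2 * i) * (n - 2 * (j - 1))) - 2 * t * (m - i + (j - 1) + t)) := by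
    simp only [← zpow_add₀ ha]
    congr 1
    ring
  have e2 : a ^ (-((m - 2 * i) * (n + 1 - 2 * j)) - 2 * t * (m - i + j + t)) *
      a ^ (-2 * (n + 1 - (j + t))) * a ^ (4 * (j + t - t)) = a ^ (4 * i - 3 * m - 2) *
        a ^ (-((m - 2 * (i - 1)) * (n - 2 * j)) - 2 * (t - 1) * (m - i + 1 + j + (t - 1))) := by
    simp only [← zpow_add₀ ha]
    congr 1
    ring
  have e3 : poch (a ^ (4 : ℤ)) (m - i) t * gbZ (a ^ (4 : ℤ)) (j + t - 1) (t - 1) =
      (1 - (a ^ (4 : ℤ)) ^ (m - i + 1)) * poch (a ^ (4 : ℤ)) (m - i + 1) (t - 1) *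
        gbZ (a ^ (4 : ℤ)) (j + t - 1) (t - 1) := by
    rcases le_or_gt 1 t with h1 | h1
    · rw [v3p_poch _ (m - i) h1]
    · rw [v3p_gbZ _ (Or.inl (by omega)), mul_zero, mul_zero]
  linear_combination (poch (a ^ (4 : ℤ)) (m - i) t * gbZ (a ^ (4 : ℤ)) (j + t - 1) t) * e1 +
    (poch (a ^ (4 : ℤ)) (m - i) t * gbZ (a ^ (4 : ℤ)) (j + t - 1) (t - 1)) * e2 +
    (a ^ (4 * i - 3 * m - 2) *
      a ^ (-((m - 2 * (i - 1)) * (n - 2 * j)) - 2 * (t - 1) * (m - i + 1 + j + (t - 1)))) * e3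

namespace Lv
variable (V : Lv R) (a : K) (ha : a ≠ 0)

theorem v3m_sig (x y : R) : (V.tl a ha).sig false 0 * (x * y) =
    a⁻¹ • (x * y) + a • ((V.tl a ha).U 0 * ((V.tl a ha).C 0 * x) * y) := by
  simp only [TL.sig, zp, add_mul, smul_mul_assoc, one_mul, mul_assoc]
  rfl

theorem v3m_ZZ (y : R) : (V.tl a ha).sig false 0 * (V.Z * (V.Z * y)) =
    a ^ (-1 : ℤ) • (V.Z * (V.Z * y)) := by
  rw [← mul_assoc V.Z, v3m_sig, C_ZZ, mul_zero, zero_mul, smul_zero, add_zero, zpow_neg_one]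

theorem v3m_OO (y : R) : (V.tl a ha).sig false 0 * (V.O * (V.O * y)) =
    a ^ (-1 : ℤ) • (V.O * (V.O * y)) := by
  rw [← mul_assoc V.O, v3m_sig, C_OO, mul_zero, zero_mul, smul_zero, add_zero, zpow_neg_one]

theorem v3m_ZO (y : R) : (V.tl a ha).sig false 0 * (V.Z * (V.O * y)) =
    a ^ (1 : ℤ) • (V.O * (V.Z * y)) := by
  rw [← mul_assoc V.Z, v3m_sig, C_ZO, mul_smul_comm, mul_one, U_zero, smul_mul_assoc, sub_mul,
    smul_mul_assoc, mul_assoc V.O, zpow_one]
  match_scalars <;> (field_simp; try ring)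

theorem v3m_OZ (y : R) : (V.tl a ha).sig false 0 * (V.O * (V.Z * y)) =
    a ^ (1 : ℤ) • (V.Z * (V.O * y)) + (a ^ (-1 : ℤ) - a ^ (3 : ℤ)) • (V.O * (V.Z * y)) := by
  rw [← mul_assoc V.O, v3m_sig, C_OZ, mul_one, U_zero, sub_mul, smul_mul_assoc, mul_assoc V.Z,
    zpow_neg_one, zpow_one, zpow_ofNat]
  match_scalars <;> (field_simp; try ring)

theorem X_false_O (m : ℕ) (i : ℤ) : (V.tl a ha).X false m 0 * (V.I a m i * V.O) =
    a ^ ((m : ℤ) - 2 * i) • (V.O * V.I a m i) := by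
  induction m generalizing i with
  | zero =>
    by_cases h : i = 0 <;> simp [TL.X, I, h]
  | succ m ih =>
    have hx := (V.tl a ha).loc_X false m
    simp only [TL.X, I, add_mul, mul_add, smul_mul_assoc, mul_smul_comm, mul_assoc,
      V.v3p_Z' a ha hx, V.v3p_O' a ha hx, ih, v3m_ZO, v3m_OO, smul_add, smul_smul,
      ← zpow_add₀ ha]
    congr 3 <;> push_cast <;> ring

theorem X_false_Z (m : ℕ) (i : ℤ) : (V.tl a ha).X false m 0 * (V.I a m i * V.Z) =
    a ^ (2 * i - m) • (V.Z * V.I a m i) +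
      (a ^ (4 * i - 3 * m - 2) * (1 - a ^ (4 * ((m : ℤ) - i + 1)))) • (V.O * V.I a m (i - 1)) := by
  induction m generalizing i with
  | zero =>
    by_cases h : i = 0
    · simp [TL.X, I, h]
    · by_cases h' : i - 1 = 0
      · have h1 : i = 1 := by omega
        simp [TL.X, I, h1]
      · simp [TL.X, I, h, h']
  | succ m ih =>
    have hx := (V.tl a ha).loc_X false m
    simp only [TL.X, I, add_mul, mul_add, smul_mul_assoc, mul_smul_comm, mul_assoc,
      V.v3p_Z' a ha hx, V.v3p_O' a ha hx, ih, v3m_ZZ, v3m_OZ, v3m_ZO, v3m_OO]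
    match_scalars <;>
      simp only [mul_one, mul_sub, sub_mul, ← zpow_add₀ ha] <;> ring_nf

/-- One term of the crossing formula. -/
def v3mT (m n : ℕ) (i j t : ℤ) : R :=
  crK a false m n i j t • (V.I a n (j + t) * V.I a m (i - t))

theorem v3mT_top (m n : ℕ) (i j : ℤ) : V.v3mT a m n i j (n + 1 : ℕ) = 0 := by
  unfold v3mT
  rcases lt_or_ge (n : ℤ) (j + (n + 1 : ℕ)) with h | h
  · rw [V.I_eq_zero a n (Or.inr h), zero_mul, smul_zero]
  · simp only [crK, Bool.false_eq_true, if_false]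
    rw [v3p_gbZ _ (Or.inr (by omega)), mul_zero, zero_smul]

theorem v3mT_bot (m n : ℕ) (i j : ℤ) : V.v3mT a m n i j ((0 : ℕ) - 1) = 0 := by
  simp [v3mT, crK, poch]

include ha in
theorem v3mT_succ (m n : ℕ) (i j t : ℤ) : V.v3mT a m (n + 1) i j t =
    (a ^ (2 * i - m) • (V.Z * V.v3mT a m n i j t) +
      (a ^ (-2 * ((n : ℤ) + 1 - j)) * a ^ ((m : ℤ) - 2 * i)) •
        (V.O * V.v3mT a m n i (j - 1) t)) +
      (a ^ (4 * i - 3 * m - 2) * (1 - a ^ (4 * ((m : ℤ) - i + 1)))) •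
        (V.O * V.v3mT a m n (i - 1) j (t - 1)) := by
  simp only [v3mT, I, Nat.cast_add, Nat.cast_one, add_mul, smul_mul_assoc, mul_smul_comm,
    mul_assoc, smul_add, smul_smul]
  rw [sub_sub_sub_cancel_right, show j + (t - 1) = j + t - 1 by ring,
    show j - 1 + t = j + t - 1 by ring]
  rcases le_or_gt 0 (j + t - 1) with h | h
  · rw [v3m_O ha _ _ _ _ _ h, v3m_Z ha]
    module
  · rw [V.I_eq_zero a n (j := j + t - 1) (Or.inl h), v3m_Z ha]
    simp only [zero_mul, mul_zero, smul_zero, add_zero]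

theorem v3m_cr (m n : ℕ) (i j : ℤ) :
    (V.tl a ha).crC false m n 0 * (V.I a m i * V.I a n j) =
      ∑ t ∈ Finset.range (n + 1), V.v3mT a m n i j t := by
  induction n generalizing i j with
  | zero =>
    by_cases h : j = 0
    · rcases lt_or_ge (m : ℤ) i with h1 | h1
      · simp [TL.crC, v3mT, V.I_eq_zero a m (Or.inr h1)]
      · simp [TL.crC, v3mT, I, crK, poch, gbZ, gb, h, h1]
    · simp [TL.crC, v3mT, I, h]
  | succ n ih =>
    have hx := (V.tl a ha).loc_crC false m n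
    simp only [V.v3mT_succ a ha, Finset.sum_add_distrib, ← Finset.smul_sum, ← Finset.mul_sum]
    rw [Finset.sum_range_succ, Finset.sum_range_succ (n := n + 1),
      Finset.sum_range_succ' (n := n + 1), v3mT_top, v3mT_top, v3mT_bot]
    simp only [Nat.cast_add, Nat.cast_one, add_sub_cancel_right, add_zero, ← ih]
    rw [TL.crC, I, mul_add, mul_smul_comm, ← mul_assoc (V.I a m i), ← mul_assoc (V.I a m i),
      mul_assoc, mul_add, mul_smul_comm, ← mul_assoc _ (V.I a m i * V.Z),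
      ← mul_assoc _ (V.I a m i * V.O), X_false_Z, X_false_O]
    simp only [add_mul, mul_add, smul_mul_assoc, mul_smul_comm, mul_assoc, V.v3p_Z' a ha hx,
      V.v3p_O' a ha hx, smul_smul]
    abel

theorem cr_false (m n : ℕ) (i j : ℤ) :
    (V.tl a ha).crC false m n 0 * (V.I a m i * V.I a n j) =
      ∑ t ∈ Finset.Icc (0 : ℤ) n, crK a false m n i j t • (V.I a n (j + t) * V.I a m (i - t)) := by
  rw [v3m_cr, Int.Icc_eq_finset_map, Finset.sum_map, sub_zero, Int.toNat_natCast_add_one]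
  simp [v3mT]

end Lv

end Pool.Agent.P.MP_ac4909_gt
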