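import Pool.Agent.P.MP_ac4909_gt.V12
import Pool.Agent.P.MP_ac4909_gt.V3P
import Pool.Agent.P.MP_ac4909_gt.V3M
import Pool.Agent.P.MP_ac4909_gt.Cheb

/-! The coloured evaluation is the state sum. -/

namespace Pool.Agent.P.MP_ac4909_gt

variable {K : Type} [Field K] {R : Type} [Ring R] [Algebra K R] {ι : Type}

theorem Lv.vstate_append (V : Lv R) (a : K) (m : ι → ℕ) (l r : List (Arc ι)) (jl jr : List ℤ)
    (h : jl.length = l.length) :
    V.IRow a m (l ++ r) (jl ++ jr) = V.IRow a m l jl * V.IRow a m r jr := by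
  induction l generalizing jl with
  | nil =>
    obtain rfl : jl = [] := List.length_eq_zero_iff.1 h
    simp [Lv.IRow]
  | cons x l ih =>
    cases jl with
    | nil => simp at h
    | cons j jl =>
      simp only [List.cons_append, Lv.IRow]
      rw [ih jl (by simpa using h), mul_assoc]

theorem Lv.vstate_loc (V : Lv R) (a : K) (ha : a ≠ 0) (m : ι → ℕ) {k n : ℕ} {x : ℕ → R}
    (hx : (V.tl a ha).Loc k n x) (l : List (Arc ι)) (jl : List ℤ) (h : jl.length = l.length) :
    x (wid (fun o : Arc ι => m o.name) l) * V.IRow a m l jl = V.IRow a m l jl * x 0 := by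
  induction l generalizing jl with
  | nil => simp [Lv.IRow]
  | cons y l ih =>
    cases jl with
    | nil => simp at h
    | cons j jl =>
      simp only [wid_cons, Lv.IRow]
      rw [← mul_assoc, add_comm, V.loc_mul_I a ha hx, mul_assoc, ih jl (by simpa using h),
        mul_assoc]

theorem vstate_split0 {js : List ℤ} {p q : ℕ} (h : js.length = p + q) :
    ∃ jl jr : List ℤ, js = jl ++ jr ∧ jl.length = p ∧ jr.length = q :=
  ⟨js.take p, js.drop p, (List.take_append_drop p js).symm, by simp; omega, by simp; omega⟩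

theorem vstate_split2 {js : List ℤ} {p q : ℕ} (h : js.length = p + 2 + q) :
    ∃ (jl : List ℤ) (i j : ℤ) (jr : List ℤ), js = jl ++ i :: j :: jr ∧ jl.length = p ∧
      jr.length = q := by
  obtain ⟨jl, jr, rfl, h1, h2⟩ := vstate_split0 (p := p) (q := q + 2) (by omega : js.length = _)
  match jr, h2 with
  | i :: j :: jr, h2 => exact ⟨jl, i, j, jr, rfl, h1, by simpa using h2⟩

theorem Lv.vstate_two (V : Lv R) (a : K) (m : ι → ℕ) (l r : List (Arc ι)) (x y : Arc ι)
    (jl jr : List ℤ) (i j : ℤ) (h : jl.length = l.length) :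
    V.IRow a m (l ++ [x, y] ++ r) (jl ++ i :: j :: jr) =
      V.IRow a m l jl * (V.I a (m x.name) i * V.I a (m y.name) j) * V.IRow a m r jr := by
  rw [List.append_assoc, V.vstate_append a m _ _ _ _ h]
  simp only [List.cons_append, List.nil_append, Lv.IRow, mul_assoc]

theorem Lv.ev_mul_IRow (V : Lv R) (a : K) (ha : a ≠ 0) (hadm : ∀ n, Adm a n)
    (hg : ∀ (m : ℕ) (j : ℤ), 0 ≤ j → j ≤ m → gb (a ^ (-4 : ℤ)) m j ≠ 0) (m : ι → ℕ)
    {w : List (Sl (Arc ι))} {ρ : List (Arc ι)} (hw : Run ρ w []) (js : List ℤ)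
    (hjs : js.length = ρ.length) :
    (V.tl a ha).ev ((V.tl a ha).jcA m 0 fun _ => true) w * V.IRow a m ρ js =
      SS a (fun i => (m i : ℤ)) w js • (1 : R) := by
  set T := V.tl a ha with hT
  set c := T.jcA m 0 fun _ => true with hc
  have hn : c.n = fun o : Arc ι => m o.name := rfl
  have hF : ∀ o p, c.F o p = T.f (m o.name) p := by
    intro o p
    simp [hc, TL.jcA]
  induction w generalizing ρ js with
  | nil =>
    obtain rfl : ρ = [] := hw
    simp [TL.ev, Lv.IRow, SS]
  | cons s w ih =>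
    obtain ⟨rfl, hw⟩ := hw
    obtain ⟨l, g, r⟩ := s
    cases g with
    | cup o =>
      obtain ⟨jl, jr, rfl, h1, h2⟩ := vstate_split0 (p := l.length) (q := r.length)
        (by simpa [Sl.src, Gen.src] using hjs)
      have e1 := V.vstate_loc a ha m (T.loc_f (m o.name)) l jl h1
      have e2 := V.vstate_loc a ha m (T.loc_cupC (m o.name)) l jl h1
      have e3 := V.cup_formula a ha (m o.name) (hadm _) (hg _)
      have e4 : T.val c ⟨l, .cup o, r⟩ * V.IRow a m l jl =
          V.IRow a m l jl * (T.f (m o.name) 0 * T.cupC (m o.name) 0) := by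
        simp only [TL.val, TL.gval, hn, hF]
        rw [mul_assoc, e2, ← mul_assoc, e1, mul_assoc]
      have e5 : (⟨l, .cup o, r⟩ : Sl (Arc ι)).src = l ++ r := by simp [Sl.src, Gen.src]
      rw [e5, V.vstate_append a m _ _ _ _ h1, TL.ev, mul_assoc, ← mul_assoc (T.val c _), e4, e3,
        SS, Finset.sum_smul, Finset.mul_sum, Finset.sum_mul, Finset.mul_sum]
      refine Finset.sum_congr rfl fun j _ => ?_
      have e6 := ih hw (jl ++ j :: ((m o.name : ℤ) - j) :: jr)
        (by simp [Sl.tgt, Gen.tgt, h1, h2])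
      have e7 : (⟨l, .cup o, r⟩ : Sl (Arc ι)).tgt = l ++ [o, Rev.rev o] ++ r := rfl
      rw [e7, V.vstate_two a m _ _ _ _ _ _ _ _ h1, rev_name] at e6
      rw [mul_smul_comm, smul_mul_assoc, mul_smul_comm, e6, ← h1, List.take_left', List.drop_left',
        mul_smul] <;> rfl
    | cap o =>
      obtain ⟨jl, i, j, jr, rfl, h1, h2⟩ := vstate_split2 (js := js) (p := l.length)
        (q := r.length) (by rw [hjs]; simp [Sl.src, Gen.src]; omega)
      have e1 := V.vstate_loc a ha m (T.loc_f (m o.name)) l jl h1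
      have e2 := V.vstate_loc a ha m (T.loc_capC (m o.name)) l jl h1
      have e3 := V.cap_formula a ha (m o.name) i j
      have e4 : T.val c ⟨l, .cap o, r⟩ * V.IRow a m l jl =
          V.IRow a m l jl * (T.capC (m o.name) 0 * T.f (m o.name) 0) := by
        simp only [TL.val, TL.gval, hn, hF]
        rw [mul_assoc, e1, ← mul_assoc, e2, mul_assoc]
      have e5 : (⟨l, .cap o, r⟩ : Sl (Arc ι)).src = l ++ [o, Rev.rev o] ++ r := rfl
      have e6 := ih hw (jl ++ jr) (by simp [Sl.tgt, Gen.tgt, h1, h2])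
      have e7 : (⟨l, .cap o, r⟩ : Sl (Arc ι)).tgt = l ++ r := by simp [Sl.tgt, Gen.tgt]
      rw [e7, V.vstate_append a m _ _ _ _ h1] at e6
      rw [e5, V.vstate_two a m _ _ _ _ _ _ _ _ h1, rev_name, TL.ev, mul_assoc,
        ← mul_assoc (T.val c _), ← mul_assoc (T.val c _), e4, mul_assoc (V.IRow a m l jl), e3,
        mul_smul_comm, smul_mul_assoc, mul_smul_comm, mul_one, e6, SS, ← h1, mul_smul]
      simp
    | cr x y b =>
      obtain ⟨jl, i, j, jr, rfl, h1, h2⟩ := vstate_split2 (js := js) (p := l.length)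
        (q := r.length) (by rw [hjs]; simp [Sl.src, Gen.src]; omega)
      have e4 : T.val c ⟨l, .cr x y b, r⟩ * V.IRow a m l jl =
          V.IRow a m l jl * T.crC b (m x.name) (m y.name) 0 :=
        V.vstate_loc a ha m (T.loc_crC b (m x.name) (m y.name)) l jl h1
      have e3 : T.crC b (m x.name) (m y.name) 0 * (V.I a (m x.name) i * V.I a (m y.name) j) =
          ∑ t ∈ Finset.Icc (0 : ℤ) (m y.name), crK a b (m x.name) (m y.name) i j t •
            (V.I a (m y.name) (j - sgnB b * t) * V.I a (m x.name) (i + sgnB b * t)) := by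
        cases b with
        | true => simpa [sgnB] using V.cr_true a ha (m x.name) (m y.name) i j
        | false =>
          simpa [sgnB, sub_eq_add_neg] using V.cr_false a ha (m x.name) (m y.name) i j
      have e5 : (⟨l, .cr x y b, r⟩ : Sl (Arc ι)).src = l ++ [x, y] ++ r := rfl
      rw [e5, V.vstate_two a m _ _ _ _ _ _ _ _ h1, TL.ev, mul_assoc,
        ← mul_assoc (T.val c _), ← mul_assoc (T.val c _), e4, mul_assoc (V.IRow a m l jl), e3,
        SS, Finset.sum_smul, Finset.mul_sum, Finset.sum_mul, Finset.mul_sum]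
      refine Finset.sum_congr rfl fun t _ => ?_
      have e6 := ih hw (jl ++ (j - sgnB b * t) :: (i + sgnB b * t) :: jr)
        (by simp [Sl.tgt, Gen.tgt, h1, h2])
      have e7 : (⟨l, .cr x y b, r⟩ : Sl (Arc ι)).tgt = l ++ [y, x] ++ r := rfl
      rw [e7, V.vstate_two a m _ _ _ _ _ _ _ _ h1] at e6
      rw [mul_smul_comm, smul_mul_assoc, mul_smul_comm, e6, ← h1, mul_smul]
      simp

theorem lev_JP_eq_SS [Fintype ι] [DecidableEq ι] (a : K) (ha : a ≠ 0) (hadm : ∀ n, Adm a n)
    (hg : ∀ (m : ℕ) (j : ℤ), 0 ≤ j → j ≤ m → gb (a ^ (-4 : ℤ)) m j ≠ 0)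
    {L : List (Sl (Arc ι))} (hL : IsFramedLink L) (m : ι → ℕ) :
    lev a ha (JP L fun i => (m i : ℤ) + 1) = SS a (fun i => (m i : ℤ)) L [] := by
  obtain ⟨V⟩ := exists_lv K
  have h1 := V.ev_mul_IRow a ha hadm hg m hL.1 [] rfl
  have h2 := (V.tl a ha).ev_eq_JP hL m (fun i => hadm _)
  rw [h2, Lv.IRow, mul_one, ← Algebra.algebraMap_eq_smul_one] at h1
  · exact (algebraMap K (Module.End K ((ℕ → Bool) → K))).injective h1
  · simp

end Pool.Agent.P.MP_ac4909_gt
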