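import Pool.Agent.P.MP_ac4909_gt.HolCoef
import Pool.Agent.P.MP_ac4909_gt.HolSum
import Pool.Agent.P.MP_ac4909_gt.VState
import Pool.Agent.P.MP_ac4909_gt.Scal

/-! The coloured Jones function has holonomic growth. -/

namespace Pool.Agent.P.MP_ac4909_gt

variable {K : Type} [Field K] {q : Kˣ} {ι : Type}

/-- summation over an interval with an affine end point -/
theorem holSS_sum_Icc (hq : ∀ n : ℤ, (q : K) ^ n = 1 → n = 0) {α : Type} [Fintype α]
    {G : (Option α → ℤ) → K} (hG : HolF q G) {M : (α → ℤ) → ℤ} (hM : IsAff M) :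
    HolF q fun x : α → ℤ => ∑ t ∈ Finset.Icc 0 (M x), G fun o => o.elim t x := by
  have h1 := holF_nonneg hq (isAff_coord (none : Option α))
  have h2 := holF_nonneg hq (hM.some.sub (isAff_coord (none : Option α)))
  have h3 := (hG.mul hq (h1.mul hq h2)).sum_opt hq (fun x => Finset.Icc 0 (M x)) (by
    intro n t ht
    rw [Finset.mem_Icc, not_and_or] at ht
    change _ * ((if 0 ≤ t then (1 : K) else 0) * if 0 ≤ M n - t then (1 : K) else 0) = 0
    rcases ht with ht | ht
    · rw [if_neg ht, zero_mul, mul_zero]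
    · rw [if_neg (show ¬ 0 ≤ M n - t by omega), mul_zero, mul_zero])
  refine h3.congr fun n => Finset.sum_congr rfl fun t ht => ?_
  rw [Finset.mem_Icc] at ht
  change _ * ((if 0 ≤ t then (1 : K) else 0) * if 0 ≤ M n - t then (1 : K) else 0) = _
  rw [if_pos ht.1, if_pos (show 0 ≤ M n - t by omega), mul_one, mul_one]

/-- an affine form in one more variable -/
def holSS_up {α : Type} (f : (α → ℤ) → ℤ) (y : Option α → ℤ) : ℤ := f fun i => y (some i)

theorem holSS_getD {α : Type} (js : List ((α → ℤ) → ℤ)) (n : ℕ) (x : α → ℤ) :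
    (js.map fun f => f x).getD n 0 = js.getD n (fun _ => 0) x :=
  List.getD_map js (fun _ => 0) (n := n) fun f => f x

theorem holSS_aff_getD {α : Type} {js : List ((α → ℤ) → ℤ)} (h : ∀ f ∈ js, IsAff f) (n : ℕ) :
    IsAff (js.getD n fun _ => 0) := by
  rcases lt_or_ge n js.length with hn | hn
  · rw [List.getD_eq_getElem _ _ hn]
    exact h _ (List.getElem_mem hn)
  · rw [List.getD_eq_default _ _ hn]
    exact isAff_const 0

theorem holSS_aff_up {α : Type} {js : List ((α → ℤ) → ℤ)} (h : ∀ f ∈ js, IsAff f) (a b : ℕ)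
    {u v : (Option α → ℤ) → ℤ} (hu : IsAff u) (hv : IsAff v) :
    ∀ f ∈ (js.take a).map holSS_up ++ u :: v :: (js.drop b).map holSS_up, IsAff f := by
  intro f hf
  simp only [List.mem_append, List.mem_map, List.mem_cons] at hf
  rcases hf with ⟨g, hg, rfl⟩ | rfl | rfl | ⟨g, hg, rfl⟩
  · exact (h g (List.mem_of_mem_take hg)).some
  · exact hu
  · exact hv
  · exact (h g (List.mem_of_mem_drop hg)).some

theorem holSS_map_up {α : Type} (js : List ((α → ℤ) → ℤ)) (a b : ℕ)
    (u v : (Option α → ℤ) → ℤ) (t : ℤ) (x : α → ℤ) :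
    (((js.take a).map holSS_up ++ u :: v :: (js.drop b).map holSS_up).map
      fun f => f fun o => o.elim t x) =
      (js.map fun f => f x).take a ++ (u fun o => o.elim t x) :: (v fun o => o.elim t x) ::
        (js.map fun f => f x).drop b := by
  simp only [List.map_append, List.map_cons, List.map_map, ← List.map_take, ← List.map_drop]
  rfl

theorem holF_SS (hq : ∀ n : ℤ, (q : K) ^ n = 1 → n = 0) (w : List (Sl (Arc ι))) :
    ∀ (α : Type) [Fintype α] (m : ι → (α → ℤ) → ℤ) (js : List ((α → ℤ) → ℤ)),
      (∀ i, IsAff (m i)) → (∀ f ∈ js, IsAff f) →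
      HolF q fun x => SS (q : K) (fun i => m i x) w (js.map fun f => f x) := by
  induction w with
  | nil => intro α _ m js _ _; exact holF_const q 1
  | cons s w ih =>
    intro α _ m js hm hjs
    have ht : IsAff fun y : Option α → ℤ => y none := isAff_coord none
    have hm' : ∀ i, IsAff (holSS_up (m i)) := fun i => (hm i).some
    obtain ⟨l, g, r⟩ := s
    cases g with
    | cup o =>
      have h1 := ih (Option α) (fun i => holSS_up (m i)) _ hm'
        (holSS_aff_up hjs l.length l.length ht ((hm' o.name).sub ht))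
      have h2 := holSS_sum_Icc hq ((holF_cuC hq (hm' o.name) ht).mul hq h1) (hm o.name)
      refine h2.congr fun x => ?_
      rw [SS]
      refine Finset.sum_congr rfl fun t _ => ?_
      rw [holSS_map_up]
      rfl
    | cap o =>
      have h1 := ih α m (js.take l.length ++ js.drop (l.length + 2)) hm (by
        intro f hf
        rcases List.mem_append.1 hf with hf | hf
        · exact hjs f (List.mem_of_mem_take hf)
        · exact hjs f (List.mem_of_mem_drop hf))
      have h2 := (holF_caC hq (hm o.name) (holSS_aff_getD hjs l.length)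
        (holSS_aff_getD hjs (l.length + 1))).mul hq h1
      refine h2.congr fun x => ?_
      rw [SS, holSS_getD, holSS_getD, List.map_append, List.map_take, List.map_drop]
    | cr a b s =>
      have g0 : IsAff (holSS_up (js.getD l.length fun _ => 0)) :=
        (holSS_aff_getD hjs l.length).some
      have g1 : IsAff (holSS_up (js.getD (l.length + 1) fun _ => 0)) :=
        (holSS_aff_getD hjs (l.length + 1)).some
      have h1 := ih (Option α) (fun i => holSS_up (m i)) _ hm'
        (holSS_aff_up hjs l.length (l.length + 2) (g1.sub (ht.const_mul (sgnB s)))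
          (g0.add (ht.const_mul (sgnB s))))
      have h2 := holSS_sum_Icc hq
        ((holF_crK hq s (hm' a.name) (hm' b.name) g0 g1 ht).mul hq h1) (hm b.name)
      refine h2.congr fun x => ?_
      rw [SS]
      refine Finset.sum_congr rfl fun t _ => ?_
      rw [holSS_map_up, holSS_getD, holSS_getD]
      rfl

theorem holSS_JP_zero [Fintype ι] (L : List (Sl (Arc ι))) {k : ι → ℤ} {i : ι} (h : k i = 0) :
    JP L k = 0 := by
  have : chb k = 0 := by
    refine Finset.prod_eq_zero (Finset.mem_univ i) ?_
    rw [h, zero_sub, Polynomial.Chebyshev.S_neg_one, map_zero]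
  rw [JP, this, map_zero]

theorem holSS_JP_sign [Fintype ι] [DecidableEq ι] (L : List (Sl (Arc ι))) (k : ι → ℤ)
    (S : Finset ι) :
    JP L (fun i => if i ∈ S then -k i else k i) = (-1) ^ S.card * JP L k := by
  induction S using Finset.induction_on with
  | empty => simp
  | insert j S hj ih =>
    rw [Finset.card_insert_of_notMem hj, pow_succ, mul_neg_one, neg_mul, ← ih, ← JP_neg _ _ j]
    congr 1
    funext i
    by_cases hi : i = j
    · subst hi
      simp [hj]
    · simp [hi]

theorem holF_JP [Fintype ι] [DecidableEq ι] (hq : ∀ n : ℤ, (q : K) ^ n = 1 → n = 0)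
    {L : List (Sl (Arc ι))} (hL : IsFramedLink L) :
    HolF q fun k : ι → ℤ => lev (q : K) q.ne_zero (JP L k) := by
  have haff : ∀ (S : Finset ι) (i : ι),
      IsAff fun k : ι → ℤ => (if i ∈ S then -k i else k i) - 1 := by
    intro S i
    by_cases hi : i ∈ S
    · simp only [if_pos hi]
      exact (isAff_coord i).neg.sub (isAff_const 1)
    · simp only [if_neg hi]
      exact (isAff_coord i).sub (isAff_const 1)
  have hQ0 : (q : K) ^ (-4 : ℤ) ≠ 0 := zpow_ne_zero _ q.ne_zero
  have hQ : ∀ n : ℤ, ((q : K) ^ (-4 : ℤ)) ^ n = 1 → n = 0 := by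
    intro n hn
    rw [← zpow_mul] at hn
    have := hq _ hn
    omega
  have h1 : HolF q fun k : ι → ℤ => ∑ S : Finset ι, (-1 : K) ^ S.card *
      ((∏ i, if 0 ≤ (if i ∈ S then -k i else k i) - 1 then (1 : K) else 0) *
        SS (q : K) (fun i => (if i ∈ S then -k i else k i) - 1) L []) := by
    refine HolF.finset_sum _ fun S _ => HolF.const_mul ?_ _
    exact (HolF.finset_prod hq _ fun i _ => holF_nonneg hq (haff S i)).mul hq
      (holF_SS hq L ι (fun i k => (if i ∈ S then -k i else k i) - 1) [] (haff S) (by simp))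
  refine h1.congr fun k => ?_
  by_cases h0 : ∃ i, k i = 0
  · obtain ⟨i, hi⟩ := h0
    rw [holSS_JP_zero L hi, map_zero]
    refine Finset.sum_eq_zero fun S _ => ?_
    rw [Finset.prod_eq_zero (Finset.mem_univ i), zero_mul, mul_zero]
    rw [hi, neg_zero, ite_self, if_neg (by norm_num)]
  · have h0' : ∀ i, k i ≠ 0 := fun i hi => h0 ⟨i, hi⟩
    set S₀ : Finset ι := Finset.univ.filter fun i => k i < 0 with hS₀
    have hmem : ∀ i, i ∈ S₀ ↔ k i < 0 := fun i => by simp [hS₀]
    have hpos : ∀ i, 0 ≤ (if i ∈ S₀ then -k i else k i) - 1 := by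
      intro i
      have := h0' i
      by_cases hi : i ∈ S₀
      · rw [if_pos hi]
        have := (hmem i).1 hi
        omega
      · rw [if_neg hi]
        have := mt (hmem i).2 hi
        omega
    rw [Finset.sum_eq_single S₀]
    · rw [Finset.prod_eq_one fun i _ => if_pos (hpos i), one_mul]
      have e := lev_JP_eq_SS (q : K) q.ne_zero (adm_of_nontorsion _ q.ne_zero hq)
        (gb_ne_zero hQ0 hQ) hL fun i => ((if i ∈ S₀ then -k i else k i) - 1).toNat
      simp only [Int.toNat_of_nonneg (hpos _), sub_add_cancel] at e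
      rw [← e, holSS_JP_sign, map_mul, map_pow, map_neg, map_one, ← mul_assoc, ← mul_pow]
      simp
    · intro S _ hS
      obtain ⟨i, hi⟩ : ∃ i, ¬ (i ∈ S ↔ i ∈ S₀) := by
        by_contra hc
        exact hS (Finset.ext fun i => by_contra fun h => hc ⟨i, h⟩)
      rw [Finset.prod_eq_zero (Finset.mem_univ i), zero_mul, mul_zero]
      rw [hmem] at hi
      refine if_neg ?_
      by_cases hi' : i ∈ S
      · rw [if_pos hi']
        have : ¬ k i < 0 := fun h => hi ⟨fun _ => h, fun _ => hi'⟩
        omega
      · rw [if_neg hi']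
        have : k i < 0 := by_contra fun h => hi ⟨fun h' => absurd h' hi', fun h' => absurd h' h⟩
        omega
    · intro h
      exact absurd (Finset.mem_univ _) h

end Pool.Agent.P.MP_ac4909_gt
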