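import Pool.Agent.P.MP_ac4909_gt.QT

/-! The abstract restriction lemma (Lagrange interpolation). -/

namespace Pool.Agent.P.MP_ac4909_gt

variable {K : Type} [Field K] {q q' : Kˣ} {α β : Type} [Fintype α] [Fintype β]
  {M M' : Type} [AddCommGroup M] [Module K M] [AddCommGroup M'] [Module K M']

/-- if `N` separates the maps `ρ s` on a generating set `Y`, then `N` is large -/
theorem card_mul_finrank_le {σ N : Type} [AddCommGroup N] [Module K N] [Module.Finite K N]
    (S : Finset σ) (ρ : σ → N →ₗ[K] M') (Y : Set M')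
    (h : ∀ s ∈ S, ∀ y ∈ Y, ∃ x : N, ρ s x = y ∧ ∀ s' ∈ S, s' ≠ s → ρ s' x = 0) :
    S.card * Module.finrank K (Submodule.span K Y) ≤ Module.finrank K N := by
  classical
  rcases S.eq_empty_or_nonempty with rfl | ⟨s0, hs0⟩
  · simp
  have hfin : Module.Finite K (Submodule.span K Y) := by
    have h1 : Submodule.span K Y ≤ LinearMap.range (ρ s0) := by
      rw [Submodule.span_le]
      intro y hy
      obtain ⟨x, hx, -⟩ := h s0 hs0 y hy
      exact ⟨x, hx⟩
    exact Submodule.finiteDimensional_of_le h1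
  let Φ : N →ₗ[K] (S → M') := LinearMap.pi fun s => ρ s
  let j : (S → Submodule.span K Y) →ₗ[K] (S → M') :=
    LinearMap.pi fun s => (Submodule.span K Y).subtype ∘ₗ LinearMap.proj s
  have hj : Function.Injective j := by
    intro f g hfg
    funext s
    exact Subtype.ext (congrFun hfg s)
  have hsingle : ∀ (s : S) (y : M'), y ∈ Submodule.span K Y →
      (Pi.single s y : S → M') ∈ LinearMap.range Φ := by
    intro s y hy
    have h1 : Submodule.span K Y ≤
        (LinearMap.range Φ).comap (LinearMap.single K (fun _ : S => M') s) := by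
      rw [Submodule.span_le]
      intro y hy
      obtain ⟨x, hx, hx'⟩ := h s s.2 y hy
      refine ⟨x, ?_⟩
      funext s'
      show ρ s' x = (Pi.single s y : S → M') s'
      by_cases e : s' = s
      · rw [e, Pi.single_eq_same, hx]
      · rw [Pi.single_eq_of_ne e]
        exact hx' s' s'.2 fun e' => e (Subtype.ext e')
    exact h1 hy
  have hle : LinearMap.range j ≤ LinearMap.range Φ := by
    rintro _ ⟨f, rfl⟩
    rw [← Finset.univ_sum_single (j f)]
    exact Submodule.sum_mem _ fun s _ => hsingle s _ (f s).2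
  have h1 : Module.finrank K (S → Submodule.span K Y) ≤ Module.finrank K N := by
    rw [← LinearMap.finrank_range_of_inj hj]
    exact (Submodule.finrank_mono hle).trans (LinearMap.finrank_range_le Φ)
  rw [Module.finrank_pi_fintype] at h1
  simpa using h1

theorem ARL_bound (φ : (α → ℤ) →+ (β → ℤ)) :
    ∃ B : ℕ, ∀ (d : ℕ) (u : α → ℤ), u ∈ box α d → φ u ∈ box β (B * d) := by
  classical
  refine ⟨∑ j, ∑ i, (φ (Pi.single i 1) j).natAbs, fun d u hu j => ?_⟩
  have e : u = ∑ i, u i • (Pi.single i 1 : α → ℤ) := by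
    funext k
    simp [Finset.sum_apply, Pi.single_apply]
  have e2 : φ u j = ∑ i, u i * φ (Pi.single i 1) j := by
    conv_lhs => rw [e, map_sum]
    simp only [map_zsmul, Finset.sum_apply, Pi.smul_apply, smul_eq_mul]
  rw [e2]
  calc |∑ i, u i * φ (Pi.single i 1) j| ≤ ∑ i, |u i * φ (Pi.single i 1) j| :=
        Finset.abs_sum_le_sum_abs _ _
    _ ≤ ∑ i, |φ (Pi.single i 1) j| * d := by
        refine Finset.sum_le_sum fun i _ => ?_
        rw [abs_mul, mul_comm]
        exact mul_le_mul_of_nonneg_left (hu i) (abs_nonneg _)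
    _ = (∑ i, |φ (Pi.single i 1) j|) * d := by rw [Finset.sum_mul]
    _ ≤ (∑ j, ∑ i, |φ (Pi.single i 1) j|) * d := by
        refine mul_le_mul_of_nonneg_right ?_ (Int.natCast_nonneg d)
        exact Finset.single_le_sum (f := fun j => ∑ i, |φ (Pi.single i 1) j|)
          (fun k _ => Finset.sum_nonneg fun i _ => abs_nonneg _) (Finset.mem_univ j)
    _ = _ := by push_cast; rfl

theorem ARL_lagrange (hq : ∀ n : ℤ, (q : K) ^ n = 1 → n = 0) (n : ℕ) :
    ∃ W : Fin n → Fin n → K, ∀ a a' : Fin n,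
      ∑ b : Fin n, W a b * (q : K) ^ (((a' : ℕ) : ℤ) * ((b : ℕ) : ℤ)) = if a = a' then 1 else 0 := by
  classical
  have hinj : Function.Injective fun a : Fin n => (q : K) ^ (a : ℕ) := by
    intro a b hab
    have h1 : (q : K) ^ (((a : ℕ) : ℤ) - ((b : ℕ) : ℤ)) = 1 := by
      rw [zpow_sub₀ q.ne_zero, zpow_natCast, zpow_natCast]
      exact (div_eq_one_iff_eq (pow_ne_zero _ q.ne_zero)).2 hab
    have := hq _ h1
    apply Fin.ext
    omega
  have hdet := Matrix.det_vandermonde_ne_zero_iff.2 hinj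
  have hu : IsUnit (Matrix.vandermonde fun a : Fin n => (q : K) ^ (a : ℕ)).det :=
    isUnit_iff_ne_zero.2 hdet
  have h1 := Matrix.mul_nonsing_inv _ hu
  refine ⟨fun a b => (Matrix.vandermonde fun a : Fin n => (q : K) ^ (a : ℕ))⁻¹ b a,
    fun a a' => ?_⟩
  have h2 := congrFun (congrFun h1 a') a
  rw [Matrix.mul_apply, Matrix.one_apply] at h2
  have h3 : (if a = a' then (1 : K) else 0) = if a' = a then 1 else 0 := by
    simp only [eq_comm]
  rw [h3, ← h2]
  refine Finset.sum_congr rfl fun b _ => ?_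
  rw [Matrix.vandermonde_apply, mul_comm, ← pow_mul, ← Nat.cast_mul, zpow_natCast]

theorem ARL_zpow_sum (a : K) (ha : a ≠ 0) {ι : Type} (s : Finset ι) (f : ι → ℤ) :
    a ^ (∑ i ∈ s, f i) = ∏ i ∈ s, a ^ f i := by
  classical
  induction s using Finset.induction_on with
  | empty => simp
  | insert i s hi ih => rw [Finset.sum_insert hi, Finset.prod_insert hi, zpow_add₀ ha, ih]

theorem ARL_lagrange' [DecidableEq β] (hq : ∀ n : ℤ, (q : K) ^ n = 1 → n = 0) (n : ℕ) :
    ∃ P : (β → Fin n) → (β → Fin n) → K, ∀ s s' : β → Fin n,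
      ∑ z : β → Fin n, P s z *
        (q : K) ^ ((fun j => ((s' j : ℕ) : ℤ)) ⬝ᵥ fun j => ((z j : ℕ) : ℤ)) =
        if s = s' then 1 else 0 := by
  obtain ⟨W, hW⟩ := ARL_lagrange hq n
  refine ⟨fun s z => ∏ j, W (s j) (z j), fun s s' => ?_⟩
  have e : ∀ z : β → Fin n, (∏ j, W (s j) (z j)) *
      (q : K) ^ ((fun j => ((s' j : ℕ) : ℤ)) ⬝ᵥ fun j => ((z j : ℕ) : ℤ)) =
      ∏ j, (W (s j) (z j) * (q : K) ^ (((s' j : ℕ) : ℤ) * ((z j : ℕ) : ℤ))) := by
    intro z
    rw [dotProduct, ARL_zpow_sum _ q.ne_zero, Finset.prod_mul_distrib]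
  simp only [e]
  have h1 := Finset.prod_univ_sum (fun _ : β => (Finset.univ : Finset (Fin n)))
    (fun j b => W (s j) b * (q : K) ^ (((s' j : ℕ) : ℤ) * ((b : ℕ) : ℤ)))
  rw [Fintype.piFinset_univ] at h1
  rw [← h1]
  simp only [hW]
  by_cases h : s = s'
  · simp [h]
  · rw [if_neg h]
    obtain ⟨j, hj⟩ := Function.ne_iff.1 h
    exact Finset.prod_eq_zero (Finset.mem_univ j) (if_neg hj)

theorem QT.Hol.restrict (hq : ∀ n : ℤ, (q : K) ^ n = 1 → n = 0) (T : QT q β M) (T' : QT q' α M')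
    (ρ : M →ₗ[K] M') (φ : (α → ℤ) →+ (β → ℤ)) (ψ : (β → ℤ) →+ (α → ℤ)) (c : (β → ℤ) → K)
    (hc : ∀ z, c z ≠ 0) (hE : ∀ u x, ρ (T.E (φ u) x) = T'.E u (ρ x))
    (hQ : ∀ z x, ρ (T.Q z x) = c z • T'.Q (ψ z) (ρ x)) {x : M} (hx : T.Hol x) :
    T'.Hol (ρ x) := by
  classical
  obtain ⟨C, hC⟩ := hx
  obtain ⟨B1, hB1⟩ := ARL_bound φ
  obtain ⟨B2, hB2⟩ := ARL_bound ψ
  refine ⟨(2 * (B2 + 1)) ^ Fintype.card α * (C * (B1 + 1) ^ Fintype.card β), fun d => ?_⟩
  obtain ⟨P, hP⟩ := ARL_lagrange' (β := β) hq (d + 1)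
  let hat : (β → Fin (d + 1)) → β → ℤ := fun s j => ((s j : ℕ) : ℤ)
  have hhat : ∀ s, hat s ∈ box β d := by
    intro s j
    have := (s j).2
    show |((s j : ℕ) : ℤ)| ≤ d
    rw [abs_of_nonneg (Int.natCast_nonneg _)]
    omega
  let W : Finset (α → ℤ) :=
    Fintype.piFinset fun _ => Finset.Icc (-(((B2 + 1) * d : ℕ) : ℤ)) (((B2 + 1) * d : ℕ) : ℤ)
  have hWc : W.card = (2 * ((B2 + 1) * d) + 1) ^ Fintype.card α := by
    rw [Fintype.card_piFinset, Finset.prod_const, Int.card_Icc, Finset.card_univ]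
    congr 1
    omega
  let R : (β → Fin (d + 1)) → (W → T.Fil ((B1 + 1) * d) x) →ₗ[K] M' := fun s =>
    ∑ w : W, T'.Q w ∘ₗ ρ ∘ₗ T.E (hat s) ∘ₗ (T.Fil ((B1 + 1) * d) x).subtype ∘ₗ LinearMap.proj w
  have hR : ∀ s (w : W) (y : T.Fil ((B1 + 1) * d) x),
      R s (Pi.single w y) = T'.Q w (ρ (T.E (hat s) y)) := by
    intro s w y
    simp only [R, LinearMap.sum_apply, LinearMap.comp_apply, LinearMap.proj_apply,
      Submodule.subtype_apply]
    rw [Finset.sum_eq_single w]
    · rw [Pi.single_eq_same]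
    · intro w' _ hw'
      rw [Pi.single_eq_of_ne hw']
      simp
    · intro h
      exact absurd (Finset.mem_univ w) h
  have key := card_mul_finrank_le (K := K) (Finset.univ : Finset (β → Fin (d + 1))) R
    {y | ∃ u ∈ box α d, ∃ v ∈ box α d, y = T'.Q v (T'.E u (ρ x))} (by
      rintro s - _ ⟨u, hu, v, hv, rfl⟩
      have hw : ∀ z, v - ψ (hat z) ∈ W := by
        intro z
        rw [Fintype.mem_piFinset]
        intro i
        have h1 := hv i
        have h2 := hB2 d _ (hhat z) i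
        rw [Finset.mem_Icc, Pi.sub_apply]
        rw [abs_le] at h1 h2
        push_cast at h2 ⊢
        constructor <;> linarith [h1.1, h1.2, h2.1, h2.2]
      have hm : ∀ z, T.Q (hat z) (T.E (φ u - hat s) x) ∈ T.Fil ((B1 + 1) * d) x := by
        intro z
        refine Submodule.subset_span ⟨φ u - hat s, fun j => ?_, hat z, fun j => ?_, rfl⟩
        · have h1 := hB1 d u hu j
          have h2 := hhat s j
          rw [Pi.sub_apply]
          rw [abs_le] at h1 h2 ⊢
          push_cast at h1 ⊢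
          constructor <;> linarith [h1.1, h1.2, h2.1, h2.2]
        · have h2 := hhat z j
          have h3 : (0 : ℤ) ≤ (B1 : ℤ) * d := by positivity
          push_cast
          linarith
      have hval : ∀ s', R s' (∑ z, (P s z / c (hat z)) •
          (Pi.single ⟨_, hw z⟩ ⟨_, hm z⟩ : W → T.Fil ((B1 + 1) * d) x)) =
          (if s = s' then (1 : K) else 0) • T'.Q v (ρ (T.E (hat s' + (φ u - hat s)) x)) := by
        intro s'
        rw [← hP s s', Finset.sum_smul, map_sum]
        refine Finset.sum_congr rfl fun z _ => ?_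
        rw [map_smul, hR]
        have e1 : T.E (hat s') (T.Q (hat z) (T.E (φ u - hat s) x)) =
            ((q : K) ^ (hat s' ⬝ᵥ hat z)) • T.Q (hat z) (T.E (hat s' + (φ u - hat s)) x) := by
          have := congrArg (fun f : Module.End K M => f (T.E (φ u - hat s) x))
            (T.comm (hat s') (hat z))
          simp only [Module.End.mul_apply, LinearMap.smul_apply] at this
          rw [this, T.E_add, Module.End.mul_apply]
        have e2 : ∀ y, T'.Q (v - ψ (hat z)) (T'.Q (ψ (hat z)) y) = T'.Q v y := by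
          intro y
          rw [← Module.End.mul_apply, ← T'.Q_add, sub_add_cancel]
        show (P s z / c (hat z)) • T'.Q (v - ψ (hat z))
          (ρ (T.E (hat s') (T.Q (hat z) (T.E (φ u - hat s) x)))) = _
        rw [e1, map_smul, hQ, map_smul, map_smul, e2, smul_smul, smul_smul]
        congr 1
        have := hc (hat z)
        field_simp
        rfl
      refine ⟨_, (hval s).trans ?_, fun s' _ hs' => (hval s').trans ?_⟩
      · rw [if_pos rfl, one_smul, add_sub_cancel, hE]
      · rw [if_neg (Ne.symm hs'), zero_smul])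
  rw [Module.finrank_pi_fintype, Finset.sum_const, Finset.card_univ, Finset.card_univ,
    Fintype.card_fun, Fintype.card_fin, Fintype.card_coe, hWc, smul_eq_mul] at key
  have h1 := hC ((B1 + 1) * d)
  have h2 : (2 * ((B2 + 1) * d) + 1) ^ Fintype.card α ≤
      (2 * (B2 + 1)) ^ Fintype.card α * (d + 1) ^ Fintype.card α := by
    rw [← mul_pow]
    exact Nat.pow_le_pow_left (by nlinarith) _
  have h3 : ((B1 + 1) * d + 1) ^ Fintype.card β ≤
      (B1 + 1) ^ Fintype.card β * (d + 1) ^ Fintype.card β := by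
    rw [← mul_pow]
    exact Nat.pow_le_pow_left (by nlinarith) _
  have h4 := key.trans (Nat.mul_le_mul h2 (h1.trans (Nat.mul_le_mul_left C h3)))
  have h5 : 0 < (d + 1) ^ Fintype.card β := by positivity
  refine Nat.le_of_mul_le_mul_left (h4.trans (le_of_eq ?_)) h5
  ring

end Pool.Agent.P.MP_ac4909_gt
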