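import Pool.Agent.P.MP_ac4909_gt.Scal

/-! The roots of unity `aa t = -exp(iπ/2r)`, `r = 2^t`, and evaluation of rational functions as
germs at infinity. -/

namespace Pool.Agent.P.MP_ac4909_gt

open Filter Topology

/-- `-exp(iπ/(2r))` with `r = 2^t`: a primitive root of unity of order `4r` -/
noncomputable def aa (t : ℕ) : ℂ := -Complex.exp (Real.pi * Complex.I / (2 * 2 ^ t))

theorem aa_ne (t : ℕ) : aa t ≠ 0 := by simp [aa]

theorem aa_prim (t : ℕ) : IsPrimitiveRoot (aa t) (4 * 2 ^ t) := by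
  have hc : (2 * 2 ^ t + 1).Coprime (4 * 2 ^ t) := by
    have e : 4 * 2 ^ t = 2 ^ (t + 2) := by ring
    rw [e]
    exact Nat.Coprime.pow_right _ (by simp)
  have h := Complex.isPrimitiveRoot_exp_of_coprime _ _ (by positivity) hc
  have e : aa t = Complex.exp (2 * Real.pi * Complex.I *
      (((2 * 2 ^ t + 1 : ℕ) : ℂ) / ((4 * 2 ^ t : ℕ) : ℂ))) := by
    rw [aa, ← Complex.exp_add_pi_mul_I]
    congr 1
    push_cast
    field_simp
    ring
  rwa [e]

theorem norm_aa (t : ℕ) : ‖aa t‖ = 1 := (aa_prim t).norm'_eq_one (by positivity)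

theorem aa_sq (t : ℕ) : aa t ^ 2 = Complex.exp (Real.pi * Complex.I / 2 ^ t) := by
  rw [aa, neg_sq, ← Complex.exp_nat_mul]
  congr 1
  push_cast
  field_simp

theorem tendsto_aa : Tendsto aa atTop (𝓝 (-1)) := by
  have h1 : Tendsto (fun t : ℕ => ((1 / 2 : ℂ)) ^ t) atTop (𝓝 0) :=
    tendsto_pow_atTop_nhds_zero_of_norm_lt_one (by norm_num)
  have h2 := ((Complex.continuous_exp.tendsto _).comp
    (h1.const_mul (Real.pi * Complex.I / 2))).neg
  rw [mul_zero, Complex.exp_zero] at h2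
  refine h2.congr (fun t => ?_)
  simp only [aa, Function.comp]
  congr 2
  rw [one_div, inv_pow]
  field_simp

theorem dlt_aa (t : ℕ) : dlt (aa t) = -((2 * Real.cos (Real.pi / 2 ^ t) : ℝ) : ℂ) := by
  rw [dlt, inv_pow, aa_sq, ← Complex.exp_neg]
  push_cast
  rw [Complex.two_cos]
  ring_nf

theorem adm_aa {t : ℕ} (ht : 1 ≤ t) : Adm (aa t) (2 ^ t - 1) := by
  intro j hj h
  have h1 := Dl_closed (aa t) (aa_ne t) j
  rw [h, mul_zero, eq_comm, mul_eq_zero, sub_eq_zero] at h1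
  have h2 := h1.resolve_left (pow_ne_zero _ (neg_ne_zero.2 one_ne_zero))
  have h3 : aa t ^ (4 * (j + 1)) = 1 := by
    have e : 4 * (j + 1) = (2 * j + 2) + (2 * j + 2) := by ring
    rw [e, pow_add]
    nth_rewrite 2 [h2]
    rw [← mul_pow, mul_inv_cancel₀ (aa_ne t), one_pow]
  have h4 := Nat.le_of_dvd (by omega) ((aa_prim t).dvd_of_pow_eq_one _ h3)
  have := ht
  omega

theorem Dl_aa {t : ℕ} (ht : 1 ≤ t) : Dl (aa t) (2 ^ t - 1) = 0 := by
  have h1 := Dl_closed (aa t) (aa_ne t) (2 ^ t - 1)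
  have h0 : 1 < 2 ^ t := Nat.one_lt_two_pow (by omega)
  have e : 2 * (2 ^ t - 1) + 2 = 2 * 2 ^ t := by omega
  have h2 : aa t ^ (2 * 2 ^ t) = (aa t)⁻¹ ^ (2 * 2 ^ t) := by
    rw [inv_pow]
    refine eq_inv_of_mul_eq_one_left ?_
    rw [← pow_add, ← (aa_prim t).pow_eq_one]
    congr 1; ring
  rw [e, h2, sub_self, mul_zero, mul_eq_zero, sub_eq_zero] at h1
  refine h1.resolve_left (fun h => ?_)
  have h3 : aa t ^ 4 = 1 := by
    have e : 4 = 2 + 2 := rfl
    rw [e, pow_add]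
    nth_rewrite 2 [h]
    rw [← mul_pow, mul_inv_cancel₀ (aa_ne t), one_pow]
  have h4 := Nat.le_of_dvd (by omega) ((aa_prim t).dvd_of_pow_eq_one _ h3)
  omega

theorem aeval_aa_ne {p : Polynomial ℚ} (hp : p ≠ 0) {t : ℕ} (h : p.natDegree < 2 * 2 ^ t) :
    Polynomial.aeval (aa t) p ≠ 0 := by
  intro h0
  have h1 := Polynomial.natDegree_le_of_dvd (minpoly.dvd ℚ (aa t) h0) hp
  have e : 4 * 2 ^ t = 2 ^ (t + 1 + 1) := by ring
  rw [← Polynomial.cyclotomic_eq_minpoly_rat (aa_prim t) (by positivity),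
    Polynomial.natDegree_cyclotomic, e, Nat.totient_prime_pow_succ Nat.prime_two, pow_succ] at h1
  omega

/-- a nontrivial rational combination of distinct powers with small exponents does not vanish -/
theorem sum_zpow_aa_ne {σ : Type} (S : Finset σ) (c : σ → ℚ) (e : σ → ℤ) (t : ℕ)
    (hc : ∃ x ∈ S, c x ≠ 0) (hinj : Set.InjOn e S) (he : ∀ x ∈ S, |e x| < 2 ^ t) :
    ∑ x ∈ S, (c x : ℂ) * aa t ^ e x ≠ 0 := by
  classical
  obtain ⟨x0, hx0, hc0⟩ := hc
  have hcast : ((2 ^ t : ℕ) : ℤ) = 2 ^ t := by push_cast; rfl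
  generalize hr : 2 ^ t = r at *
  have he' : ∀ x ∈ S, -(r : ℤ) < e x ∧ e x < r := fun x hx => by
    have := he x hx
    rw [← hcast] at this
    exact abs_lt.1 this
  set p : Polynomial ℚ := ∑ x ∈ S, Polynomial.monomial (e x + r).toNat (c x) with hp
  have hp0 : p ≠ 0 := by
    intro h
    apply hc0
    have h1 : p.coeff (e x0 + r).toNat = c x0 := by
      rw [hp, Polynomial.finsetSum_coeff, Finset.sum_eq_single x0]
      · simp
      · intro y hy hne
        rw [Polynomial.coeff_monomial, if_neg]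
        intro h2
        have h3 := he' y hy
        have h4 := he' x0 hx0
        exact hne (hinj hy hx0 (by omega))
      · intro h2; exact absurd hx0 h2
    rw [← h1, h, Polynomial.coeff_zero]
  have hdeg : p.natDegree < 2 * r := by
    have h0 := he' x0 hx0
    refine lt_of_le_of_lt (Polynomial.natDegree_sum_le_of_forall_le (n := 2 * r - 1) _ _
      fun x hx => (Polynomial.natDegree_monomial_le _).trans ?_) (by omega)
    have := he' x hx
    omega
  intro h
  apply aeval_aa_ne hp0 (t := t) (by rwa [hr])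
  have h1 : Polynomial.aeval (aa t) p = (∑ x ∈ S, (c x : ℂ) * aa t ^ e x) * aa t ^ (r : ℤ) := by
    rw [hp, map_sum, Finset.sum_mul]
    refine Finset.sum_congr rfl (fun x hx => ?_)
    have h2 := he' x hx
    rw [Polynomial.aeval_monomial, mul_assoc, ← zpow_add₀ (aa_ne t), ← zpow_natCast,
      Int.toNat_of_nonneg (by omega)]
    rfl
  rw [h1, h, zero_mul]

theorem root_ev_lt (n : ℕ) : ∀ᶠ t : ℕ in atTop, n < 2 ^ t := by
  filter_upwards [eventually_ge_atTop n] with t ht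
  exact lt_of_le_of_lt ht Nat.lt_two_pow_self

theorem exists_theta : ∃ θ : RatFunc ℚ →+* Germ (atTop : Filter ℕ) ℂ, ∀ p : Polynomial ℚ,
    θ (algebraMap (Polynomial ℚ) (RatFunc ℚ) p) =
      ((fun t => Polynomial.aeval (aa t) p : ℕ → ℂ) : Germ atTop ℂ) := by
  let φ : Polynomial ℚ →+* Germ (atTop : Filter ℕ) ℂ := (Germ.coeRingHom atTop).comp
    (RingHom.pi fun t => (Polynomial.aeval (aa t) : Polynomial ℚ →ₐ[ℚ] ℂ).toRingHom)
  have hφ : ∀ p, φ p = ((fun t => Polynomial.aeval (aa t) p : ℕ → ℂ) : Germ atTop ℂ) :=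
    fun _ => rfl
  have hu : ∀ y : nonZeroDivisors (Polynomial ℚ), IsUnit (φ y) := by
    intro y
    refine IsUnit.of_mul_eq_one
      ((fun t => (Polynomial.aeval (aa t) (y : Polynomial ℚ))⁻¹ : ℕ → ℂ) : Germ atTop ℂ) ?_
    rw [hφ, ← Germ.coe_mul, ← Germ.coe_one, Germ.coe_eq]
    filter_upwards [root_ev_lt (y : Polynomial ℚ).natDegree] with t ht
    exact mul_inv_cancel₀ (aeval_aa_ne (nonZeroDivisors.coe_ne_zero y) (by omega))
  exact ⟨IsLocalization.lift hu, fun p => (IsLocalization.lift_eq hu p).trans (hφ p)⟩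

/-- evaluation of a rational function at `aa t`, as a germ at `t = ∞` -/
noncomputable def theta : RatFunc ℚ →+* Germ (atTop : Filter ℕ) ℂ := exists_theta.choose

theorem theta_poly (p : Polynomial ℚ) : theta (algebraMap (Polynomial ℚ) (RatFunc ℚ) p) =
    ((fun t => Polynomial.aeval (aa t) p : ℕ → ℂ) : Germ atTop ℂ) := exists_theta.choose_spec p

theorem root_theta_pow (n : ℕ) :
    theta (RatFunc.X ^ n) = ((fun t => aa t ^ n : ℕ → ℂ) : Germ atTop ℂ) := by
  rw [← RatFunc.algebraMap_X, ← map_pow, theta_poly]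
  simp

theorem theta_X_zpow (n : ℤ) :
    theta (RatFunc.X ^ n) = ((fun t => aa t ^ n : ℕ → ℂ) : Germ atTop ℂ) := by
  obtain ⟨m, rfl | rfl⟩ := n.eq_nat_or_neg
  · simp only [zpow_natCast]
    exact root_theta_pow m
  · have h1 : theta (RatFunc.X ^ (-(m : ℤ))) * theta (RatFunc.X ^ m) = 1 := by
      rw [← map_mul, zpow_neg, zpow_natCast, inv_mul_cancel₀ (pow_ne_zero _ RatFunc.X_ne_zero),
        map_one]
    have h2 : theta (RatFunc.X ^ m) * ((fun t => aa t ^ (-(m : ℤ)) : ℕ → ℂ) : Germ atTop ℂ) =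
        1 := by
      rw [root_theta_pow, ← Germ.coe_mul, ← Germ.coe_one]
      congr 1
      funext t
      rw [Pi.mul_apply, zpow_neg, zpow_natCast, mul_inv_cancel₀ (pow_ne_zero _ (aa_ne t))]
      rfl
    exact left_inv_eq_right_inv h1 h2

theorem theta_lev (c : LaurentPolynomial ℤ) : theta (lev RatFunc.X RatFunc.X_ne_zero c) =
    ((fun t => lev (aa t) (aa_ne t) c : ℕ → ℂ) : Germ atTop ℂ) := by
  have h := laurent_hom_ext (theta.comp (lev RatFunc.X RatFunc.X_ne_zero))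
    ((Germ.coeRingHom atTop).comp (RingHom.pi fun t => lev (aa t) (aa_ne t))) (fun n => by
      rw [RingHom.comp_apply, lev_T, theta_X_zpow]
      exact congrArg Germ.ofFun (funext fun t => (lev_T (aa t) (aa_ne t) n).symm))
  exact RingHom.congr_fun h c

theorem X_nontorsion (n : ℤ) (h : (RatFunc.X : RatFunc ℚ) ^ n = 1) : n = 0 := by
  have h1 := theta_X_zpow n
  rw [h, map_one, ← Germ.coe_one, Germ.coe_eq] at h1
  obtain ⟨t, h2, h3⟩ := (h1.and (root_ev_lt n.natAbs)).exists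
  have h4 := ((aa_prim t).zpow_eq_one_iff_dvd n).1 h2.symm
  refine Int.eq_zero_of_abs_lt_dvd h4 ?_
  rw [Int.abs_eq_natAbs]
  exact_mod_cast (by omega : n.natAbs < 4 * 2 ^ t)

end Pool.Agent.P.MP_ac4909_gt
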