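import Pool.Agent.P.MP_ac4909_gt.JW
import Pool.Agent.P.MP_ac4909_gt.TLNat

/-! A loop encircling a Jones-Wenzl element acts by the scalar `mu`. -/

namespace Pool.Agent.P.MP_ac4909_gt

variable {K : Type} [Field K] {R : Type} [Ring R] [Algebra K R]

namespace TL
variable (T : TL K R)

theorem jwmer_sig {N j : ℕ} (h : Adm T.a N) (hj : j + 2 ≤ N) (s : Bool) (p : ℕ) :
    T.sig s (p + j) * T.f N p = zp T.a s • T.f N p := by
  rw [sig, add_mul, smul_mul_assoc, smul_mul_assoc, one_mul, mul_assoc, T.C_mul_f h hj, mul_zero,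
    smul_zero, add_zero]

theorem jwmer_left {N : ℕ} (h : Adm T.a N) (s : Bool) (p n : ℕ) (hn : n + 1 ≤ N) :
    T.crC s n 1 p * T.f N p = zp T.a s ^ n • T.f N p := by
  induction n with
  | zero => rw [crC_zero_left, one_mul, pow_zero, one_smul]
  | succ n ih =>
    rw [hexL, crC_one_one, mul_assoc, T.jwmer_sig h hn, mul_smul_comm, ih (by omega), smul_smul,
      pow_succ']

theorem jwmer_right {N : ℕ} (h : Adm T.a N) (s : Bool) (p n : ℕ) (hn : n + 1 ≤ N) :
    T.crC s 1 n p * T.f N p = zp T.a s ^ n • T.f N p := by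
  induction n with
  | zero => rw [crC, one_mul, pow_zero, one_smul]
  | succ n ih =>
    rw [hexR, crC_one_one, mul_assoc, ih (by omega), mul_smul_comm, T.jwmer_sig h hn, smul_smul,
      pow_succ]

theorem jwmer_sq (p : ℕ) :
    T.sig true p * T.sig true p = T.a ^ 2 • (1 : R) + (1 - T.a⁻¹ ^ 4) • (T.U p * T.C p) := by
  have h1 : T.U p * T.C p * (T.U p * T.C p) = dlt T.a • (T.U p * T.C p) := by
    rw [mul_assoc, ← mul_assoc (T.C p), T.loop, ← Algebra.smul_def, mul_smul_comm]
  have h2 := mul_inv_cancel₀ T.ha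
  simp only [sig, zp, Bool.not_true, if_true, Bool.false_eq_true, if_false, add_mul, mul_add,
    smul_mul_assoc, mul_smul_comm, one_mul, mul_one, h1, dlt]
  match_scalars
  · ring
  · linear_combination (1 - T.a * T.a⁻¹) * h2

theorem jwmer_A (n p : ℕ) :
    T.C (p + 1 + n) * T.crC true 1 n (p + 1) * T.U p = T.crC false n 1 p := by
  have h1 := T.capSlC true n 1 (p + 1)
  have h2 := T.loc_U.far' (T.loc_crC false n 1) p p (p + 1 + 1) le_rfl rfl
  rw [capC_one, capC_one] at h1
  rw [h1, mul_assoc, Bool.not_true, ← h2, ← mul_assoc, T.zig, one_mul]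

theorem jwmer_B (n p : ℕ) :
    T.C p * T.crC true n 1 (p + 1) * T.U (p + 1 + n) = T.crC false 1 n p := by
  have h1 := T.cupSlC true n 1 (p + 1)
  have h2 := T.loc_C.far' (T.loc_crC false 1 n) p (p + 1 + 1) p le_rfl rfl
  rw [cupC_one, cupC_one] at h1
  rw [mul_assoc, h1, ← mul_assoc, Bool.not_true, h2, mul_assoc, T.zag, mul_one]

theorem f_merid {n : ℕ} (h : Adm T.a n) (p : ℕ) :
    T.C p * T.crC true n 1 (p + 1) * T.crC true 1 n (p + 1) * T.U p * T.f n p =
      mu T.a n • T.f n p := by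
  induction n with
  | zero =>
    rw [crC_zero_left, crC, mul_one, mul_one, T.loop, ← Algebra.smul_def]
    rfl
  | succ n ih =>
    have h1 : T.f n p * T.f (n + 1) p = T.f (n + 1) p := T.f_mul_f' (j := 0) h (by omega) p
    have h2 := congrArg (· * T.f (n + 1) p) (ih (h.mono (by omega)))
    simp only [smul_mul_assoc, mul_assoc _ (T.f n p), h1] at h2
    have h3 : T.C p * T.crC true (n + 1) 1 (p + 1) * T.crC true 1 (n + 1) (p + 1) * T.U p
        = T.a ^ 2 • (T.C p * T.crC true n 1 (p + 1) * T.crC true 1 n (p + 1) * T.U p)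
          + (1 - T.a⁻¹ ^ 4) • (T.crC false 1 n p * T.crC false n 1 p) := by
      rw [hexL, hexR, crC_one_one, ← jwmer_A, ← jwmer_B]
      have h4 := congrArg (fun x => T.C p * T.crC true n 1 (p + 1) * x *
        (T.crC true 1 n (p + 1) * T.U p)) (T.jwmer_sq (p + 1 + n))
      simpa only [mul_add, add_mul, smul_mul_assoc, mul_smul_comm, mul_one, one_mul, mul_assoc]
        using h4
    have h5 := mul_inv_cancel₀ T.ha
    rw [h3, add_mul, smul_mul_assoc, smul_mul_assoc, h2, mul_assoc, T.jwmer_left h _ _ _ le_rfl,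
      mul_smul_comm, T.jwmer_right h _ _ _ le_rfl]
    simp only [mu, zp, Bool.false_eq_true, if_false]
    match_scalars
    linear_combination (-(T.a⁻¹ ^ (2 * n)) * (1 + T.a * T.a⁻¹)) * h5

end TL

end Pool.Agent.P.MP_ac4909_gt
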