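import Pool.Agent.P.MP_ac4909_gt.Ev
import Pool.Agent.P.MP_ac4909_gt.Ref
import Pool.Agent.P.MP_ac4909_gt.JWMer

/-! Skeins made of meridian loops. -/

namespace Pool.Agent.P.MP_ac4909_gt

variable {ι : Type}

/-- a loop around the strand `x` -/
def meridLoop (l r : List (Option (Arc ι))) (x : Option (Arc ι)) : List (Sl (Option (Arc ι))) :=
  [⟨l, .cup none, x :: r⟩, ⟨l ++ [none], .cr none x true, r⟩, ⟨l ++ [none], .cr x none true, r⟩,
    ⟨l, .cap none, x :: r⟩]

theorem meridLoop_run (l r : List (Option (Arc ι))) (x : Option (Arc ι)) :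
    Run (l ++ x :: r) (meridLoop l r x) (l ++ x :: r) := by
  simp [meridLoop, run_cons, run_nil, Sl.src, Sl.tgt, Gen.src, Gen.tgt]

theorem meridLoop_erase (l r : List (Option (Arc ι))) (a : Arc ι) :
    erase (meridLoop l r (some a)) = [] := rfl

theorem meridLoop_ev {K : Type} [Field K] {R : Type} [Ring R] [Algebra K R] (T : TL K R)
    (m : ι → ℕ) (h : ∀ i', Adm T.a (m i')) {l r : List (Option (Arc ι))} {a : Arc ι}
    {w : List (Sl (Option (Arc ι)))} (hw : Run [] w (l ++ some a :: r)) :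
    T.ev (T.jw m) (meridLoop l r (some a)) * T.ev (T.jw m) w =
      mu T.a (m a.name) • T.ev (T.jw m) w := by
  have h1 := (T.good_jc 0 (fun _ => true) h).F_mul_ev hw
  have h2 : ∀ p, (T.jw m).F (some a) p = T.f (m a.name) p := fun p => ite_self _
  have h3 : T.ev (T.jw m) (meridLoop l r (some a)) =
      T.C (wid (T.jw m).n l) * T.crC true (m a.name) 1 (wid (T.jw m).n l + 1) *
        T.crC true 1 (m a.name) (wid (T.jw m).n l + 1) * T.U (wid (T.jw m).n l) := by
    simp only [meridLoop, TL.ev, TL.val, TL.gval, wid_append, wid_cons, wid_nil, one_mul]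
    change T.capC 1 _ * 1 * T.crC true (m a.name) 1 (_ + 1) * T.crC true 1 (m a.name) (_ + 1) *
      (1 * T.cupC 1 _) = _
    rw [T.capC_one, T.cupC_one, mul_one, one_mul]
  rw [h2] at h1
  rw [h3, ← h1, ← mul_assoc, T.f_merid (h _), smul_mul_assoc]

theorem exists_merid {L : List (Sl (Arc ι))} (hL : IsFramedLink L) (D : Diagram L) (i : ι) :
    ∃ D' : Diagram L, ∀ (K : Type) [Field K] (R : Type) [Ring R] [Algebra K R] (T : TL K R)
      (m : ι → ℕ), (∀ i', Adm T.a (m i')) →
      T.ev (T.jw m) D'.1 = mu T.a (m i) • T.ev (T.jw m) D.1 := by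
  obtain ⟨w₁, w₂, l, r, b, hD⟩ := hL.exists_cup D i
  rw [← List.singleton_append, ← List.append_assoc] at hD
  obtain ⟨σ, h1, h2⟩ := run_append.1 (hD ▸ D.2.1)
  obtain rfl : σ = l ++ some ⟨i, b⟩ :: some ⟨i, !b⟩ :: r := by
    obtain ⟨τ, -, -, h3⟩ := run_append.1 h1
    rw [← run_nil.1 h3]
    simp [Sl.tgt, Gen.tgt]
  generalize w₁ ++ [_] = w at hD h1
  refine ⟨⟨w ++ (meridLoop l (some ⟨i, !b⟩ :: r) (some ⟨i, b⟩) ++ w₂),
    run_append.2 ⟨_, h1, run_append.2 ⟨_, meridLoop_run _ _ _, h2⟩⟩, ?_⟩,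
    fun K _ R _ _ T m h => ?_⟩
  · rw [erase_append, erase_append, meridLoop_erase, List.nil_append, ← erase_append, ← hD]
    exact D.2.2
  · dsimp only
    rw [hD, T.ev_append, T.ev_append, T.ev_append, mul_assoc, meridLoop_ev T m h h1,
      mul_smul_comm]

theorem merid_list {L : List (Sl (Arc ι))} (hL : IsFramedLink L) (s : Multiset ι) :
    ∃ D : Diagram L, ∀ (K : Type) [Field K] (R : Type) [Ring R] [Algebra K R] (T : TL K R)
      (m : ι → ℕ), (∀ i', Adm T.a (m i')) →
      T.ev (T.jw m) D.1 =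
        (s.map fun i => mu T.a (m i)).prod • T.ev (T.jcA m 0 fun _ => true) L := by
  induction s using Multiset.induction_on with
  | empty =>
    refine ⟨hL.empty, fun K _ R _ _ T m _ => ?_⟩
    rw [Multiset.map_zero, Multiset.prod_zero, one_smul]
    exact T.ev_lift _ L
  | cons i s ih =>
    obtain ⟨D, hD⟩ := ih
    obtain ⟨D', hD'⟩ := exists_merid hL D i
    refine ⟨D', fun K _ R _ _ T m h => ?_⟩
    rw [hD' K R T m h, hD K R T m h, Multiset.map_cons, Multiset.prod_cons, mul_smul]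

theorem exists_merids [Fintype ι] {L : List (Sl (Arc ι))} (hL : IsFramedLink L) (j : ι → ℕ) :
    ∃ D : Diagram L, ∀ (K : Type) [Field K] (R : Type) [Ring R] [Algebra K R] (T : TL K R)
      (m : ι → ℕ), (∀ i', Adm T.a (m i')) →
      T.ev (T.jw m) D.1 = (∏ i, mu T.a (m i) ^ j i) • T.ev (T.jcA m 0 fun _ => true) L := by
  obtain ⟨D, hD⟩ := merid_list hL (Finset.univ.val.bind fun i => Multiset.replicate (j i) i)
  refine ⟨D, fun K _ R _ _ T m h => ?_⟩
  rw [hD K R T m h, Multiset.map_bind, Multiset.prod_bind]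
  simp only [Multiset.map_replicate, Multiset.prod_replicate]
  rfl

end Pool.Agent.P.MP_ac4909_gt
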