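import Pool.Agent.P.MP_ac4909_gt.GM

/-! The discrete Fourier transform of a periodic holonomic function is a holonomic germ. -/

namespace Pool.Agent.P.MP_ac4909_gt

open Filter

variable {ι : Type} [Fintype ι] [DecidableEq ι]

/-- Fourier transform on `(ℤ/2r)^ι`, `r = 2^t` -/
noncomputable def Psi (G : ℕ → (ι → ℤ) → ℂ) (t : ℕ) (n : ι → ℤ) : ℂ :=
  ∑ k ∈ Fintype.piFinset fun _ : ι => Finset.Ico (0 : ℤ) (2 * 2 ^ t),
    aa t ^ (2 * (n ⬝ᵥ k)) * G t k

theorem DFT_per {M : Type} (N : ℕ) (F : (ι → ℤ) → M)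
    (hF : ∀ k i, F (k + Pi.single i (N : ℤ)) = F k) (v k : ι → ℤ) :
    F (k + fun i => (N : ℤ) * v i) = F k := by
  have h1 : ∀ s : Finset ι, Function.Periodic F (∑ i ∈ s, v i • (Pi.single i (N : ℤ) : ι → ℤ)) := by
    intro s
    induction s using Finset.induction_on with
    | empty => intro x; simp
    | insert i s hi ih =>
      rw [Finset.sum_insert hi]
      exact Function.Periodic.add_period (Function.Periodic.zsmul (fun x => hF x i) (v i)) ih
  have e : (fun i => (N : ℤ) * v i) = ∑ i, v i • (Pi.single i (N : ℤ) : ι → ℤ) := by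
    funext j
    simp [Finset.sum_apply, Pi.single_apply, mul_comm]
  rw [e]
  exact h1 Finset.univ k

/-- a sum over a full period box is translation invariant -/
theorem sum_box_shift {M : Type} [AddCommMonoid M] (N : ℕ) (hN : 0 < N) (F : (ι → ℤ) → M)
    (hF : ∀ k i, F (k + Pi.single i (N : ℤ)) = F k) (u : ι → ℤ) :
    ∑ k ∈ Fintype.piFinset fun _ : ι => Finset.Ico (0 : ℤ) N, F (k + u) =
      ∑ k ∈ Fintype.piFinset fun _ : ι => Finset.Ico (0 : ℤ) N, F k := by
  have hN' : (0 : ℤ) < N := by exact_mod_cast hN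
  refine Finset.sum_nbij' (fun k i => (k i + u i) % N) (fun k i => (k i - u i) % N)
    ?_ ?_ ?_ ?_ ?_
  · intro k _
    simp only [Fintype.mem_piFinset, Finset.mem_Ico]
    exact fun i => ⟨Int.emod_nonneg _ hN'.ne', Int.emod_lt_of_pos _ hN'⟩
  · intro k _
    simp only [Fintype.mem_piFinset, Finset.mem_Ico]
    exact fun i => ⟨Int.emod_nonneg _ hN'.ne', Int.emod_lt_of_pos _ hN'⟩
  · intro k hk
    simp only [Fintype.mem_piFinset, Finset.mem_Ico] at hk
    funext i
    show ((k i + u i) % N - u i) % N = k i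
    rw [Int.emod_sub_emod, add_sub_cancel_right, Int.emod_eq_of_lt (hk i).1 (hk i).2]
  · intro k hk
    simp only [Fintype.mem_piFinset, Finset.mem_Ico] at hk
    funext i
    show ((k i - u i) % N + u i) % N = k i
    rw [Int.emod_add_emod, sub_add_cancel, Int.emod_eq_of_lt (hk i).1 (hk i).2]
  · intro k _
    rw [← DFT_per N F hF (fun i => (k i + u i) / N) (fun i => (k i + u i) % N)]
    congr 1
    funext i
    exact (Int.emod_add_mul_ediv _ _).symm

theorem DFT_clear {σ : Type} (S : Finset σ) (p : σ → Polynomial ℚ)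
    (c : σ → LaurentPolynomial ℤ) : ∃ (P : Polynomial ℚ) (n : ℕ), ∀ (K : Type) [Field K]
      (φ : ℚ →+* K) (a : K) (ha : a ≠ 0),
      P.eval₂ φ a = a ^ n * ∑ s ∈ S, (p s).eval₂ φ a * lev a ha (c s) := by
  choose m f hf using fun s => LaurentPolynomial.exists_T_pow (c s)
  refine ⟨∑ s ∈ S, p s * (f s).map (Int.castRingHom ℚ) * Polynomial.X ^ (S.sup m - m s),
    S.sup m, fun K _ φ a ha => ?_⟩
  rw [Polynomial.eval₂_finsetSum, Finset.mul_sum]
  refine Finset.sum_congr rfl fun s hs => ?_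
  have h1 : lev a ha (c s) * a ^ m s = ((f s).map (Int.castRingHom ℚ)).eval₂ φ a := by
    have h2 := congrArg (lev a ha) (hf s)
    rw [map_mul, lev_T, zpow_natCast] at h2
    rw [← h2, lev, LaurentPolynomial.eval₂_toLaurent, Polynomial.eval₂_map,
      Subsingleton.elim (φ.comp (Int.castRingHom ℚ)) (Int.castRingHom K)]
    rfl
  have h3 : a ^ S.sup m = a ^ m s * a ^ (S.sup m - m s) := by
    rw [← pow_add, Nat.add_sub_cancel' (Finset.le_sup hs)]
  rw [Polynomial.eval₂_mul, Polynomial.eval₂_mul, Polynomial.eval₂_X_pow, ← h1, h3]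
  ring

/-- an identity between Laurent polynomials in `ℚ(A)` holds at every nonzero complex number -/
theorem eval_rel {σ : Type} (S : Finset σ) (p : σ → Polynomial ℚ) (c : σ → LaurentPolynomial ℤ)
    (h : ∑ s ∈ S, algebraMap (Polynomial ℚ) (RatFunc ℚ) (p s) *
      lev RatFunc.X RatFunc.X_ne_zero (c s) = 0) (a : ℂ) (ha : a ≠ 0) :
    ∑ s ∈ S, Polynomial.aeval a (p s) * lev a ha (c s) = 0 := by
  obtain ⟨P, n, hP⟩ := DFT_clear S p c
  have e : ∀ r : Polynomial ℚ,
      r.eval₂ ((algebraMap (Polynomial ℚ) (RatFunc ℚ)).comp Polynomial.C) RatFunc.X =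
        algebraMap (Polynomial ℚ) (RatFunc ℚ) r := by
    intro r
    have := Polynomial.hom_eval₂ r Polynomial.C (algebraMap (Polynomial ℚ) (RatFunc ℚ))
      Polynomial.X
    rw [Polynomial.eval₂_C_X, RatFunc.algebraMap_X] at this
    exact this.symm
  have h1 := hP (RatFunc ℚ) ((algebraMap (Polynomial ℚ) (RatFunc ℚ)).comp Polynomial.C)
    RatFunc.X RatFunc.X_ne_zero
  simp only [e] at h1
  rw [h, mul_zero] at h1
  have h2 : P = 0 := RatFunc.algebraMap_injective ℚ (h1.trans (map_zero _).symm)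
  have h3 := hP ℂ (algebraMap ℚ ℂ) a ha
  rw [h2, Polynomial.eval₂_zero] at h3
  simp only [Polynomial.aeval_def]
  exact (mul_eq_zero.1 h3.symm).resolve_left (pow_ne_zero _ ha)

theorem DFT_shift (G : ℕ → (ι → ℤ) → ℂ) (t : ℕ)
    (hG : ∀ k i, G t (k + Pi.single i (2 * 2 ^ t)) = G t k) (u w : ι → ℤ) :
    aa t ^ (2 * (-u ⬝ᵥ w)) * Psi G t w =
      ∑ k ∈ Fintype.piFinset fun _ : ι => Finset.Ico (0 : ℤ) (2 * 2 ^ t),
        aa t ^ (2 * (w ⬝ᵥ k)) * G t (k + u) := by
  have hc : ((2 * 2 ^ t : ℕ) : ℤ) = 2 * 2 ^ t := by push_cast; rfl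
  have h1 := sum_box_shift (2 * 2 ^ t) (by positivity)
    (fun k => aa t ^ (2 * (-u ⬝ᵥ w)) * (aa t ^ (2 * (w ⬝ᵥ k)) * G t k)) (by
      intro k i
      rw [hc, hG, dotProduct_add, dotProduct_single, mul_add, zpow_add₀ (aa_ne t)]
      have h2 : aa t ^ (2 * (w i * (2 * 2 ^ t))) = 1 := by
        have h3 : 2 * (w i * (2 * 2 ^ t)) = ((4 * 2 ^ t : ℕ) : ℤ) * w i := by
          push_cast; ring
        rw [h3, zpow_mul, zpow_natCast, (aa_prim t).pow_eq_one, one_zpow]
      rw [h2, mul_one]) u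
  rw [hc] at h1
  rw [Psi, Finset.mul_sum, ← h1]
  refine Finset.sum_congr rfl fun k _ => ?_
  rw [← mul_assoc, ← zpow_add₀ (aa_ne t)]
  congr 2
  rw [dotProduct_add, neg_dotProduct, dotProduct_comm u w]
  ring

theorem holG_Psi (g : (ι → ℤ) → LaurentPolynomial ℤ)
    (hg : HolF (uA ^ 2) fun k => lev RatFunc.X RatFunc.X_ne_zero (g k))
    (hper : ∀ᶠ t in atTop, ∀ k i, lev (aa t) (aa_ne t) (g (k + Pi.single i (2 * 2 ^ t))) =
      lev (aa t) (aa_ne t) (g k)) :
    HolG (Psi fun t k => lev (aa t) (aa_ne t) (g k)) := by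
  refine QT.hol_of_rel (funQT (uA ^ 2) ι) (germQT ι) hg ?_
  intro S c hrel
  obtain ⟨b, hb⟩ := IsLocalization.exist_integer_multiples (nonZeroDivisors (Polynomial ℚ)) S c
  choose! p hp using hb
  have hb0 : algebraMap (Polynomial ℚ) (RatFunc ℚ) b ≠ 0 :=
    RatFunc.algebraMap_ne_zero (nonZeroDivisors.coe_ne_zero b)
  have hp' : ∀ z ∈ S, algebraMap (Polynomial ℚ) (RatFunc ℚ) (p z) =
      algebraMap (Polynomial ℚ) (RatFunc ℚ) b * c z := by
    intro z hz
    rw [hp z hz, Algebra.smul_def]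
  have hrel' : ∀ t k, ∑ z ∈ S, Polynomial.aeval (aa t) (p z) *
      (aa t ^ (2 * (z.2 ⬝ᵥ k)) * lev (aa t) (aa_ne t) (g (k + z.1))) = 0 := by
    intro t k
    have h1 := congrFun hrel k
    rw [Finset.sum_apply] at h1
    have h2 := eval_rel S p (fun z => LaurentPolynomial.T (2 * (z.2 ⬝ᵥ k)) * g (k + z.1)) (by
      have h3 := congrArg (fun y => algebraMap (Polynomial ℚ) (RatFunc ℚ) b * y) h1
      simp only [Pi.zero_apply, mul_zero, Finset.mul_sum] at h3
      rw [← h3]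
      refine Finset.sum_congr rfl fun z hz => ?_
      rw [hp' z hz, map_mul, lev_T, Pi.smul_apply, funQT_Q, funQT_E, smul_eq_mul, mul_assoc,
        zpow_mul, Units.val_pow_eq_pow_val]
      rfl) (aa t) (aa_ne t)
    simpa only [map_mul, lev_T] using h2
  refine (smul_eq_zero_iff_right hb0).1 ?_
  rw [Finset.smul_sum]
  have e : ∀ z ∈ S, algebraMap (Polynomial ℚ) (RatFunc ℚ) b • c z •
      (germQT ι).E z.2 ((germQT ι).Q (-z.1)
        (GM.mk (Psi fun t k => lev (aa t) (aa_ne t) (g k)))) =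
      GM.mk fun t n => Polynomial.aeval (aa t) (p z) * (aa t ^ (2 * (-z.1 ⬝ᵥ (n + z.2))) *
        Psi (fun t k => lev (aa t) (aa_ne t) (g k)) t (n + z.2)) := by
    intro z hz
    rw [smul_smul, ← hp' z hz, germQT_Q, germQT_E, GM.smul_mk _ _ (theta_poly (p z))]
  rw [Finset.sum_congr rfl e, GM.sum_mk, GM.mk_eq_zero]
  filter_upwards [hper] with t ht n
  have h4 : ∀ z : (ι → ℤ) × (ι → ℤ), aa t ^ (2 * (-z.1 ⬝ᵥ (n + z.2))) *
      Psi (fun t k => lev (aa t) (aa_ne t) (g k)) t (n + z.2) = _ := fun z =>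
    DFT_shift (fun t k => lev (aa t) (aa_ne t) (g k)) t ht z.1 (n + z.2)
  simp only [h4, Finset.mul_sum]
  rw [Finset.sum_comm]
  refine Finset.sum_eq_zero fun k _ => ?_
  have h5 := congrArg (fun y => aa t ^ (2 * (n ⬝ᵥ k)) * y) (hrel' t k)
  simp only [mul_zero, Finset.mul_sum] at h5
  rw [← h5]
  refine Finset.sum_congr rfl fun z _ => ?_
  rw [add_dotProduct, mul_add, zpow_add₀ (aa_ne t)]
  ring

end Pool.Agent.P.MP_ac4909_gt
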