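import Mathlib

/-!
Framed link diagrams as words of elementary slices (read from bottom to top), and the Kauffman
bracket skein module over `ℚ(A)` of the closed 3-manifold obtained by surgery on a framed link.

A diagram is a list of slices.  A slice is one cup, cap or crossing with vertical strands to its
left and right.  Every strand carries a label.  Strands of the surgery link `L` carry `some a`,
where the arc label `a` records the name of the component and the direction in which the
component runs through the strand; strands of the skein `J` carry `none`.  Framings are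
blackboard framings.
-/

namespace Pool.Agent.P.MP_ac4909_gt

/-- Labels with an involution: the label of the other arm of a cup or cap. -/
class Rev (α : Type) where
  rev : α → α
  rev_rev : ∀ x, rev (rev x) = x

open Rev

/-- A strand of the surgery link: name of its component, and whether it is run upwards. -/
structure Arc (ι : Type) where
  name : ι
  up : Bool
  deriving DecidableEq

instance {ι : Type} : Rev (Arc ι) where
  rev a := ⟨a.name, !a.up⟩
  rev_rev a := by cases a; simp

instance {α : Type} [Rev α] : Rev (Option α) where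
  rev x := x.map rev
  rev_rev x := by cases x <;> simp [rev_rev]

/-- Labels with a mark that both arms of a cup or cap share. -/
instance {α : Type} [Rev α] : Rev (α × ℕ) where
  rev x := (rev x.1, x.2)
  rev_rev x := by simp [rev_rev]

/-- Elementary tangles.  In `cr x y s` the strand `x` runs from lower left to upper right, and it
is the over-strand iff `s = true`. -/
inductive Gen (α : Type) where
  | cup (o : α)
  | cap (o : α)
  | cr (x y : α) (s : Bool)

/-- An elementary tangle with vertical strands `l` on its left and `r` on its right. -/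
structure Sl (α : Type) where
  l : List α
  g : Gen α
  r : List α

variable {α β ι : Type}

def Gen.src [Rev α] : Gen α → List α
  | .cup _ => []
  | .cap o => [o, rev o]
  | .cr x y _ => [x, y]

def Gen.tgt [Rev α] : Gen α → List α
  | .cup o => [o, rev o]
  | .cap _ => []
  | .cr x y _ => [y, x]

/-- The row of strands below a slice. -/
def Sl.src [Rev α] (s : Sl α) : List α := s.l ++ s.g.src ++ s.r

/-- The row of strands above a slice. -/
def Sl.tgt [Rev α] (s : Sl α) : List α := s.l ++ s.g.tgt ++ s.r

/-- `Run ρ w ρ'`: the slices of `w` fit together to a tangle diagram from row `ρ` to row `ρ'`. -/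
def Run [Rev α] : List α → List (Sl α) → List α → Prop
  | ρ, [], ρ' => ρ = ρ'
  | ρ, s :: w, ρ' => ρ = s.src ∧ Run s.tgt w ρ'

def Gen.map (φ : α → β) : Gen α → Gen β
  | .cup o => .cup (φ o)
  | .cap o => .cap (φ o)
  | .cr x y s => .cr (φ x) (φ y) s

def Sl.map (φ : α → β) (s : Sl α) : Sl β := ⟨s.l.map φ, s.g.map φ, s.r.map φ⟩

/-- `L` is a closed diagram whose components are exactly the names `i : ι`: every name occurs, and
a marking of the strands that is constant along the link is constant on each name. -/
def IsFramedLink (L : List (Sl (Arc ι))) : Prop :=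
  Run [] L [] ∧ (∀ i : ι, ∃ s ∈ L, ∃ b, s.g = .cup ⟨i, b⟩) ∧
    ∀ L' : List (Sl (Arc ι × ℕ)), Run [] L' [] → L'.map (Sl.map Prod.fst) = L →
      ∃ g : ι → ℕ, L' = L.map (Sl.map fun a => (a, g a.name))

/-- Regular isotopy: planar isotopy of sliced diagrams and Reidemeister moves II and III. -/
inductive Move [Rev α] : List (Sl α) → List (Sl α) → Prop
  | comm (l m r : List α) (g h : Gen α) :
      Move [⟨l, g, m ++ h.src ++ r⟩, ⟨l ++ g.tgt ++ m, h, r⟩]
        [⟨l ++ g.src ++ m, h, r⟩, ⟨l, g, m ++ h.tgt ++ r⟩]
  | zig (l r : List α) (o : α) :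
      Move [⟨l, .cup o, o :: r⟩, ⟨l ++ [o], .cap (rev o), r⟩] []
  | zag (l r : List α) (o : α) :
      Move [⟨l ++ [o], .cup (rev o), r⟩, ⟨l, .cap o, o :: r⟩] []
  | cupSlide (l r : List α) (x o : α) (s : Bool) :
      Move [⟨l ++ [x], .cup o, r⟩, ⟨l, .cr x o s, rev o :: r⟩]
        [⟨l, .cup o, x :: r⟩, ⟨l ++ [o], .cr (rev o) x (!s), r⟩]
  | capSlide (l r : List α) (x o : α) (s : Bool) :
      Move [⟨l, .cr o x s, rev o :: r⟩, ⟨l ++ [x], .cap o, r⟩]
        [⟨l ++ [o], .cr x (rev o) (!s), r⟩, ⟨l, .cap o, x :: r⟩]
  | reid2 (l r : List α) (x y : α) (s : Bool) :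
      Move [⟨l, .cr x y s, r⟩, ⟨l, .cr y x (!s), r⟩] []
  | reid3 (l r : List α) (x y z : α) (a b c : Bool) (h : a = b ∨ b = c) :
      Move [⟨l, .cr x y a, z :: r⟩, ⟨l ++ [y], .cr x z b, r⟩, ⟨l, .cr y z c, x :: r⟩]
        [⟨l ++ [x], .cr y z c, r⟩, ⟨l, .cr x z b, y :: r⟩, ⟨l ++ [z], .cr x y a, r⟩]

def Gen.erase : Gen (Option α) → Option (Gen α)
  | .cup (some o) => some (.cup o)
  | .cap (some o) => some (.cap o)
  | .cr (some x) (some y) s => some (.cr x y s)
  | _ => none

/-- The diagram left when all strands labelled `none` are erased. -/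
def erase (w : List (Sl (Option α))) : List (Sl α) :=
  w.filterMap fun s => s.g.erase.map fun g => ⟨s.l.reduceOption, g, s.r.reduceOption⟩

/-- Nested cups whose left arms are the given list. -/
def cups [Rev β] : List β → List β → List β → List (Sl β)
  | _, [], _ => []
  | l, y :: ys, r => ⟨l, .cup y, r⟩ :: cups (l ++ [y]) ys (rev y :: r)

/-- Nested caps whose left arms are the given list. -/
def caps [Rev β] : List β → List β → List β → List (Sl β)
  | _, [], _ => []
  | l, y :: ys, r => caps (l ++ [y]) ys (rev y :: r) ++ [⟨l, .cap y, r⟩]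

/-- The strand `y` crosses the given list of strands from right to left. -/
def cross1 (s : Bool) (y : β) (r : List β) : List β → List β → List (Sl β)
  | _, [] => []
  | l, x :: xs => cross1 s y r (l ++ [x]) xs ++ [⟨l, .cr x y s, xs ++ r⟩]

/-- The given list of strands crosses the strands `xs` from right to left. -/
def cross (s : Bool) (xs r : List β) : List β → List β → List (Sl β)
  | _, [] => []
  | l, y :: ys => cross1 s y (ys ++ r) l xs ++ cross s xs r (l ++ [y]) ys

/-- Blackboard cabling: every strand labelled `x` is replaced by parallel strands labelled `κ x`. -/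
def cable [Rev β] (κ : α → List β) (w : List (Sl α)) : List (Sl β) :=
  w.flatMap fun s => match s.g with
    | .cup o => cups (s.l.flatMap κ) (κ o) (s.r.flatMap κ)
    | .cap o => caps (s.l.flatMap κ) (κ o) (s.r.flatMap κ)
    | .cr x y b => cross b (κ x) (s.r.flatMap κ) (s.l.flatMap κ) (κ y)

/-- Adds to `J` a blackboard-parallel copy of the component `a.name` of `L`, on the side that is to
the right of the strands labelled `a`. -/
def pushoff [DecidableEq ι] (a : Arc ι) (x : Option (Arc ι)) : List (Option (Arc ι)) :=
  if x = some a then [x, none] else if x = some (rev a) then [none, x] else [x]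

/-- Diagrams of `L ∪ J`, where `J` is an arbitrary framed link in the complement of `L`. -/
def Diagram (L : List (Sl (Arc ι))) : Type :=
  {D : List (Sl (Option (Arc ι))) // Run [] D [] ∧ erase D = L}

open Finsupp RatFunc in
/-- Isotopy of `J` in the complement of `L`, the two Kauffman bracket relations on `J`, and slides
of `J` over the 2-handles attached along the framing curves of `L` (band sum of `J` with a
parallel copy of a component of `L`). -/
inductive Rel [DecidableEq ι] (L : List (Sl (Arc ι))) : (Diagram L →₀ RatFunc ℚ) → Prop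
  | isotopy (D D' : Diagram L) (w₁ u u' w₂ : List (Sl (Option (Arc ι)))) :
      Move u u' → D.1 = w₁ ++ u ++ w₂ → D'.1 = w₁ ++ u' ++ w₂ →
      Rel L (single D 1 - single D' 1)
  | skein (D D₀ D₁ : Diagram L) (w₁ w₂ : List (Sl (Option (Arc ι))))
      (l r : List (Option (Arc ι))) (s : Bool) :
      D.1 = w₁ ++ [⟨l, .cr none none s, r⟩] ++ w₂ → D₀.1 = w₁ ++ w₂ →
      D₁.1 = w₁ ++ [⟨l, .cap none, r⟩, ⟨l, .cup none, r⟩] ++ w₂ →
      Rel L (single D 1 - single D₀ (if s then X else X⁻¹) - single D₁ (if s then X⁻¹ else X))
  | loop (D D₀ : Diagram L) (w₁ w₂ : List (Sl (Option (Arc ι))))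
      (l r : List (Option (Arc ι))) :
      D.1 = w₁ ++ [⟨l, .cup none, r⟩, ⟨l, .cap none, r⟩] ++ w₂ → D₀.1 = w₁ ++ w₂ →
      Rel L (single D 1 - single D₀ (-X ^ 2 - X⁻¹ ^ 2))
  | handleSlide (D D' : Diagram L) (w₁ w₂ : List (Sl (Option (Arc ι))))
      (l r : List (Option (Arc ι))) (a : Arc ι) :
      Run [] w₁ (l ++ some a :: none :: r) → D.1 = w₁ ++ w₂ →
      D'.1 = cable (pushoff a) w₁ ++
        [⟨l.flatMap (pushoff a) ++ [some a], .cap none, r.flatMap (pushoff a)⟩,
          ⟨l.flatMap (pushoff a) ++ [some a], .cup none, r.flatMap (pushoff a)⟩] ++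
        cable (pushoff a) w₂ →
      Rel L (single D 1 - single D' 1)

/-- The Kauffman bracket skein module over `ℚ(A)` of the result of surgery on `L`. -/
abbrev SkeinModule [DecidableEq ι] (L : List (Sl (Arc ι))) : Type :=
  (Diagram L →₀ RatFunc ℚ) ⧸ Submodule.span (RatFunc ℚ) {x | Rel L x}

end Pool.Agent.P.MP_ac4909_gt
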