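import Pool.Agent.P.MP_ac4909_gt.Ev
import Pool.Agent.P.MP_ac4909_gt.Ref

/-! If the colour of one component splits into two orthogonal idempotents, the evaluation splits,
even with a local element inserted at one point of the component. -/

namespace Pool.Agent.P.MP_ac4909_gt

open Rev

variable {K : Type} [Field K] {R : Type} [Ring R] [Algebra K R] {ι : Type}

section ExpandAux

variable {α β : Type}

omit [Ring R] in
theorem expand_col_ext {c d : Col α R} (h₁ : c.n = d.n) (h₂ : c.F = d.F) : c = d := by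
  cases c; cases d; simp_all

theorem expand_row_congr (n : α → ℕ) {I I' : α → ℕ → R} {ρ : List α}
    (h : ∀ z ∈ ρ, ∀ q, I z q = I' z q) (p : ℕ) : row n I ρ p = row n I' ρ p := by
  induction ρ generalizing p with
  | nil => rfl
  | cons z ρ ih =>
    simp only [row]
    rw [h z (List.mem_cons_self ..), ih fun z' hz' => h z' (List.mem_cons_of_mem _ hz')]

theorem expand_row_map (n : β → ℕ) (I : β → ℕ → R) (φ : α → β) (ρ : List α) (p : ℕ) :
    row n I (ρ.map φ) p = row (fun z => n (φ z)) (fun z => I (φ z)) ρ p := by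
  induction ρ generalizing p with
  | nil => rfl
  | cons z ρ ih => simp only [List.map_cons, row, ih]

theorem expand_blocks {a a' b b' d d' y : R} (h₁ : a' * b = b * a') (h₂ : a' * d = d * a')
    (h₃ : a' * y = y * a') (h₄ : y * d = d * y) (h₅ : b' * d = d * b') :
    a * (b * d) * y * (a' * (b' * d')) = a * a' * (b * y * b') * (d * d') := by
  calc a * (b * d) * y * (a' * (b' * d')) = a * b * d * (y * a') * b' * d' := by
        simp only [mul_assoc]
    _ = a * b * (d * a') * y * b' * d' := by rw [← h₃]; simp only [mul_assoc]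
    _ = a * (b * a') * (d * y) * b' * d' := by rw [← h₂]; simp only [mul_assoc]
    _ = a * a' * b * y * (d * b') * d' := by rw [← h₁, ← h₄]; simp only [mul_assoc]
    _ = a * a' * (b * y * b') * (d * d') := by rw [← h₅]; simp only [mul_assoc]

theorem expand_map_fst_run [Rev α] {ρ σ : List (α × ℕ)} {w : List (Sl (α × ℕ))}
    (h : Run ρ w σ) : Run (ρ.map Prod.fst) (w.map (Sl.map Prod.fst)) (σ.map Prod.fst) :=
  h.map Prod.fst fun _ => rfl

theorem expand_sl_map_map {γ : Type} (φ : α → β) (ψ : β → γ) (s : Sl α) :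
    (s.map φ).map ψ = s.map fun z => ψ (φ z) := by
  obtain ⟨l, g, r⟩ := s
  cases g <;> simp [Sl.map, Gen.map, Function.comp_def]

theorem expand_sl_map_id (s : Sl α) : (s.map fun z => z) = s := by
  obtain ⟨l, g, r⟩ := s
  cases g <;> simp [Sl.map, Gen.map]

/-- the marked colouring -/
def expandCol (c₀ : Col α R) (F' : α × ℕ → ℕ → R) : Col (α × ℕ) R := ⟨fun z => c₀.n z.1, F'⟩

omit [Ring R] in
theorem expand_wid (c₀ : Col α R) (F' : α × ℕ → ℕ → R) (l : List (α × ℕ)) :
    wid c₀.n (l.map Prod.fst) = wid (expandCol c₀ F').n l := wid_map _ _ _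

variable [Rev α] {T : TL K R}

theorem expand_absorb {c₀ : Col α R} {F' : α × ℕ → ℕ → R} {A : α → Finset ℕ}
    (hg : T.Good (expandCol c₀ F')) (hsum : ∀ x p, c₀.F x p = ∑ k ∈ A x, F' (x, k) p)
    (horth : ∀ x p, ∀ k ∈ A x, ∀ k' ∈ A x, k ≠ k' → F' (x, k) p * F' (x, k') p = 0)
    {x : α} {k : ℕ} (hk : k ∈ A x) (p : ℕ) : c₀.F x p * F' (x, k) p = F' (x, k) p := by
  rw [hsum, Finset.sum_mul, Finset.sum_eq_single_of_mem k hk fun j hj hjk => horth x p j hj k hk hjk]
  exact hg.idem (x, k) p

theorem expand_slice {c : Col α R} (hg : T.Good c) (s : Sl α) :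
    T.val c s * row c.n c.F s.src 0 = row c.n c.F s.tgt 0 * T.val c s := by
  have h := hg.iso_self.transfer hg hg (ρ := s.src) (ρ' := s.tgt) (w := [s]) ⟨rfl, rfl⟩
  simpa only [TL.ev, one_mul] using h

theorem expand_transfer {c₀ : Col α R} {F' : α × ℕ → ℕ → R} {A : α → Finset ℕ}
    (hA : ∀ x, A (rev x) = A x) (hg₀ : T.Good c₀)
    (hg : T.Good (expandCol c₀ F')) (hsum : ∀ x p, c₀.F x p = ∑ k ∈ A x, F' (x, k) p)
    (horth : ∀ x p, ∀ k ∈ A x, ∀ k' ∈ A x, k ≠ k' → F' (x, k) p * F' (x, k') p = 0)
    (w : List (Sl α)) {σ : List α} (ρ : List (α × ℕ)) (hρ : ∀ z ∈ ρ, z.2 ∈ A z.1)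
    (hw : Run (ρ.map Prod.fst) w σ) :
    T.ev c₀ w * row (expandCol c₀ F').n F' ρ 0 =
      ∑ w' ∈ Ref A w ρ,
        row (expandCol c₀ F').n F' (endRow ρ w') 0 * T.ev (expandCol c₀ F') w' := by
  induction w generalizing ρ with
  | nil => simp [Ref_nil, TL.ev, endRow]
  | cons s w ih =>
    obtain ⟨l, g, r⟩ := s
    obtain ⟨hsrc, hw⟩ := hw
    simp only [Sl.src, List.map_eq_append_iff] at hsrc
    obtain ⟨lm, r', rfl, ⟨l', m', rfl, rfl, hm⟩, rfl⟩ := hsrc
    have hl : ∀ z ∈ l', z.2 ∈ A z.1 := fun z hz => hρ z (by simp [hz])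
    have hr : ∀ z ∈ r', z.2 ∈ A z.1 := fun z hz => hρ z (by simp [hz])
    cases g with
    | cup o =>
      have hm' : m' = [] := by simpa [Gen.src] using hm
      subst hm'
      rw [List.append_nil, sum_Ref_cup]
      have e : T.val c₀ ⟨l'.map Prod.fst, .cup o, r'.map Prod.fst⟩ =
          ∑ k ∈ A o, T.val (expandCol c₀ F') ⟨l', .cup (o, k), r'⟩ := by
        simp only [TL.val, TL.gval, expand_wid c₀ F', hsum, Finset.sum_mul]
        rfl
      rw [TL.ev, e, mul_assoc, Finset.sum_mul, Finset.mul_sum]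
      refine Finset.sum_congr rfl fun k hk => ?_
      have h1 := expand_slice hg ⟨l', .cup (o, k), r'⟩
      simp only [Sl.src, Sl.tgt, Gen.src, Gen.tgt, List.append_nil, rev_pair] at h1
      erw [h1]
      rw [← mul_assoc]
      erw [ih (l' ++ [(o, k), (rev o, k)] ++ r') ?_ ?_]
      · rw [Finset.sum_mul]
        refine Finset.sum_congr rfl fun w' _ => ?_
        rw [mul_assoc]
        rfl
      · intro z hz
        simp only [List.mem_append, List.mem_cons, List.not_mem_nil, or_false] at hz
        rcases hz with (hz | rfl | rfl) | hz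
        · exact hl z hz
        · exact hk
        · rw [hA]; exact hk
        · exact hr z hz
      · simpa [Sl.tgt, Gen.tgt] using hw
    | cap o =>
      obtain ⟨k, k', rfl⟩ : ∃ k k', m' = [(o, k), (rev o, k')] := by
        simp only [Gen.src, List.map_eq_cons_iff, List.map_eq_nil_iff] at hm
        obtain ⟨⟨a, k⟩, _, rfl, rfl, ⟨b, k'⟩, _, rfl, rfl, rfl⟩ := hm
        exact ⟨k, k', rfl⟩
      have hk : k ∈ A o := hρ (o, k) (by simp)
      have hk' : k' ∈ A o := by
        have := hρ (rev o, k') (by simp)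
        rwa [hA] at this
      have hL := TL.loc_row hg.loc l'
      have e0 : ∀ j : ℕ, row (expandCol c₀ F').n F' (l' ++ [(o, k), (rev o, j)] ++ r') 0 =
          F' (o, k) (wid (expandCol c₀ F').n l') * (row (expandCol c₀ F').n F' l' 0 *
            (F' (rev o, j) (wid (expandCol c₀ F').n l' + c₀.n o) *
              row (expandCol c₀ F').n F' r'
                (wid (expandCol c₀ F').n (l' ++ [(o, k), (rev o, j)])))) := by
        intro j
        have hc := hL.far' (hg.loc (o, k)) 0 (wid (expandCol c₀ F').n l')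
          (wid (expandCol c₀ F').n l') (by omega) rfl
        rw [row_append, row_append]
        simp only [row, zero_add, mul_one]
        erw [← mul_assoc, hc]
        simp only [mul_assoc]
        rfl
      rw [sum_Ref_cap]
      have ev0 : T.val c₀ ⟨l'.map Prod.fst, .cap o, r'.map Prod.fst⟩ =
          T.capC (c₀.n o) (wid (expandCol c₀ F').n l') * c₀.F o (wid (expandCol c₀ F').n l') := by
        simp only [TL.val, TL.gval, expand_wid c₀ F']
      split_ifs with hkk
      · subst hkk
        have e : T.val c₀ ⟨l'.map Prod.fst, .cap o, r'.map Prod.fst⟩ *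
            row (expandCol c₀ F').n F' (l' ++ [(o, k), (rev o, k)] ++ r') 0 =
            T.val (expandCol c₀ F') ⟨l', .cap (o, k), r'⟩ *
              row (expandCol c₀ F').n F' (l' ++ [(o, k), (rev o, k)] ++ r') 0 := by
          have ev1 : T.val (expandCol c₀ F') ⟨l', .cap (o, k), r'⟩ =
              T.capC (c₀.n o) (wid (expandCol c₀ F').n l') *
                F' (o, k) (wid (expandCol c₀ F').n l') := rfl
          have hid : F' (o, k) (wid (expandCol c₀ F').n l') *
              F' (o, k) (wid (expandCol c₀ F').n l') = F' (o, k) (wid (expandCol c₀ F').n l') :=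
            hg.idem (o, k) _
          rw [ev0, ev1, e0, mul_assoc, mul_assoc, ← mul_assoc (c₀.F o _),
            expand_absorb hg hsum horth hk, ← mul_assoc (F' (o, k) _) (F' (o, k) _), hid]
        have h1 := expand_slice hg ⟨l', .cap (o, k), r'⟩
        simp only [Sl.src, Sl.tgt, Gen.src, Gen.tgt, List.append_nil, rev_pair] at h1
        rw [TL.ev, mul_assoc, e]
        erw [h1]
        rw [← mul_assoc]
        erw [ih (l' ++ r') ?_ ?_]
        · rw [Finset.sum_mul]
          refine Finset.sum_congr rfl fun w' _ => ?_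
          rw [mul_assoc]
          simp only [endRow, Sl.tgt, Gen.tgt, List.append_nil]
          rfl
        · intro z hz
          rcases List.mem_append.1 hz with hz | hz
          · exact hl z hz
          · exact hr z hz
        · simpa [Sl.tgt, Gen.tgt] using hw
      · have hc1 := hL.far' (hg.loc (rev o, k')) 0 (wid (expandCol c₀ F').n l' + c₀.n o)
          (wid (expandCol c₀ F').n l' + c₀.n o) (by omega) rfl
        have hc2 := (hg.loc (o, k)).far' (hg.loc (rev o, k')) (wid (expandCol c₀ F').n l')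
          (wid (expandCol c₀ F').n l' + c₀.n o) (wid (expandCol c₀ F').n l' + c₀.n o) le_rfl rfl
        have hloc : T.Loc (c₀.n o) (c₀.n o) (F' (rev o, k')) :=
          (hg.loc (rev o, k')).cast (hg₀.n_rev o) (hg₀.n_rev o) fun _ => rfl
        have hcap := TL.Rot.cap' (hg.rot (o, k')) (hg.loc (o, k')) hloc
          (wid (expandCol c₀ F').n l')
        have hz := horth o (wid (expandCol c₀ F').n l') k' hk' k hk (Ne.symm hkk)
        change row (expandCol c₀ F').n F' l' 0 * F' (rev o, k') _ =
          F' (rev o, k') _ * row (expandCol c₀ F').n F' l' 0 at hc1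
        change F' (o, k) _ * F' (rev o, k') _ = F' (rev o, k') _ * F' (o, k) _ at hc2
        change T.capC (c₀.n o) _ * F' (rev o, k') (_ + c₀.n o) =
          T.capC (c₀.n o) _ * F' (o, k') _ at hcap
        rw [TL.ev, mul_assoc, ev0, e0, mul_assoc, ← mul_assoc (c₀.F o _),
          expand_absorb hg hsum horth hk, ← mul_assoc (row _ _ l' 0), hc1, mul_assoc,
          ← mul_assoc (F' (o, k) _), hc2, ← mul_assoc (T.capC _ _), ← mul_assoc (T.capC _ _), hcap,
          mul_assoc (T.capC _ _), hz, mul_zero, zero_mul, mul_zero]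
    | cr x y b =>
      obtain ⟨k, k', rfl⟩ : ∃ k k', m' = [(x, k), (y, k')] := by
        simp only [Gen.src, List.map_eq_cons_iff, List.map_eq_nil_iff] at hm
        obtain ⟨⟨a, k⟩, _, rfl, rfl, ⟨b, k'⟩, _, rfl, rfl, rfl⟩ := hm
        exact ⟨k, k', rfl⟩
      erw [sum_Ref_cr A _ l' r' (x, k) (y, k') b w]
      have e : T.val c₀ ⟨l'.map Prod.fst, .cr x y b, r'.map Prod.fst⟩ =
          T.val (expandCol c₀ F') ⟨l', .cr (x, k) (y, k') b, r'⟩ := by
        simp only [TL.val, TL.gval, expand_wid c₀ F']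
        rfl
      have h1 := expand_slice hg ⟨l', .cr (x, k) (y, k') b, r'⟩
      simp only [Sl.src, Sl.tgt, Gen.src, Gen.tgt] at h1
      rw [TL.ev, mul_assoc, e]
      erw [h1]
      rw [← mul_assoc]
      erw [ih (l' ++ [(y, k'), (x, k)] ++ r') ?_ ?_]
      · rw [Finset.sum_mul]
        refine Finset.sum_congr rfl fun w' _ => ?_
        rw [mul_assoc]
        rfl
      · intro z hz
        apply hρ
        simp only [List.mem_append, List.mem_cons, List.not_mem_nil, or_false] at hz ⊢
        tauto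
      · simpa [Sl.tgt, Gen.tgt] using hw

end ExpandAux

theorem expand_named_rev (i : ι) (x : Option (Arc ι)) : Named i (rev x) ↔ Named i x := by
  constructor
  · rintro ⟨b, hb⟩
    refine ⟨!b, ?_⟩
    rw [← rev_rev x, hb]
    rfl
  · rintro ⟨b, rfl⟩
    exact ⟨!b, rfl⟩

open Classical in
/-- allowed marks -/
noncomputable def expandA (i : ι) (x : Option (Arc ι)) : Finset ℕ :=
  if Named i x then {0, 1} else {0}

open Classical in
/-- the constant marking of component `i` -/
noncomputable def expandPhi (i : ι) (k : ℕ) (x : Option (Arc ι)) : Option (Arc ι) × ℕ :=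
  (x, if Named i x then k else 0)

theorem expandA_rev (i : ι) (x : Option (Arc ι)) : expandA i (rev x) = expandA i x := by
  by_cases h : Named i x <;> simp [expandA, expand_named_rev, h]

theorem expandPhi_rev (i : ι) (k : ℕ) (x : Option (Arc ι)) :
    expandPhi i k (rev x) = rev (expandPhi i k x) := by
  by_cases h : Named i x <;> simp [expandPhi, expand_named_rev, h]

theorem expandPhi_fst (i : ι) (k : ℕ) (w : List (Sl (Option (Arc ι)))) :
    (w.map (Sl.map (expandPhi i k))).map (Sl.map Prod.fst) = w := by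
  rw [List.map_map]
  conv_rhs => rw [← List.map_id w]
  refine List.map_congr_left fun s _ => ?_
  simp only [Function.comp, expand_sl_map_map, id]
  exact expand_sl_map_id s

theorem expandPhi_allowed (i : ι) {k : ℕ} (hk : k = 0 ∨ k = 1) (w : List (Sl (Option (Arc ι)))) :
    Allowed (expandA i) (w.map (Sl.map (expandPhi i k))) := by
  intro s hs o n hsg
  obtain ⟨⟨l, g, r⟩, _, rfl⟩ := List.mem_map.1 hs
  cases g with
  | cup o' =>
    simp only [Sl.map, Gen.map, expandPhi, Gen.cup.injEq, Prod.mk.injEq] at hsg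
    obtain ⟨rfl, rfl⟩ := hsg
    unfold expandA
    split_ifs
    · simpa using hk
    · simp
  | cap o' => simp [Sl.map, Gen.map] at hsg
  | cr x y b => simp [Sl.map, Gen.map] at hsg

theorem expand_closed {i : ι} {L : List (Sl (Arc ι))} (hL : IsFramedLink L) (D : Diagram L)
    {D' : List (Sl (Option (Arc ι) × ℕ))} (h₁ : D'.map (Sl.map Prod.fst) = D.1)
    (h₂ : Run [] D' []) (h₃ : Allowed (expandA i) D') :
    ∃ k, D' = D.1.map (Sl.map (expandPhi i k)) := by
  have hnone : ¬Named i (none : Option (Arc ι)) := by rintro ⟨b, hb⟩; cases hb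
  obtain ⟨g, hg⟩ := hL.eq_map_mark D (expandA i) (by simp [expandA, hnone]) h₁ h₂ h₃
  refine ⟨g i, ?_⟩
  have e : mark g = expandPhi i (g i) := by
    funext x
    rcases x with _ | ⟨j, b⟩
    · simp [mark, expandPhi, hnone]
    · by_cases hj : j = i
      · subst hj
        have : Named j (some ⟨j, b⟩) := ⟨b, rfl⟩
        simp [mark, expandPhi, this]
      · have hn : ∀ b, ¬Named i (some ⟨j, b⟩) := by
          rintro b ⟨b', hb'⟩
          simp only [Option.some.injEq, Arc.mk.injEq] at hb'
          exact hj hb'.1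
        obtain ⟨w₁, w₂, l, r, b', hD⟩ := hL.exists_cup D j
        have hmem : (⟨l, .cup (some ⟨j, b'⟩), r⟩ : Sl (Option (Arc ι))).map (mark g) ∈ D' := by
          rw [hg, hD]
          exact List.mem_map_of_mem (by simp)
        have := h₃ _ hmem (some ⟨j, b'⟩) (g j) rfl
        simp only [expandA, hn, if_false, Finset.mem_singleton] at this
        simp [mark, expandPhi, hn, this]
  rw [hg, e]

namespace TL

/-- `c₀ = c₁ + c₂` on component `i`, orthogonally, and the three colourings agree elsewhere -/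
structure Splits (T : TL K R) (i : ι) (c₀ c₁ c₂ : Col (Option (Arc ι)) R) : Prop where
  g₀ : T.Good c₀
  g₁ : T.Good c₁
  g₂ : T.Good c₂
  n₁ : c₁.n = c₀.n
  n₂ : c₂.n = c₀.n
  off : ∀ x, ¬Named i x → c₁.F x = c₀.F x ∧ c₂.F x = c₀.F x
  add : ∀ x p, Named i x → c₀.F x p = c₁.F x p + c₂.F x p
  o₁₂ : ∀ x p, Named i x → c₁.F x p * c₂.F x p = 0
  o₂₁ : ∀ x p, Named i x → c₂.F x p * c₁.F x p = 0

variable {T : TL K R}

theorem Splits.expand_break {i : ι} {c₀ c₁ c₂ : Col (Option (Arc ι)) R} (h : T.Splits i c₀ c₁ c₂)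
    {L : List (Sl (Arc ι))} (hL : IsFramedLink L) (D : Diagram L)
    {w₁ w₂ : List (Sl (Option (Arc ι)))} {l mid r : List (Option (Arc ι))} {x : Option (Arc ι)}
    (hD : D.1 = w₁ ++ w₂) (hρ : Run [] w₁ (l ++ x :: (mid ++ r))) (hx : Named i x)
    (hmid : ∀ z ∈ mid, ¬Named i z) {y : ℕ → R}
    (hy : T.Loc (c₀.n x + wid c₀.n mid) (c₀.n x + wid c₀.n mid) y) :
    T.ev c₀ w₂ * y (wid c₀.n l) * T.ev c₀ w₁ =
      T.ev c₁ w₂ * y (wid c₀.n l) * T.ev c₁ w₁ + T.ev c₂ w₂ * y (wid c₀.n l) * T.ev c₂ w₁ := by
  classical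
  obtain ⟨F', hF'⟩ : ∃ F' : Option (Arc ι) × ℕ → ℕ → R,
      ∀ z k, F' (z, k) = if k = 0 then c₁.F z else c₂.F z :=
    ⟨fun z => if z.2 = 0 then c₁.F z.1 else c₂.F z.1, fun _ _ => rfl⟩
  have hF0 : ∀ z, F' (z, 0) = c₁.F z := fun z => by simp [hF']
  have hF1 : ∀ z, F' (z, 1) = c₂.F z := fun z => by simp [hF']
  have hg : T.Good (expandCol c₀ F') := by
    have l1 := h.g₁.loc
    have l2 := h.g₂.loc
    have r1 := h.g₁.rot
    have r2 := h.g₂.rot
    rw [h.n₁] at l1 r1
    rw [h.n₂] at l2 r2
    refine ⟨fun z => h.g₀.n_rev z.1, ?_, ?_, ?_⟩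
    · rintro ⟨z, k⟩
      change T.Loc (c₀.n z) (c₀.n z) (F' (z, k))
      rw [hF']
      split_ifs
      · exact l1 z
      · exact l2 z
    · rintro ⟨z, k⟩ p
      change F' (z, k) p * F' (z, k) p = F' (z, k) p
      rw [hF']
      split_ifs
      · exact h.g₁.idem z p
      · exact h.g₂.idem z p
    · rintro ⟨z, k⟩
      change T.Rot (c₀.n z) (c₀.n z) (F' (z, k)) (F' (rev z, k))
      rw [hF', hF']
      split_ifs
      · exact r1 z
      · exact r2 z
  have hsum : ∀ z p, c₀.F z p = ∑ k ∈ expandA i z, F' (z, k) p := by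
    intro z p
    unfold expandA
    split_ifs with hz
    · rw [Finset.sum_pair zero_ne_one, hF0, hF1, h.add z p hz]
    · rw [Finset.sum_singleton, hF0, (h.off z hz).1]
  have horth : ∀ z p, ∀ k ∈ expandA i z, ∀ k' ∈ expandA i z, k ≠ k' →
      F' (z, k) p * F' (z, k') p = 0 := by
    intro z p k hk k' hk' hne
    unfold expandA at hk hk'
    split_ifs at hk hk' with hz
    · simp only [Finset.mem_insert, Finset.mem_singleton] at hk hk'
      rcases hk with rfl | rfl <;> rcases hk' with rfl | rfl
      · exact absurd rfl hne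
      · rw [hF0, hF1, h.o₁₂ z p hz]
      · rw [hF0, hF1, h.o₂₁ z p hz]
      · exact absurd rfl hne
    · simp only [Finset.mem_singleton] at hk hk'
      exact absurd (hk.trans hk'.symm) hne
  have hAx : expandA i x = {0, 1} := by simp [expandA, hx]
  have hc1 : (expandCol c₀ F').comap (expandPhi i 0) = c₁ :=
    expand_col_ext h.n₁.symm (funext fun z => by
      change F' (z, if Named i z then 0 else 0) = _
      rw [ite_self, hF0])
  have hc2 : (expandCol c₀ F').comap (expandPhi i 1) = c₂ :=
    expand_col_ext h.n₂.symm (funext fun z => by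
      change F' (z, if Named i z then 1 else 0) = _
      split_ifs with hz
      · exact hF1 z
      · rw [hF0, (h.off z hz).1, (h.off z hz).2])
  have hρ₂ : Run (l ++ x :: (mid ++ r)) w₂ [] := by
    have := D.2.1
    rw [hD, run_append] at this
    obtain ⟨σ, h1, h2⟩ := this
    rwa [h1.unique hρ] at h2
  have hrunφ : ∀ k, Run [] (w₁.map (Sl.map (expandPhi i k)))
      ((l ++ x :: (mid ++ r)).map (expandPhi i k)) := fun k => hρ.map _ (expandPhi_rev i k)
  have hrunφ₂ : ∀ k, Run ((l ++ x :: (mid ++ r)).map (expandPhi i k))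
      (w₂.map (Sl.map (expandPhi i k))) [] := fun k => hρ₂.map _ (expandPhi_rev i k)
  have hφx : ∀ k, expandPhi i k x = (x, k) := fun k => by simp [expandPhi, hx]
  -- the summand for one refinement of the lower word
  have main : ∀ w₁' ∈ Ref (expandA i) w₁ [], ∃ (_ : ℕ) (S : ℕ → Finset (List (Sl _))),
      T.ev c₀ w₂ * y (wid c₀.n l) *
        (row (expandCol c₀ F').n F' (endRow [] w₁') 0 * T.ev (expandCol c₀ F') w₁') =
        ∑ k' ∈ ({0, 1} : Finset ℕ), ∑ w₂' ∈ S k', T.ev (expandCol c₀ F') w₂' * y (wid c₀.n l) *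
          T.ev (expandCol c₀ F') w₁' ∧
      (∀ k' ∈ ({0, 1} : Finset ℕ), ∀ w₂' ∈ S k', w₁' = w₁.map (Sl.map (expandPhi i k')) ∧
        w₂' = w₂.map (Sl.map (expandPhi i k'))) ∧
      (∀ k' ∈ ({0, 1} : Finset ℕ), w₁' = w₁.map (Sl.map (expandPhi i k')) →
        w₂.map (Sl.map (expandPhi i k')) ∈ S k') := by
    intro w₁' hw₁'
    obtain ⟨hm₁, ⟨ρ', hrun₁⟩, hall₁⟩ := (mem_Ref _).1 hw₁'
    rw [← hrun₁.eq_endRow]
    have hmap : ρ'.map Prod.fst = l ++ x :: (mid ++ r) := by
      have := expand_map_fst_run hrun₁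
      rw [hm₁] at this
      exact this.unique hρ
    have hallρ := Run.mark_mem (expandA i) (expandA_rev i) hrun₁ hall₁ (by simp)
    simp only [List.map_eq_append_iff, List.map_eq_cons_iff] at hmap
    obtain ⟨l', _, rfl, hl', ⟨x', k⟩, _, rfl, hx', mid', r', rfl, hmid', hr'⟩ := hmap
    simp only at hx'
    subst hx'
    have hal : ∀ z ∈ l', z.2 ∈ expandA i z.1 := fun z hz => hallρ z (by simp [hz])
    have ham : ∀ z ∈ mid', z.2 ∈ expandA i z.1 := fun z hz => hallρ z (by simp [hz])
    have har : ∀ z ∈ r', z.2 ∈ expandA i z.1 := fun z hz => hallρ z (by simp [hz])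
    have hk : k ∈ ({0, 1} : Finset ℕ) := hAx ▸ hallρ (x', k) (by simp)
    have hend : ∀ k', ∀ w₂' ∈ Ref (expandA i) w₂ (l' ++ (x', k') :: (mid' ++ r')),
        Run (l' ++ (x', k') :: (mid' ++ r')) w₂' [] := by
      intro k' w₂' hw₂'
      obtain ⟨hm₂, ⟨σ, hrun₂⟩, _⟩ := (mem_Ref _).1 hw₂'
      have h1 := expand_map_fst_run hrun₂
      rw [hm₂] at h1
      simp only [List.map_append, List.map_cons, hl', hmid', hr'] at h1
      have h2 := h1.unique hρ₂
      rw [List.map_eq_nil_iff] at h2
      rwa [h2] at hrun₂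
    refine ⟨k, fun k' => Ref (expandA i) w₂ (l' ++ (x', k') :: (mid' ++ r')), ?_, ?_, ?_⟩
    · have hwl : wid c₀.n l = wid (expandCol c₀ F').n l' := by rw [← hl', expand_wid]
      have hwm : wid c₀.n mid = wid (expandCol c₀ F').n mid' := by rw [← hmid', expand_wid]
      have hM : ∀ q, row (expandCol c₀ F').n F' mid' q = row c₀.n c₀.F mid q := by
        intro q
        rw [← hmid', expand_row_map]
        refine expand_row_congr _ (fun z hz q => ?_) q
        have hn : ¬Named i z.1 := hmid z.1 (hmid' ▸ List.mem_map_of_mem hz)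
        have h0 := ham z hz
        simp only [expandA, hn, if_false, Finset.mem_singleton] at h0
        obtain ⟨z, j⟩ := z
        simp only at h0
        subst h0
        rw [hF0, (h.off z hn).1]
      have hrow' : ∀ k', row (expandCol c₀ F').n F' (l' ++ (x', k') :: (mid' ++ r')) 0 =
          row (expandCol c₀ F').n F' l' 0 *
            ((F' (x', k') (wid c₀.n l) * row c₀.n c₀.F mid (wid c₀.n l + c₀.n x')) *
              row (expandCol c₀ F').n F' r' (wid c₀.n l + c₀.n x' + wid c₀.n mid)) := by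
        intro k'
        rw [row_append, row, row_append, hM, zero_add, ← hwl, ← hwm, mul_assoc]
        rfl
      have hrow₀ : row c₀.n c₀.F (l ++ x' :: (mid ++ r)) 0 = row c₀.n c₀.F l 0 *
            ((c₀.F x' (wid c₀.n l) * row c₀.n c₀.F mid (wid c₀.n l + c₀.n x')) *
              row c₀.n c₀.F r (wid c₀.n l + c₀.n x' + wid c₀.n mid)) := by
        rw [row_append, row, row_append, zero_add, mul_assoc]
      have habs : ∀ (u : List (Option (Arc ι) × ℕ)), (∀ z ∈ u, z.2 ∈ expandA i z.1) → ∀ q,
          row c₀.n c₀.F (u.map Prod.fst) q * row (expandCol c₀ F').n F' u q =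
            row (expandCol c₀ F').n F' u q := by
        intro u hu q
        rw [expand_row_map]
        have := row_mul_row (T := T) (n := (expandCol c₀ F').n) (n' := (expandCol c₀ F').n)
          (n'' := (expandCol c₀ F').n) (I := F') (I' := fun z => c₀.F z.1) hg.loc
          (fun z => h.g₀.loc z.1) u q
        refine this.trans (expand_row_congr _ (fun z hz q => ?_) q)
        exact expand_absorb hg hsum horth (hu z hz) q
      have locL : T.Loc (wid c₀.n l) (wid c₀.n l) (row (expandCol c₀ F').n F' l') :=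
        (loc_row hg.loc l').cast hwl.symm hwl.symm fun _ => rfl
      have locM : ∀ G : ℕ → R, T.Loc (c₀.n x') (c₀.n x') G →
          T.Loc (c₀.n x' + wid c₀.n mid) (c₀.n x' + wid c₀.n mid)
            fun p => G p * row c₀.n c₀.F mid (p + c₀.n x') := fun G hG =>
        hG.tens (loc_row h.g₀.loc mid)
      have blocks : ∀ (a : R) (G : ℕ → R) (d : ℕ → R) (n : ℕ), T.Loc (c₀.n x') (c₀.n x') G →
          T.Loc n n d →
          a * ((G (wid c₀.n l) * row c₀.n c₀.F mid (wid c₀.n l + c₀.n x')) *
              d (wid c₀.n l + c₀.n x' + wid c₀.n mid)) * y (wid c₀.n l) *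
            row (expandCol c₀ F').n F' (l' ++ (x', k) :: (mid' ++ r')) 0 =
          a * row (expandCol c₀ F').n F' l' 0 *
            ((G (wid c₀.n l) * row c₀.n c₀.F mid (wid c₀.n l + c₀.n x')) * y (wid c₀.n l) *
              (F' (x', k) (wid c₀.n l) * row c₀.n c₀.F mid (wid c₀.n l + c₀.n x'))) *
            (d (wid c₀.n l + c₀.n x' + wid c₀.n mid) *
              row (expandCol c₀ F').n F' r' (wid c₀.n l + c₀.n x' + wid c₀.n mid)) := by
        intro a G d n hG hd
        rw [hrow']
        exact expand_blocks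
          (locL.far' (locM G hG) 0 (wid c₀.n l) (wid c₀.n l) (by omega) rfl)
          (locL.far' hd 0 _ _ (by omega) rfl)
          (locL.far' hy 0 _ _ (by omega) rfl)
          (hy.far' hd _ _ _ (by omega) rfl)
          ((locM _ (hg.loc (x', k))).far' hd (wid c₀.n l) _ _ (by omega) rfl)
      have key : row c₀.n c₀.F (l ++ x' :: (mid ++ r)) 0 * y (wid c₀.n l) *
          row (expandCol c₀ F').n F' (l' ++ (x', k) :: (mid' ++ r')) 0 =
          ∑ k' ∈ ({0, 1} : Finset ℕ),
            row (expandCol c₀ F').n F' (l' ++ (x', k') :: (mid' ++ r')) 0 * y (wid c₀.n l) *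
              row (expandCol c₀ F').n F' (l' ++ (x', k) :: (mid' ++ r')) 0 := by
        have e1 := habs l' hal 0
        have e2 := habs r' har (wid c₀.n l + c₀.n x' + wid c₀.n mid)
        rw [hl'] at e1
        rw [hr'] at e2
        have e3 : row (expandCol c₀ F').n F' l' 0 * row (expandCol c₀ F').n F' l' 0 =
            row (expandCol c₀ F').n F' l' 0 := hg.row_idem l' 0
        have e4 : ∀ q, row (expandCol c₀ F').n F' r' q * row (expandCol c₀ F').n F' r' q =
            row (expandCol c₀ F').n F' r' q := hg.row_idem r'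
        have b0 := blocks (row (expandCol c₀ F').n F' l' 0) (F' (x', 0))
          (row (expandCol c₀ F').n F' r') _ (hg.loc (x', 0)) (loc_row hg.loc r')
        have b1 := blocks (row (expandCol c₀ F').n F' l' 0) (F' (x', 1))
          (row (expandCol c₀ F').n F' r') _ (hg.loc (x', 1)) (loc_row hg.loc r')
        rw [← hrow' 0, e3, e4] at b0
        rw [← hrow' 1, e3, e4] at b1
        rw [Finset.sum_pair zero_ne_one, b0, b1, hrow₀,
          blocks _ _ _ _ (h.g₀.loc x') (loc_row h.g₀.loc r), e1, e2, h.add x' _ hx, hF0, hF1]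
        simp only [add_mul, mul_add]
      calc T.ev c₀ w₂ * y (wid c₀.n l) *
            (row (expandCol c₀ F').n F' (l' ++ (x', k) :: (mid' ++ r')) 0 *
              T.ev (expandCol c₀ F') w₁')
          = T.ev c₀ w₂ * (row c₀.n c₀.F (l ++ x' :: (mid ++ r)) 0 * y (wid c₀.n l) *
              row (expandCol c₀ F').n F' (l' ++ (x', k) :: (mid' ++ r')) 0) *
              T.ev (expandCol c₀ F') w₁' := by
            conv_lhs => rw [← h.g₀.ev_mul_row hρ₂]
            simp only [mul_assoc]
        _ = ∑ k' ∈ ({0, 1} : Finset ℕ), (T.ev c₀ w₂ *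
              row (expandCol c₀ F').n F' (l' ++ (x', k') :: (mid' ++ r')) 0) * y (wid c₀.n l) *
              (row (expandCol c₀ F').n F' (l' ++ (x', k) :: (mid' ++ r')) 0 *
                T.ev (expandCol c₀ F') w₁') := by
            rw [key, Finset.mul_sum, Finset.sum_mul]
            simp only [mul_assoc]
        _ = _ := by
            refine Finset.sum_congr rfl fun k' hk' => ?_
            have e5 : row (expandCol c₀ F').n F' (l' ++ (x', k) :: (mid' ++ r')) 0 *
                T.ev (expandCol c₀ F') w₁' = T.ev (expandCol c₀ F') w₁' := hg.row_mul_ev hrun₁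
            rw [e5, expand_transfer (expandA_rev i) h.g₀ hg hsum horth w₂ (σ := [])
              (l' ++ (x', k') :: (mid' ++ r')) ?_ ?_, Finset.sum_mul, Finset.sum_mul]
            · refine Finset.sum_congr rfl fun w₂' hw₂' => ?_
              rw [← (hend k' w₂' hw₂').eq_endRow, row, one_mul]
            · intro z hz
              simp only [List.mem_append, List.mem_cons] at hz
              rcases hz with hz | rfl | hz | hz
              · exact hal z hz
              · rw [hAx]; exact hk'
              · exact ham z hz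
              · exact har z hz
            · simpa [hl', hmid', hr'] using hρ₂
    · intro k' hk' w₂' hw₂'
      have hrun₂ := hend k' w₂' hw₂'
      obtain ⟨hm₂, _, hall₂⟩ := (mem_Ref _).1 hw₂'
      have hP : ∀ z : Option (Arc ι) × ℕ, decide (Named i (rev z).1 ∧ (rev z).2 = 1) =
          decide (Named i z.1 ∧ z.2 = 1) := by
        rintro ⟨z, j⟩
        simp only [rev_pair, expand_named_rev]
      have p1 := hrun₁.countP_mod_two (fun z => decide (Named i z.1 ∧ z.2 = 1)) hP
      have p2 := hrun₂.countP_mod_two (fun z => decide (Named i z.1 ∧ z.2 = 1)) hP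
      have hkk : k' = k := by
        simp only [Finset.mem_insert, Finset.mem_singleton] at hk hk'
        simp only [List.countP_append, List.countP_cons, List.countP_nil, hx, true_and,
          decide_eq_true_eq] at p1 p2
        rcases hk with rfl | rfl <;> rcases hk' with rfl | rfl
        · rfl
        · simp only [zero_ne_one, if_false, if_true] at p1 p2
          omega
        · simp only [zero_ne_one, if_false, if_true] at p1 p2
          omega
        · rfl
      subst hkk
      obtain ⟨j, hj⟩ := expand_closed (i := i) hL D (D' := w₁' ++ w₂')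
        (by rw [List.map_append, hm₁, hm₂, hD]) (run_append.2 ⟨_, hrun₁, hrun₂⟩)
        (fun s hs => (List.mem_append.1 hs).elim (hall₁ s) (hall₂ s))
      rw [hD, List.map_append] at hj
      have hlen : w₁'.length = (w₁.map (Sl.map (expandPhi i j))).length := by
        rw [List.length_map, ← hm₁, List.length_map]
      obtain ⟨e1, e2⟩ := List.append_inj hj hlen
      have e3 := (e1 ▸ hrun₁).unique (hrunφ j)
      rw [List.map_append, List.map_cons, hφx] at e3
      have e4 := (List.append_inj e3 (by rw [List.length_map, ← hl', List.length_map])).2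
      have e5 : k' = j := by
        simp only [List.cons.injEq, Prod.mk.injEq] at e4
        exact e4.1.2
      subst e5
      exact ⟨e1, e2⟩
    · intro k' hk' e1
      have e3 := (e1 ▸ hrun₁).unique (hrunφ k')
      have e3' := e3
      rw [List.map_append, List.map_cons, hφx] at e3'
      have e4 := (List.append_inj e3' (by rw [List.length_map, ← hl', List.length_map])).2
      have e5 : k = k' := by
        simp only [List.cons.injEq, Prod.mk.injEq] at e4
        exact e4.1.2
      subst e5
      refine (mem_Ref _).2 ⟨expandPhi_fst i k w₂, ⟨[], ?_⟩,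
        expandPhi_allowed i (by simpa using hk') w₂⟩
      rw [e3]
      exact hrunφ₂ k
  have hmem : ∀ k, k = 0 ∨ k = 1 → w₁.map (Sl.map (expandPhi i k)) ∈ Ref (expandA i) w₁ [] :=
    fun k hk => (mem_Ref _).2 ⟨expandPhi_fst i k w₁, ⟨_, hrunφ k⟩, expandPhi_allowed i hk w₁⟩
  have hne : w₁.map (Sl.map (expandPhi i 0)) ≠ w₁.map (Sl.map (expandPhi i 1)) := by
    intro e
    have e3 := (e ▸ hrunφ 0).unique (hrunφ 1)
    rw [List.map_append, List.map_cons, List.map_append (f := expandPhi i 1), List.map_cons,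
      hφx, hφx] at e3
    have e4 := (List.append_inj e3 (by simp)).2
    simp at e4
  have hw₁ := expand_transfer (expandA_rev i) h.g₀ hg hsum horth w₁ [] (by simp) hρ
  rw [row, mul_one] at hw₁
  rw [hw₁, Finset.mul_sum, Finset.sum_eq_add_of_mem _ _ (hmem 0 (Or.inl rfl)) (hmem 1 (Or.inr rfl))
    hne ?_]
  · congr 1
    · obtain ⟨k, S, h1, h2, h3⟩ := main _ (hmem 0 (Or.inl rfl))
      rw [h1, Finset.sum_pair zero_ne_one,
        Finset.sum_eq_single_of_mem _ (h3 0 (by simp) rfl)
          fun w hw hn => absurd (h2 0 (by simp) w hw).2 hn,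
        Finset.sum_eq_zero fun w hw => absurd (h2 1 (by simp) w hw).1 hne, add_zero,
        ev_map, ev_map, hc1]
    · obtain ⟨k, S, h1, h2, h3⟩ := main _ (hmem 1 (Or.inr rfl))
      rw [h1, Finset.sum_pair zero_ne_one,
        Finset.sum_eq_zero fun w hw => absurd (h2 0 (by simp) w hw).1 hne.symm,
        Finset.sum_eq_single_of_mem _ (h3 1 (by simp) rfl)
          fun w hw hn => absurd (h2 1 (by simp) w hw).2 hn, zero_add,
        ev_map, ev_map, hc2]
  · intro w₁' hw₁' hn
    obtain ⟨k, S, h1, h2, _⟩ := main _ hw₁'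
    rw [h1, Finset.sum_pair zero_ne_one,
      Finset.sum_eq_zero fun w hw => absurd (h2 0 (by simp) w hw).1 hn.1,
      Finset.sum_eq_zero fun w hw => absurd (h2 1 (by simp) w hw).1 hn.2, add_zero]

theorem Splits.expand {i : ι} {c₀ c₁ c₂ : Col (Option (Arc ι)) R} (h : T.Splits i c₀ c₁ c₂)
    {L : List (Sl (Arc ι))} (hL : IsFramedLink L) (D : Diagram L) :
    T.ev c₀ D.1 = T.ev c₁ D.1 + T.ev c₂ D.1 := by
  obtain ⟨w₁, w₂, l, r, b, hD⟩ := hL.exists_cup D i
  have hD' : D.1 = (w₁ ++ [⟨l, .cup (some ⟨i, b⟩), r⟩]) ++ w₂ := by rw [hD]; simp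
  have hrun := D.2.1
  rw [hD, run_append] at hrun
  obtain ⟨σ, h1, h2, _⟩ := hrun
  have hρ : Run [] (w₁ ++ [⟨l, .cup (some ⟨i, b⟩), r⟩])
      (l ++ some ⟨i, b⟩ :: ([] ++ rev (some ⟨i, b⟩) :: r)) :=
    run_append.2 ⟨σ, h1, h2, by simp [Sl.tgt, Gen.tgt, run_nil]⟩
  have := h.expand_break hL D hD' hρ ⟨b, rfl⟩ (by simp) (Loc.one _)
  simp only [mul_one] at this
  rw [hD', ev_append, ev_append T c₁, ev_append T c₂]
  exact this

end TL

end Pool.Agent.P.MP_ac4909_gt
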