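import Pool.Agent.P.MP_ac4909_gt.Root

/-! Two lemmas on affine hyperplanes for the finite determination argument. -/

namespace Pool.Agent.P.MP_ac4909_gt

open Filter

variable {α : Type} [Fintype α]

/-- off finitely many hyperplanes an exponential polynomial does not vanish on a box of size
proportional to `r = 2^t` -/
theorem exists_hyperplanes (S : Finset ((α → ℤ) × ℕ)) (c : (α → ℤ) × ℕ → ℚ)
    (hc : ∃ z ∈ S, c z ≠ 0) :
    ∃ (H : Finset ((α → ℤ) × ℤ)) (ε : ℝ), (∀ h ∈ H, h.1 ≠ 0) ∧ 0 < ε ∧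
      ∀ᶠ t in atTop, ∀ n : α → ℤ, (∀ i, (|n i| : ℝ) ≤ ε * 2 ^ t) → (∀ h ∈ H, h.1 ⬝ᵥ n ≠ h.2) →
        ∑ z ∈ S, (c z : ℂ) * aa t ^ ((z.2 : ℤ) + 2 * (z.1 ⬝ᵥ n)) ≠ 0 := by
  classical
  obtain ⟨B, hB0, hB⟩ : ∃ B : ℝ, 0 < B ∧ ∀ z ∈ S, ∑ i, |(z.1 i : ℝ)| ≤ B := by
    have h0 : ∀ z ∈ S, 0 ≤ ∑ i, |(z.1 i : ℝ)| := fun z _ =>
      Finset.sum_nonneg fun _ _ => abs_nonneg _
    refine ⟨∑ z ∈ S, ∑ i, |(z.1 i : ℝ)| + 1, ?_, fun z hz => ?_⟩
    · linarith [Finset.sum_nonneg h0]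
    · linarith [Finset.single_le_sum h0 hz]
  refine ⟨((S ×ˢ S).filter fun z => z.1.1 ≠ z.2.1).image
    fun z => (2 • (z.1.1 - z.2.1), (z.2.2 : ℤ) - z.1.2), 1 / (4 * B), ?_, by positivity, ?_⟩
  · intro h hh
    obtain ⟨z, hz, rfl⟩ := Finset.mem_image.1 hh
    exact smul_ne_zero two_ne_zero (sub_ne_zero.2 (Finset.mem_filter.1 hz).2)
  · filter_upwards [(tendsto_pow_atTop_atTop_of_one_lt
      (one_lt_two : (1 : ℝ) < 2)).eventually_gt_atTop (2 * ∑ z ∈ S, (z.2 : ℝ))] with t ht n hn hH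
    refine sum_zpow_aa_ne S c _ t hc (fun z hz z' hz' e => ?_) fun z hz => ?_
    · by_cases h : z.1 = z'.1
      · refine Prod.ext h ?_
        simp only [h, add_left_inj, Nat.cast_inj] at e
        exact e
      · refine (hH _ (Finset.mem_image.2 ⟨(z, z'), Finset.mem_filter.2
          ⟨Finset.mem_product.2 ⟨hz, hz'⟩, h⟩, rfl⟩) ?_).elim
        simp only [two_smul, add_dotProduct, sub_dotProduct] at e ⊢
        linarith
    · have h1 : (z.2 : ℝ) ≤ ∑ z ∈ S, (z.2 : ℝ) :=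
        Finset.single_le_sum (f := fun z : (α → ℤ) × ℕ => (z.2 : ℝ))
          (fun _ _ => Nat.cast_nonneg _) hz
      have h2 : |((z.1 ⬝ᵥ n : ℤ) : ℝ)| ≤ 2 ^ t / 4 := by
        rw [dotProduct, Int.cast_sum]
        refine (Finset.abs_sum_le_sum_abs _ _).trans ?_
        calc ∑ i, |((z.1 i * n i : ℤ) : ℝ)| ≤ ∑ i, |(z.1 i : ℝ)| * (1 / (4 * B) * 2 ^ t) :=
              Finset.sum_le_sum fun i _ => by
                rw [Int.cast_mul, abs_mul]
                exact mul_le_mul_of_nonneg_left (hn i) (abs_nonneg _)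
          _ ≤ B * (1 / (4 * B) * 2 ^ t) := by
              rw [← Finset.sum_mul]
              exact mul_le_mul_of_nonneg_right (hB z hz) (by positivity)
          _ = 2 ^ t / 4 := by field_simp
      have h3 : |(z.2 : ℝ) + 2 * ((z.1 ⬝ᵥ n : ℤ) : ℝ)| < 2 ^ t := by
        refine (abs_add_le _ _).trans_lt ?_
        rw [abs_mul, abs_two, Nat.abs_cast]
        linarith
      exact_mod_cast h3

/-- the integer points of an affine hyperplane are covered by finitely many affine images of a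
lattice of smaller rank, without increasing the size of the coordinates -/
theorem exists_param [DecidableEq α] (b : α → ℤ) (i : α) (hb : b i ≠ 0) (β : ℤ) :
    ∃ (N : Finset (α → ℤ)) (φ : ({j // j ≠ i} → ℤ) →+ (α → ℤ)),
      ∀ n : α → ℤ, b ⬝ᵥ n = β → ∃ n₀ ∈ N, ∃ s : {j // j ≠ i} → ℤ,
        n = n₀ + φ s ∧ ∀ j, |s j| ≤ |n j.1| := by
  refine ⟨(Fintype.piFinset fun _ : {j // j ≠ i} => Finset.Ico 0 |b i|).image fun ρ k =>
      if h : k = i then (β - ∑ j, b j.1 * ρ j) / b i else ρ ⟨k, h⟩,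
    AddMonoidHom.mk' (fun s k => if h : k = i then -∑ j, b j.1 * s j else b i * s ⟨k, h⟩) ?_,
    fun n hn => ⟨_, Finset.mem_image.2 ⟨fun j => n j.1 % b i, Fintype.mem_piFinset.2 fun j =>
      Finset.mem_Ico.2 ⟨Int.emod_nonneg _ hb, Int.emod_lt_abs _ hb⟩, rfl⟩,
      fun j => n j.1 / b i, ?_, fun j => Int.abs_ediv_le_abs _ _⟩⟩
  · intro s s'
    funext k
    simp only [Pi.add_apply, mul_add, Finset.sum_add_distrib]
    split_ifs
    · ring
    · rfl
  · funext k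
    simp only [Pi.add_apply, AddMonoidHom.mk'_apply]
    split_ifs with h
    · have h1 : β - ∑ j : {j // j ≠ i}, b j.1 * (n j.1 % b i) =
          b i * (n i + ∑ j : {j // j ≠ i}, b j.1 * (n j.1 / b i)) := by
        rw [← hn, dotProduct, Fintype.sum_eq_add_sum_subtype_ne _ i, mul_add, add_sub_assoc,
          ← Finset.sum_sub_distrib, Finset.mul_sum]
        refine congrArg _ (Finset.sum_congr rfl fun j _ => ?_)
        linear_combination b j.1 * (Int.emod_add_mul_ediv (n j.1) (b i)).symm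
      rw [h1, Int.mul_ediv_cancel_left _ hb, h, add_neg_cancel_right]
    · exact (Int.emod_add_mul_ediv _ _).symm

end Pool.Agent.P.MP_ac4909_gt
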