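import Pool.Agent.P.MP_ac4909_gt.Root

/-! A band-limited test kernel on `ℤ/2r`. -/

namespace Pool.Agent.P.MP_ac4909_gt

open Filter

/-- `exp (i π m / r)` -/
noncomputable def kerE (r : ℝ) (m : ℤ) : ℂ := Complex.exp (Complex.I * ((Real.pi * m / r : ℝ) : ℂ))

theorem kerE_add (r : ℝ) (m n : ℤ) : kerE r (m + n) = kerE r m * kerE r n := by
  rw [kerE, kerE, kerE, ← Complex.exp_add]; congr 1; push_cast; ring

theorem kerE_norm (r : ℝ) (m : ℤ) : ‖kerE r m‖ = 1 := Complex.norm_exp_I_mul_ofReal _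

theorem kerE_conj (r : ℝ) (m : ℤ) : (starRingEnd ℂ) (kerE r m) = kerE r (-m) := by
  rw [kerE, kerE, ← Complex.exp_conj, map_mul, Complex.conj_I, Complex.conj_ofReal]
  congr 1; push_cast; ring

theorem kerE_pow (r : ℝ) (n : ℕ) (k : ℤ) : kerE r (n * k) = kerE r k ^ n := by
  rw [kerE, kerE, ← Complex.exp_nat_mul]; congr 1; push_cast; ring

theorem kerE_re (r : ℝ) (m : ℤ) : (kerE r m).re = Real.cos (Real.pi * m / r) := by
  rw [kerE, mul_comm, Complex.exp_ofReal_mul_I_re]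

theorem kerE_aa (t : ℕ) (m : ℤ) : aa t ^ (2 * m) = kerE (2 ^ t) m := by
  rw [zpow_mul, zpow_ofNat, aa_sq, kerE, ← Complex.exp_int_mul]; congr 1; push_cast; ring

/-- trigonometric polynomials with frequencies at most `B` -/
noncomputable def kerT (r B : ℝ) : Submodule ℂ (ℤ → ℂ) :=
  Submodule.span ℂ ((fun (n : ℤ) (k : ℤ) => kerE r (n * k)) '' {n | (|n| : ℝ) ≤ B})

theorem kerT_gen {r B : ℝ} {n : ℤ} (h : (|n| : ℝ) ≤ B) : (fun k => kerE r (n * k)) ∈ kerT r B :=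
  Submodule.subset_span ⟨n, h, rfl⟩

theorem kerT_mono {r B B' : ℝ} (h : B ≤ B') : kerT r B ≤ kerT r B' :=
  Submodule.span_mono (Set.image_mono fun _ hn => le_trans hn h)

theorem kerT_mul {r B B' : ℝ} {f g : ℤ → ℂ} (hf : f ∈ kerT r B) (hg : g ∈ kerT r B') :
    f * g ∈ kerT r (B + B') := by
  have h := Submodule.mul_mem_mul hf hg
  rw [kerT, kerT, Submodule.span_mul_span] at h
  refine Submodule.span_le.2 ?_ h
  rintro _ ⟨_, ⟨m, hm, rfl⟩, _, ⟨n, hn, rfl⟩, rfl⟩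
  have e : ((fun k => kerE r (m * k)) * fun k => kerE r (n * k)) =
      fun k => kerE r ((m + n) * k) := by
    funext k; rw [Pi.mul_apply, ← kerE_add, add_mul]
  change ((fun k => kerE r (m * k)) * fun k => kerE r (n * k)) ∈ kerT r (B + B')
  rw [e]
  refine kerT_gen ?_
  push_cast
  exact (abs_add_le _ _).trans (add_le_add hm hn)

theorem kerT_pow {r B : ℝ} {f : ℤ → ℂ} (hf : f ∈ kerT r B) (n : ℕ) : f ^ n ∈ kerT r (n * B) := by
  induction n with
  | zero =>
    have e : f ^ 0 = fun k => kerE r (0 * k) := by funext k; simp [kerE]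
    rw [e]; exact kerT_gen (by simp)
  | succ n ih =>
    rw [pow_succ]; push_cast; rw [add_mul, one_mul]; exact kerT_mul ih hf

theorem kerT_repr {r B : ℝ} {f : ℤ → ℂ} (hf : f ∈ kerT r B) :
    ∃ (S : Finset ℤ) (b : ℤ → ℂ), (∀ n ∈ S, (|n| : ℝ) ≤ B) ∧
      ∀ k : ℤ, f k = ∑ n ∈ S, b n * kerE r (n * k) := by
  obtain ⟨l, hl, rfl⟩ := (Finsupp.mem_span_image_iff_linearCombination ℂ).1 hf
  refine ⟨l.support, l, fun n hn => (Finsupp.mem_supported ℂ l).1 hl hn, fun k => ?_⟩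
  rw [Finsupp.linearCombination_apply, Finsupp.sum, Finset.sum_apply]
  rfl

/-- the normalised Dirichlet kernel -/
noncomputable def kerF (r : ℝ) (M : ℕ) (k : ℤ) : ℂ :=
  (M : ℂ)⁻¹ * ∑ n ∈ Finset.range M, kerE r (n * k)

theorem kerF_mem (r : ℝ) (M : ℕ) : kerF r M ∈ kerT r M := by
  have e : kerF r M = (M : ℂ)⁻¹ • ∑ n ∈ Finset.range M, fun k => kerE r ((n : ℤ) * k) := by
    funext k; simp [kerF, Finset.sum_apply]
  rw [e]
  refine Submodule.smul_mem _ _ (Submodule.sum_mem _ fun n hn => kerT_gen ?_)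
  have := (Finset.mem_range.1 hn).le
  simpa using this

theorem kerF_conj_mem (r : ℝ) (M : ℕ) :
    (fun k => (starRingEnd ℂ) (kerF r M k)) ∈ kerT r M := by
  have e : (fun k => (starRingEnd ℂ) (kerF r M k)) =
      (M : ℂ)⁻¹ • ∑ n ∈ Finset.range M, fun k => kerE r ((-n : ℤ) * k) := by
    funext k; simp [kerF, Finset.sum_apply, kerE_conj]
  rw [e]
  refine Submodule.smul_mem _ _ (Submodule.sum_mem _ fun n hn => kerT_gen ?_)
  have := (Finset.mem_range.1 hn).le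
  simpa using this

theorem kerSin_mem (r : ℝ) :
    (fun k : ℤ => ((r / Real.pi * Real.sin (Real.pi * k / r) : ℝ) : ℂ)) ∈ kerT r 1 := by
  have e : (fun k : ℤ => ((r / Real.pi * Real.sin (Real.pi * k / r) : ℝ) : ℂ)) =
      ((r / Real.pi : ℝ) * Complex.I / 2 : ℂ) •
        ((fun k => kerE r ((-1 : ℤ) * k)) - fun k => kerE r ((1 : ℤ) * k)) := by
    funext k
    rw [Complex.ofReal_mul, Complex.ofReal_sin, Complex.sin]
    simp only [kerE, Pi.smul_apply, Pi.sub_apply, smul_eq_mul]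
    push_cast
    ring_nf
  rw [e]
  exact Submodule.smul_mem _ _ (sub_mem (kerT_gen (by simp)) (kerT_gen (by simp)))

theorem kerF_le_one (r : ℝ) (M : ℕ) (k : ℤ) : ‖kerF r M k‖ ≤ 1 := by
  rw [kerF, norm_mul, norm_inv, Complex.norm_natCast]
  have h : ‖∑ n ∈ Finset.range M, kerE r (n * k)‖ ≤ M := by
    refine (norm_sum_le _ _).trans ?_
    simp [kerE_norm]
  rw [inv_mul_eq_div]
  exact div_le_one_of_le₀ h (Nat.cast_nonneg M)

theorem kerF_decay {r : ℝ} (hr : 0 < r) (M : ℕ) {k : ℤ} (hk : |(k : ℝ)| ≤ r) :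
    ‖kerF r M k‖ * |(k : ℝ)| ≤ r / M := by
  have h1 : ‖∑ n ∈ Finset.range M, kerE r (n * k)‖ * ‖kerE r k - 1‖ ≤ 2 := by
    simp only [kerE_pow]
    rw [← norm_mul, geom_sum_mul]
    refine (norm_sub_le _ _).trans ?_
    rw [norm_pow, kerE_norm]; norm_num
  have hpi := Real.pi_pos
  have h2 : 2 * |(k : ℝ)| / r ≤ ‖kerE r k - 1‖ := by
    rw [kerE, Complex.norm_exp_I_mul_ofReal_sub_one, Real.norm_eq_abs, abs_mul, abs_two]
    have e : |Real.pi * k / r / 2| = Real.pi / 2 * (|(k : ℝ)| / r) := by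
      rw [abs_div, abs_div, abs_mul, abs_of_pos hpi, abs_of_pos hr, abs_two]; ring
    have h3 := Real.mul_abs_le_abs_sin (x := Real.pi * k / r / 2) (by
      rw [e]; exact mul_le_of_le_one_right (by positivity) ((div_le_one hr).2 hk))
    rw [e] at h3
    have e2 : 2 / Real.pi * (Real.pi / 2 * (|(k : ℝ)| / r)) = |(k : ℝ)| / r := by field_simp
    rw [e2] at h3
    rw [mul_div_assoc]; linarith
  have h4 : ‖∑ n ∈ Finset.range M, kerE r (n * k)‖ * |(k : ℝ)| ≤ r := by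
    have h5 := (mul_le_mul_of_nonneg_left h2 (norm_nonneg _)).trans h1
    rw [← mul_div_assoc, div_le_iff₀ hr] at h5
    linarith
  rw [kerF, norm_mul, norm_inv, Complex.norm_natCast, mul_assoc, inv_mul_eq_div]
  gcongr

theorem kerF_one {r : ℝ} (hr : 0 < r) {M : ℕ} (hM : 0 < M) (h : (M : ℝ) ≤ r / 4) :
    1 / 2 ≤ ‖kerF r M 1‖ := by
  have hM' : (0 : ℝ) < M := by exact_mod_cast hM
  have h1 : (M : ℝ) * (1 / 2) ≤ (∑ n ∈ Finset.range M, kerE r (n * 1)).re := by
    rw [Complex.re_sum]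
    have := Finset.card_nsmul_le_sum (Finset.range M) (fun n : ℕ => (kerE r (n * 1)).re) (1 / 2)
      (fun n hn => by
        rw [kerE_re]
        have hn' : (n : ℝ) ≤ M := by exact_mod_cast (Finset.mem_range.1 hn).le
        have h2 : Real.pi * ((n * 1 : ℤ) : ℝ) / r ≤ 1 := by
          rw [div_le_one hr]; push_cast
          have := Real.pi_le_four
          have h0 : (0 : ℝ) ≤ n := Nat.cast_nonneg n
          nlinarith
        have h3 : 0 ≤ Real.pi * ((n * 1 : ℤ) : ℝ) / r := by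
          have := Real.pi_pos
          push_cast; positivity
        have h4 := Real.one_sub_sq_div_two_le_cos (x := Real.pi * ((n * 1 : ℤ) : ℝ) / r)
        nlinarith)
    simpa using this
  rw [kerF, norm_mul, norm_inv, Complex.norm_natCast, inv_mul_eq_div, le_div_iff₀ hM', mul_comm]
  exact h1.trans (Complex.re_le_norm _)

/-- for each large `t` a real trigonometric polynomial `w t` with frequencies at most `ε r`, of the
sign of `k` on `[-r, r]`, bounded below at `1`, and uniformly of polynomial decay -/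
theorem exists_kernel (ε : ℝ) (hε : 0 < ε) (N : ℕ) :
    ∃ (w : ℕ → ℤ → ℝ) (c C : ℝ), 0 < c ∧ ∀ᶠ t in atTop,
      (∃ (S : Finset ℤ) (b : ℤ → ℂ), (∀ n ∈ S, (|n| : ℝ) ≤ ε * 2 ^ t) ∧
        ∀ k : ℤ, (w t k : ℂ) = ∑ n ∈ S, b n * aa t ^ (2 * (n * k))) ∧
      (∀ k : ℤ, |k| ≤ 2 ^ t → 0 ≤ w t k * k) ∧ c ≤ w t 1 ∧
      ∀ k : ℤ, |k| ≤ 2 ^ t → |w t k| * (|(k : ℝ)| + 1) ^ N ≤ C := by
  have hpi := Real.pi_pos
  set η : ℝ := min (1 / 4) (ε / (4 * (N + 1))) with hη
  have hη0 : 0 < η := lt_min (by norm_num) (by positivity)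
  have hη1 : η ≤ 1 / 4 := min_le_left _ _
  have hη2 : η * (4 * (N + 1)) ≤ ε := (le_div_iff₀ (by positivity)).1 (min_le_right _ _)
  have hN : (0 : ℝ) ≤ N := Nat.cast_nonneg N
  refine ⟨fun t k => (‖kerF (2 ^ t) ⌊η * 2 ^ t⌋₊ k‖ ^ 2) ^ (N + 1) *
    (2 ^ t / Real.pi * Real.sin (Real.pi * k / 2 ^ t)), ((1 / 2) ^ 2) ^ (N + 1) * (2 / Real.pi),
    (2 / η) ^ (N + 1) * 2 ^ N, by positivity, ?_⟩
  filter_upwards [(tendsto_pow_atTop_atTop_of_one_lt (one_lt_two : (1 : ℝ) < 2)).eventually_ge_atTop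
    (2 / η)] with t ht
  simp only [kerE_aa]
  have hcast : ∀ k : ℤ, |k| ≤ 2 ^ t → |(k : ℝ)| ≤ 2 ^ t := fun k hk => by exact_mod_cast hk
  set r : ℝ := 2 ^ t with hr
  have hr0 : 0 < r := by positivity
  have hηr : 2 ≤ η * r := by rw [div_le_iff₀ hη0] at ht; linarith
  set M := ⌊η * r⌋₊ with hM
  have hM1 : (M : ℝ) ≤ η * r := Nat.floor_le (by positivity)
  have hM2 : η * r / 2 ≤ M := by have := Nat.lt_floor_add_one (η * r); linarith
  have hM0 : (0 : ℝ) < M := by linarith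
  refine ⟨?_, fun k hk => ?_, ?_, fun k hk => ?_⟩
  · have h := kerT_mul (kerT_pow (kerT_mul (kerF_mem r M) (kerF_conj_mem r M)) (N + 1))
      (kerSin_mem r)
    have hB : ((N + 1 : ℕ) : ℝ) * (M + M) + 1 ≤ ε * r := by
      push_cast
      have h1 : η * (4 * (N + 1)) * r ≤ ε * r := mul_le_mul_of_nonneg_right hη2 hr0.le
      have h2 : ((N : ℝ) + 1) * M ≤ (N + 1) * (η * r) := by gcongr
      have h3 : 0 ≤ N * (η * r) := by positivity
      nlinarith
    obtain ⟨S, b, hS, hb⟩ := kerT_repr (kerT_mono hB h)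
    refine ⟨S, b, hS, fun k => ?_⟩
    rw [← hb k, Pi.mul_apply, Pi.pow_apply, Pi.mul_apply, Complex.mul_conj, Complex.normSq_eq_norm_sq,
      Complex.ofReal_mul, Complex.ofReal_pow]
  · have hk' := hcast k hk
    have h1 : 0 ≤ Real.sin (Real.pi * k / r) * k := by
      rcases le_total 0 (k : ℝ) with h | h
      · rw [abs_of_nonneg h] at hk'
        refine mul_nonneg (Real.sin_nonneg_of_nonneg_of_le_pi (by positivity) ?_) h
        rw [div_le_iff₀ hr0]; gcongr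
      · rw [abs_of_nonpos h] at hk'
        refine mul_nonneg_of_nonpos_of_nonpos (Real.sin_nonpos_of_nonpos_of_neg_pi_le ?_ ?_) h
        · exact div_nonpos_of_nonpos_of_nonneg (mul_nonpos_of_nonneg_of_nonpos hpi.le h) hr0.le
        · rw [le_div_iff₀ hr0]; nlinarith
    rw [mul_assoc, mul_assoc]
    positivity
  · have h1 := kerF_one hr0 (M := M) (by exact_mod_cast hM0) (by nlinarith)
    have h2 : 2 / Real.pi ≤ r / Real.pi * Real.sin (Real.pi * ((1 : ℤ) : ℝ) / r) := by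
      have h3 := Real.mul_le_sin (x := Real.pi * ((1 : ℤ) : ℝ) / r) (by push_cast; positivity)
        (by push_cast; rw [mul_one]; gcongr; nlinarith)
      calc 2 / Real.pi = r / Real.pi * (2 / Real.pi * (Real.pi * ((1 : ℤ) : ℝ) / r)) := by
            push_cast; field_simp
        _ ≤ _ := by gcongr
    gcongr
  · have hk' := hcast k hk
    by_cases h0 : k = 0
    · subst h0; simp; positivity
    have hk1 : (1 : ℝ) ≤ |(k : ℝ)| := by exact_mod_cast Int.one_le_abs h0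
    have h1 := kerF_le_one r M k
    have h2 : ‖kerF r M k‖ * |(k : ℝ)| ≤ 2 / η := by
      refine (kerF_decay hr0 M hk').trans ?_
      rw [div_le_div_iff₀ hM0 hη0]; linarith
    have h3 : |r / Real.pi * Real.sin (Real.pi * k / r)| ≤ |(k : ℝ)| := by
      rw [abs_mul, abs_of_pos (by positivity : 0 < r / Real.pi)]
      calc r / Real.pi * |Real.sin (Real.pi * k / r)| ≤ r / Real.pi * |Real.pi * k / r| :=
            mul_le_mul_of_nonneg_left Real.abs_sin_le_abs (by positivity)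
        _ = |(k : ℝ)| := by
          rw [abs_div, abs_mul, abs_of_pos hpi, abs_of_pos hr0]; field_simp
    have h4 : ‖kerF r M k‖ ^ 2 ≤ ‖kerF r M k‖ := by
      have := norm_nonneg (kerF r M k); nlinarith
    rw [abs_mul, abs_of_nonneg (by positivity)]
    calc (‖kerF r M k‖ ^ 2) ^ (N + 1) * |r / Real.pi * Real.sin (Real.pi * k / r)| *
          (|(k : ℝ)| + 1) ^ N
        ≤ ‖kerF r M k‖ ^ (N + 1) * |(k : ℝ)| * (2 * |(k : ℝ)|) ^ N := by gcongr; linarith
      _ = (‖kerF r M k‖ * |(k : ℝ)|) ^ (N + 1) * 2 ^ N := by ring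
      _ ≤ _ := by gcongr

end Pool.Agent.P.MP_ac4909_gt
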