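import Pool.Agent.P.MP_ac4909_gt.DFT
import Pool.Agent.P.MP_ac4909_gt.Kernel

/-! The final contradiction. -/

namespace Pool.Agent.P.MP_ac4909_gt

open Filter Topology

variable {ι : Type} [Fintype ι] [DecidableEq ι]

theorem fourier_summable {f : ℤ → ℝ} (h0 : ∀ k, 0 ≤ f k) (hf : Summable f) :
    Summable fun k : ι → ℤ => ∏ i, f (k i) := by
  refine summable_of_sum_le (c := ∏ _i : ι, ∑' k, f k)
    (fun k => Finset.prod_nonneg fun i _ => h0 _) fun s => ?_
  calc ∑ k ∈ s, ∏ i, f (k i)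
      ≤ ∑ k ∈ Fintype.piFinset fun i => s.image (· i), ∏ i, f (k i) :=
        Finset.sum_le_sum_of_subset_of_nonneg
          (fun k hk => Fintype.mem_piFinset.2 fun i => Finset.mem_image_of_mem _ hk)
          fun k _ _ => Finset.prod_nonneg fun i _ => h0 _
    _ = ∏ i, ∑ x ∈ s.image (· i), f x := (Finset.prod_univ_sum _ _).symm
    _ ≤ _ := Finset.prod_le_prod (fun i _ => Finset.sum_nonneg fun x _ => h0 x)
        fun i _ => hf.sum_le_tsum _ fun x _ => h0 x

theorem fourier_summable_inv : Summable fun k : ℤ => 1 / (|(k : ℝ)| + 1) ^ 2 := by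
  have h : Summable fun n : ℕ => 1 / ((n : ℝ) + 1) ^ 2 := by
    have := (summable_nat_add_iff 1).2 (Real.summable_one_div_nat_pow.2 one_lt_two)
    simpa using this
  refine Summable.of_nat_of_neg ?_ ?_
  · simpa using h
  · simpa using h

theorem fourier_zero {G : ℕ → (ι → ℤ) → ℂ} {t : ℕ} {ε : ℝ} {w : ℤ → ℂ} {S : Finset ℤ} {b : ℤ → ℂ}
    (hS : ∀ n ∈ S, (|n| : ℝ) ≤ ε * 2 ^ t)
    (hw : ∀ k : ℤ, w k = ∑ n ∈ S, b n * aa t ^ (2 * (n * k)))
    (hper : ∀ k i, G t (k + Pi.single i (2 * 2 ^ t)) = G t k)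
    (hvan : ∀ n : ι → ℤ, (∀ i, (|n i| : ℝ) ≤ ε * 2 ^ t) → Psi G t n = 0) :
    ∑ k ∈ Fintype.piFinset fun _ : ι => Finset.Ico (-(2 ^ t : ℤ)) (2 ^ t),
      (∏ i, w (k i)) * G t k = 0 := by
  have hwp : ∀ k : ℤ, w (k + 2 * 2 ^ t) = w k := fun k => by
    rw [hw, hw]
    refine Finset.sum_congr rfl fun n _ => ?_
    have h1 : aa t ^ ((4 * 2 ^ t : ℕ) : ℤ) = 1 := by
      rw [zpow_natCast]
      exact (aa_prim t).pow_eq_one
    rw [show 2 * (n * (k + 2 * 2 ^ t)) = 2 * (n * k) + ((4 * 2 ^ t : ℕ) : ℤ) * n by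
      push_cast; ring, zpow_add₀ (aa_ne t), zpow_mul _ ((4 * 2 ^ t : ℕ) : ℤ), h1, one_zpow, mul_one]
  have h0 : ∑ k ∈ Fintype.piFinset fun _ : ι => Finset.Ico (0 : ℤ) (2 * 2 ^ t),
      (∏ i, w (k i)) * G t k = 0 := by
    have e : ∀ k : ι → ℤ, (∏ i, w (k i)) * G t k = ∑ n ∈ Fintype.piFinset fun _ : ι => S,
        (∏ i, b (n i)) * (aa t ^ (2 * (n ⬝ᵥ k)) * G t k) := fun k => by
      simp only [hw]
      rw [Finset.prod_univ_sum, Finset.sum_mul]
      refine Finset.sum_congr rfl fun n _ => ?_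
      rw [Finset.prod_mul_distrib, mul_assoc, dotProduct, Finset.mul_sum]
      congr 2
      induction (Finset.univ : Finset ι) using Finset.induction_on with
      | empty => simp
      | insert i s hi ih => rw [Finset.prod_insert hi, Finset.sum_insert hi, zpow_add₀ (aa_ne t), ih]
    simp only [e]
    rw [Finset.sum_comm]
    refine Finset.sum_eq_zero fun n hn => ?_
    rw [← Finset.mul_sum]
    exact mul_eq_zero_of_right _ (hvan n fun i => hS _ (Fintype.mem_piFinset.1 hn i))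
  have h1 := sum_box_shift (ι := ι) (2 * 2 ^ t) (by positivity)
    (fun k => (∏ i, w (k i)) * G t k) (fun k i => by
      push_cast
      rw [hper]
      congr 1
      refine Finset.prod_congr rfl fun j _ => ?_
      by_cases hj : j = i
      · subst hj
        simp [hwp]
      · simp [hj]) (fun _ => -(2 ^ t : ℤ))
  push_cast at h1
  rw [h0] at h1
  rw [← h1]
  symm
  refine Finset.sum_nbij' (fun k => k + fun _ => -(2 ^ t : ℤ)) (fun k => k + fun _ => (2 ^ t : ℤ))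
    ?_ ?_ ?_ ?_ fun k _ => rfl
  · intro k hk
    simp only [Fintype.mem_piFinset, Finset.mem_Ico, Pi.add_apply] at hk ⊢
    intro i
    have := hk i
    omega
  · intro k hk
    simp only [Fintype.mem_piFinset, Finset.mem_Ico, Pi.add_apply] at hk ⊢
    intro i
    have := hk i
    omega
  · intro k _
    ext i
    simp
  · intro k _
    ext i
    simp

theorem fourier_bound {N : ℕ} {C : ℝ} {w : ℤ → ℝ} {g : ℂ} {k : ι → ℤ}
    (hw : ∀ i, |w (k i)| * (|(k i : ℝ)| + 1) ^ (N + 3) ≤ C)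
    (hg : ‖g‖ ≤ (∏ i, (|(k i : ℝ)| + 1)) ^ N) :
    ‖(∏ i, (w (k i) : ℂ)) * (g - ∏ i, (k i : ℂ))‖ ≤
      2 * ∏ i, C * (1 / (|(k i : ℝ)| + 1) ^ 2) := by
  have hP : 1 ≤ ∏ i, (|(k i : ℝ)| + 1) := by
    refine le_trans (Finset.prod_const_one (s := (Finset.univ : Finset ι))).ge
      (Finset.prod_le_prod (fun _ _ => zero_le_one) fun i _ => ?_)
    linarith [abs_nonneg (k i : ℝ)]
  have h1 : ‖g - ∏ i, (k i : ℂ)‖ ≤ 2 * (∏ i, (|(k i : ℝ)| + 1)) ^ (N + 1) := by
    have a : ‖g‖ ≤ (∏ i, (|(k i : ℝ)| + 1)) ^ (N + 1) :=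
      hg.trans (pow_le_pow_right₀ hP (Nat.le_succ N))
    have b : ‖∏ i, (k i : ℂ)‖ ≤ (∏ i, (|(k i : ℝ)| + 1)) ^ (N + 1) := by
      refine le_trans ?_ (le_self_pow₀ hP (Nat.succ_ne_zero N))
      rw [norm_prod]
      refine Finset.prod_le_prod (fun i _ => norm_nonneg _) fun i _ => ?_
      rw [Complex.norm_intCast]
      linarith
    linarith [norm_sub_le g (∏ i, (k i : ℂ))]
  rw [norm_mul, norm_prod]
  refine (mul_le_mul_of_nonneg_left h1 (Finset.prod_nonneg fun i _ => norm_nonneg _)).trans ?_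
  rw [mul_left_comm, ← Finset.prod_pow, ← Finset.prod_mul_distrib]
  refine mul_le_mul_of_nonneg_left (Finset.prod_le_prod (fun i _ => by positivity) fun i _ => ?_)
    zero_le_two
  rw [Complex.norm_real, Real.norm_eq_abs, mul_one_div, le_div_iff₀ (by positivity), mul_assoc,
    ← pow_add]
  exact hw i

theorem fourier_contra (G : ℕ → (ι → ℤ) → ℂ) (N : ℕ) (ε : ℝ) (hε : 0 < ε)
    (hper : ∀ᶠ t in atTop, ∀ k i, G t (k + Pi.single i (2 * 2 ^ t)) = G t k)
    (hbd : ∀ᶠ t in atTop, ∀ k : ι → ℤ, (∀ i, |k i| ≤ 2 ^ t) →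
      ‖G t k‖ ≤ (∏ i, (|(k i : ℝ)| + 1)) ^ N)
    (hlim : ∀ k, Tendsto (fun t => G t k) atTop (𝓝 (∏ i, (k i : ℂ))))
    (hvan : ∀ᶠ t in atTop, ∀ n : ι → ℤ, (∀ i, (|n i| : ℝ) ≤ ε * 2 ^ t) → Psi G t n = 0) :
    False := by
  classical
  obtain ⟨w, c, C, hc, hw⟩ := exists_kernel ε hε (N + 3)
  have hC : 0 ≤ C := by
    obtain ⟨t, ht⟩ := hw.exists
    exact le_trans (by positivity) (ht.2.2.2 0 (by simp))
  set box : ℕ → Finset (ι → ℤ) :=
    fun t => Fintype.piFinset fun _ : ι => Finset.Ico (-(2 ^ t : ℤ)) (2 ^ t) with hbox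
  have hmem : ∀ t, ∀ k ∈ box t, ∀ i, |k i| ≤ 2 ^ t := fun t k hk i => by
    have := Finset.mem_Ico.1 (Fintype.mem_piFinset.1 hk i)
    exact abs_le.2 ⟨this.1, this.2.le⟩
  set F : ℕ → (ι → ℤ) → ℂ := fun t k =>
    if k ∈ box t then (∏ i, (w t (k i) : ℂ)) * (G t k - ∏ i, (k i : ℂ)) else 0 with hF
  have hsum : Summable fun k : ι → ℤ => 2 * ∏ i, C * (1 / (|(k i : ℝ)| + 1) ^ 2) :=
    (fourier_summable (f := fun k : ℤ => C * (1 / (|(k : ℝ)| + 1) ^ 2)) (fun k => by positivity)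
      (fourier_summable_inv.mul_left C)).mul_left 2
  have hT : Tendsto (fun t => ∑' k, F t k) atTop (𝓝 (∑' _ : ι → ℤ, (0 : ℂ))) := by
    refine tendsto_tsum_of_dominated_convergence hsum (fun k => ?_) ?_
    · have h1 : Tendsto (fun t => (∏ _i : ι, C) * ‖G t k - ∏ i, (k i : ℂ)‖) atTop (𝓝 0) := by
        have := (tendsto_iff_norm_sub_tendsto_zero.1 (hlim k)).const_mul (∏ _i : ι, C)
        rwa [mul_zero] at this
      refine squeeze_zero_norm' ?_ h1
      filter_upwards [hw] with t ht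
      simp only [hF]
      split_ifs with hk
      · rw [norm_mul, norm_prod]
        refine mul_le_mul_of_nonneg_right
          (Finset.prod_le_prod (fun i _ => norm_nonneg _) fun i _ => ?_) (norm_nonneg _)
        rw [Complex.norm_real, Real.norm_eq_abs]
        refine le_trans (le_mul_of_one_le_right (abs_nonneg _) (one_le_pow₀ ?_))
          (ht.2.2.2 _ (hmem t k hk i))
        linarith [abs_nonneg (k i : ℝ)]
      · rw [norm_zero]
        positivity
    · filter_upwards [hw, hbd] with t ht hb k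
      simp only [hF]
      split_ifs with hk
      · exact fourier_bound (fun i => ht.2.2.2 _ (hmem t k hk i)) (hb k (hmem t k hk))
      · rw [norm_zero]
        positivity
  rw [tsum_zero] at hT
  have hpos : 0 < ∏ _i : ι, c := Finset.prod_pos fun _ _ => hc
  have hT' := (tendsto_iff_norm_sub_tendsto_zero.1 hT).eventually (gt_mem_nhds hpos)
  obtain ⟨t, h1, ⟨⟨S, b, hS, hwS⟩, hsg, hc1, -⟩, hp, hv, ht⟩ :=
    (hT'.and (hw.and (hper.and (hvan.and (eventually_ge_atTop 1))))).exists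
  have h0 := fourier_zero (w := fun k => (w t k : ℂ)) hS hwS hp hv
  have e : ∑' k, F t k = -((∑ k ∈ box t, ∏ i, w t (k i) * k i : ℝ) : ℂ) := by
    rw [tsum_eq_sum (s := box t) fun k hk => if_neg hk,
      Finset.sum_congr rfl fun k hk => if_pos hk]
    simp only [mul_sub, Finset.sum_sub_distrib]
    rw [h0, zero_sub]
    push_cast
    simp only [Finset.prod_mul_distrib]
  have hone : (fun _ => 1 : ι → ℤ) ∈ box t := by
    refine Fintype.mem_piFinset.2 fun i => Finset.mem_Ico.2 ?_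
    have : (2 : ℤ) ^ 1 ≤ 2 ^ t := pow_le_pow_right₀ one_le_two ht
    constructor <;> linarith
  have hge : ∏ _i : ι, c ≤ ∑ k ∈ box t, ∏ i, w t (k i) * k i := by
    refine le_trans ?_ (Finset.single_le_sum (f := fun k : ι → ℤ => ∏ i, w t (k i) * k i)
      (fun k hk => Finset.prod_nonneg fun i _ => hsg _ (hmem t k hk i)) hone)
    refine Finset.prod_le_prod (fun _ _ => hc.le) fun i _ => ?_
    simpa using hc1
  rw [e, sub_zero, norm_neg, Complex.norm_real, Real.norm_eq_abs] at h1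
  exact absurd (hge.trans (le_abs_self _)) (not_le.2 h1)

end Pool.Agent.P.MP_ac4909_gt
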