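import Pool.Agent.P.MP_ac4909_gt.HolFun
import Pool.Agent.P.MP_ac4909_gt.Root

/-! Germs at `t = ∞` of sequences of functions `ℤ^α → ℂ`, as a module over `ℚ(A)` on which the
quantum torus with `q = A²` acts. -/

namespace Pool.Agent.P.MP_ac4909_gt

open Filter

def GM (α : Type) : Type := Germ (atTop : Filter ℕ) ((α → ℤ) → ℂ)

variable {α β : Type}

noncomputable instance : AddCommGroup (GM α) :=
  inferInstanceAs (AddCommGroup (Germ (atTop : Filter ℕ) ((α → ℤ) → ℂ)))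

noncomputable instance : Module (Germ (atTop : Filter ℕ) ℂ) (GM α) :=
  inferInstanceAs (Module (Germ (atTop : Filter ℕ) ℂ) (Germ (atTop : Filter ℕ) ((α → ℤ) → ℂ)))

noncomputable instance : Module (RatFunc ℚ) (GM α) := Module.compHom (GM α) theta

/-- the germ of a sequence of functions -/
def GM.mk (Ψ : ℕ → (α → ℤ) → ℂ) : GM α := (Ψ : Germ (atTop : Filter ℕ) ((α → ℤ) → ℂ))

theorem GM.mk_surj (x : GM α) : ∃ Ψ, x = GM.mk Ψ := by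
  refine Germ.inductionOn (x : Germ (atTop : Filter ℕ) ((α → ℤ) → ℂ)) fun f => ?_
  exact ⟨f, rfl⟩

theorem GM.mk_eq {Ψ Ψ' : ℕ → (α → ℤ) → ℂ} :
    GM.mk Ψ = GM.mk Ψ' ↔ ∀ᶠ t in atTop, ∀ n, Ψ t n = Ψ' t n := by
  refine (Germ.coe_eq (l := (atTop : Filter ℕ)) (f := Ψ) (g := Ψ')).trans ?_
  simp only [EventuallyEq, funext_iff]

theorem GM.mk_eq_zero {Ψ : ℕ → (α → ℤ) → ℂ} :
    GM.mk Ψ = 0 ↔ ∀ᶠ t in atTop, ∀ n, Ψ t n = 0 := by
  exact GM.mk_eq (Ψ' := fun _ _ => 0)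

theorem GM.mk_add (Ψ Ψ' : ℕ → (α → ℤ) → ℂ) :
    GM.mk Ψ + GM.mk Ψ' = GM.mk fun t n => Ψ t n + Ψ' t n := by
  rfl

theorem GM.sum_mk {σ : Type} (S : Finset σ) (Ψ : σ → ℕ → (α → ℤ) → ℂ) :
    ∑ s ∈ S, GM.mk (Ψ s) = GM.mk fun t n => ∑ s ∈ S, Ψ s t n := by
  classical
  induction S using Finset.induction_on with
  | empty =>
    simp only [Finset.sum_empty]
    rfl
  | insert s S hs ih => simp only [Finset.sum_insert hs, ih, GM.mk_add]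

theorem GM.smul_mk (c : RatFunc ℚ) (g : ℕ → ℂ) (hg : theta c = (g : Germ atTop ℂ))
    (Ψ : ℕ → (α → ℤ) → ℂ) : c • GM.mk Ψ = GM.mk fun t n => g t * Ψ t n := by
  change theta c • GM.mk Ψ = _
  rw [hg]
  rfl

theorem GM.exists_lin (Φ : ℕ → ((α → ℤ) → ℂ) →ₗ[ℂ] ((β → ℤ) → ℂ)) :
    ∃ ρ : GM α →ₗ[RatFunc ℚ] GM β, ∀ Ψ, ρ (GM.mk Ψ) = GM.mk fun t => Φ t (Ψ t) := by
  let f : GM α → GM β := fun x =>
    Germ.map₂ (fun (φ : ((α → ℤ) → ℂ) →ₗ[ℂ] ((β → ℤ) → ℂ)) (F : (α → ℤ) → ℂ) => φ F)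
      (Φ : Germ (atTop : Filter ℕ) _) x
  have hf : ∀ Ψ, f (GM.mk Ψ) = GM.mk fun t => Φ t (Ψ t) := fun _ => rfl
  refine ⟨⟨⟨f, fun x y => ?_⟩, fun c x => ?_⟩, hf⟩
  · obtain ⟨Ψ, rfl⟩ := GM.mk_surj x
    obtain ⟨Ψ', rfl⟩ := GM.mk_surj y
    rw [GM.mk_add, hf, hf, hf, GM.mk_add]
    congr 1
    funext t
    exact (Φ t).map_add (Ψ t) (Ψ' t)
  · obtain ⟨Ψ, rfl⟩ := GM.mk_surj x
    obtain ⟨g, hg⟩ : ∃ g : ℕ → ℂ, theta c = (g : Germ atTop ℂ) :=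
      Germ.inductionOn (theta c) fun g => ⟨g, rfl⟩
    change f (c • GM.mk Ψ) = c • f (GM.mk Ψ)
    rw [GM.smul_mk c g hg, hf, hf, GM.smul_mk c g hg]
    congr 1
    funext t
    exact (Φ t).map_smul (g t) (Ψ t)

/-- a sequence of linear maps acts on germs -/
noncomputable def GM.lin (Φ : ℕ → ((α → ℤ) → ℂ) →ₗ[ℂ] ((β → ℤ) → ℂ)) :
    GM α →ₗ[RatFunc ℚ] GM β := (GM.exists_lin Φ).choose

theorem GM.lin_mk (Φ : ℕ → ((α → ℤ) → ℂ) →ₗ[ℂ] ((β → ℤ) → ℂ)) (Ψ : ℕ → (α → ℤ) → ℂ) :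
    GM.lin Φ (GM.mk Ψ) = GM.mk fun t => Φ t (Ψ t) := (GM.exists_lin Φ).choose_spec Ψ

/-- the variable `A` as a unit -/
noncomputable def uA : (RatFunc ℚ)ˣ := Units.mk0 RatFunc.X RatFunc.X_ne_zero

theorem uA_nontorsion (n : ℤ) (h : (uA : RatFunc ℚ) ^ n = 1) : n = 0 := by
  exact X_nontorsion n h

theorem GM.uA_sq_zpow (n : ℤ) :
    ((uA ^ 2 : (RatFunc ℚ)ˣ) : RatFunc ℚ) ^ n = RatFunc.X ^ (2 * n) := by
  rw [zpow_mul, Units.val_pow_eq_pow_val]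
  rfl

theorem GM.lin_ext {f g : GM α →ₗ[RatFunc ℚ] GM β} (h : ∀ Ψ, f (GM.mk Ψ) = g (GM.mk Ψ)) :
    f = g := by
  refine LinearMap.ext fun x => ?_
  obtain ⟨Ψ, rfl⟩ := GM.mk_surj x
  exact h Ψ

theorem uA_sq_nontorsion (n : ℤ) (h : ((uA ^ 2 : (RatFunc ℚ)ˣ) : RatFunc ℚ) ^ n = 1) : n = 0 := by
  rw [GM.uA_sq_zpow] at h
  have := X_nontorsion _ h
  omega

variable [Fintype α] [Fintype β]

noncomputable def germQT (α : Type) [Fintype α] : QT (uA ^ 2) α (GM α) where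
  E u := GM.lin fun _ => LinearMap.funLeft ℂ ℂ fun n => n + u
  Q v := GM.lin fun t => LinearMap.mulLeft ℂ fun n => aa t ^ (2 * (v ⬝ᵥ n))
  E_zero := by
    refine GM.lin_ext fun Ψ => ?_
    rw [GM.lin_mk, Module.End.one_apply]
    congr 1
    funext t n
    simp [LinearMap.funLeft_apply]
  E_add := by
    intro u v
    refine GM.lin_ext fun Ψ => ?_
    rw [Module.End.mul_apply, GM.lin_mk, GM.lin_mk, GM.lin_mk]
    congr 1
    funext t n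
    simp [LinearMap.funLeft_apply, add_assoc]
  Q_zero := by
    refine GM.lin_ext fun Ψ => ?_
    rw [GM.lin_mk, Module.End.one_apply]
    congr 1
    funext t n
    simp
  Q_add := by
    intro u v
    refine GM.lin_ext fun Ψ => ?_
    rw [Module.End.mul_apply, GM.lin_mk, GM.lin_mk, GM.lin_mk]
    congr 1
    funext t n
    simp only [LinearMap.mulLeft_apply, Pi.mul_apply, add_dotProduct, mul_add,
      zpow_add₀ (aa_ne t), mul_assoc]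
  comm := by
    intro u v
    refine GM.lin_ext fun Ψ => ?_
    rw [LinearMap.smul_apply, Module.End.mul_apply, Module.End.mul_apply, GM.lin_mk, GM.lin_mk,
      GM.lin_mk, GM.lin_mk, GM.uA_sq_zpow, GM.smul_mk _ _ (theta_X_zpow _)]
    congr 1
    funext t n
    simp only [LinearMap.funLeft_apply, LinearMap.mulLeft_apply, Pi.mul_apply, dotProduct_add,
      mul_add, zpow_add₀ (aa_ne t), dotProduct_comm v u]
    ring

theorem germQT_E (u : α → ℤ) (Ψ : ℕ → (α → ℤ) → ℂ) :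
    (germQT α).E u (GM.mk Ψ) = GM.mk fun t n => Ψ t (n + u) := by
  exact GM.lin_mk _ Ψ

theorem germQT_Q (v : α → ℤ) (Ψ : ℕ → (α → ℤ) → ℂ) :
    (germQT α).Q v (GM.mk Ψ) = GM.mk fun t n => aa t ^ (2 * (v ⬝ᵥ n)) * Ψ t n := by
  exact GM.lin_mk _ Ψ

def HolG (Ψ : ℕ → (α → ℤ) → ℂ) : Prop := (germQT α).Hol (GM.mk Ψ)

theorem HolG.pull {Ψ : ℕ → (β → ℤ) → ℂ} (h : HolG Ψ) (n₀ : β → ℤ) (φ : (α → ℤ) →+ (β → ℤ)) :
    HolG fun t n => Ψ t (n₀ + φ n) := by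
  obtain ⟨ψ, hψ⟩ := exists_transpose φ
  let ρ : GM β →ₗ[RatFunc ℚ] GM α := GM.lin fun _ => LinearMap.funLeft ℂ ℂ fun n => n₀ + φ n
  have hρ : ∀ Ψ : ℕ → (β → ℤ) → ℂ, ρ (GM.mk Ψ) = GM.mk fun t n => Ψ t (n₀ + φ n) :=
    fun Ψ => GM.lin_mk _ Ψ
  have key := QT.Hol.restrict uA_sq_nontorsion (germQT β) (germQT α) ρ φ ψ
    (fun z => RatFunc.X ^ (2 * (z ⬝ᵥ n₀))) (fun z => zpow_ne_zero _ RatFunc.X_ne_zero) ?_ ?_ h
  · rw [hρ] at key
    exact key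
  · intro u x
    obtain ⟨Ψ', rfl⟩ := GM.mk_surj x
    rw [germQT_E, hρ, hρ, germQT_E]
    simp only [map_add, add_assoc]
  · intro z x
    obtain ⟨Ψ', rfl⟩ := GM.mk_surj x
    rw [germQT_Q, hρ, hρ, germQT_Q, GM.smul_mk _ _ (theta_X_zpow _)]
    congr 1
    funext t n
    rw [dotProduct_add, hψ, mul_add, zpow_add₀ (aa_ne t), mul_assoc]

/-- a recurrence in direction `i` with rational coefficients; the index is
(shift, character, power of `A`) -/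
theorem HolG.exists_rel [DecidableEq α] {Ψ : ℕ → (α → ℤ) → ℂ} (h : HolG Ψ) (i : α) :
    ∃ (S : Finset (ℤ × (α → ℤ) × ℕ)) (c : ℤ × (α → ℤ) × ℕ → ℚ), S.Nonempty ∧ (∀ z ∈ S, c z ≠ 0) ∧
      ∀ᶠ t in atTop, ∀ n, ∑ z ∈ S, (c z : ℂ) * aa t ^ ((z.2.2 : ℤ) + 2 * (z.2.1 ⬝ᵥ n)) *
        Ψ t (n + Pi.single i z.1) = 0 := by
  classical
  obtain ⟨S, c, ⟨z0, hz0, hc0⟩, hrel⟩ := QT.Hol.exists_rel h i
  obtain ⟨d, hd⟩ := IsLocalization.exist_integer_multiples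
    (nonZeroDivisors (Polynomial ℚ)) S c
  choose! p hp using hd
  have hd0 : algebraMap (Polynomial ℚ) (RatFunc ℚ) d ≠ 0 :=
    RatFunc.algebraMap_ne_zero (nonZeroDivisors.coe_ne_zero d)
  have hp' : ∀ z ∈ S, algebraMap (Polynomial ℚ) (RatFunc ℚ) (p z) =
      algebraMap (Polynomial ℚ) (RatFunc ℚ) d * c z := fun z hz => by
    rw [hp z hz, Algebra.smul_def]
  have hp0 : p z0 ≠ 0 := by
    intro h0
    have := hp' z0 hz0
    rw [h0, map_zero] at this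
    exact mul_ne_zero hd0 hc0 this.symm
  have h1 : ∑ z ∈ S, GM.mk (fun t n => Polynomial.aeval (aa t) (p z) *
      (aa t ^ (2 * (z.2 ⬝ᵥ n)) * Ψ t (n + Pi.single i z.1))) = 0 := by
    rw [← smul_zero (algebraMap (Polynomial ℚ) (RatFunc ℚ) d), ← hrel, Finset.smul_sum]
    refine Finset.sum_congr rfl fun z hz => ?_
    rw [smul_smul, ← hp' z hz, germQT_E, germQT_Q, GM.smul_mk _ _ (theta_poly _)]
  rw [GM.sum_mk, GM.mk_eq_zero] at h1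
  let f : (Σ _ : ℤ × (α → ℤ), ℕ) → ℤ × (α → ℤ) × ℕ := fun x => (x.1.1, x.1.2, x.2)
  have hf : Function.Injective f := by
    rintro ⟨⟨a, b⟩, e⟩ ⟨⟨a', b'⟩, e'⟩ hx
    simp only [f, Prod.mk.injEq] at hx
    obtain ⟨rfl, rfl, rfl⟩ := hx
    rfl
  refine ⟨(S.sigma fun z => (p z).support).image f, fun w => (p (w.1, w.2.1)).coeff w.2.2,
    ?_, ?_, h1.mono fun t ht n => ?_⟩
  · obtain ⟨e, he⟩ := Polynomial.support_nonempty.2 hp0
    exact ⟨f ⟨z0, e⟩, Finset.mem_image_of_mem f (Finset.mem_sigma.2 ⟨hz0, he⟩)⟩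
  · intro w hw
    obtain ⟨x, hx, rfl⟩ := Finset.mem_image.1 hw
    exact Polynomial.mem_support_iff.1 (Finset.mem_sigma.1 hx).2
  · rw [Finset.sum_image hf.injOn, Finset.sum_sigma, ← ht n]
    refine Finset.sum_congr rfl fun z _ => ?_
    rw [Polynomial.aeval_def, Polynomial.eval₂_eq_sum, Polynomial.sum_def, Finset.sum_mul]
    refine Finset.sum_congr rfl fun e _ => ?_
    simp only [f, zpow_add₀ (aa_ne t), zpow_natCast, eq_ratCast]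
    ring

end Pool.Agent.P.MP_ac4909_gt
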