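import Pool.Agent.P.MP_ac4909_gt.HolFun

/-! Building blocks of holonomic growth. -/

namespace Pool.Agent.P.MP_ac4909_gt

variable {K : Type} [Field K] {α : Type} [Fintype α]

/-- `(Q;Q)_n` for `n ≥ 0`, else `0` -/
def qfac (Q : K) (n : ℤ) : K :=
  if 0 ≤ n then ∏ s ∈ Finset.range n.toNat, (1 - Q ^ (s + 1)) else 0

/-- characters of bounded degree times a fixed sequence -/
def holBaseW (q : Kˣ) (γ : ℤ → K) (a : ℕ) : Submodule K (ℤ → K) :=
  Submodule.span K (Set.range fun w : Finset.Icc (-(a : ℤ)) a =>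
    fun n : ℤ => (q : K) ^ ((w : ℤ) * n) * γ n)

/-- sequences with bounded support -/
def holBaseD (K : Type) [Field K] (a : ℕ) : Submodule K (ℤ → K) :=
  Submodule.span K (Set.range fun w : Finset.Icc (-(a : ℤ)) a => (Pi.single (w : ℤ) 1 : ℤ → K))

theorem holBase_card (a : ℕ) : Fintype.card (Finset.Icc (-(a : ℤ)) a) = 2 * a + 1 := by
  rw [Fintype.card_coe, Int.card_Icc]
  omega

theorem holBaseW_gen (q : Kˣ) (γ : ℤ → K) {a : ℕ} {w : ℤ} (hw : |w| ≤ a) :
    (fun n : ℤ => (q : K) ^ (w * n) * γ n) ∈ holBaseW q γ a :=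
  Submodule.subset_span ⟨⟨w, Finset.mem_Icc.2 (abs_le.1 hw)⟩, rfl⟩

theorem holBaseW_mul (q : Kˣ) (γ : ℤ → K) {a b : ℕ} {v : ℤ} (hv : |v| ≤ b) {ψ : ℤ → K}
    (hψ : ψ ∈ holBaseW q γ a) :
    (fun n : ℤ => (q : K) ^ (v * n) * ψ n) ∈ holBaseW q γ (a + b) := by
  induction hψ using Submodule.span_induction with
  | mem x hx =>
    obtain ⟨⟨w, hw⟩, rfl⟩ := hx
    have h1 : |v + w| ≤ ((a + b : ℕ) : ℤ) := by
      have := abs_le.2 (Finset.mem_Icc.1 hw)
      have := abs_add_le v w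
      push_cast
      omega
    have h2 := holBaseW_gen q γ h1
    have e : (fun n : ℤ => (q : K) ^ (v * n) * ((q : K) ^ (w * n) * γ n))
        = fun n : ℤ => (q : K) ^ ((v + w) * n) * γ n := by
      funext n
      rw [add_mul, zpow_add₀ q.ne_zero, mul_assoc]
    exact e ▸ h2
  | zero =>
    have e : (fun n : ℤ => (q : K) ^ (v * n) * (0 : ℤ → K) n) = 0 := by
      funext n; simp
    rw [e]
    exact Submodule.zero_mem _
  | add x y _ _ hx hy =>
    have e : (fun n : ℤ => (q : K) ^ (v * n) * (x + y) n)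
        = (fun n : ℤ => (q : K) ^ (v * n) * x n) + fun n : ℤ => (q : K) ^ (v * n) * y n := by
      funext n; simp [mul_add]
    exact e ▸ Submodule.add_mem _ hx hy
  | smul c x _ hx =>
    have e : (fun n : ℤ => (q : K) ^ (v * n) * (c • x) n)
        = c • fun n : ℤ => (q : K) ^ (v * n) * x n := by
      funext n; simp [mul_left_comm]
    exact e ▸ Submodule.smul_mem _ c hx

theorem holBaseW_mono (q : Kˣ) (γ : ℤ → K) {a b : ℕ} (h : a ≤ b) {ψ : ℤ → K}
    (hψ : ψ ∈ holBaseW q γ a) : ψ ∈ holBaseW q γ b := by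
  obtain ⟨c, rfl⟩ := Nat.exists_eq_add_of_le h
  have := holBaseW_mul q γ (b := c) (v := 0) (by simp) hψ
  simpa using this

theorem holBaseW_prod (q : Kˣ) (γ : ℤ → K) (c : ℤ) (κ : ℕ → K) (k : ℕ) :
    (fun n : ℤ => γ n * ∏ s ∈ Finset.range k, (1 - κ s * (q : K) ^ (c * n)))
      ∈ holBaseW q γ (k * c.natAbs) := by
  induction k with
  | zero => simpa using holBaseW_gen q γ (a := 0) (w := 0) (by simp)
  | succ k ih =>
    have h1 := holBaseW_mul q γ (b := c.natAbs) (v := c) (by simp) ih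
    have h2 := holBaseW_mono q γ (Nat.le_add_right _ c.natAbs) ih
    have h3 := Submodule.sub_mem _ h2 (Submodule.smul_mem _ (κ k) h1)
    rw [add_mul, one_mul]
    convert h3 using 1
    funext n
    simp only [Finset.prod_range_succ, Pi.sub_apply, Pi.smul_apply, smul_eq_mul]
    ring

theorem holBaseD_mem {a : ℕ} {ψ : ℤ → K} (h : ∀ n : ℤ, (a : ℤ) < |n| → ψ n = 0) :
    ψ ∈ holBaseD K a := by
  have e : ψ = ∑ w : Finset.Icc (-(a : ℤ)) a, ψ w • (Pi.single (w : ℤ) 1 : ℤ → K) := by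
    funext n
    rw [Finset.sum_apply]
    by_cases hn : n ∈ Finset.Icc (-(a : ℤ)) a
    · rw [Finset.sum_eq_single ⟨n, hn⟩]
      · simp
      · intro w _ hw
        have : n ≠ w := fun e => hw (Subtype.ext e.symm)
        simp [Pi.single_eq_of_ne this]
      · simp
    · rw [h n (lt_of_not_ge fun h' => hn (Finset.mem_Icc.2 (abs_le.1 h')))]
      refine (Finset.sum_eq_zero fun w _ => ?_).symm
      have : n ≠ w := fun e => hn (e ▸ w.2)
      simp [Pi.single_eq_of_ne this]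
  rw [e]
  exact Submodule.sum_mem _ fun w _ => Submodule.smul_mem _ _ (Submodule.subset_span ⟨w, rfl⟩)

theorem holBase_unit (q : Kˣ) (φ : ℤ → K) (C : ℕ)
    (h : ∀ d : ℕ, ∃ γ : ℤ → K, ∀ u : ℤ, |u| ≤ d → ∃ ψ ∈ holBaseW q γ (C * d),
      ∀ n : ℤ, (d : ℤ) < |n| → φ (n + u) = ψ n) :
    HolF q fun n : Unit → ℤ => φ (n ()) := by
  refine ⟨2 * C + 4, fun d => ?_⟩
  obtain ⟨γ, hγ⟩ := h d
  let L : (ℤ → K) →ₗ[K] ((Unit → ℤ) → K) := LinearMap.funLeft K K fun n => n ()
  have : Module.Finite K (holBaseW q γ (C * d + d)) :=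
    Module.Finite.span_of_finite K (Set.finite_range _)
  have : Module.Finite K (holBaseD K d) := Module.Finite.span_of_finite K (Set.finite_range _)
  have hle : (funQT q Unit).Fil d (fun n : Unit → ℤ => φ (n ()))
      ≤ (holBaseW q γ (C * d + d) ⊔ holBaseD K d).map L := by
    refine Submodule.span_le.2 ?_
    rintro _ ⟨u, hu, v, hv, rfl⟩
    obtain ⟨ψ, hψ, e⟩ := hγ (u ()) (hu ())
    refine ⟨fun n => (q : K) ^ (v () * n) * φ (n + u ()), ?_, ?_⟩
    · have h1 := holBaseW_mul q γ (hv ()) hψ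
      have h2 : (fun n => (q : K) ^ (v () * n) * (φ (n + u ()) - ψ n)) ∈ holBaseD K d :=
        holBaseD_mem fun n hn => by rw [e n hn, sub_self, mul_zero]
      have h3 := Submodule.add_mem_sup h1 h2
      have e2 : (fun n => (q : K) ^ (v () * n) * φ (n + u ()))
          = (fun n => (q : K) ^ (v () * n) * ψ n)
            + fun n => (q : K) ^ (v () * n) * (φ (n + u ()) - ψ n) := by
        funext n
        simp only [Pi.add_apply]
        ring
      rw [e2]
      exact h3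
    · funext n
      rw [funQT_Q, funQT_E]
      simp [L, LinearMap.funLeft_apply, dotProduct]
  have h1 : Module.finrank K (holBaseW q γ (C * d + d)) ≤ 2 * (C * d + d) + 1 :=
    (finrank_range_le_card _).trans (holBase_card _).le
  have h2 : Module.finrank K (holBaseD K d) ≤ 2 * d + 1 :=
    (finrank_range_le_card _).trans (holBase_card _).le
  have h3 := Submodule.finrank_add_le_finrank_add_finrank (holBaseW q γ (C * d + d))
    (holBaseD K d)
  have h4 := Submodule.finrank_map_le L (holBaseW q γ (C * d + d) ⊔ holBaseD K d)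
  have h5 := Submodule.finrank_mono hle
  rw [Fintype.card_unit, pow_one]
  nlinarith

theorem holBase_qfac_add (Q : K) (_hQ : Q ≠ 0) {m : ℤ} (hm : 0 ≤ m) (k : ℕ) :
    qfac Q (m + k) = qfac Q m * ∏ s ∈ Finset.range k, (1 - Q ^ (m + s + 1)) := by
  obtain ⟨m, rfl⟩ := Int.eq_ofNat_of_zero_le hm
  rw [qfac, qfac, if_pos (by positivity), if_pos hm, ← Nat.cast_add, Int.toNat_natCast,
    Int.toNat_natCast, Finset.prod_range_add]
  congr 1
  refine Finset.prod_congr rfl fun s _ => ?_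
  rw [← zpow_natCast]
  push_cast
  rfl

/-- the triangular numbers -/
def holBaseT (n : ℤ) : ℤ := n * (n - 1) / 2

theorem holBaseT_add (a b : ℤ) : holBaseT (a + b) = holBaseT a + holBaseT b + a * b := by
  have h : ∀ n : ℤ, holBaseT n * 2 = n * (n - 1) := fun n =>
    Int.ediv_mul_cancel (Int.even_mul_pred_self n).two_dvd
  have h1 := h (a + b)
  have h2 := h a
  have h3 := h b
  nlinarith

variable {q : Kˣ} (hq : ∀ n : ℤ, (q : K) ^ n = 1 → n = 0) {f g : (α → ℤ) → ℤ}
include hq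

theorem holBase_aff (φ : ℤ → K) (C : ℕ)
    (h : ∀ d : ℕ, ∃ γ : ℤ → K, ∀ u : ℤ, |u| ≤ d → ∃ ψ ∈ holBaseW q γ (C * d),
      ∀ n : ℤ, (d : ℤ) < |n| → φ (n + u) = ψ n) (hf : IsAff f) :
    HolF q fun n => φ (f n) :=
  (holBase_unit q φ C h).comp_aff hq (f := fun _ => f) fun _ => hf

theorem holBase_tri (ε : ℤ) (hf : IsAff f) :
    HolF q fun n => (q : K) ^ (ε * holBaseT (f n)) := by
  refine holBase_aff hq (fun n => (q : K) ^ (ε * holBaseT n)) ε.natAbs (fun d =>
    ⟨fun n => (q : K) ^ (ε * holBaseT n), fun u hu => ⟨_, Submodule.smul_mem _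
      ((q : K) ^ (ε * holBaseT u)) (holBaseW_gen q _ (w := ε * u) ?_), fun n _ => ?_⟩⟩) hf
  · rw [abs_mul]
    push_cast
    exact mul_le_mul_of_nonneg_left hu (abs_nonneg _)
  · simp only [Pi.smul_apply, smul_eq_mul]
    rw [← zpow_add₀ q.ne_zero, ← zpow_add₀ q.ne_zero, holBaseT_add]
    congr 1
    ring

theorem holF_zpow_mul (hf : IsAff f) (hg : IsAff g) :
    HolF q fun n => (q : K) ^ (f n * g n) := by
  refine (((holBase_tri hq 1 (hf.add hg)).mul hq (holBase_tri hq (-1) hf)).mul hq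
    (holBase_tri hq (-1) hg)).congr fun n => ?_
  rw [← zpow_add₀ q.ne_zero, ← zpow_add₀ q.ne_zero, holBaseT_add]
  congr 1
  ring

theorem holF_sign (hf : IsAff f) : HolF q fun n => (-1 : K) ^ f n := by
  refine holBase_aff hq (fun n => (-1 : K) ^ n) 0 (fun d =>
    ⟨fun n => (-1 : K) ^ n, fun u _ => ⟨_, Submodule.smul_mem _
      ((-1 : K) ^ u) (holBaseW_gen q _ (w := 0) (by simp)), fun n _ => ?_⟩⟩) hf
  simp only [Pi.smul_apply, smul_eq_mul]
  rw [zpow_add₀ (neg_ne_zero.2 one_ne_zero), zero_mul, zpow_zero, one_mul, mul_comm]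

theorem holF_nonneg (hf : IsAff f) : HolF q fun n => if 0 ≤ f n then (1 : K) else 0 := by
  refine holBase_aff hq (fun n => if 0 ≤ n then (1 : K) else 0) 0 (fun d =>
    ⟨fun n => if 0 ≤ n then (1 : K) else 0, fun u hu =>
      ⟨_, holBaseW_gen q _ (w := 0) (by simp), fun n hn => ?_⟩⟩) hf
  have h1 := abs_le.1 hu
  have h2 : 0 ≤ n + u ↔ 0 ≤ n := by
    rcases lt_abs.1 hn with h | h <;> omega
  simp only [h2, zero_mul, zpow_zero, one_mul]

theorem holF_eq_zero (hf : IsAff f) : HolF q fun n => if f n = 0 then (1 : K) else 0 := by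
  refine holBase_aff hq (fun n => if n = 0 then (1 : K) else 0) 0 (fun d =>
    ⟨0, fun u hu => ⟨0, Submodule.zero_mem _, fun n hn => ?_⟩⟩) hf
  have h1 := abs_le.1 hu
  have h2 : n + u ≠ 0 := by
    rcases lt_abs.1 hn with h | h <;> omega
  simp only [if_neg h2, Pi.zero_apply]

theorem holF_qfac (c : ℤ) (hf : IsAff f) : HolF q fun n => qfac ((q : K) ^ c) (f n) := by
  refine holBase_aff hq (qfac ((q : K) ^ c)) (2 * c.natAbs) (fun d =>
    ⟨fun n => qfac ((q : K) ^ c) (n - d), fun u hu => ?_⟩) hf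
  have h1 := abs_le.1 hu
  obtain ⟨k, hk⟩ := Int.eq_ofNat_of_zero_le (show 0 ≤ u + d by omega)
  have hQ : (q : K) ^ c ≠ 0 := zpow_ne_zero _ q.ne_zero
  refine ⟨_, holBaseW_mono q _ ?_
    (holBaseW_prod q _ c (fun s => ((q : K) ^ c) ^ ((s : ℤ) + 1 - d)) k), fun n hn => ?_⟩
  · have : k ≤ 2 * d := by omega
    calc k * c.natAbs ≤ (2 * d) * c.natAbs := Nat.mul_le_mul_right _ this
      _ = 2 * c.natAbs * d := by ring
  · rcases lt_abs.1 hn with h | h
    · rw [show n + u = n - d + k by omega, holBase_qfac_add _ hQ (by omega)]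
      congr 1
      refine Finset.prod_congr rfl fun s _ => ?_
      rw [zpow_mul, ← zpow_add₀ hQ]
      congr 2
      ring
    · rw [qfac, qfac, if_neg (by omega), if_neg (by omega), zero_mul]

theorem holF_qfac_inv {c : ℤ} (hc : c ≠ 0) (hf : IsAff f) :
    HolF q fun n => (qfac ((q : K) ^ c) (f n))⁻¹ := by
  refine holBase_aff hq (fun n => (qfac ((q : K) ^ c) n)⁻¹) (2 * c.natAbs) (fun d =>
    ⟨fun n => (qfac ((q : K) ^ c) (n + d))⁻¹, fun u hu => ?_⟩) hf
  have h1 := abs_le.1 hu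
  obtain ⟨k, hk⟩ := Int.eq_ofNat_of_zero_le (show 0 ≤ d - u by omega)
  have hQ : (q : K) ^ c ≠ 0 := zpow_ne_zero _ q.ne_zero
  refine ⟨_, holBaseW_mono q _ ?_
    (holBaseW_prod q _ c (fun s => ((q : K) ^ c) ^ (u + s + 1)) k), fun n hn => ?_⟩
  · have : k ≤ 2 * d := by omega
    calc k * c.natAbs ≤ (2 * d) * c.natAbs := Nat.mul_le_mul_right _ this
      _ = 2 * c.natAbs * d := by ring
  · rcases lt_abs.1 hn with h | h
    · have e : ∏ s ∈ Finset.range k, (1 - ((q : K) ^ c) ^ (u + s + 1) * (q : K) ^ (c * n))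
          = ∏ s ∈ Finset.range k, (1 - ((q : K) ^ c) ^ (n + u + s + 1)) := by
        refine Finset.prod_congr rfl fun s _ => ?_
        rw [zpow_mul, ← zpow_add₀ hQ]
        congr 2
        ring
      have hne : ∏ s ∈ Finset.range k, (1 - ((q : K) ^ c) ^ (n + u + s + 1)) ≠ 0 := by
        refine Finset.prod_ne_zero_iff.2 fun s _ h0 => ?_
        rw [sub_eq_zero, ← zpow_mul] at h0
        rcases mul_eq_zero.1 (hq _ h0.symm) with h2 | h2
        · exact hc h2
        · omega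
      rw [e, show n + (d : ℤ) = n + u + k by omega, holBase_qfac_add _ hQ (by omega), mul_inv,
        mul_assoc, inv_mul_cancel₀ hne, mul_one]
    · rw [qfac, qfac, if_neg (by omega), if_neg (by omega), inv_zero, zero_mul]

end Pool.Agent.P.MP_ac4909_gt
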