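import Pool.Agent.P.MP_ac4909_gt.TLDefs

/-! The vertex model in a Leavitt algebra, and the state sum (definitions). -/

namespace Pool.Agent.P.MP_ac4909_gt

section Scalars
variable {K : Type} [Field K]

/-- Gaussian binomial coefficient, zero outside `0 ≤ j ≤ m` -/
def gb (Q : K) : ℕ → ℤ → K
  | 0, j => if j = 0 then 1 else 0
  | m + 1, j => gb Q m j + Q ^ ((m : ℤ) + 1 - j) * gb Q m (j - 1)

def gbZ (Q : K) (m j : ℤ) : K := if 0 ≤ m then gb Q m.toNat j else 0

/-- `(Q^{i+1}; Q)_t` for `i, t ≥ 0`, else `0` -/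
def poch (Q : K) (i t : ℤ) : K :=
  if 0 ≤ i ∧ 0 ≤ t then ∏ s ∈ Finset.range t.toNat, (1 - Q ^ (i + 1 + s)) else 0

/-- cup coefficient -/
def cuC (a : K) (m j : ℤ) : K := (-1) ^ j * a ^ (2 * j) * (gbZ (a ^ (-4 : ℤ)) m j)⁻¹

/-- cap coefficient -/
def caC (a : K) (m j j' : ℤ) : K :=
  if j + j' = m then (-1) ^ (m - j) * a ^ (-2 * (m - j)) * gbZ (a ^ (-4 : ℤ)) m j else 0

/-- crossing coefficient -/
def crK (a : K) (s : Bool) (m n i j t : ℤ) : K :=
  if s then a ^ ((m - 2 * i) * (n - 2 * j) + 2 * t * (m - i + j - t)) *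
      poch (a ^ (-4 : ℤ)) i t * gbZ (a ^ (-4 : ℤ)) (n - j + t) t
  else a ^ (-((m - 2 * i) * (n - 2 * j)) - 2 * t * (m - i + j + t)) *
      poch (a ^ (4 : ℤ)) (m - i) t * gbZ (a ^ (4 : ℤ)) (j + t) t

/-- `+1` for the crossing `true`, `-1` for `false` -/
def sgnB (s : Bool) : ℤ := if s then 1 else -1

/-- state sum of a word that ends at the empty row; `js` are the states of the bottom row -/
noncomputable def SS {ι : Type} (a : K) (m : ι → ℤ) : List (Sl (Arc ι)) → List ℤ → K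
  | [], _ => 1
  | ⟨l, .cup o, _⟩ :: w, js => ∑ j ∈ Finset.Icc 0 (m o.name), cuC a (m o.name) j *
      SS a m w (js.take l.length ++ j :: (m o.name - j) :: js.drop l.length)
  | ⟨l, .cap o, _⟩ :: w, js => caC a (m o.name) (js.getD l.length 0) (js.getD (l.length + 1) 0) *
      SS a m w (js.take l.length ++ js.drop (l.length + 2))
  | ⟨l, .cr x y s, _⟩ :: w, js => ∑ t ∈ Finset.Icc 0 (m y.name),
      crK a s (m x.name) (m y.name) (js.getD l.length 0) (js.getD (l.length + 1) 0) t *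
      SS a m w (js.take l.length ++ (js.getD (l.length + 1) 0 - sgnB s * t) ::
        (js.getD l.length 0 + sgnB s * t) :: js.drop (l.length + 2))

end Scalars

/-- two isometries with complementary ranges -/
structure Lv (R : Type) [Ring R] where
  Z : R
  O : R
  Z' : R
  O' : R
  ZZ : Z' * Z = 1
  OO : O' * O = 1
  ZO : Z' * O = 0
  OZ : O' * Z = 0
  sum : Z * Z' + O * O' = 1

variable {K : Type} [Field K] {R : Type} [Ring R] [Algebra K R]

namespace Lv
variable (V : Lv R)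

/-- the shift endomorphism -/
def Phi (x : R) : R := V.Z * x * V.Z' + V.O * x * V.O'

def U (a : K) (i : ℕ) : R := V.Phi^[i] (V.Z * V.O - a ^ 2 • (V.O * V.Z))

def C (a : K) (i : ℕ) : R := V.Phi^[i] (V.Z' * V.O' - a⁻¹ ^ 2 • (V.O' * V.Z'))

/-- the symmetrised vector with `j` letters `O` among `m` -/
def I (a : K) : ℕ → ℤ → R
  | 0, j => if j = 0 then 1 else 0
  | m + 1, j => V.Z * I a m j + a ^ (-2 * ((m : ℤ) + 1 - j)) • (V.O * I a m (j - 1))

/-- product of the vectors of a row -/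
def IRow {ι : Type} (a : K) (m : ι → ℕ) : List (Arc ι) → List ℤ → R
  | x :: ρ, j :: js => V.I a (m x.name) j * IRow a m ρ js
  | _, _ => 1

end Lv

end Pool.Agent.P.MP_ac4909_gt
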