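import Pool.Agent.P.MP_ac4909_gt.HolBase
import Pool.Agent.P.MP_ac4909_gt.VDefs

/-! The coefficients of the state sum have holonomic growth. -/

namespace Pool.Agent.P.MP_ac4909_gt

variable {K : Type} [Field K] {α : Type} [Fintype α]

theorem holCoef_qfac_nat (Q : K) (n : ℕ) :
    qfac Q n = ∏ s ∈ Finset.range n, (1 - Q ^ (s + 1)) := by
  rw [qfac, if_pos (Int.natCast_nonneg n), Int.toNat_natCast]

theorem holCoef_qfac_neg (Q : K) {n : ℤ} (h : n < 0) : qfac Q n = 0 := by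
  rw [qfac, if_neg (not_le.2 h)]

theorem holCoef_qfac_succ (Q : K) (n : ℕ) :
    qfac Q ((n : ℤ) + 1) = qfac Q n * (1 - Q ^ ((n : ℤ) + 1)) := by
  have e : (n : ℤ) + 1 = ((n + 1 : ℕ) : ℤ) := by push_cast; rfl
  rw [e, holCoef_qfac_nat, holCoef_qfac_nat, Finset.prod_range_succ, zpow_natCast]

theorem holCoef_one_sub_ne {Q : K} (hQ : ∀ n : ℤ, Q ^ n = 1 → n = 0) {n : ℤ} (hn : n ≠ 0) :
    1 - Q ^ n ≠ 0 := fun h => hn (hQ n (sub_eq_zero.1 h).symm)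

theorem holCoef_qfac_ne {Q : K} (hQ : ∀ n : ℤ, Q ^ n = 1 → n = 0) {n : ℤ} (hn : 0 ≤ n) :
    qfac Q n ≠ 0 := by
  obtain ⟨m, rfl⟩ := Int.eq_ofNat_of_zero_le hn
  rw [holCoef_qfac_nat]
  refine Finset.prod_ne_zero_iff.2 fun s _ => ?_
  rw [← zpow_natCast]
  exact holCoef_one_sub_ne hQ (by omega)

theorem holCoef_inv_rec {Q : K} (hQ : ∀ n : ℤ, Q ^ n = 1 → n = 0) (n : ℤ) :
    (qfac Q (n - 1))⁻¹ = (1 - Q ^ n) * (qfac Q n)⁻¹ := by
  rcases lt_trichotomy n 0 with h | h | h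
  · rw [holCoef_qfac_neg Q h, holCoef_qfac_neg Q (by omega), inv_zero, mul_zero]
  · rw [h, holCoef_qfac_neg Q (by omega), inv_zero, zpow_zero, sub_self, zero_mul]
  · obtain ⟨m, rfl⟩ : ∃ m : ℕ, n = (m : ℤ) + 1 := ⟨(n - 1).toNat, by omega⟩
    have h1 := holCoef_one_sub_ne hQ h.ne'
    rw [add_sub_cancel_right, holCoef_qfac_succ, mul_inv, mul_comm (qfac Q m)⁻¹, ← mul_assoc,
      mul_inv_cancel₀ h1, one_mul]

theorem holCoef_gb_eq {Q : K} (hQ0 : Q ≠ 0) (hQ : ∀ n : ℤ, Q ^ n = 1 → n = 0) (m : ℕ) :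
    ∀ j : ℤ, gb Q m j = qfac Q m * (qfac Q j)⁻¹ * (qfac Q (m - j))⁻¹ := by
  induction m with
  | zero =>
    intro j
    have h0 : qfac Q 0 = 1 := by simp [qfac]
    rw [gb, Nat.cast_zero, zero_sub]
    rcases lt_trichotomy j 0 with h | h | h
    · rw [if_neg h.ne, holCoef_qfac_neg Q h, inv_zero, mul_zero, zero_mul]
    · rw [if_pos h, h, neg_zero, h0, inv_one, mul_one, mul_one]
    · rw [if_neg h.ne', holCoef_qfac_neg Q (neg_lt_zero.2 h), inv_zero, mul_zero]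
  | succ m ih =>
    intro j
    have e1 : (m : ℤ) - j = (m : ℤ) + 1 - j - 1 := by ring
    have e2 : (m : ℤ) - (j - 1) = (m : ℤ) + 1 - j := by ring
    have e3 : Q ^ ((m : ℤ) + 1) = Q ^ ((m : ℤ) + 1 - j) * Q ^ j := by
      rw [← zpow_add₀ hQ0, sub_add_cancel]
    rw [gb, ih, ih, Nat.cast_succ, holCoef_qfac_succ, e2, e1, holCoef_inv_rec hQ,
      holCoef_inv_rec hQ, e3]
    ring

theorem gbZ_eq {Q : K} (hQ0 : Q ≠ 0) (hQ : ∀ n : ℤ, Q ^ n = 1 → n = 0) (m j : ℤ) :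
    gbZ Q m j = qfac Q m * (qfac Q j)⁻¹ * (qfac Q (m - j))⁻¹ := by
  rw [gbZ]
  split_ifs with h
  · rw [holCoef_gb_eq hQ0 hQ, Int.toNat_of_nonneg h]
  · rw [holCoef_qfac_neg Q (not_le.1 h), zero_mul, zero_mul]

theorem gb_ne_zero {Q : K} (hQ0 : Q ≠ 0) (hQ : ∀ n : ℤ, Q ^ n = 1 → n = 0) (m : ℕ) (j : ℤ)
    (h₀ : 0 ≤ j) (h₁ : j ≤ m) : gb Q m j ≠ 0 := by
  rw [holCoef_gb_eq hQ0 hQ]
  exact mul_ne_zero (mul_ne_zero (holCoef_qfac_ne hQ (Int.natCast_nonneg m))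
    (inv_ne_zero (holCoef_qfac_ne hQ h₀))) (inv_ne_zero (holCoef_qfac_ne hQ (sub_nonneg.2 h₁)))

theorem poch_eq {Q : K} (hQ0 : Q ≠ 0) (hQ : ∀ n : ℤ, Q ^ n = 1 → n = 0) (i t : ℤ) :
    poch Q i t = qfac Q (i + t) * (qfac Q i)⁻¹ * if 0 ≤ t then 1 else 0 := by
  rw [poch]
  by_cases ht : 0 ≤ t
  · by_cases hi : 0 ≤ i
    · rw [if_pos ⟨hi, ht⟩, if_pos ht, mul_one, eq_mul_inv_iff_mul_eq₀ (holCoef_qfac_ne hQ hi)]
      obtain ⟨a, rfl⟩ := Int.eq_ofNat_of_zero_le hi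
      obtain ⟨c, rfl⟩ := Int.eq_ofNat_of_zero_le ht
      rw [← Nat.cast_add, holCoef_qfac_nat, holCoef_qfac_nat, Int.toNat_natCast,
        Finset.prod_range_add, mul_comm]
      congr 1
      refine Finset.prod_congr rfl fun s _ => ?_
      rw [← zpow_natCast]
      congr 2
      push_cast
      ring
    · rw [if_neg fun h => hi h.1, holCoef_qfac_neg Q (not_le.1 hi), inv_zero, mul_zero, zero_mul]
  · rw [if_neg fun h => ht h.2, if_neg ht, mul_zero]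

variable {q : Kˣ} (hq : ∀ n : ℤ, (q : K) ^ n = 1 → n = 0) {m n i j t : (α → ℤ) → ℤ}
include hq

omit [Fintype α] in
theorem holCoef_pow {c : ℤ} (hc : c ≠ 0) (n : ℤ) (h : ((q : K) ^ c) ^ n = 1) : n = 0 := by
  rw [← zpow_mul] at h
  exact (mul_eq_zero.1 (hq _ h)).resolve_left hc

theorem holCoef_gbZ {c : ℤ} (hc : c ≠ 0) (hm : IsAff m) (hj : IsAff j) :
    HolF q fun x => gbZ ((q : K) ^ c) (m x) (j x) :=
  (((holF_qfac hq c hm).mul hq (holF_qfac_inv hq hc hj)).mul hq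
    (holF_qfac_inv hq hc (hm.sub hj))).congr fun _ =>
      (gbZ_eq (zpow_ne_zero c q.ne_zero) (holCoef_pow hq hc) _ _).symm

theorem holCoef_gbZ_inv {c : ℤ} (hc : c ≠ 0) (hm : IsAff m) (hj : IsAff j) :
    HolF q fun x => (gbZ ((q : K) ^ c) (m x) (j x))⁻¹ :=
  (((holF_qfac_inv hq hc hm).mul hq (holF_qfac hq c hj)).mul hq
    (holF_qfac hq c (hm.sub hj))).congr fun _ => by
      rw [gbZ_eq (zpow_ne_zero c q.ne_zero) (holCoef_pow hq hc), mul_inv, mul_inv, inv_inv,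
        inv_inv]

theorem holCoef_poch {c : ℤ} (hc : c ≠ 0) (hi : IsAff i) (ht : IsAff t) :
    HolF q fun x => poch ((q : K) ^ c) (i x) (t x) :=
  (((holF_qfac hq c (hi.add ht)).mul hq (holF_qfac_inv hq hc hi)).mul hq
    (holF_nonneg hq ht)).congr fun _ =>
      (poch_eq (zpow_ne_zero c q.ne_zero) (holCoef_pow hq hc) _ _).symm

theorem holF_cuC (hm : IsAff m) (hj : IsAff j) : HolF q fun x => cuC (q : K) (m x) (j x) :=
  ((holF_sign hq hj).mul hq (holF_zpow_mul hq (isAff_const 2) hj)).mul hq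
    (holCoef_gbZ_inv hq (by norm_num) hm hj)

theorem holF_caC (hm : IsAff m) (hi : IsAff i) (hj : IsAff j) :
    HolF q fun x => caC (q : K) (m x) (i x) (j x) := by
  refine ((holF_eq_zero hq ((hi.add hj).sub hm)).mul hq
    (((holF_sign hq (hm.sub hi)).mul hq (holF_zpow_mul hq (isAff_const (-2)) (hm.sub hi))).mul hq
      (holCoef_gbZ hq (show (-4 : ℤ) ≠ 0 by norm_num) hm hi))).congr fun x => ?_
  rw [caC]
  by_cases h : i x + j x = m x
  · rw [if_pos h, if_pos (sub_eq_zero.2 h), one_mul]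
  · rw [if_neg h, if_neg fun h' => h (sub_eq_zero.1 h'), zero_mul]

theorem holF_crK (s : Bool) (hm : IsAff m) (hn : IsAff n) (hi : IsAff i) (hj : IsAff j)
    (ht : IsAff t) : HolF q fun x => crK (q : K) s (m x) (n x) (i x) (j x) (t x) := by
  cases s
  · refine ((((holF_zpow_mul hq (hm.sub (hi.const_mul 2)).neg (hn.sub (hj.const_mul 2))).mul hq
      (holF_zpow_mul hq (ht.const_mul (-2)) (((hm.sub hi).add hj).add ht))).mul hq
      (holCoef_poch hq (show (4 : ℤ) ≠ 0 by norm_num) (hm.sub hi) ht)).mul hq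
      (holCoef_gbZ hq (show (4 : ℤ) ≠ 0 by norm_num) (hj.add ht) ht)).congr fun x => ?_
    rw [crK, if_neg (by simp), ← zpow_add₀ q.ne_zero]
    congr 3
    ring
  · refine ((((holF_zpow_mul hq (hm.sub (hi.const_mul 2)) (hn.sub (hj.const_mul 2))).mul hq
      (holF_zpow_mul hq (ht.const_mul 2) (((hm.sub hi).add hj).sub ht))).mul hq
      (holCoef_poch hq (show (-4 : ℤ) ≠ 0 by norm_num) hi ht)).mul hq
      (holCoef_gbZ hq (show (-4 : ℤ) ≠ 0 by norm_num) ((hn.sub hj).add ht) ht)).congr fun x => ?_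
    rw [crK, if_pos rfl, ← zpow_add₀ q.ne_zero]

end Pool.Agent.P.MP_ac4909_gt
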