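import Pool.Agent.P.MP_ac4909_gt.ARL

/-! Functions on `ℤ^α` of holonomic growth: pull-backs, products, powers of `q`. -/

namespace Pool.Agent.P.MP_ac4909_gt

variable {K : Type} [Field K] {α β : Type} [Fintype α] [Fintype β]

/-- shifts and characters acting on functions -/
def funQT (q : Kˣ) (α : Type) [Fintype α] : QT q α ((α → ℤ) → K) where
  E u := LinearMap.funLeft K K fun n => n + u
  Q v := LinearMap.mulLeft K fun n => (q : K) ^ (v ⬝ᵥ n)
  E_zero := by ext F n; simp [LinearMap.funLeft]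
  E_add u v := by ext F n; simp [LinearMap.funLeft, add_assoc]
  Q_zero := by ext F n; simp
  Q_add u v := by ext F n; simp [add_dotProduct, zpow_add₀ q.ne_zero, mul_assoc]
  comm u v := by
    ext F n
    simp [LinearMap.funLeft, dotProduct_add, zpow_add₀ q.ne_zero, dotProduct_comm u v]
    ring

theorem funQT_E (q : Kˣ) (u : α → ℤ) (F : (α → ℤ) → K) (n : α → ℤ) :
    (funQT q α).E u F n = F (n + u) := rfl

theorem funQT_Q (q : Kˣ) (v : α → ℤ) (F : (α → ℤ) → K) (n : α → ℤ) :
    (funQT q α).Q v F n = (q : K) ^ (v ⬝ᵥ n) * F n := rfl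

def HolF (q : Kˣ) (F : (α → ℤ) → K) : Prop := (funQT q α).Hol F

/-- integer affine forms -/
def IsAff (f : (α → ℤ) → ℤ) : Prop := ∃ (c : ℤ) (φ : (α → ℤ) →+ ℤ), ∀ n, f n = c + φ n

/-- the transpose of an additive map of lattices -/
theorem exists_transpose (φ : (α → ℤ) →+ (β → ℤ)) :
    ∃ ψ : (β → ℤ) →+ (α → ℤ), ∀ z n, z ⬝ᵥ φ n = ψ z ⬝ᵥ n := by
  classical
  refine ⟨AddMonoidHom.mk' (fun z a => z ⬝ᵥ φ (Pi.single a 1)) fun z z' => ?_, fun z n => ?_⟩
  · funext a; simp [add_dotProduct]
  · conv_lhs => rw [pi_eq_sum_univ' n]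
    simp only [map_sum, map_zsmul, dotProduct_sum, dotProduct_smul, AddMonoidHom.mk'_apply]
    simp [dotProduct, mul_comm]

section Aff
omit [Fintype α] [Fintype β]
variable {f g : (α → ℤ) → ℤ}

theorem isAff_const (c : ℤ) : IsAff fun _ : α → ℤ => c := ⟨c, 0, fun _ => by simp⟩

theorem isAff_coord (i : α) : IsAff fun n : α → ℤ => n i :=
  ⟨0, Pi.evalAddMonoidHom (fun _ => ℤ) i, fun _ => by simp⟩

theorem IsAff.add (hf : IsAff f) (hg : IsAff g) : IsAff fun n => f n + g n := by
  obtain ⟨c, φ, h⟩ := hf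
  obtain ⟨c', φ', h'⟩ := hg
  exact ⟨c + c', φ + φ', fun n => by simp only [h, h', AddMonoidHom.add_apply]; ring⟩

theorem IsAff.sub (hf : IsAff f) (hg : IsAff g) : IsAff fun n => f n - g n := by
  obtain ⟨c, φ, h⟩ := hf
  obtain ⟨c', φ', h'⟩ := hg
  exact ⟨c - c', φ - φ', fun n => by simp only [h, h', AddMonoidHom.sub_apply]; ring⟩

theorem IsAff.neg (hf : IsAff f) : IsAff fun n => -f n := by
  obtain ⟨c, φ, h⟩ := hf
  exact ⟨-c, -φ, fun n => by simp only [h, AddMonoidHom.neg_apply]; ring⟩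

theorem IsAff.const_mul (hf : IsAff f) (c : ℤ) : IsAff fun n => c * f n := by
  obtain ⟨c', φ, h⟩ := hf
  exact ⟨c * c', c • φ, fun n => by simp only [h, AddMonoidHom.smul_apply, smul_eq_mul]; ring⟩

theorem IsAff.sum {σ : Type} (S : Finset σ) {h : σ → (α → ℤ) → ℤ} (hh : ∀ s ∈ S, IsAff (h s)) :
    IsAff fun n => ∑ s ∈ S, h s n := by
  classical
  induction S using Finset.induction_on with
  | empty => simpa using isAff_const 0
  | insert a S ha ih =>
    simp only [Finset.sum_insert ha]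
    exact (hh a (Finset.mem_insert_self _ _)).add
      (ih fun s hs => hh s (Finset.mem_insert_of_mem hs))

/-- forget the extra variable -/
theorem IsAff.some (hf : IsAff f) : IsAff fun n : Option α → ℤ => f fun i => n (Option.some i) := by
  obtain ⟨c, φ, h⟩ := hf
  exact ⟨c, φ.comp (AddMonoidHom.mk' (fun n i => n (Option.some i)) fun _ _ => rfl),
    fun n => h _⟩

end Aff

variable {q : Kˣ} {F G : (α → ℤ) → K}

theorem HolF.congr (hF : HolF q F) (h : ∀ n, F n = G n) : HolF q G := by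
  rwa [← funext h]

theorem HolF.add (hF : HolF q F) (hG : HolF q G) : HolF q fun n => F n + G n :=
  QT.Hol.add hF hG

theorem HolF.const_mul (hF : HolF q F) (c : K) : HolF q fun n => c * F n :=
  QT.Hol.smul hF c

theorem HolF.finset_sum {σ : Type} (S : Finset σ) {H : σ → (α → ℤ) → K}
    (h : ∀ s ∈ S, HolF q (H s)) : HolF q fun n => ∑ s ∈ S, H s n := by
  classical
  induction S using Finset.induction_on with
  | empty => exact QT.hol_zero _
  | insert a S ha ih =>
    simp only [Finset.sum_insert ha]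
    exact (h a (Finset.mem_insert_self _ _)).add
      (ih fun s hs => h s (Finset.mem_insert_of_mem hs))

theorem holF_const (q : Kˣ) (c : K) : HolF q fun _ : α → ℤ => c := by
  classical
  refine ⟨2 ^ Fintype.card α, fun d => ?_⟩
  let S : Finset ((α → ℤ) → K) := (Fintype.piFinset fun _ : α => Finset.Icc (-d : ℤ) d).image
    fun v => (funQT q α).Q v fun _ => c
  have h₁ : (funQT q α).Fil d (fun _ => c) ≤ Submodule.span K (S : Set ((α → ℤ) → K)) := by
    refine Submodule.span_mono ?_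
    rintro _ ⟨u, -, v, hv, rfl⟩
    exact Finset.mem_coe.2 (Finset.mem_image.2 ⟨v, Fintype.mem_piFinset.2 fun i =>
      Finset.mem_Icc.2 (abs_le.1 (hv i)), rfl⟩)
  refine (Submodule.finrank_mono h₁).trans ((finrank_span_finset_le_card S).trans
    (Finset.card_image_le.trans ?_))
  rw [Fintype.card_piFinset, Finset.prod_const, Finset.card_univ, ← mul_pow]
  refine Nat.pow_le_pow_left ?_ _
  rw [Int.card_Icc]
  omega

theorem HolF.sq (hF : HolF q F) : HolF (q ^ 2) F := by
  obtain ⟨C, hC⟩ := hF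
  refine ⟨C * 2 ^ Fintype.card α, fun d => ?_⟩
  have h₁ : (funQT (q ^ 2) α).Fil d F ≤ (funQT q α).Fil (2 * d) F := by
    refine Submodule.span_mono ?_
    rintro _ ⟨u, hu, v, hv, rfl⟩
    refine ⟨u, fun i => (hu i).trans (by push_cast; omega), 2 • v, fun i => ?_, ?_⟩
    · have := hv i
      simp only [Pi.smul_apply, nsmul_eq_mul, abs_mul]
      push_cast
      norm_num
      exact this
    · funext n
      simp only [funQT_Q, funQT_E, Units.val_pow_eq_pow_val]
      rw [smul_dotProduct, nsmul_eq_mul, zpow_mul, zpow_natCast]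
  refine (Submodule.finrank_mono h₁).trans ((hC _).trans ?_)
  rw [mul_assoc, ← mul_pow]
  exact Nat.mul_le_mul_left _ (Nat.pow_le_pow_left (by omega) _)

/-- external product -/
theorem HolF.ext {H : (β → ℤ) → K} (hF : HolF q F) (hH : HolF q H) :
    HolF q fun n : α ⊕ β → ℤ => F (fun i => n (Sum.inl i)) * H fun i => n (Sum.inr i) := by
  obtain ⟨C, hC⟩ := hF
  obtain ⟨C', hC'⟩ := hH
  refine ⟨C * C', fun d => ?_⟩
  let B : ((α → ℤ) → K) →ₗ[K] ((β → ℤ) → K) →ₗ[K] ((α ⊕ β → ℤ) → K) :=
    LinearMap.mk₂ K (fun F H n => F (fun i => n (Sum.inl i)) * H fun i => n (Sum.inr i))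
      (fun _ _ _ => by funext n; simp [add_mul]) (fun _ _ _ => by funext n; simp [mul_assoc])
      (fun _ _ _ => by funext n; simp [mul_add]) fun _ _ _ => by funext n; simp [mul_left_comm]
  have h₁ : (funQT q (α ⊕ β)).Fil d (B F H) ≤
      Submodule.map₂ B ((funQT q α).Fil d F) ((funQT q β).Fil d H) := by
    refine Submodule.span_le.2 ?_
    rintro _ ⟨u, hu, v, hv, rfl⟩
    have : (funQT q (α ⊕ β)).Q v ((funQT q (α ⊕ β)).E u (B F H)) =
        B ((funQT q α).Q (fun i => v (Sum.inl i)) ((funQT q α).E (fun i => u (Sum.inl i)) F))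
          ((funQT q β).Q (fun i => v (Sum.inr i)) ((funQT q β).E (fun i => u (Sum.inr i)) H)) := by
      funext n
      simp only [B, funQT_Q, funQT_E, LinearMap.mk₂_apply, dotProduct, Fintype.sum_sum_type,
        zpow_add₀ q.ne_zero, Pi.add_def]
      ring
    rw [this]
    exact Submodule.apply_mem_map₂ _
      (Submodule.subset_span ⟨_, fun i => hu _, _, fun i => hv _, rfl⟩)
      (Submodule.subset_span ⟨_, fun i => hu _, _, fun i => hv _, rfl⟩)
  rw [TensorProduct.map₂_eq_range_lift_comp_mapIncl] at h₁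
  refine (Submodule.finrank_mono h₁).trans ((LinearMap.finrank_range_le _).trans ?_)
  rw [Module.finrank_tensorProduct, Fintype.card_sum, pow_add, mul_mul_mul_comm]
  exact Nat.mul_le_mul (hC d) (hC' d)

variable (hq : ∀ n : ℤ, (q : K) ^ n = 1 → n = 0)
include hq

theorem HolF.pull {H : (β → ℤ) → K} (hH : HolF q H) (n₀ : β → ℤ) (φ : (α → ℤ) →+ (β → ℤ)) :
    HolF q fun n => H (n₀ + φ n) := by
  obtain ⟨ψ, hψ⟩ := exists_transpose φ
  refine QT.Hol.restrict hq (funQT q β) (funQT q α) (LinearMap.funLeft K K fun n => n₀ + φ n) φ ψ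
    (fun z => (q : K) ^ (z ⬝ᵥ n₀)) (fun z => zpow_ne_zero _ q.ne_zero) (fun u x => ?_)
    (fun z x => ?_) hH
  · funext n
    simp [funQT_E, LinearMap.funLeft_apply, add_assoc]
  · funext n
    simp [funQT_Q, LinearMap.funLeft_apply, dotProduct_add, hψ, zpow_add₀ q.ne_zero, mul_assoc]

/-- pull-back along a family of affine forms -/
theorem HolF.comp_aff {H : (β → ℤ) → K} (hH : HolF q H) {f : β → (α → ℤ) → ℤ}
    (hf : ∀ b, IsAff (f b)) : HolF q fun n => H fun b => f b n := by
  choose c φ h using hf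
  refine (hH.pull hq c (AddMonoidHom.pi φ)).congr fun n => ?_
  congr 1
  funext b
  simp [h]

theorem HolF.mul (hF : HolF q F) (hG : HolF q G) : HolF q fun n => F n * G n :=
  (hF.ext hG).comp_aff hq (f := fun b n => n (b.elim id id)) fun _ => isAff_coord _

theorem HolF.finset_prod {σ : Type} (S : Finset σ) {H : σ → (α → ℤ) → K}
    (h : ∀ s ∈ S, HolF q (H s)) : HolF q fun n => ∏ s ∈ S, H s n := by
  classical
  induction S using Finset.induction_on with
  | empty => simpa using holF_const q 1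
  | insert a S ha ih =>
    simp only [Finset.prod_insert ha]
    exact (h a (Finset.mem_insert_self _ _)).mul hq
      (ih fun s hs => h s (Finset.mem_insert_of_mem hs))

end Pool.Agent.P.MP_ac4909_gt
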