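import Pool.Agent.P.MP_ac4909_gt.Root

/-! If the skein module is zero, every sequence of invariants vanishes eventually. -/

namespace Pool.Agent.P.MP_ac4909_gt

open Filter

variable {ι : Type} [DecidableEq ι] {L : List (Sl (Arc ι))}

/-- `lam` respects the defining relations at `A = a` -/
structure Kills (a : ℂ) (lam : List (Sl (Option (Arc ι))) → ℂ) (L : List (Sl (Arc ι))) : Prop where
  isotopy : ∀ w₁ u u' w₂, Move u u' → Run [] (w₁ ++ u ++ w₂) [] →
    lam (w₁ ++ u ++ w₂) = lam (w₁ ++ u' ++ w₂)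
  skein : ∀ w₁ w₂ l r s, lam (w₁ ++ [⟨l, .cr none none s, r⟩] ++ w₂) =
    zp a s * lam (w₁ ++ w₂) + zp a (!s) * lam (w₁ ++ [⟨l, .cap none, r⟩, ⟨l, .cup none, r⟩] ++ w₂)
  loop : ∀ w₁ w₂ l r, lam (w₁ ++ [⟨l, .cup none, r⟩, ⟨l, .cap none, r⟩] ++ w₂) =
    dlt a * lam (w₁ ++ w₂)
  slide : ∀ (D : Diagram L) w₁ w₂ l r x, Run [] w₁ (l ++ some x :: none :: r) → D.1 = w₁ ++ w₂ →
    lam D.1 = lam (cable (pushoff x) w₁ ++
        [⟨l.flatMap (pushoff x) ++ [some x], .cap none, r.flatMap (pushoff x)⟩,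
          ⟨l.flatMap (pushoff x) ++ [some x], .cup none, r.flatMap (pushoff x)⟩] ++
        cable (pushoff x) w₂)

theorem lambda_zp (s : Bool) : theta (if s then RatFunc.X else RatFunc.X⁻¹) =
    ((fun t => zp (aa t) s : ℕ → ℂ) : Germ atTop ℂ) := by
  cases s
  · simpa [zp] using theta_X_zpow (-1)
  · simpa [zp] using theta_X_zpow 1

theorem lambda_dlt : theta (-RatFunc.X ^ 2 - RatFunc.X⁻¹ ^ 2) =
    ((fun t => dlt (aa t) : ℕ → ℂ) : Germ atTop ℂ) := by
  have h1 := lambda_zp true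
  have h2 := lambda_zp false
  simp only [if_true, Bool.false_eq_true, if_false] at h1 h2
  rw [map_sub, map_neg, map_pow, map_pow, h1, h2]
  rfl

theorem eventually_zero_of_subsingleton [Subsingleton (SkeinModule L)]
    (lam : ℕ → List (Sl (Option (Arc ι))) → ℂ) (h : ∀ᶠ t in atTop, Kills (aa t) (lam t) L)
    (D : Diagram L) : ∀ᶠ t in atTop, lam t D.1 = 0 := by
  obtain ⟨Λ, hΛ⟩ : ∃ Λ : (Diagram L →₀ RatFunc ℚ) →+ Germ (atTop : Filter ℕ) ℂ, ∀ E c,
      Λ (Finsupp.single E c) = theta c * ((fun t => lam t E.1 : ℕ → ℂ) : Germ atTop ℂ) :=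
    ⟨Finsupp.liftAddHom fun E => (AddMonoidHom.mulRight _).comp theta.toAddMonoidHom,
      fun E c => Finsupp.liftAddHom_apply_single _ _ _⟩
  have h1 : ∀ c x, Λ (c • x) = theta c * Λ x := by
    intro c x
    induction x using Finsupp.induction_linear with
    | zero => simp
    | add x y hx hy => rw [smul_add, map_add, map_add, hx, hy, mul_add]
    | single E a => rw [Finsupp.smul_single, hΛ, hΛ, smul_eq_mul, map_mul, mul_assoc]
  have h2 : ∀ x ∈ Submodule.span (RatFunc ℚ) {x | Rel L x}, Λ x = 0 := by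
    intro x hx
    induction hx using Submodule.span_induction with
    | zero => exact map_zero _
    | add x y _ _ hx hy => rw [map_add, hx, hy, add_zero]
    | smul c x _ hx => rw [h1, hx, mul_zero]
    | mem x hx =>
      cases hx with
      | isotopy E E' w₁ u u' w₂ hm e1 e2 =>
        rw [map_sub, hΛ, hΛ, map_one, one_mul, one_mul, sub_eq_zero, Germ.coe_eq]
        filter_upwards [h] with t ht
        rw [e1, e2]
        exact ht.isotopy _ _ _ _ hm (e1 ▸ E.2.1)
      | skein E E₀ E₁ w₁ w₂ l r s e1 e2 e3 =>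
        have e4 : (if s then RatFunc.X⁻¹ else RatFunc.X : RatFunc ℚ) =
            if (!s) then RatFunc.X else RatFunc.X⁻¹ := by cases s <;> rfl
        rw [map_sub, map_sub, hΛ, hΛ, hΛ, map_one, one_mul, sub_sub, sub_eq_zero, e4, lambda_zp,
          lambda_zp, ← Germ.coe_mul, ← Germ.coe_mul, ← Germ.coe_add, Germ.coe_eq]
        filter_upwards [h] with t ht
        rw [e1, e2, e3]
        exact ht.skein _ _ _ _ _
      | loop E E₀ w₁ w₂ l r e1 e2 =>
        rw [map_sub, hΛ, hΛ, map_one, one_mul, sub_eq_zero, lambda_dlt, ← Germ.coe_mul, Germ.coe_eq]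
        filter_upwards [h] with t ht
        rw [e1, e2]
        exact ht.loop _ _ _ _
      | handleSlide E E' w₁ w₂ l r a hr e1 e2 =>
        rw [map_sub, hΛ, hΛ, map_one, one_mul, one_mul, sub_eq_zero, Germ.coe_eq]
        filter_upwards [h] with t ht
        rw [e2]
        exact ht.slide E _ _ _ _ _ hr e1
  have h3 := h2 (Finsupp.single D 1)
    ((Submodule.Quotient.mk_eq_zero _).1 (Subsingleton.elim _ _))
  rw [hΛ, map_one, one_mul] at h3
  exact Germ.coe_eq.1 h3

end Pool.Agent.P.MP_ac4909_gt
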