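import Pool.Agent.P.MP_ac4909_gt.Root

/-! The unitary path model on the Dynkin diagram `A_{r-1}`. -/

namespace Pool.Agent.P.MP_ac4909_gt

/-- a Temperley-Lieb model on an inner product space in which caps are minus the adjoints of cups -/
structure UModel (a : ℂ) where
  V : Type
  [nacg : NormedAddCommGroup V]
  [ips : InnerProductSpace ℂ V]
  [nt : Nontrivial V]
  T : TL ℂ (Module.End ℂ V)
  a_eq : T.a = a
  adj : ∀ (i : ℕ) (u v : V), inner ℂ (T.U i u) v = -inner ℂ u (T.C i v)

attribute [instance] UModel.nacg UModel.ips UModel.nt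

namespace PathM

open Function

variable {S : Type}

/-- insert the excursion `w p, v, w p` -/
def ins (p : ℕ) (v : S) (w : ℕ → S) : ℕ → S :=
  fun k => if k ≤ p then w k else if k = p + 1 then v else w (k - 2)

/-- delete the entries `p+1, p+2` -/
def del (p : ℕ) (w : ℕ → S) : ℕ → S := fun k => if k ≤ p then w k else w (k + 2)

theorem ins_le {p k : ℕ} (h : k ≤ p) (v : S) (w : ℕ → S) : ins p v w k = w k := if_pos h

theorem ins_one (p : ℕ) (v : S) (w : ℕ → S) : ins p v w (p + 1) = v := by simp [ins]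

theorem ins_ge {p k : ℕ} (h : p ≤ k) (v : S) (w : ℕ → S) : ins p v w (k + 2) = w k := by
  unfold ins
  rw [if_neg (by omega), if_neg (by omega), Nat.add_sub_cancel]

theorem del_le {p k : ℕ} (h : k ≤ p) (w : ℕ → S) : del p w k = w k := if_pos h

theorem del_gt {p k : ℕ} (h : p < k) (w : ℕ → S) : del p w k = w (k + 2) := if_neg (by omega)

theorem del_ge {p k : ℕ} (h : p ≤ k) {w : ℕ → S} (hw : w (p + 2) = w p) :
    del p w k = w (k + 2) := by
  rcases h.eq_or_lt with rfl | h
  · rw [del_le le_rfl, hw]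
  · exact del_gt h w

theorem del_ins (p : ℕ) (v : S) (w : ℕ → S) : del p (ins p v w) = w := by
  funext k
  rcases le_or_gt k p with h | h
  · rw [del_le h, ins_le h]
  · rw [del_gt h, ins_ge h.le]

theorem ins_del {p : ℕ} {w : ℕ → S} (hw : w (p + 2) = w p) : ins p (w (p + 1)) (del p w) = w := by
  funext k
  rcases le_or_gt k p with h | h
  · rw [ins_le h, del_le h]
  · rcases (Nat.succ_le_of_lt h).eq_or_lt with rfl | h2
    · exact ins_one _ _ _
    · obtain ⟨k, rfl⟩ : ∃ j, k = j + 2 := ⟨k - 2, by omega⟩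
      rw [ins_ge (by omega), del_ge (by omega) hw]

theorem del_ins_succ (p : ℕ) (w : ℕ → S) : del p (ins (p + 1) (w p) w) = w := by
  funext k
  rcases le_or_gt k p with h | h
  · rw [del_le h, ins_le (by omega)]
  · rw [del_gt h, ins_ge h]

theorem del_succ_ins (p : ℕ) (w : ℕ → S) : del (p + 1) (ins p (w (p + 1)) w) = w := by
  funext k
  rcases le_or_gt k p with h | h
  · rw [del_le (by omega), ins_le h]
  · rcases (Nat.succ_le_of_lt h).eq_or_lt with rfl | h2
    · rw [del_le le_rfl, ins_one]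
    · rw [del_gt h2, ins_ge h.le]

theorem del_del {i j : ℕ} (h : i ≤ j) (w : ℕ → S) : del i (del (j + 2) w) = del j (del i w) := by
  funext k
  unfold del
  split_ifs <;> first | rfl | omega

theorem ins_ins {i j : ℕ} (h : i ≤ j) (u v : S) (w : ℕ → S) :
    ins i u (ins j v w) = ins (j + 2) v (ins i u w) := by
  funext k
  unfold ins
  split_ifs <;> first | rfl | omega

theorem del_ins_far {i j : ℕ} (h : i ≤ j) (v : S) {w : ℕ → S} (hw : w (i + 2) = w i) :
    del i (ins (j + 2) v w) = ins j v (del i w) := by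
  funext k
  simp only [del, ins]
  split_ifs <;> first | rfl | omega | (congr 1; omega) | skip
  have h1 : k - 2 = i := by omega
  have h2 : k + 2 - 2 = i + 2 := by omega
  rw [h1, h2, hw]

theorem del_ins_far' {i j : ℕ} (h : i ≤ j) (v : S) (w : ℕ → S) :
    del (j + 2) (ins i v w) = ins i v (del j w) := by
  funext k
  simp only [del, ins]
  split_ifs <;> first | rfl | omega | (congr 1; omega)

variable [Fintype S] [DecidableEq S] (a : S → S → ℝ)

/-- the cup on functions of sequences -/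
noncomputable def cup (p : ℕ) (F : (ℕ → S) → ℂ) (w : ℕ → S) : ℂ :=
  if w (p + 2) = w p then a (w p) (w (p + 1)) * F (del p w) else 0

/-- the cap on functions of sequences -/
noncomputable def cap (p : ℕ) (F : (ℕ → S) → ℂ) (w : ℕ → S) : ℂ :=
  ∑ v, a (w p) v * F (ins p v w)

def Walk (w : ℕ → S) : Prop := ∀ k, a (w k) (w (k + 1)) ≠ 0

/-- finitely supported on walks -/
def Fin0 (F : (ℕ → S) → ℂ) : Prop := (support F).Finite ∧ ∀ w, F w ≠ 0 → Walk a w

variable {a}

omit [Fintype S] in
theorem cup_ins (p : ℕ) (F : (ℕ → S) → ℂ) (v : S) (w : ℕ → S) :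
    cup a p F (ins p v w) = a (w p) v * F w := by
  unfold cup
  rw [ins_ge le_rfl, ins_le le_rfl, if_pos rfl, ins_one, del_ins]

theorem cap_cup {δ : ℝ} (h1 : ∀ u, ∑ v, a u v ^ 2 = δ) (p : ℕ) (F : (ℕ → S) → ℂ) (w : ℕ → S) :
    cap a p (cup a p F) w = δ * F w := by
  unfold cap
  simp only [cup_ins, ← mul_assoc]
  rw [← Finset.sum_mul, ← h1 (w p)]
  push_cast
  simp only [sq]

theorem zig (h2 : ∀ u v, a u v ≠ 0 → a u v * a v u = 1) (p : ℕ) {F : (ℕ → S) → ℂ}
    (hF : Fin0 a F) (w : ℕ → S) : cap a (p + 1) (cup a p F) w = F w := by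
  unfold cap cup
  rw [Finset.sum_eq_single (w p)]
  · rw [ins_one, ins_le (Nat.le_succ p), if_pos rfl, ins_le le_rfl, del_ins_succ]
    by_cases h : F w = 0
    · simp [h]
    · rw [← mul_assoc, ← Complex.ofReal_mul, mul_comm (a _ _), h2 _ _ (hF.2 w h p)]
      simp
  · intro v _ hv
    rw [ins_one, ins_le (Nat.le_succ p), if_neg hv, mul_zero]
  · simp

theorem zag (h2 : ∀ u v, a u v ≠ 0 → a u v * a v u = 1) (p : ℕ) {F : (ℕ → S) → ℂ}
    (hF : Fin0 a F) (w : ℕ → S) : cap a p (cup a (p + 1) F) w = F w := by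
  unfold cap cup
  rw [Finset.sum_eq_single (w (p + 1))]
  · rw [ins_one, ins_ge (Nat.le_succ p), if_pos rfl, ins_ge le_rfl, del_succ_ins]
    by_cases h : F w = 0
    · simp [h]
    · rw [← mul_assoc, ← Complex.ofReal_mul, h2 _ _ (hF.2 w h p)]
      simp
  · intro v _ hv
    rw [ins_one, ins_ge (Nat.le_succ p), if_neg (Ne.symm hv), mul_zero]
  · simp

omit [Fintype S] in
theorem cup_cup {i j : ℕ} (h : i ≤ j) (F : (ℕ → S) → ℂ) (w : ℕ → S) :
    cup a (j + 2) (cup a i F) w = cup a i (cup a j F) w := by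
  unfold cup
  rw [del_le (by omega : i + 2 ≤ j + 2), del_le (by omega : i ≤ j + 2),
    del_le (by omega : i + 1 ≤ j + 2), del_del h]
  by_cases hw : w (i + 2) = w i
  · rw [if_pos hw, if_pos hw, del_ge (by omega) hw, del_ge h hw, del_ge (by omega) hw]
    split_ifs
    · ring
    · rw [mul_zero]
  · simp [hw]

omit [DecidableEq S] in
theorem cap_cap {i j : ℕ} (h : i ≤ j) (F : (ℕ → S) → ℂ) (w : ℕ → S) :
    cap a j (cap a i F) w = cap a i (cap a (j + 2) F) w := by
  unfold cap
  simp only [Finset.mul_sum, ins_le h, ins_ge h, ins_ins h]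
  rw [Finset.sum_comm]
  refine Finset.sum_congr rfl fun u _ => Finset.sum_congr rfl fun v _ => ?_
  ring

theorem cap_cup_far {i j : ℕ} (h : i ≤ j) (F : (ℕ → S) → ℂ) (w : ℕ → S) :
    cap a (j + 2) (cup a i F) w = cup a i (cap a j F) w := by
  unfold cap cup
  simp only [ins_le (by omega : i + 2 ≤ j + 2), ins_le (by omega : i ≤ j + 2),
    ins_le (by omega : i + 1 ≤ j + 2)]
  by_cases hw : w (i + 2) = w i
  · simp only [if_pos hw, del_ins_far h _ hw, del_ge h hw, Finset.mul_sum]
    refine Finset.sum_congr rfl fun v _ => ?_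
    ring
  · simp [hw]

theorem cap_cup_far' {i j : ℕ} (h : i ≤ j) (F : (ℕ → S) → ℂ) (w : ℕ → S) :
    cap a i (cup a (j + 2) F) w = cup a j (cap a i F) w := by
  unfold cap cup
  simp only [ins_ge h, ins_ge (by omega : i ≤ j + 2), del_le h, del_ins_far' h,
    ins_ge (by omega : i ≤ j + 1)]
  by_cases hw : w (j + 2) = w j
  · simp only [if_pos hw, Finset.mul_sum]
    refine Finset.sum_congr rfl fun v _ => ?_
    ring
  · simp [hw]

theorem fin0_cup (h2 : ∀ u v, a u v ≠ 0 → a u v * a v u = 1) (p : ℕ) {F : (ℕ → S) → ℂ}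
    (hF : Fin0 a F) : Fin0 a (cup a p F) := by
  have key : ∀ w, cup a p F w ≠ 0 →
      w (p + 2) = w p ∧ a (w p) (w (p + 1)) ≠ 0 ∧ F (del p w) ≠ 0 := by
    intro w hw
    unfold cup at hw
    by_cases h : w (p + 2) = w p
    · rw [if_pos h] at hw
      exact ⟨h, by simpa using left_ne_zero_of_mul hw, right_ne_zero_of_mul hw⟩
    · exact absurd (if_neg h) hw
  constructor
  · refine ((Set.finite_univ.prod hF.1).image fun x : S × (ℕ → S) => ins p x.1 x.2).subset ?_
    intro w hw
    obtain ⟨h, -, h3⟩ := key w hw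
    exact ⟨(w (p + 1), del p w), ⟨trivial, h3⟩, ins_del h⟩
  · intro w hw k
    obtain ⟨h, h1, h3⟩ := key w hw
    have h4 := hF.2 _ h3
    rcases lt_trichotomy k p with hk | rfl | hk
    · have h5 := h4 k
      rwa [del_le hk.le, del_le hk] at h5
    · exact h1
    · rcases (Nat.succ_le_of_lt hk).eq_or_lt with rfl | hk2
      · rw [show p.succ + 1 = p + 2 from rfl, h]
        exact right_ne_zero_of_mul_eq_one (h2 _ _ h1)
      · obtain ⟨k, rfl⟩ : ∃ j, k = j + 2 := ⟨k - 2, by omega⟩
        have h5 := h4 k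
        rwa [del_ge (by omega) h, del_ge (by omega) h] at h5

omit [DecidableEq S] in
theorem fin0_cap (p : ℕ) {F : (ℕ → S) → ℂ} (hF : Fin0 a F) : Fin0 a (cap a p F) := by
  have key : ∀ w, cap a p F w ≠ 0 → ∃ v, F (ins p v w) ≠ 0 := by
    intro w hw
    obtain ⟨v, -, hv⟩ := Finset.exists_ne_zero_of_sum_ne_zero hw
    exact ⟨v, right_ne_zero_of_mul hv⟩
  constructor
  · refine (hF.1.image (del p)).subset ?_
    intro w hw
    obtain ⟨v, hv⟩ := key w hw
    exact ⟨_, hv, del_ins p v w⟩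
  · intro w hw k
    obtain ⟨v, hv⟩ := key w hw
    have h4 := hF.2 _ hv
    rcases lt_or_ge k p with hk | hk
    · have h5 := h4 k
      rwa [ins_le hk.le, ins_le hk] at h5
    · have h5 := h4 (k + 2)
      rwa [ins_ge hk, show k + 2 + 1 = k + 1 + 2 from rfl, ins_ge (by omega)] at h5

theorem tsum_adj (p : ℕ) {F : (ℕ → S) → ℂ} (hF : Fin0 a F) (G : (ℕ → S) → ℂ) :
    ∑' w, G w * (starRingEnd ℂ) (cup a p F w) = ∑' w, cap a p G w * (starRingEnd ℂ) (F w) := by
  have hinj : Injective fun x : (ℕ → S) × S => ins p x.2 x.1 := by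
    rintro ⟨w, v⟩ ⟨w', v'⟩ h
    have h1 := congrArg (del p) h
    have h2 := congrFun h (p + 1)
    simp only [del_ins, ins_one] at h1 h2
    rw [h1, h2]
  rw [← hinj.tsum_eq (f := fun w => G w * (starRingEnd ℂ) (cup a p F w))]
  · rw [Summable.tsum_prod]
    · refine tsum_congr fun w => ?_
      rw [tsum_fintype]
      unfold cap
      rw [Finset.sum_mul]
      refine Finset.sum_congr rfl fun v _ => ?_
      rw [cup_ins, map_mul, Complex.conj_ofReal]
      ring
    · refine summable_of_hasFiniteSupport ((hF.1.prod Set.finite_univ).subset ?_)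
      rintro ⟨w, v⟩ h
      refine ⟨fun h0 => h ?_, trivial⟩
      simp only at h0
      simp only [cup_ins, h0, mul_zero, map_zero]
  · intro w hw
    by_cases h : w (p + 2) = w p
    · exact ⟨(del p w, w (p + 1)), ins_del h⟩
    · exact absurd (by simp [cup, h]) hw

variable (a)

/-- the space of the model -/
def VV : Submodule ℂ (lp (fun _ : ℕ → S => ℂ) 2) where
  carrier := {F | Fin0 a F}
  zero_mem' := ⟨Set.finite_empty.subset fun w h => h rfl, fun w h => absurd rfl h⟩
  add_mem' := by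
    intro F G hF hG
    refine ⟨(hF.1.union hG.1).subset (support_add _ _), fun w h => ?_⟩
    by_cases h0 : F w = 0
    · refine hG.2 w fun h1 => h ?_
      simp [h0, h1]
    · exact hF.2 w h0
  smul_mem' := by
    intro c F hF
    have key : ∀ w, (c • F) w ≠ 0 → F w ≠ 0 := fun w h h0 => h (by simp [h0])
    exact ⟨hF.1.subset key, fun w h => hF.2 w (key w h)⟩

variable {a}

omit [Fintype S] [DecidableEq S] in
/-- an element of the space -/
def mk (F : (ℕ → S) → ℂ) (hF : Fin0 a F) : VV a :=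
  ⟨⟨F, (memℓp_zero hF.1).of_exponent_ge zero_le⟩, hF⟩

/-- operators on the space -/
noncomputable def op (c : ℂ) (A : ((ℕ → S) → ℂ) → (ℕ → S) → ℂ)
    (hA : ∀ F, Fin0 a F → Fin0 a (A F)) (hadd : ∀ F G, A (F + G) = A F + A G)
    (hsmul : ∀ (c : ℂ) F, A (c • F) = c • A F) : Module.End ℂ (VV a) :=
  c • { toFun := fun F => mk (A F.1) (hA _ F.2)
        map_add' := fun F G => Subtype.ext (Subtype.ext (hadd F.1 G.1))
        map_smul' := fun c F => Subtype.ext (Subtype.ext (hsmul c F.1)) }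

omit [Fintype S] in
theorem cup_add (p : ℕ) (F G : (ℕ → S) → ℂ) : cup a p (F + G) = cup a p F + cup a p G := by
  funext w
  simp only [cup, Pi.add_apply]
  split_ifs
  · ring
  · ring

omit [Fintype S] in
theorem cup_smul (p : ℕ) (c : ℂ) (F : (ℕ → S) → ℂ) : cup a p (c • F) = c • cup a p F := by
  funext w
  simp only [cup, Pi.smul_apply, smul_eq_mul]
  split_ifs
  · ring
  · ring

omit [DecidableEq S] in
theorem cap_add (p : ℕ) (F G : (ℕ → S) → ℂ) : cap a p (F + G) = cap a p F + cap a p G := by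
  funext w
  simp only [cap, Pi.add_apply, mul_add, Finset.sum_add_distrib]

omit [DecidableEq S] in
theorem cap_smul (p : ℕ) (c : ℂ) (F : (ℕ → S) → ℂ) : cap a p (c • F) = c • cap a p F := by
  funext w
  simp only [cap, Pi.smul_apply, smul_eq_mul, Finset.mul_sum]
  refine Finset.sum_congr rfl fun v _ => ?_
  ring

/-- the sign factor -/
noncomputable def sg (p : ℕ) : ℂ := Complex.I * (-1) ^ p

theorem sg_sq (p : ℕ) : sg p * sg p = -1 := by
  unfold sg
  rw [mul_mul_mul_comm, ← mul_pow, Complex.I_mul_I]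
  simp

theorem sg_succ (p : ℕ) : sg (p + 1) = -sg p := by
  unfold sg
  ring

theorem sg_two (p : ℕ) : sg (p + 2) = sg p := by rw [sg_succ, sg_succ, neg_neg]

theorem conj_sg (p : ℕ) : (starRingEnd ℂ) (sg p) = -sg p := by simp [sg]

noncomputable def UU (h2 : ∀ u v, a u v ≠ 0 → a u v * a v u = 1) (p : ℕ) : Module.End ℂ (VV a) :=
  op (sg p) (cup a p) (fun _ => fin0_cup h2 p) (cup_add p) (cup_smul p)

variable (a) in
noncomputable def CC (p : ℕ) : Module.End ℂ (VV a) :=
  op (sg p) (cap a p) (fun _ => fin0_cap p) (cap_add p) (cap_smul p)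

theorem UU_apply (h2 : ∀ u v, a u v ≠ 0 → a u v * a v u = 1) (p : ℕ) (F : VV a) :
    ((UU h2 p F).1 : (ℕ → S) → ℂ) = sg p • cup a p F.1 := rfl

omit [DecidableEq S] in
theorem CC_apply (p : ℕ) (F : VV a) : ((CC a p F).1 : (ℕ → S) → ℂ) = sg p • cap a p F.1 := rfl

omit [Fintype S] [DecidableEq S] in
theorem end_ext {x y : Module.End ℂ (VV a)}
    (h : ∀ (F : VV a) (w : ℕ → S), (x F).1 w = (y F).1 w) : x = y :=
  LinearMap.ext fun F => Subtype.ext (Subtype.ext (funext (h F)))

theorem exists_model (h2 : ∀ u v, a u v ≠ 0 → a u v * a v u = 1) {δ : ℝ}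
    (h1 : ∀ u, ∑ v, a u v ^ 2 = δ) {u v : S} (huv : a u v ≠ 0) {b : ℂ} (hb : b ≠ 0)
    (hδ : dlt b = -(δ : ℂ)) : Nonempty (UModel b) := by
  have hw : Walk a fun k => if k % 2 = 0 then u else v := by
    intro k
    beta_reduce
    rcases Nat.mod_two_eq_zero_or_one k with h | h
    · rwa [if_pos h, if_neg (by omega)]
    · rw [if_neg (by omega), if_pos (by omega)]
      exact right_ne_zero_of_mul_eq_one (h2 _ _ huv)
  obtain ⟨w0, hw0⟩ : ∃ w, Walk a w := ⟨_, hw⟩
  have hfin : Fin0 a (({w0} : Set (ℕ → S)).indicator 1) := by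
    refine ⟨(Set.finite_singleton w0).subset Set.support_indicator_subset, fun w h => ?_⟩
    have h3 : w ∈ ({w0} : Set (ℕ → S)) := Set.support_indicator_subset h
    rwa [Set.mem_singleton_iff.1 h3]
  have hnt : Nontrivial (VV a) := by
    refine ⟨mk _ hfin, 0, fun h => ?_⟩
    have h3 : ({w0} : Set (ℕ → S)).indicator (1 : (ℕ → S) → ℂ) w0 = 0 :=
      congrArg (fun F : VV a => F.1 w0) h
    simp at h3
  refine ⟨{ V := VV a, nt := hnt, a_eq := rfl, adj := ?_
            T := { a := b, ha := hb, U := UU h2, C := CC a, loop := ?_, zig := ?_, zag := ?_,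
                   UU := ?_, CC := ?_, CU := ?_, CU' := ?_ } }⟩
  · intro i
    refine end_ext fun F w => ?_
    change _ = dlt b * F.1 w
    rw [Module.End.mul_apply, CC_apply, UU_apply, cap_smul, smul_smul, sg_sq, Pi.smul_apply,
      cap_cup h1, hδ, smul_eq_mul]
    ring
  · intro i
    refine end_ext fun F w => ?_
    rw [Module.End.mul_apply, CC_apply, UU_apply, cap_smul, smul_smul, sg_succ, neg_mul, sg_sq,
      Pi.smul_apply, zig h2 i F.2, neg_neg, one_smul, Module.End.one_apply]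
  · intro i
    refine end_ext fun F w => ?_
    rw [Module.End.mul_apply, CC_apply, UU_apply, cap_smul, smul_smul, sg_succ, mul_neg, sg_sq,
      Pi.smul_apply, zag h2 i F.2, neg_neg, one_smul, Module.End.one_apply]
  · intro i j h
    refine end_ext fun F w => ?_
    simp only [Module.End.mul_apply, UU_apply, cup_smul, smul_smul, Pi.smul_apply, cup_cup h,
      sg_two, mul_comm (sg j)]
  · intro i j h
    refine end_ext fun F w => ?_
    simp only [Module.End.mul_apply, CC_apply, cap_smul, smul_smul, Pi.smul_apply, cap_cap h,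
      sg_two, mul_comm (sg j)]
  · intro i j h
    refine end_ext fun F w => ?_
    simp only [Module.End.mul_apply, CC_apply, UU_apply, cap_smul, cup_smul, smul_smul,
      Pi.smul_apply, cap_cup_far h, sg_two, mul_comm (sg j)]
  · intro i j h
    refine end_ext fun F w => ?_
    simp only [Module.End.mul_apply, CC_apply, UU_apply, cap_smul, cup_smul, smul_smul,
      Pi.smul_apply, cap_cup_far' h, sg_two, mul_comm (sg j)]
  · intro i F G
    change inner ℂ (UU h2 i F).1 G.1 = -inner ℂ F.1 (CC a i G).1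
    rw [lp.inner_eq_tsum, lp.inner_eq_tsum]
    simp only [UU_apply, CC_apply, Pi.smul_apply, RCLike.inner_apply, smul_eq_mul, map_mul,
      conj_sg, mul_assoc, mul_left_comm _ (-sg i), tsum_mul_left]
    rw [tsum_adj i F.2, neg_mul]

/-- Perron weights of the path with `n` vertices -/
noncomputable def lam (n : ℕ) (v : ℕ) : ℝ := Real.sin (v * (Real.pi / (n + 1)))

theorem lam_pos {n : ℕ} (v : Fin n) : 0 < lam n (v + 1) := by
  have h1 : (0 : ℝ) < Real.pi / (n + 1) := div_pos Real.pi_pos (by positivity)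
  have h2 : (((v : ℕ) + 1 : ℕ) : ℝ) < n + 1 := by exact_mod_cast Nat.succ_lt_succ v.2
  refine Real.sin_pos_of_pos_of_lt_pi (by positivity) ?_
  rw [← mul_div_assoc, div_lt_iff₀ (by positivity)]
  nlinarith [Real.pi_pos]

/-- normalised adjacency of the path -/
noncomputable def adjA (n : ℕ) (u v : Fin n) : ℝ :=
  if (v : ℕ) = u + 1 ∨ (u : ℕ) = v + 1 then √(lam n (v + 1) / lam n (u + 1)) else 0

theorem adjA_mul {n : ℕ} (u v : Fin n) (h : adjA n u v ≠ 0) : adjA n u v * adjA n v u = 1 := by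
  unfold adjA at h ⊢
  by_cases h1 : (v : ℕ) = u + 1 ∨ (u : ℕ) = v + 1
  · have hu := lam_pos u
    have hv := lam_pos v
    rw [if_pos h1, if_pos h1.symm, ← Real.sqrt_mul (by positivity), div_mul_div_cancel₀ hu.ne',
      div_self hv.ne', Real.sqrt_one]
  · exact absurd (if_neg h1) h

theorem adjA_sum {n : ℕ} (u : Fin n) :
    ∑ v, adjA n u v ^ 2 = 2 * Real.cos (Real.pi / (n + 1)) := by
  have hu := lam_pos u
  have h1 : ∀ v : Fin n, adjA n u v ^ 2 = ((if (v : ℕ) = u + 1 then lam n (v + 1) else 0) +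
      if (u : ℕ) = v + 1 then lam n (v + 1) else 0) / lam n (u + 1) := by
    intro v
    have hv := lam_pos v
    unfold adjA
    by_cases h2 : (v : ℕ) = u + 1
    · rw [if_pos (Or.inl h2), if_pos h2, if_neg (by omega), Real.sq_sqrt (by positivity), add_zero]
    · by_cases h3 : (u : ℕ) = v + 1
      · rw [if_pos (Or.inr h3), if_neg h2, if_pos h3, Real.sq_sqrt (by positivity), zero_add]
      · rw [if_neg (by tauto), if_neg h2, if_neg h3]
        simp
  have h2 : ∑ v : Fin n, (if (v : ℕ) = u + 1 then lam n (v + 1) else 0) = lam n (u + 2) := by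
    rw [Fin.sum_univ_eq_sum_range (fun v => if v = u + 1 then lam n (v + 1) else 0),
      Finset.sum_ite_eq']
    split_ifs with h
    · rfl
    · have h3 : (u : ℕ) + 2 = n + 1 := by
        have h4 := u.2
        simp only [Finset.mem_range] at h
        omega
      unfold lam
      rw [h3, Nat.cast_add_one, mul_div_cancel₀ _ (by positivity), Real.sin_pi]
  have h3 : ∑ v : Fin n, (if (u : ℕ) = v + 1 then lam n (v + 1) else 0) = lam n u := by
    rw [Fin.sum_univ_eq_sum_range (fun v => if (u : ℕ) = v + 1 then lam n (v + 1) else 0)]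
    have h4 := u.2
    generalize (u : ℕ) = m at h4
    rcases m with _ | m
    · simp [lam]
    · simp only [Nat.add_right_cancel_iff]
      rw [Finset.sum_ite_eq, if_pos (Finset.mem_range.2 (by omega))]
  simp only [h1]
  rw [← Finset.sum_div, Finset.sum_add_distrib, h2, h3, div_eq_iff hu.ne']
  unfold lam
  push_cast
  generalize Real.pi / (n + 1) = θ
  rw [show ((u : ℕ) + 2 : ℝ) * θ = ((u : ℕ) + 1) * θ + θ by ring,
    show ((u : ℕ) : ℝ) * θ = ((u : ℕ) + 1) * θ - θ by ring, Real.sin_add, Real.sin_sub]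
  ring

end PathM

theorem exists_uModel {t : ℕ} (ht : 2 ≤ t) : Nonempty (UModel (aa t)) := by
  obtain ⟨n, hn⟩ : ∃ n, 2 ^ t = n + 2 + 1 := by
    have h1 : 2 ^ 2 ≤ 2 ^ t := Nat.pow_le_pow_right (by norm_num) ht
    exact ⟨2 ^ t - 3, by omega⟩
  have h2 : (2 : ℝ) ^ t = ((n + 2 : ℕ) : ℝ) + 1 := by exact_mod_cast hn
  refine PathM.exists_model (a := PathM.adjA (n + 2)) PathM.adjA_mul PathM.adjA_sum
    (u := 0) (v := 1) ?_ (aa_ne t) (by rw [dlt_aa, h2])
  unfold PathM.adjA
  rw [if_pos (Or.inl (by simp))]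
  exact (Real.sqrt_pos.2 (div_pos (PathM.lam_pos _) (PathM.lam_pos _))).ne'

end Pool.Agent.P.MP_ac4909_gt
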