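import Mathlib

/-! Modules over a quantum torus, growth of orbits, and the abstract restriction lemma. -/

namespace Pool.Agent.P.MP_ac4909_gt

/-- commuting families of shifts `E u` and characters `Q v` that `q`-commute -/
structure QT {K : Type} [Field K] (q : Kˣ) (α : Type) [Fintype α] (M : Type) [AddCommGroup M]
    [Module K M] where
  E : (α → ℤ) → Module.End K M
  Q : (α → ℤ) → Module.End K M
  E_zero : E 0 = 1
  E_add : ∀ u v, E (u + v) = E u * E v
  Q_zero : Q 0 = 1
  Q_add : ∀ u v, Q (u + v) = Q u * Q v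
  comm : ∀ u v, E u * Q v = ((q : K) ^ (u ⬝ᵥ v)) • (Q v * E u)

/-- integer vectors with entries in `[-d, d]` -/
def box (α : Type) (d : ℕ) : Set (α → ℤ) := {u | ∀ i, |u i| ≤ d}

theorem box_finite (α : Type) [Fintype α] (d : ℕ) : (box α d).Finite :=
  (Set.Finite.pi' fun _ : α => Set.finite_Icc (-(d : ℤ)) d).subset fun _ hu i =>
    Set.mem_Icc.2 (abs_le.1 (hu i))

theorem qt_finrank_le {K : Type} [Field K] {M M' : Type} [AddCommGroup M] [Module K M]
    [AddCommGroup M'] [Module K M'] {σ : Type} (S : Finset σ) (f : σ → M) (g : σ → M')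
    (h : ∀ c : σ → K, ∑ z ∈ S, c z • f z = 0 → ∑ z ∈ S, c z • g z = 0) :
    Module.finrank K (Submodule.span K (g '' S)) ≤ Module.finrank K (Submodule.span K (f '' S)) := by
  classical
  have hk : LinearMap.ker (Fintype.linearCombination K fun z : S => f z) ≤
      LinearMap.ker (Fintype.linearCombination K fun z : S => g z) := by
    intro c hc
    rw [LinearMap.mem_ker, Fintype.linearCombination_apply] at hc ⊢
    have := h (fun z => if hz : z ∈ S then c ⟨z, hz⟩ else 0) (by
      rw [← Finset.sum_coe_sort, ← hc]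
      exact Finset.sum_congr rfl fun z _ => by rw [dif_pos z.2])
    rw [← Finset.sum_coe_sort] at this
    rw [← this]
    exact Finset.sum_congr rfl fun z _ => by rw [dif_pos z.2]
  have h1 := LinearMap.finrank_range_add_finrank_ker (Fintype.linearCombination K fun z : S => f z)
  have h2 := LinearMap.finrank_range_add_finrank_ker (Fintype.linearCombination K fun z : S => g z)
  have h3 := Submodule.finrank_mono hk
  rw [Fintype.range_linearCombination] at h1 h2
  have e1 : (Set.range fun z : S => f z) = f '' S := (Set.image_eq_range f (S : Set σ)).symm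
  have e2 : (Set.range fun z : S => g z) = g '' S := (Set.image_eq_range g (S : Set σ)).symm
  rw [e1] at h1
  rw [e2] at h2
  omega

variable {K : Type} [Field K] {q q' : Kˣ} {α β : Type} [Fintype α] [Fintype β]
  {M M' : Type} [AddCommGroup M] [Module K M] [AddCommGroup M'] [Module K M']

namespace QT

/-- span of the monomials of degree at most `d` applied to `x` -/
def Fil (T : QT q α M) (d : ℕ) (x : M) : Submodule K M :=
  Submodule.span K {y | ∃ u ∈ box α d, ∃ v ∈ box α d, y = T.Q v (T.E u x)}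

/-- holonomic growth -/
def Hol (T : QT q α M) (x : M) : Prop :=
  ∃ C : ℕ, ∀ d : ℕ, Module.finrank K (T.Fil d x) ≤ C * (d + 1) ^ Fintype.card α

instance Fil_finite (T : QT q α M) (d : ℕ) (x : M) : Module.Finite K (T.Fil d x) := by
  refine Module.Finite.span_of_finite K ((((box_finite α d).prod (box_finite α d)).image
    fun z => T.Q z.2 (T.E z.1 x)).subset ?_)
  rintro y ⟨u, hu, v, hv, rfl⟩
  exact ⟨(u, v), ⟨hu, hv⟩, rfl⟩

theorem mem_Fil (T : QT q α M) {d : ℕ} (x : M) {u v : α → ℤ} (hu : u ∈ box α d)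
    (hv : v ∈ box α d) : T.Q v (T.E u x) ∈ T.Fil d x :=
  Submodule.subset_span ⟨u, hu, v, hv, rfl⟩

theorem Fil_mono (T : QT q α M) {d d' : ℕ} (h : d ≤ d') (x : M) : T.Fil d x ≤ T.Fil d' x := by
  refine Submodule.span_le.2 ?_
  rintro y ⟨u, hu, v, hv, rfl⟩
  have h' : (d : ℤ) ≤ d' := Int.ofNat_le.2 h
  exact T.mem_Fil x (fun i => (hu i).trans h') (fun i => (hv i).trans h')

/-- exchange of shifts and characters -/
def swap (T : QT q α M) : QT q⁻¹ α M where
  E := T.Q
  Q := T.E
  E_zero := T.Q_zero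
  E_add := T.Q_add
  Q_zero := T.E_zero
  Q_add := T.E_add
  comm := fun u v => by
    rw [T.comm v u, smul_smul, dotProduct_comm v u, Units.val_inv_eq_inv_val, inv_zpow,
      inv_mul_cancel₀ (zpow_ne_zero _ q.ne_zero), one_smul]

theorem Fil_swap (T : QT q α M) (d : ℕ) (x : M) : T.swap.Fil d x = T.Fil d x := by
  apply le_antisymm
  · refine Submodule.span_le.2 ?_
    rintro y ⟨u, hu, v, hv, rfl⟩
    have e : T.swap.Q v (T.swap.E u x) = ((q : K) ^ (v ⬝ᵥ u)) • T.Q u (T.E v x) :=
      LinearMap.congr_fun (T.comm v u) x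
    rw [e]
    exact Submodule.smul_mem _ _ (T.mem_Fil x hv hu)
  · refine Submodule.span_le.2 ?_
    rintro y ⟨u, hu, v, hv, rfl⟩
    have e : T.Q v (T.E u x) = (((q⁻¹ : Kˣ) : K) ^ (v ⬝ᵥ u)) • T.swap.Q u (T.swap.E v x) :=
      LinearMap.congr_fun (T.swap.comm v u) x
    rw [e]
    exact Submodule.smul_mem _ _ (T.swap.mem_Fil x hv hu)

theorem hol_swap (T : QT q α M) (x : M) : T.swap.Hol x ↔ T.Hol x := by
  unfold Hol
  refine exists_congr fun C => forall_congr' fun d => ?_
  rw [Fil_swap]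

theorem Hol.add {T : QT q α M} {x y : M} (hx : T.Hol x) (hy : T.Hol y) : T.Hol (x + y) := by
  obtain ⟨C, hC⟩ := hx
  obtain ⟨C', hC'⟩ := hy
  refine ⟨C + C', fun d => ?_⟩
  have h : T.Fil d (x + y) ≤ T.Fil d x ⊔ T.Fil d y := by
    refine Submodule.span_le.2 ?_
    rintro z ⟨u, hu, v, hv, rfl⟩
    rw [map_add, map_add]
    exact Submodule.add_mem_sup (T.mem_Fil x hu hv) (T.mem_Fil y hu hv)
  have h1 := Submodule.finrank_mono h
  have h2 := Submodule.finrank_add_le_finrank_add_finrank (T.Fil d x) (T.Fil d y)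
  have h3 := hC d
  have h4 := hC' d
  rw [add_mul]
  omega

theorem Hol.smul {T : QT q α M} {x : M} (hx : T.Hol x) (c : K) : T.Hol (c • x) := by
  obtain ⟨C, hC⟩ := hx
  refine ⟨C, fun d => le_trans (Submodule.finrank_mono (Submodule.span_le.2 ?_)) (hC d)⟩
  rintro z ⟨u, hu, v, hv, rfl⟩
  rw [map_smul, map_smul]
  exact Submodule.smul_mem _ _ (T.mem_Fil x hu hv)

theorem hol_zero (T : QT q α M) : T.Hol 0 := by
  refine ⟨0, fun d => ?_⟩
  have h : T.Fil d 0 = ⊥ := by
    refine Submodule.span_eq_bot.2 ?_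
    rintro z ⟨u, -, v, -, rfl⟩
    rw [map_zero, map_zero]
  rw [h, finrank_bot]
  exact Nat.zero_le _

/-- growth can be read off along an injective equivariant map -/
theorem hol_of_injective (T : QT q α M) (T' : QT q' α M') (j : M →ₗ[K] M')
    (hj : Function.Injective j) (hE : ∀ u x, j (T.E u x) = T'.E u (j x))
    (hQ : ∀ v x, j (T.Q v x) = T'.Q v (j x)) {x : M} (h : T'.Hol (j x)) : T.Hol x := by
  obtain ⟨C, hC⟩ := h
  refine ⟨C, fun d => le_trans ?_ (hC d)⟩
  rw [(Submodule.equivMapOfInjective j hj (T.Fil d x)).finrank_eq]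
  refine Submodule.finrank_mono (Submodule.map_le_iff_le_comap.2 (Submodule.span_le.2 ?_))
  rintro z ⟨u, hu, v, hv, rfl⟩
  change j (T.Q v (T.E u x)) ∈ T'.Fil d (j x)
  rw [hQ, hE]
  exact T'.mem_Fil _ hu hv

/-- every linear relation between the monomials applied to `x` also holds for `y`, up to the
exchange of shifts and characters -/
theorem hol_of_rel (T : QT q α M) (T' : QT q' α M') {x : M} {y : M'} (h : T.Hol x)
    (hrel : ∀ (S : Finset ((α → ℤ) × (α → ℤ))) (c : (α → ℤ) × (α → ℤ) → K),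
      ∑ z ∈ S, c z • T.Q z.2 (T.E z.1 x) = 0 → ∑ z ∈ S, c z • T'.E z.2 (T'.Q (-z.1) y) = 0) :
    T'.Hol y := by
  obtain ⟨C, hC⟩ := h
  refine ⟨C, fun d => le_trans ?_ (hC d)⟩
  have h1 := qt_finrank_le (K := K) ((box_finite α d).prod (box_finite α d)).toFinset
    (fun z => T.Q z.2 (T.E z.1 x)) (fun z => T'.E z.2 (T'.Q (-z.1) y)) (hrel _)
  rw [Set.Finite.coe_toFinset] at h1
  have e1 : T.Fil d x = Submodule.span K
      ((fun z : (α → ℤ) × (α → ℤ) => T.Q z.2 (T.E z.1 x)) '' box α d ×ˢ box α d) := by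
    unfold Fil
    congr 1
    ext z
    constructor
    · rintro ⟨u, hu, v, hv, rfl⟩
      exact ⟨(u, v), ⟨hu, hv⟩, rfl⟩
    · rintro ⟨w, hw, rfl⟩
      exact ⟨w.1, hw.1, w.2, hw.2, rfl⟩
  have hneg : ∀ u ∈ box α d, -u ∈ box α d := fun u hu i => by
    rw [Pi.neg_apply, abs_neg]
    exact hu i
  have e2 : T'.Fil d y = Submodule.span K
      ((fun z : (α → ℤ) × (α → ℤ) => T'.E z.2 (T'.Q (-z.1) y)) '' box α d ×ˢ box α d) := by
    rw [← Fil_swap]
    unfold Fil
    congr 1
    ext z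
    constructor
    · rintro ⟨u, hu, v, hv, rfl⟩
      refine ⟨(-u, v), ⟨hneg u hu, hv⟩, ?_⟩
      simp only [neg_neg]
      rfl
    · rintro ⟨w, hw, rfl⟩
      exact ⟨-w.1, hneg _ hw.1, w.2, hw.2, rfl⟩
  rw [e1, e2]
  exact h1

/-- a holonomic vector satisfies a nontrivial recurrence in every coordinate direction -/
theorem Hol.exists_rel [DecidableEq α] {T : QT q α M} {x : M} (h : T.Hol x) (i : α) :
    ∃ (S : Finset (ℤ × (α → ℤ))) (c : ℤ × (α → ℤ) → K), (∃ z ∈ S, c z ≠ 0) ∧
      ∑ z ∈ S, c z • T.Q z.2 (T.E (Pi.single i z.1) x) = 0 := by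
  by_contra hcon
  have hli : LinearIndependent K
      fun z : ℤ × (α → ℤ) => T.Q z.2 (T.E (Pi.single i z.1) x) := by
    refine linearIndependent_iff'.2 fun S c hc z hz => ?_
    by_contra h0
    exact hcon ⟨S, c, ⟨z, hz, h0⟩, hc⟩
  obtain ⟨C, hC⟩ := h
  set S : Finset (ℤ × (α → ℤ)) :=
    Finset.Icc (0 : ℤ) C ×ˢ Fintype.piFinset fun _ : α => Finset.Icc (0 : ℤ) C with hS
  have hcard : S.card = (C + 1) * (C + 1) ^ Fintype.card α := by
    rw [hS, Finset.card_product, Fintype.card_piFinset]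
    simp
  have h1 := finrank_span_eq_card (hli.comp (fun z : S => (z : ℤ × (α → ℤ))) Subtype.val_injective)
  have h2 : Submodule.span K (Set.range ((fun z : ℤ × (α → ℤ) =>
      T.Q z.2 (T.E (Pi.single i z.1) x)) ∘ fun z : S => (z : ℤ × (α → ℤ)))) ≤ T.Fil C x := by
    refine Submodule.span_le.2 ?_
    rintro y ⟨⟨z, hz⟩, rfl⟩
    obtain ⟨a1, a2⟩ := Finset.mem_product.1 hz
    have b1 := Finset.mem_Icc.1 a1
    refine T.mem_Fil x (fun k => ?_) (fun k => ?_)
    · by_cases hk : k = i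
      · subst hk
        rw [Pi.single_eq_same, abs_of_nonneg b1.1]
        exact b1.2
      · rw [Pi.single_eq_of_ne hk, abs_zero]
        exact Int.natCast_nonneg C
    · have b2 := Finset.mem_Icc.1 (Fintype.mem_piFinset.1 a2 k)
      rw [abs_of_nonneg b2.1]
      exact b2.2
  have h3 := Submodule.finrank_mono h2
  rw [h1, Fintype.card_coe, hcard] at h3
  have h4 := Nat.le_of_mul_le_mul_right (h3.trans (hC C)) (by positivity)
  omega

end QT

end Pool.Agent.P.MP_ac4909_gt
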