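import Pool.Agent.P.MP_ac4909_gt.SplitData

/-! The Chebyshev recursion for coloured evaluations, closed and with a break. -/

namespace Pool.Agent.P.MP_ac4909_gt

variable {K : Type} [Field K] {R : Type} [Ring R] [Algebra K R] {ι : Type} [DecidableEq ι]

namespace TL

open Function

variable (T : TL K R)

section Aux
variable {T} {α : Type}

private theorem sandwich {n n' : α → ℕ} {I P : α → ℕ → R} (hI : ∀ x, T.Loc (n' x) (n x) (I x))
    (hP : ∀ x, T.Loc (n x) (n' x) (P x)) (l mid r : List α) {y : ℕ → R}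
    (hy : T.Loc (wid n mid) (wid n mid) y) :
    row n P (l ++ (mid ++ r)) 0 * y (wid n l) * row n' I (l ++ (mid ++ r)) 0 =
      row n' (fun x q => P x q * I x q) l 0 *
        (row n P mid (wid n' l) * y (wid n' l) * row n' I mid (wid n' l)) *
        row n' (fun x q => P x q * I x q) r (wid n' l + wid n' mid) := by
  have hA := loc_row hI l
  have hB := loc_row hI mid
  have e1 := hA.far' hy 0 (wid n' l) (wid n l) (by omega) (by omega)
  have e2 := hA.far' (loc_row hP r) 0 (wid n' l + wid n mid) (wid n l + wid n mid) (by omega)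
    (by omega)
  have e3 := hA.far' (loc_row hP mid) 0 (wid n' l) (wid n l) (by omega) (by omega)
  have e4 := hy.far' (loc_row hP r) (wid n' l) (wid n' l + wid n mid) (wid n' l + wid n mid)
    (by omega) (by omega)
  have e5 := hB.far' (loc_row hP r) (wid n' l) (wid n' l + wid n' mid) (wid n' l + wid n mid)
    (by omega) (by omega)
  rw [← row_mul_row hI hP l, ← row_mul_row hI hP r]
  simp only [row_append, zero_add]
  generalize row n P l 0 = A at *
  generalize row n' I l 0 = A' at *
  generalize row n' I mid (wid n' l) = B' at *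
  generalize row n' I r (wid n' l + wid n' mid) = C' at *
  generalize row n P mid = B at *
  generalize row n P r = C at *
  calc A * (B (wid n l) * C (wid n l + wid n mid)) * y (wid n l) * (A' * (B' * C'))
      = A * (B (wid n l) * (C (wid n l + wid n mid) * (y (wid n l) * A'))) * (B' * C') := by
        simp only [mul_assoc]
    _ = A * (A' * B (wid n' l) * (C (wid n' l + wid n mid) * y (wid n' l))) * (B' * C') := by
        rw [← e1, ← mul_assoc (C _), ← e2, e3]; simp only [mul_assoc]
    _ = A * A' * (B (wid n' l) * y (wid n' l)) * (C (wid n' l + wid n mid) * B') * C' := by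
        rw [← e4]; simp only [mul_assoc]
    _ = _ := by rw [← e5]; simp only [mul_assoc]

variable [Rev α] {c : Col α R}

private theorem ev_mul_rowL (hc : T.Good c) {l r : List α} {w : List (Sl α)}
    (hw : Run (l ++ r) w []) : T.ev c w * row c.n c.F l 0 = T.ev c w := by
  have e := (loc_row hc.loc l).far' (loc_row hc.loc r) 0 (wid c.n l) (wid c.n l) (by omega) rfl
  have h := hc.ev_mul_row hw
  rw [row_append, zero_add, e] at h
  rw [← h, mul_assoc, mul_assoc, hc.row_idem]

private theorem rowR_mul_ev (hc : T.Good c) {l r : List α} {w : List (Sl α)}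
    (hw : Run [] w (l ++ r)) : row c.n c.F r (wid c.n l) * T.ev c w = T.ev c w := by
  have e := (loc_row hc.loc l).far' (loc_row hc.loc r) 0 (wid c.n l) (wid c.n l) (by omega) rfl
  have h := hc.row_mul_ev hw
  rw [row_append, zero_add, e] at h
  rw [← h, ← mul_assoc, ← mul_assoc, hc.row_idem]

private theorem iso_break {c' : Col α R} {I P : α → ℕ → R} (h : T.Iso c c' I P) (hc : T.Good c)
    (hc' : T.Good c') {l mid r : List α} {w₁ w₂ : List (Sl α)}
    (h₁ : Run [] w₁ (l ++ (mid ++ r))) (h₂ : Run (l ++ (mid ++ r)) w₂ []) {y : ℕ → R}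
    (hy : T.Loc (wid c.n mid) (wid c.n mid) y) :
    T.ev c w₂ * y (wid c.n l) * T.ev c w₁ =
      T.ev c' w₂ * (row c.n P mid (wid c'.n l) * y (wid c'.n l) * row c'.n I mid (wid c'.n l)) *
        T.ev c' w₁ := by
  have t₁ := h.transfer hc hc' h₁
  have t₂ := h.transfer hc hc' h₂
  simp only [row, mul_one, one_mul] at t₁ t₂
  have hIP : (fun x q => I x q * P x q) = c.F := funext fun x => funext fun q => h.IP x q
  have hPI : (fun x q => P x q * I x q) = c'.F := funext fun x => funext fun q => h.PI x q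
  have t₃ : T.ev c w₂ = T.ev c' w₂ * row c.n P (l ++ (mid ++ r)) 0 := by
    rw [← t₂, mul_assoc, row_mul_row h.locP h.locI, hIP, hc.ev_mul_row h₂]
  have s := sandwich h.locI h.locP l mid r hy
  rw [hPI] at s
  have a₁ := ev_mul_rowL hc' h₂
  have a₂ := rowR_mul_ev hc' (l := l ++ mid) (r := r) (by rwa [List.append_assoc])
  rw [wid_append] at a₂
  calc T.ev c w₂ * y (wid c.n l) * T.ev c w₁
      = T.ev c' w₂ * (row c.n P (l ++ (mid ++ r)) 0 * y (wid c.n l) *
          row c'.n I (l ++ (mid ++ r)) 0) * T.ev c' w₁ := by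
        rw [t₁]; conv_lhs => rw [t₃]
        simp only [mul_assoc]
    _ = (T.ev c' w₂ * row c'.n c'.F l 0) *
          (row c.n P mid (wid c'.n l) * y (wid c'.n l) * row c'.n I mid (wid c'.n l)) *
          (row c'.n c'.F r (wid c'.n l + wid c'.n mid) * T.ev c' w₁) := by
        rw [s]; simp only [mul_assoc]
    _ = _ := by rw [a₁, a₂]

end Aux

private theorem adm_update {m : ι → ℕ} (hadm : ∀ i', Adm T.a (m i')) (i : ι) {k : ℕ}
    (hk : Adm T.a k) (i' : ι) : Adm T.a (update m i k i') := by
  by_cases h : i' = i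
  · subst h; rwa [update_self]
  · rw [update_of_ne h]; exact hadm i'

omit [DecidableEq ι] in
private theorem jc_zero (m : ι → ℕ) (sd : ι → Bool) : T.jc m 0 sd = T.jw m := by
  unfold jw jc jcA
  simp

private theorem core (k q : ℕ) (hk : Adm T.a (k + 1)) :
    T.C (q + k) * T.f (k + 1) q * (T.U (q + (k + 1)) * T.C (q + (k + 1))) *
      (T.f (k + 1) q * T.U (q + k)) = T.f (k + 1) q := by
  have e1 := (T.loc_f (k + 1)).far' T.loc_U q (q + (k + 1)) (q + (k + 1)) le_rfl rfl
  have e2 := (T.loc_f (k + 1)).far' T.loc_C q (q + (k + 1)) (q + (k + 1)) le_rfl rfl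
  have z1 : T.C (q + k) * T.U (q + (k + 1)) = 1 := T.zag (q + k)
  have z2 : T.C (q + (k + 1)) * T.U (q + k) = 1 := T.zig (q + k)
  calc _ = T.C (q + k) * (T.f (k + 1) q * T.U (q + (k + 1))) *
        (T.C (q + (k + 1)) * T.f (k + 1) q) * T.U (q + k) := by simp only [mul_assoc]
    _ = (T.C (q + k) * T.U (q + (k + 1))) * (T.f (k + 1) q * T.f (k + 1) q) *
        (T.C (q + (k + 1)) * T.U (q + k)) := by rw [e1, ← e2]; simp only [mul_assoc]
    _ = _ := by rw [z1, z2, T.f_idem hk, one_mul, mul_one]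

theorem split_closed {L : List (Sl (Arc ι))} (hL : IsFramedLink L) (D : Diagram L)
    (m j : ι → ℕ) (sd : ι → Bool) (i : ι) (k h : ℕ) (hm : m i = k + 1) (hj : j i = h + 1)
    (hadm : ∀ i', Adm T.a (m i')) (hk : Adm T.a (k + 2)) :
    T.ev (T.jc m j sd) D.1 = T.ev (T.jc (update m i (k + 2)) (update j i h) sd) D.1 +
      T.ev (T.jc (update m i k) (update j i h) sd) D.1 := by
  obtain ⟨c₂, I, P, hs, hi, -⟩ := T.exists_split m j sd i k h hm hj hadm hk
  rw [hs.expand hL D, hi.ev_eq hs.g₂
    (T.good_jc _ _ (T.adm_update hadm i (hk.mono (by omega)))) D.2.1]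

/-- component `i` has colour `k+1`; at the break its last strand is joined to the strand of `J` -/
def uu (m : ι → ℕ) (i : ι) (w₁ w₂ : List (Sl (Option (Arc ι)))) (l : List (Option (Arc ι)))
    (k : ℕ) : R :=
  T.ev (T.jw (update m i (k + 1))) w₂ *
    (T.U (wid (T.jw (update m i (k + 1))).n l + k) * T.C (wid (T.jw (update m i (k + 1))).n l + k)) *
    T.ev (T.jw (update m i (k + 1))) w₁

/-- component `i` has colour `k`; at the break `f (k+1)` joins it with the strand of `J` -/
def vv (m : ι → ℕ) (i : ι) (w₁ w₂ : List (Sl (Option (Arc ι)))) (l : List (Option (Arc ι)))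
    (k : ℕ) : R :=
  T.ev (T.jw (update m i k)) w₂ * T.f (k + 1) (wid (T.jw (update m i k)).n l) *
    T.ev (T.jw (update m i k)) w₁

/-- component `a.name` has colour `f k ⊗ 1`; at the break the extra strand is joined to `J` -/
def bb (m : ι → ℕ) (a : Arc ι) (w₁ w₂ : List (Sl (Option (Arc ι)))) (l : List (Option (Arc ι)))
    (k : ℕ) : R :=
  T.ev (T.jc (update m a.name k) (Pi.single a.name 1) fun _ => a.up) w₂ *
    (T.U (wid (T.jw (update m a.name (k + 1))).n l + k) *
      T.C (wid (T.jw (update m a.name (k + 1))).n l + k)) *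
    T.ev (T.jc (update m a.name k) (Pi.single a.name 1) fun _ => a.up) w₁

theorem bb_zero (m : ι → ℕ) (a : Arc ι) (w₁ w₂ : List (Sl (Option (Arc ι))))
    (l : List (Option (Arc ι))) : T.bb m a w₁ w₂ l 0 = T.uu m a.name w₁ w₂ l 0 := by
  have e : (T.jc (update m a.name 0) (Pi.single a.name 1) fun _ => a.up) =
      T.jw (update m a.name (0 + 1)) := by
    unfold jw jc jcA
    congr 2
    · funext b
      by_cases h : b.name = a.name
      · simp [h]
      · simp [h]
    · funext b p
      by_cases h : b.name = a.name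
      · simp [h, f]
      · simp [h]
  unfold bb uu
  rw [e]

theorem bb_succ {L : List (Sl (Arc ι))} (hL : IsFramedLink L) (D : Diagram L)
    {w₁ w₂ : List (Sl (Option (Arc ι)))} {l r : List (Option (Arc ι))} {a : Arc ι}
    (hD : D.1 = w₁ ++ w₂) (hρ : Run [] w₁ (l ++ some a :: none :: r)) (m : ι → ℕ) (k : ℕ)
    (hadm : ∀ i', Adm T.a (m i')) (hk : Adm T.a (k + 2)) :
    T.bb m a w₁ w₂ l (k + 1) =
      T.uu m a.name w₁ w₂ l (k + 1) + kap T.a k • T.vv m a.name w₁ w₂ l k := by
  obtain ⟨i, u⟩ := a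
  have hk1 : Adm T.a (k + 1) := hk.mono (by omega)
  obtain ⟨c₂, I, P, hs, hi, hI, hP, hoff⟩ := T.exists_split (update m i (k + 1)) (Pi.single i 1)
    (fun _ => u) i k 0 (update_self ..) (Pi.single_eq_same ..) (T.adm_update hadm i hk1) hk
  have hj : update (Pi.single i 1 : ι → ℕ) i 0 = 0 := by
    funext i'
    by_cases h : i' = i
    · subst h; simp
    · simp [h]
  rw [update_idem, hj, jc_zero] at hs hi
  have hnn : ¬Named i (none : Option (Arc ι)) := by rintro ⟨b, hb⟩; cases hb
  have hn : (T.jc (update m i (k + 1)) (Pi.single i 1) fun _ => u).n (some ⟨i, u⟩) = k + 2 := by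
    simp [jc, jcA, Col.opt]
  have hy : T.Loc (k + 1 + 2) (k + 1 + 2) fun p => T.U (p + (k + 1)) * T.C (p + (k + 1)) :=
    (Loc.U (k + 1) (k + 1) le_rfl).mul (Loc.C (k + 1) (k + 1) le_rfl)
  have hw : (T.jc (update m i (k + 1)) (Pi.single i 1) fun _ => u).n (some ⟨i, u⟩) +
      wid (T.jc (update m i (k + 1)) (Pi.single i 1) fun _ => u).n [none] = k + 1 + 2 := by
    rw [hn]; rfl
  have hb := hs.expand_break hL D (l := l) (mid := [none]) (r := r) (x := some ⟨i, u⟩) hD hρ
    ⟨u, rfl⟩ (by simpa using hnn) (hy.cast hw.symm hw.symm fun _ => rfl)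
  have h₂ : Run (l ++ some ⟨i, u⟩ :: none :: r) w₂ [] := by
    have := D.2.1
    rw [hD, run_append] at this
    obtain ⟨σ, h1, h2⟩ := this
    rwa [hρ.unique h1]
  have hw₂ : wid c₂.n [some ⟨i, u⟩, none] = k + 1 + 2 := by
    rw [hs.n₂, wid_cons]; exact hw
  have hc := iso_break hi hs.g₂ (T.good_jc _ _ (T.adm_update hadm i (hk.mono (by omega))))
    (l := l) (mid := [some ⟨i, u⟩, none]) (r := r) hρ h₂ (hy.cast hw₂.symm hw₂.symm fun _ => rfl)
  have hF : ∀ p, (T.jc (update m i (k + 1)) (Pi.single i 1) fun _ => u).F none p = 1 :=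
    fun _ => rfl
  simp only [row, (hoff none hnn).1, (hoff none hnn).2, hF, mul_one, hI, hP, smul_mul_assoc,
    T.core k _ hk1, mul_smul_comm] at hc
  rw [hs.n₂] at hc
  rw [hc, ← hs.n₁] at hb
  exact hb

end TL

end Pool.Agent.P.MP_ac4909_gt
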