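import Pool.Agent.P.MP_ac4909_gt.Expand

/-! `f (k+1) ⊗ 1 = f (k+2) + Q`, and `Q` is isomorphic to `f k`. -/

namespace Pool.Agent.P.MP_ac4909_gt

variable {K : Type} [Field K] {R : Type} [Ring R] [Algebra K R] {ι : Type} [DecidableEq ι]

namespace TL

open Function Rev

omit [DecidableEq ι] in
theorem splitData_cases (i : ι) (b : Bool) (x : Option (Arc ι)) :
    x = some ⟨i, b⟩ ∨ x = some ⟨i, !b⟩ ∨ ¬Named i x := by
  by_cases hx : Named i x
  · obtain ⟨c, rfl⟩ := hx
    cases b <;> cases c <;> simp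
  · exact Or.inr (Or.inr hx)

omit [DecidableEq ι] in
theorem splitData_rev {i : ι} {x : Option (Arc ι)} (hx : ¬Named i x) : ¬Named i (rev x) := by
  rintro ⟨b, hb⟩
  refine hx ⟨!b, ?_⟩
  rw [← rev_rev x, hb]
  rfl

theorem splitData_off (T : TL K R) (m j : ι → ℕ) (sd : ι → Bool) (i : ι) (a b : ℕ)
    {x : Option (Arc ι)} (hx : ¬Named i x) :
    (T.jc (update m i a) (update j i b) sd).n x = (T.jc m j sd).n x ∧
      (T.jc (update m i a) (update j i b) sd).F x = (T.jc m j sd).F x := by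
  rcases x with _ | ⟨i', c⟩
  · exact ⟨rfl, rfl⟩
  · have hi : i' ≠ i := fun h => hx ⟨c, by rw [h]⟩
    simp [jc, jcA, Col.opt, update_of_ne hi]

omit [DecidableEq ι] in
theorem splitData_n (T : TL K R) (m j : ι → ℕ) (sd : ι → Bool) (i : ι) (b : Bool) :
    (T.jc m j sd).n (some ⟨i, b⟩) = m i + j i := rfl

omit [DecidableEq ι] in
theorem splitData_F (T : TL K R) (m j : ι → ℕ) (sd : ι → Bool) (i : ι) :
    (T.jc m j sd).F (some ⟨i, sd i⟩) = T.f (m i) := by
  funext p
  simp [jc, jcA, Col.opt]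

omit [DecidableEq ι] in
theorem splitData_F' (T : TL K R) (m j : ι → ℕ) (sd : ι → Bool) (i : ι) :
    (T.jc m j sd).F (some ⟨i, !sd i⟩) = fun p => T.f (m i) (p + j i) := by
  funext p
  simp [jc, jcA, Col.opt]

theorem exists_split (T : TL K R) (m j : ι → ℕ) (sd : ι → Bool) (i : ι) (k h : ℕ)
    (hm : m i = k + 1) (hj : j i = h + 1) (hadm : ∀ i', Adm T.a (m i')) (hk : Adm T.a (k + 2)) :
    ∃ (c₂ : Col (Option (Arc ι)) R) (I P : Option (Arc ι) → ℕ → R),
      T.Splits i (T.jc m j sd) (T.jc (update m i (k + 2)) (update j i h) sd) c₂ ∧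
      T.Iso c₂ (T.jc (update m i k) (update j i h) sd) I P ∧
      (∀ p, I (some ⟨i, sd i⟩) p = T.f (k + 1) p * T.U (p + k)) ∧
      (∀ p, P (some ⟨i, sd i⟩) p = kap T.a k • (T.C (p + k) * T.f (k + 1) p)) ∧
      ∀ x, ¬Named i x → I x = (T.jc m j sd).F x ∧ P x = (T.jc m j sd).F x := by
  classical
  have adm : ∀ a, a ≤ k + 2 → ∀ i', Adm T.a (update m i a i') := fun a ha i' => by
    by_cases hi : i' = i
    · subst hi
      rw [update_self]
      exact hk.mono ha
    · rw [update_of_ne hi]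
      exact hadm i'
  have hk1 : Adm T.a (k + 1) := hk.mono (by omega)
  have g₀ := T.good_jc j sd hadm
  have g₁ := T.good_jc (update j i h) sd (adm (k + 2) le_rfl)
  have g' := T.good_jc (update j i h) sd (adm k (by omega))
  have o₁ := fun x (hx : ¬Named i x) => T.splitData_off m j sd i (k + 2) h hx
  have o' := fun x (hx : ¬Named i x) => T.splitData_off m j sd i k h hx
  have n₀ : ∀ b, (T.jc m j sd).n (some ⟨i, b⟩) = k + 2 + h := fun b => by
    rw [splitData_n, hm, hj]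
    omega
  have n₁ : ∀ b, (T.jc (update m i (k + 2)) (update j i h) sd).n (some ⟨i, b⟩) = k + 2 + h :=
    fun b => by rw [splitData_n, update_self, update_self]
  have n' : ∀ b, (T.jc (update m i k) (update j i h) sd).n (some ⟨i, b⟩) = k + h :=
    fun b => by rw [splitData_n, update_self, update_self]
  have a₀ : (T.jc m j sd).F (some ⟨i, sd i⟩) = T.f (k + 1) := by rw [splitData_F, hm]
  have b₀ : (T.jc m j sd).F (some ⟨i, !sd i⟩) = fun p => T.f (k + 1) (p + h + 1) := by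
    rw [splitData_F', hm, hj]
    rfl
  have a₁ : (T.jc (update m i (k + 2)) (update j i h) sd).F (some ⟨i, sd i⟩) = T.f (k + 2) := by
    rw [splitData_F, update_self]
  have b₁ : (T.jc (update m i (k + 2)) (update j i h) sd).F (some ⟨i, !sd i⟩) =
      fun p => T.f (k + 2) (p + h) := by
    rw [splitData_F', update_self, update_self]
  have a' : (T.jc (update m i k) (update j i h) sd).F (some ⟨i, sd i⟩) = T.f k := by
    rw [splitData_F, update_self]
  generalize T.jc (update m i k) (update j i h) sd = c' at *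
  generalize T.jc (update m i (k + 2)) (update j i h) sd = c₁ at *
  generalize T.jc m j sd = c₀ at *
  have hn : c₁.n = c₀.n := funext fun x => by
    by_cases hx : Named i x
    · obtain ⟨b, rfl⟩ := hx
      rw [n₀, n₁]
    · exact (o₁ x hx).1
  have ab : ∀ x p, Named i x → c₀.F x p * c₁.F x p = c₁.F x p ∧ c₁.F x p * c₀.F x p = c₁.F x p := by
    intro x p hx
    rcases splitData_cases i (sd i) x with rfl | rfl | hx'
    · rw [a₀, a₁]
      exact ⟨T.f_mul_f' (j := 0) hk (by omega) p, T.f_mul_f (j := 0) hk (by omega) p⟩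
    · rw [b₀, b₁]
      exact ⟨T.f_mul_f' (j := 1) hk (by omega) _, T.f_mul_f (j := 1) hk (by omega) _⟩
    · exact absurd hx hx'
  obtain ⟨c₂, n₂, on₂, off₂⟩ : ∃ c₂ : Col (Option (Arc ι)) R, c₂.n = c₀.n ∧
      (∀ x, Named i x → c₂.F x = fun p => c₀.F x p - c₁.F x p) ∧
      ∀ x, ¬Named i x → c₂.F x = c₀.F x :=
    ⟨⟨c₀.n, fun x => if Named i x then fun p => c₀.F x p - c₁.F x p else c₀.F x⟩, rfl,
      fun x hx => if_pos hx, fun x hx => if_neg hx⟩
  have g₂ : T.Good c₂ := by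
    refine ⟨fun x => by rw [n₂, g₀.n_rev], fun x => ?_, fun x p => ?_, fun x => ?_⟩
    · by_cases hx : Named i x
      · rw [n₂, on₂ x hx]
        exact (g₀.loc x).sub (hn ▸ g₁.loc x)
      · rw [n₂, off₂ x hx]
        exact g₀.loc x
    · by_cases hx : Named i x
      · rw [on₂ x hx]
        beta_reduce
        rw [mul_sub, sub_mul, sub_mul, g₀.idem, g₁.idem, (ab x p hx).1, (ab x p hx).2, sub_self,
          sub_zero]
      · rw [off₂ x hx]
        exact g₀.idem x p
    · by_cases hx : Named i x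
      · have hx' : Named i (rev x) := by
          by_contra h0
          exact splitData_rev h0 (by rwa [rev_rev])
        rw [n₂, on₂ x hx, on₂ _ hx']
        exact (g₀.rot x).sub (hn ▸ g₁.rot x)
      · rw [n₂, off₂ x hx, off₂ _ (splitData_rev hx)]
        exact g₀.rot x
  have lf : T.Loc (k + 2 + h) (k + 2 + h) (T.f (k + 1)) :=
    ((T.loc_f (k + 1)).padR (h + 1)).cast (by omega) (by omega) fun _ => rfl
  have lI : T.Loc (k + h) (k + 2 + h) fun p => T.f (k + 1) p * T.U (p + k) :=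
    lf.mul ((Loc.U (k + h) k (by omega)).cast rfl (by omega) fun _ => rfl)
  have lP : T.Loc (k + 2 + h) (k + h) fun p => kap T.a k • (T.C (p + k) * T.f (k + 1) p) :=
    (((Loc.C (k + h) k (by omega)).cast (m' := k + 2 + h) (by omega) rfl fun _ => rfl).mul lf).smul _
  have IP : ∀ p, T.f (k + 1) p * T.U (p + k) * kap T.a k • (T.C (p + k) * T.f (k + 1) p) =
      c₂.F (some ⟨i, sd i⟩) p := fun p => by
    rw [on₂ _ ⟨_, rfl⟩, a₀, a₁]
    simp only [f, mul_smul_comm, mul_assoc, sub_sub_cancel]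
  have PI : ∀ p, kap T.a k • (T.C (p + k) * T.f (k + 1) p) * (T.f (k + 1) p * T.U (p + k)) =
      c'.F (some ⟨i, sd i⟩) p := fun p => by
    have d0 := hk k (by omega)
    have d1 := hk (k + 1) (by omega)
    rw [a', smul_mul_assoc, mul_assoc, ← mul_assoc (T.f _ _), T.f_idem hk1, ← mul_assoc,
      T.f_ptr hk1, smul_smul, kap, div_mul_div_cancel₀ d1, div_self d0, one_smul]
  have IF : ∀ p, T.f (k + 1) p * T.U (p + k) * c'.F (some ⟨i, sd i⟩) p =
      T.f (k + 1) p * T.U (p + k) := fun p => by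
    have e : T.f (k + 1) p * T.f k p = T.f (k + 1) p := T.f_mul_f (j := 0) hk1 (by omega) p
    rw [a', mul_assoc, ← (T.loc_f k).far' T.loc_U p (p + k) (p + k) le_rfl rfl, ← mul_assoc, e]
  have FP : ∀ p, c'.F (some ⟨i, sd i⟩) p * kap T.a k • (T.C (p + k) * T.f (k + 1) p) =
      kap T.a k • (T.C (p + k) * T.f (k + 1) p) := fun p => by
    have e : T.f k p * T.f (k + 1) p = T.f (k + 1) p := T.f_mul_f' (j := 0) hk1 (by omega) p
    rw [a', mul_smul_comm, ← mul_assoc, (T.loc_f k).far' T.loc_C p (p + k) (p + k) le_rfl rfl,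
      mul_assoc, e]
  have m₂ : ∀ b, c₂.n (some ⟨i, b⟩) = k + 2 + h := fun b => by rw [n₂, n₀]
  obtain ⟨I', P', lI', lP', IP', PI', IF', FP', r, r'⟩ := exists_rot_iso
    (G := c₂.F (some ⟨i, !sd i⟩)) (G' := c'.F (some ⟨i, !sd i⟩)) lI lP
    (m₂ _ ▸ g₂.loc _) (n' _ ▸ g'.loc _) IP PI IF FP (m₂ _ ▸ g₂.rot _) (n' _ ▸ g'.rot _)
  have pick : ∀ u v : ℕ → R, ∃ J : Option (Arc ι) → ℕ → R, J (some ⟨i, sd i⟩) = u ∧
      J (some ⟨i, !sd i⟩) = v ∧ ∀ x, ¬Named i x → J x = c₀.F x := fun u v => by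
    refine ⟨fun x => if x = some ⟨i, sd i⟩ then u else if x = some ⟨i, !sd i⟩ then v else c₀.F x,
      if_pos rfl, ?_, fun x hx => ?_⟩
    · simp
    · beta_reduce
      rw [if_neg fun e => hx ⟨_, e⟩, if_neg fun e => hx ⟨_, e⟩]
  obtain ⟨I, I₁, I₂, I₃⟩ := pick (fun p => T.f (k + 1) p * T.U (p + k)) I'
  obtain ⟨P, P₁, P₂, P₃⟩ := pick (fun p => kap T.a k • (T.C (p + k) * T.f (k + 1) p)) P'
  refine ⟨c₂, I, P, ⟨g₀, g₁, g₂, hn, n₂, fun x hx => ⟨(o₁ x hx).2, off₂ x hx⟩, fun x p hx => ?_,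
    fun x p hx => ?_, fun x p hx => ?_⟩, ⟨fun x => ?_, fun x => ?_, fun x p => ?_, fun x p => ?_,
    fun x p => ?_, fun x p => ?_, fun x => ?_⟩, fun p => by rw [I₁], fun p => by rw [P₁],
    fun x hx => ⟨I₃ x hx, P₃ x hx⟩⟩
  · rw [on₂ x hx, add_sub_cancel]
  · rw [on₂ x hx, mul_sub, g₁.idem, (ab x p hx).2, sub_self]
  · rw [on₂ x hx, sub_mul, g₁.idem, (ab x p hx).1, sub_self]
  · rcases splitData_cases i (sd i) x with rfl | rfl | hx
    · rwa [I₁, m₂, n']
    · rwa [I₂, m₂, n']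
    · rw [I₃ x hx, n₂, (o' x hx).1]
      exact g₀.loc x
  · rcases splitData_cases i (sd i) x with rfl | rfl | hx
    · rwa [P₁, m₂, n']
    · rwa [P₂, m₂, n']
    · rw [P₃ x hx, n₂, (o' x hx).1]
      exact g₀.loc x
  · rcases splitData_cases i (sd i) x with rfl | rfl | hx
    · rw [I₁, P₁]
      exact IP p
    · rw [I₂, P₂, IP']
    · rw [I₃ x hx, P₃ x hx, off₂ x hx, g₀.idem]
  · rcases splitData_cases i (sd i) x with rfl | rfl | hx
    · rw [I₁, P₁]
      exact PI p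
    · rw [I₂, P₂, PI']
    · rw [I₃ x hx, P₃ x hx, (o' x hx).2, g₀.idem]
  · rcases splitData_cases i (sd i) x with rfl | rfl | hx
    · rw [I₁]
      exact IF p
    · rw [I₂, IF']
    · rw [I₃ x hx, (o' x hx).2, g₀.idem]
  · rcases splitData_cases i (sd i) x with rfl | rfl | hx
    · rw [P₁]
      exact FP p
    · rw [P₂, FP']
    · rw [P₃ x hx, (o' x hx).2, g₀.idem]
  · rcases splitData_cases i (sd i) x with rfl | rfl | hx
    · rwa [rev_some, rev_arc, P₁, I₂, m₂, n']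
    · rwa [rev_some, rev_arc, Bool.not_not, P₂, I₁, m₂, n']
    · rw [P₃ x hx, I₃ _ (splitData_rev hx), n₂, (o' x hx).1]
      exact g₀.rot x

end TL

end Pool.Agent.P.MP_ac4909_gt
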