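import Pool.Agent.P.MP_ac4909_gt.Defs

/-!
Temperley-Lieb models on infinitely many strands, cabled cups/caps/crossings, Jones-Wenzl
elements, coloured evaluation of sliced diagrams.  Products are compositions: the right factor is
applied first (it is lower in the picture).  `U p` inserts a cup whose arms are the new strands
number `p, p+1`; `C p` caps off the strands number `p, p+1`.
-/

namespace Pool.Agent.P.MP_ac4909_gt

open Rev

section Scalars
variable {K : Type} [Field K]

/-- loop value -/
def dlt (a : K) : K := -a ^ 2 - a⁻¹ ^ 2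

/-- `Δ m`, the Chebyshev polynomial `S_m` at the loop value -/
def Dl (a : K) : ℕ → K
  | 0 => 1
  | 1 => dlt a
  | m + 2 => dlt a * Dl a (m + 1) - Dl a m

def kap (a : K) (m : ℕ) : K := Dl a m / Dl a (m + 1)

/-- eigenvalue of the meridian loop on the colour `m` -/
def mu (a : K) (m : ℕ) : K := -a ^ (2 * m + 2) - a⁻¹ ^ (2 * m + 2)

def zp (a : K) (s : Bool) : K := if s then a else a⁻¹

/-- the Jones-Wenzl elements on at most `n` strands are genuine -/
def Adm (a : K) (n : ℕ) : Prop := ∀ j, j < n → Dl a j ≠ 0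

/-- evaluation of an integral Laurent polynomial -/
noncomputable def lev (a : K) (ha : a ≠ 0) : LaurentPolynomial ℤ →+* K :=
  LaurentPolynomial.eval₂ (Int.castRingHom K) (Units.mk0 a ha)

end Scalars

structure TL (K : Type) [Field K] (R : Type) [Ring R] [Algebra K R] where
  a : K
  ha : a ≠ 0
  U : ℕ → R
  C : ℕ → R
  loop : ∀ i, C i * U i = algebraMap K R (dlt a)
  zig : ∀ i, C (i + 1) * U i = 1
  zag : ∀ i, C i * U (i + 1) = 1
  UU : ∀ i j, i ≤ j → U (j + 2) * U i = U i * U j
  CC : ∀ i j, i ≤ j → C j * C i = C i * C (j + 2)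
  CU : ∀ i j, i ≤ j → C (j + 2) * U i = U i * C j
  CU' : ∀ i j, i ≤ j → C i * U (j + 2) = U j * C i

variable {K : Type} [Field K] {R : Type} [Ring R] [Algebra K R]

namespace TL
variable (T : TL K R)

/-- crossing of the strands `p, p+1`; the lower left strand is on top iff `s` -/
def sig (s : Bool) (p : ℕ) : R := zp T.a s • (1 : R) + zp T.a (!s) • (T.U p * T.C p)

/-- the strand `p+m` crosses the strands `p, …, p+m-1` from right to left -/
def X (s : Bool) : ℕ → ℕ → R
  | 0, _ => 1
  | m + 1, p => T.sig s p * X s m (p + 1)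

/-- `crC s m n p`: `m` strands at `p` cross the `n` strands on their right -/
def crC (s : Bool) (m : ℕ) : ℕ → ℕ → R
  | 0, _ => 1
  | n + 1, p => crC s m n (p + 1) * T.X s m p

/-- `m` nested cups at position `p` -/
def cupC : ℕ → ℕ → R
  | 0, _ => 1
  | m + 1, p => cupC m (p + 1) * T.U p

/-- `m` nested caps at position `p` -/
def capC : ℕ → ℕ → R
  | 0, _ => 1
  | m + 1, p => T.C p * capC m (p + 1)

/-- Jones-Wenzl element on the strands `p, …, p+n-1` (Wenzl recursion) -/
def f : ℕ → ℕ → R
  | 0, _ => 1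
  | 1, _ => 1
  | m + 2, p => f (m + 1) p - kap T.a m • (f (m + 1) p * T.U (p + m) * T.C (p + m) * f (m + 1) p)

/-- `Loc m n x`: `x p` is a Temperley-Lieb morphism from the `m` strands at `p` to `n` strands -/
inductive Loc : ℕ → ℕ → (ℕ → R) → Prop
  | one (m : ℕ) : Loc m m fun _ => 1
  | U (m j : ℕ) : j ≤ m → Loc m (m + 2) fun p => T.U (p + j)
  | C (m j : ℕ) : j ≤ m → Loc (m + 2) m fun p => T.C (p + j)
  | mul {m n k : ℕ} {x y : ℕ → R} : Loc n k y → Loc m n x → Loc m k fun p => y p * x p
  | add {m n : ℕ} {x y : ℕ → R} : Loc m n x → Loc m n y → Loc m n fun p => x p + y p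
  | smul {m n : ℕ} {x : ℕ → R} (c : K) : Loc m n x → Loc m n fun p => c • x p
  | zero (m n : ℕ) : Loc m n fun _ => 0

/-- `y : n → m` is the rotation by a half turn of `x : m → n` -/
def Rot (m n : ℕ) (x y : ℕ → R) : Prop :=
  ∀ p, x p * T.cupC m p = y (p + n) * T.cupC n p

end TL

/-- a colouring: each label gets a number of strands and an element on these strands -/
structure Col (α : Type) (R : Type) where
  n : α → ℕ
  F : α → ℕ → R

variable {α β ι : Type}

/-- total width of a row -/
def wid (n : α → ℕ) (l : List α) : ℕ := (l.map n).sum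

/-- side by side product of `I x`, where `I x` has `n x` input strands -/
def row (n : α → ℕ) (I : α → ℕ → R) : List α → ℕ → R
  | [], _ => 1
  | x :: ρ, p => I x p * row n I ρ (p + n x)

def Col.comap (c : Col β R) (φ : α → β) : Col α R := ⟨fun x => c.n (φ x), fun x => c.F (φ x)⟩

/-- strands labelled `none` get a single plain strand -/
def Col.opt (c : Col α R) : Col (Option α) R :=
  ⟨fun x => x.elim 1 c.n, fun x => x.elim (fun _ => 1) c.F⟩

def Col.plain (n : α → ℕ) : Col α R := ⟨n, fun _ _ => 1⟩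

/-- colouring induced by a cabling -/
def Col.tens (c : Col β R) (κ : α → List β) : Col α R :=
  ⟨fun x => wid c.n (κ x), fun x => row c.n c.F (κ x)⟩

namespace TL
variable (T : TL K R)

def gval (c : Col α R) : Gen α → ℕ → R
  | .cup o, p => c.F o p * T.cupC (c.n o) p
  | .cap o, p => T.capC (c.n o) p * c.F o p
  | .cr x y s, p => T.crC s (c.n x) (c.n y) p

def val (c : Col α R) (s : Sl α) : R := T.gval c s.g (wid c.n s.l)

/-- coloured evaluation of a word of slices -/
def ev (c : Col α R) : List (Sl α) → R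
  | [] => 1
  | s :: w => ev c w * T.val c s

structure Good [Rev α] (c : Col α R) : Prop where
  n_rev : ∀ x, c.n (rev x) = c.n x
  loc : ∀ x, T.Loc (c.n x) (c.n x) (c.F x)
  idem : ∀ x p, c.F x p * c.F x p = c.F x p
  rot : ∀ x, T.Rot (c.n x) (c.n x) (c.F x) (c.F (rev x))

/-- `I x : c' x → c x` and `P x : c x → c' x` are mutually inverse isomorphisms of the colours,
compatible with rotation -/
structure Iso [Rev α] (c c' : Col α R) (I P : α → ℕ → R) : Prop where
  locI : ∀ x, T.Loc (c'.n x) (c.n x) (I x)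
  locP : ∀ x, T.Loc (c.n x) (c'.n x) (P x)
  IP : ∀ x p, I x p * P x p = c.F x p
  PI : ∀ x p, P x p * I x p = c'.F x p
  IF : ∀ x p, I x p * c'.F x p = I x p
  FP : ∀ x p, c'.F x p * P x p = P x p
  rot : ∀ x, T.Rot (c.n x) (c'.n x) (P x) (I (rev x))

/-- component `i` is cabled by `f (m i)` and `j i` further plain strands, which lie to the right
of the strands labelled `⟨i, sd i⟩` -/
def jcA (m j : ι → ℕ) (sd : ι → Bool) : Col (Arc ι) R :=
  ⟨fun a => m a.name + j a.name,
    fun a p => if a.up = sd a.name then T.f (m a.name) p else T.f (m a.name) (p + j a.name)⟩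

def jc (m j : ι → ℕ) (sd : ι → Bool) : Col (Option (Arc ι)) R := (T.jcA m j sd).opt

/-- Jones-Wenzl colouring -/
abbrev jw (m : ι → ℕ) : Col (Option (Arc ι)) R := T.jc m 0 fun _ => true

/-- Kirby colour: `Σ_{m ≤ N} Π Δ(m i) ⟨D; f (m i)⟩` -/
noncomputable def om [Fintype ι] [DecidableEq ι] (N : ℕ) (D : List (Sl (Option (Arc ι)))) : R :=
  ∑ m ∈ Fintype.piFinset fun _ : ι => Finset.range (N + 1),
    (∏ i, Dl T.a (m i)) • T.ev (T.jw m) D

end TL

/-- the label is a strand of component `i` -/
def Named (i : ι) (x : Option (Arc ι)) : Prop := ∃ b, x = some ⟨i, b⟩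

/-- `L` seen as a diagram with empty `J` -/
def lift (L : List (Sl α)) : List (Sl (Option α)) := L.map (Sl.map some)

end Pool.Agent.P.MP_ac4909_gt
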