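import Pool.Agent.P.MP_ac4909_gt.TLDefs

/-! Locality: far commutation, padding, nested cups and caps. -/

namespace Pool.Agent.P.MP_ac4909_gt

variable {K : Type} [Field K] {R : Type} [Ring R] [Algebra K R]

namespace TL
variable {T : TL K R} {m n m' n' : ℕ} {x y : ℕ → R}

private theorem U_far (hy : T.Loc m' n' y) (i q : ℕ) (h : i ≤ q) :
    T.U i * y q = y (q + 2) * T.U i := by
  induction hy with
  | one => simp
  | U m j _ => beta_reduce; rw [show q + 2 + j = q + j + 2 by omega, T.UU i (q + j) (by omega)]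
  | C m j _ => beta_reduce; rw [show q + 2 + j = q + j + 2 by omega, T.CU i (q + j) (by omega)]
  | mul _ _ ih₁ ih₂ => rw [← mul_assoc, ih₁, mul_assoc, ih₂, mul_assoc]
  | add _ _ ih₁ ih₂ => rw [mul_add, add_mul, ih₁, ih₂]
  | smul c _ ih => rw [mul_smul_comm, smul_mul_assoc, ih]
  | zero => simp

private theorem C_far (hy : T.Loc m' n' y) (i q : ℕ) (h : i ≤ q) :
    T.C i * y (q + 2) = y q * T.C i := by
  induction hy with
  | one => simp
  | U m j _ => beta_reduce; rw [show q + 2 + j = q + j + 2 by omega, T.CU' i (q + j) (by omega)]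
  | C m j _ => beta_reduce; rw [show q + 2 + j = q + j + 2 by omega, T.CC i (q + j) (by omega)]
  | mul _ _ ih₁ ih₂ => rw [← mul_assoc, ih₁, mul_assoc, ih₂, mul_assoc]
  | add _ _ ih₁ ih₂ => rw [mul_add, add_mul, ih₁, ih₂]
  | smul c _ ih => rw [mul_smul_comm, smul_mul_assoc, ih]
  | zero => simp

theorem Loc.far (hx : T.Loc m n x) (hy : T.Loc m' n' y) (p j : ℕ) :
    x p * y (p + m + j) = y (p + n + j) * x p := by
  induction hx with
  | one => simp
  | U m i hi =>
    rw [show p + (m + 2) + j = p + m + j + 2 by omega]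
    exact U_far hy _ _ (by omega)
  | C m i hi =>
    rw [show p + (m + 2) + j = p + m + j + 2 by omega]
    exact C_far hy _ _ (by omega)
  | mul _ _ ih₁ ih₂ => rw [mul_assoc, ih₂, ← mul_assoc, ih₁, mul_assoc]
  | add _ _ ih₁ ih₂ => rw [mul_add, add_mul, ih₁, ih₂]
  | smul c _ ih => rw [mul_smul_comm, smul_mul_assoc, ih]
  | zero => simp

/-- `far` with side conditions that `omega` can discharge -/
theorem Loc.far' (hx : T.Loc m n x) (hy : T.Loc m' n' y) (p q q' : ℕ) (h₁ : p + m ≤ q)
    (h₂ : q + n = q' + m) : x p * y q = y q' * x p := by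
  obtain ⟨j, rfl⟩ := Nat.exists_eq_add_of_le h₁
  rw [show q' = p + n + j by omega]
  exact hx.far hy p j

theorem Loc.cast (hx : T.Loc m n x) (hm : m = m') (hn : n = n') (h : ∀ p, x p = y p) :
    T.Loc m' n' y := by
  subst hm hn
  rwa [← funext h]

theorem Loc.padR (hx : T.Loc m n x) (j : ℕ) : T.Loc (m + j) (n + j) x := by
  induction hx with
  | one => exact .one _
  | U m i hi => exact (Loc.U (m + j) i (by omega)).cast rfl (by omega) fun _ => rfl
  | C m i hi => exact (Loc.C (m + j) i (by omega)).cast (by omega) rfl fun _ => rfl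
  | mul _ _ ih₁ ih₂ => exact ih₁.mul ih₂
  | add _ _ ih₁ ih₂ => exact ih₁.add ih₂
  | smul c _ ih => exact ih.smul c
  | zero => exact .zero _ _

theorem Loc.padL (hx : T.Loc m n x) (j : ℕ) : T.Loc (j + m) (j + n) fun p => x (p + j) := by
  induction hx with
  | one => exact .one _
  | U m i hi =>
    exact (Loc.U (j + m) (j + i) (by omega)).cast rfl (by omega) fun _ => by simp only [add_assoc]
  | C m i hi =>
    exact (Loc.C (j + m) (j + i) (by omega)).cast (by omega) rfl fun _ => by simp only [add_assoc]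
  | mul _ _ ih₁ ih₂ => exact ih₁.mul ih₂
  | add _ _ ih₁ ih₂ => exact ih₁.add ih₂
  | smul c _ ih => exact ih.smul c
  | zero => exact .zero _ _

theorem Loc.neg (hx : T.Loc m n x) : T.Loc m n fun p => -x p :=
  (hx.smul (-1)).cast rfl rfl fun _ => by simp

theorem Loc.sub (hx : T.Loc m n x) (hy : T.Loc m n y) : T.Loc m n fun p => x p - y p :=
  (hx.add hy.neg).cast rfl rfl fun _ => by simp [sub_eq_add_neg]

/-- side by side product -/
theorem Loc.tens (hx : T.Loc m n x) (hy : T.Loc m' n' y) :
    T.Loc (m + m') (n + n') fun p => x p * y (p + m) :=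
  (hx.padR n').mul (hy.padL m)

variable (T)

theorem loc_U : T.Loc 0 2 T.U := (Loc.U 0 0 le_rfl).cast rfl rfl fun _ => rfl

theorem loc_C : T.Loc 2 0 T.C := (Loc.C 0 0 le_rfl).cast rfl rfl fun _ => rfl

theorem loc_sig (s : Bool) : T.Loc 2 2 (T.sig s) :=
  (((Loc.one 2).smul _).add ((T.loc_U.mul T.loc_C).smul _)).cast rfl rfl fun _ => rfl

theorem loc_X (s : Bool) (m : ℕ) : T.Loc (m + 1) (m + 1) (T.X s m) := by
  induction m with
  | zero => exact (Loc.one 1).cast rfl rfl fun _ => rfl
  | succ m ih =>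
    exact ((((T.loc_sig s).padR m).cast (m' := m + 1 + 1) (n' := m + 1 + 1) (by omega) (by omega)
      fun _ => rfl).mul ((ih.padL 1).cast (m' := m + 1 + 1) (by omega) (by omega)
      fun _ => rfl)).cast rfl rfl fun _ => rfl

theorem loc_crC (s : Bool) (m n : ℕ) : T.Loc (m + n) (n + m) (T.crC s m n) := by
  induction n with
  | zero => exact (Loc.one m).cast rfl (by omega) fun _ => rfl
  | succ n ih =>
    exact (((ih.padL 1).cast (m' := m + (n + 1)) (n' := n + 1 + m) (by omega) (by omega)
      fun _ => rfl).mul (((T.loc_X s m).padR n).cast (m' := m + (n + 1)) (by omega) (by omega)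
      fun _ => rfl)).cast rfl rfl fun _ => rfl

theorem loc_cupC (m : ℕ) : T.Loc 0 (m + m) (T.cupC m) := by
  induction m with
  | zero => exact (Loc.one 0).cast rfl rfl fun _ => rfl
  | succ m ih =>
    exact ((((ih.padL 1).padR 1).cast (m' := 2) (n' := m + 1 + (m + 1)) (by omega) (by omega)
      fun _ => rfl).mul T.loc_U).cast rfl rfl fun _ => rfl

theorem loc_capC (m : ℕ) : T.Loc (m + m) 0 (T.capC m) := by
  induction m with
  | zero => exact (Loc.one 0).cast rfl rfl fun _ => rfl
  | succ m ih =>
    exact (T.loc_C.mul (((ih.padL 1).padR 1).cast (m' := m + 1 + (m + 1)) (n' := 2) (by omega)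
      (by omega) fun _ => rfl)).cast rfl rfl fun _ => rfl

theorem loc_f (n : ℕ) : T.Loc n n (T.f n) := by
  induction n using Nat.twoStepInduction with
  | zero => exact (Loc.one 0).cast rfl rfl fun _ => rfl
  | one => exact (Loc.one 1).cast rfl rfl fun _ => rfl
  | more m _ ih =>
    have h := ih.padR 1
    exact (h.sub ((((h.mul (Loc.U m m le_rfl)).mul (Loc.C m m le_rfl)).mul h).smul
      (kap T.a m))).cast rfl rfl fun _ => rfl

theorem cupC_add (m n p : ℕ) : T.cupC (m + n) p = T.cupC n (p + m) * T.cupC m p := by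
  induction m generalizing p with
  | zero => simp [cupC]
  | succ m ih =>
    rw [show m + 1 + n = (m + n) + 1 by omega, cupC, ih, cupC, mul_assoc,
      show p + 1 + m = p + (m + 1) by omega]

theorem capC_add (m n p : ℕ) : T.capC (m + n) p = T.capC m p * T.capC n (p + m) := by
  induction m generalizing p with
  | zero => simp [capC]
  | succ m ih =>
    rw [show m + 1 + n = (m + n) + 1 by omega, capC, ih, capC, mul_assoc,
      show p + 1 + m = p + (m + 1) by omega]

theorem cupC_one (p : ℕ) : T.cupC 1 p = T.U p := by simp [cupC]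

theorem capC_one (p : ℕ) : T.capC 1 p = T.C p := by simp [capC]

theorem zigC (m p : ℕ) : T.capC m (p + m) * T.cupC m p = 1 := by
  induction m generalizing p with
  | zero => simp [cupC, capC]
  | succ m ih =>
    have h := (T.loc_cupC m).far' T.loc_C (p + 1) (p + 1) (p + (m + 1) + m) (by omega) (by omega)
    rw [capC_add, capC_one, cupC, mul_assoc, ← mul_assoc (T.C _), ← h, mul_assoc, T.zig, mul_one,
      show p + (m + 1) = p + 1 + m by omega, ih]

theorem zagC (m p : ℕ) : T.capC m p * T.cupC m (p + m) = 1 := by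
  induction m generalizing p with
  | zero => simp [cupC, capC]
  | succ m ih =>
    have h := T.loc_C.far' (T.loc_cupC m) (p + m) (p + (m + 1) + 1) (p + m) (by omega) (by omega)
    rw [capC_add, capC_one, cupC, mul_assoc, ← mul_assoc (T.C _), h, mul_assoc,
      show p + (m + 1) = p + m + 1 by omega, T.zag, mul_one, ih]

end TL

end Pool.Agent.P.MP_ac4909_gt
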