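import Pool.Agent.P.MP_ac4909_gt.TLLoc

/-! Rotation of local elements by a half turn. -/

namespace Pool.Agent.P.MP_ac4909_gt

variable {K : Type} [Field K] {R : Type} [Ring R] [Algebra K R]

namespace TL
variable {T : TL K R} {m n k : ℕ} {x y x' y' : ℕ → R}

theorem rot_one (T : TL K R) (m : ℕ) : T.Rot m m (fun _ => 1) fun _ => 1 := fun _ => rfl

theorem Rot.pad (h : T.Rot m n x y) (hx : T.Loc m n x) (hy : T.Loc n m y) (j : ℕ) :
    T.Rot (m + j) (n + j) x fun p => y (p + j) := by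
  intro p
  have h₁ := hx.far' (T.loc_cupC j) p (p + m) (p + n) (by omega) (by omega)
  have h₂ := (T.loc_cupC j).far' hy (p + n) (p + n) (p + (n + j) + j) (by omega) (by omega)
  rw [cupC_add, cupC_add, ← mul_assoc, h₁, mul_assoc, h p, ← mul_assoc, h₂, mul_assoc]

theorem Rot.pad' (h : T.Rot m n x y) (hx : T.Loc m n x) (hy : T.Loc n m y) (j : ℕ) :
    T.Rot (m + j) (n + j) (fun p => x (p + j)) y := by
  intro p
  have _ := hx
  have _ := hy
  rw [add_comm m j, add_comm n j, cupC_add, cupC_add, ← mul_assoc, h (p + j), mul_assoc, add_assoc]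

private theorem rot_U₀ (T : TL K R) : T.Rot 0 2 T.U T.C := by
  intro p
  simp only [cupC, one_mul, mul_one]
  rw [← mul_assoc, T.zig, one_mul]

private theorem rot_C₀ (T : TL K R) : T.Rot 2 0 T.C T.U := by
  intro p
  simp only [cupC, one_mul, mul_one, add_zero]
  rw [← mul_assoc, T.zag, one_mul]

theorem rot_U (T : TL K R) {j j' : ℕ} (h : j + j' = m) :
    T.Rot m (m + 2) (fun p => T.U (p + j)) fun p => T.C (p + j') := by
  subst h
  have h₁ := ((rot_U₀ T).pad T.loc_U T.loc_C j').pad' (T.loc_U.padR j')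
    ((T.loc_C.padL j').cast (by omega) (by omega) fun _ => rfl) j
  rwa [show 0 + j' + j = j + j' by omega, show 2 + j' + j = j + j' + 2 by omega] at h₁

theorem rot_C (T : TL K R) {j j' : ℕ} (h : j + j' = m) :
    T.Rot (m + 2) m (fun p => T.C (p + j)) fun p => T.U (p + j') := by
  subst h
  have h₁ := ((rot_C₀ T).pad T.loc_C T.loc_U j').pad' (T.loc_C.padR j')
    ((T.loc_U.padL j').cast (by omega) (by omega) fun _ => rfl) j
  rwa [show 0 + j' + j = j + j' by omega, show 2 + j' + j = j + j' + 2 by omega] at h₁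

theorem Rot.mul (h : T.Rot m n x y) (h' : T.Rot n k x' y') (hx' : T.Loc n k x')
    (hy : T.Loc n m y) : T.Rot m k (fun p => x' p * x p) fun p => y p * y' p := by
  intro p
  have h₁ := hx'.far' hy p (p + n) (p + k) (by omega) (by omega)
  beta_reduce
  rw [mul_assoc, h p, ← mul_assoc, h₁, mul_assoc, h' p, mul_assoc]

theorem Rot.add (h : T.Rot m n x y) (h' : T.Rot m n x' y') :
    T.Rot m n (fun p => x p + x' p) fun p => y p + y' p := by
  intro p
  beta_reduce
  rw [add_mul, add_mul, h p, h' p]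

theorem Rot.sub (h : T.Rot m n x y) (h' : T.Rot m n x' y') :
    T.Rot m n (fun p => x p - x' p) fun p => y p - y' p := by
  intro p
  beta_reduce
  rw [sub_mul, sub_mul, h p, h' p]

theorem Rot.smul (h : T.Rot m n x y) (c : K) :
    T.Rot m n (fun p => c • x p) fun p => c • y p := by
  intro p
  beta_reduce
  rw [smul_mul_assoc, smul_mul_assoc, h p]

theorem Rot.unique (h : T.Rot m n x y) (h' : T.Rot m n x y') (hy : T.Loc n m y)
    (hy' : T.Loc n m y') (p : ℕ) : y p = y' p := by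
  have key : ∀ {z : ℕ → R}, T.Rot m n x z → T.Loc n m z →
      z p = T.capC n p * (x (p + n) * T.cupC m (p + n)) := by
    intro z hz hl
    have h₁ := (T.loc_capC n).far' hl p (p + n + n) p (by omega) (by omega)
    rw [hz (p + n), ← mul_assoc, h₁, mul_assoc, zagC, mul_one]
  rw [key h hy, key h' hy']

theorem Loc.exists_rot (hx : T.Loc m n x) :
    ∃ y, T.Loc n m y ∧ T.Rot m n x y ∧ T.Rot n m y x := by
  induction hx with
  | one m => exact ⟨_, .one m, T.rot_one m, T.rot_one m⟩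
  | U m j hj =>
    exact ⟨_, .C m (m - j) (by omega), T.rot_U (by omega), T.rot_C (by omega)⟩
  | C m j hj =>
    exact ⟨_, .U m (m - j) (by omega), T.rot_C (by omega), T.rot_U (by omega)⟩
  | mul hy hx ih₁ ih₂ =>
    obtain ⟨y', l₁, r₁, s₁⟩ := ih₁
    obtain ⟨x', l₂, r₂, s₂⟩ := ih₂
    exact ⟨_, l₂.mul l₁, r₂.mul r₁ hy l₂, s₁.mul s₂ l₂ hy⟩
  | add _ _ ih₁ ih₂ =>
    obtain ⟨y', l₁, r₁, s₁⟩ := ih₁
    obtain ⟨x', l₂, r₂, s₂⟩ := ih₂
    exact ⟨_, l₁.add l₂, r₁.add r₂, s₁.add s₂⟩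
  | smul c _ ih =>
    obtain ⟨y', l₁, r₁, s₁⟩ := ih
    exact ⟨_, l₁.smul c, r₁.smul c, s₁.smul c⟩
  | zero m n => exact ⟨_, .zero n m, fun _ => by simp, fun _ => by simp⟩

theorem Rot.symm (h : T.Rot m n x y) (hx : T.Loc m n x) (hy : T.Loc n m y) : T.Rot n m y x := by
  obtain ⟨z, l, r, s⟩ := hx.exists_rot
  rwa [← funext (r.unique h l hy)]

theorem Rot.cap (h : T.Rot m n x y) (hx : T.Loc m n x) (hy : T.Loc n m y) (p : ℕ) :
    T.capC n p * x (p + n) = T.capC m p * y p := by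
  have h₁ := hx.far' (T.loc_capC m) (p + n) (p + n + m) (p + n + n) (by omega) (by omega)
  have h₂ := (T.loc_capC n).far' (T.loc_capC m) p (p + n + n) p (by omega) (by omega)
  have h₃ := (T.loc_capC n).far' hy p (p + n + n) p (by omega) (by omega)
  calc T.capC n p * x (p + n)
      = T.capC n p * (x (p + n) * T.capC m (p + n + m)) * T.cupC m (p + n) := by
        rw [mul_assoc, mul_assoc, zigC, mul_one]
    _ = T.capC m p * (T.capC n p * y (p + n + n)) * T.cupC n (p + n) := by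
        rw [h₁, ← mul_assoc, h₂, mul_assoc, h (p + n)]; simp only [mul_assoc]
    _ = T.capC m p * y p := by
        rw [h₃, mul_assoc, mul_assoc, zagC, mul_one]

theorem Rot.cap' (h : T.Rot m n x y) (hx : T.Loc m n x) (hy : T.Loc n m y) (p : ℕ) :
    T.capC m p * y (p + m) = T.capC n p * x p := (h.symm hx hy).cap hy hx p

/-- an isomorphism of two idempotents gives one of the rotated idempotents -/
theorem exists_rot_iso {n n' : ℕ} {I P F F' G G' : ℕ → R} (hI : T.Loc n' n I) (hP : T.Loc n n' P)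
    (hG : T.Loc n n G) (hG' : T.Loc n' n' G') (IP : ∀ p, I p * P p = F p)
    (PI : ∀ p, P p * I p = F' p) (IF : ∀ p, I p * F' p = I p) (FP : ∀ p, F' p * P p = P p)
    (hFG : T.Rot n n F G) (hFG' : T.Rot n' n' F' G') :
    ∃ I' P' : ℕ → R, T.Loc n' n I' ∧ T.Loc n n' P' ∧ (∀ p, I' p * P' p = G p) ∧
      (∀ p, P' p * I' p = G' p) ∧ (∀ p, I' p * G' p = I' p) ∧ (∀ p, G' p * P' p = P' p) ∧
      T.Rot n n' P I' ∧ T.Rot n n' P' I := by
  obtain ⟨I', lI, rI, -⟩ := hP.exists_rot
  obtain ⟨P', lP, rP, sP⟩ := hI.exists_rot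
  have hF' : T.Loc n' n' F' := (hP.mul hI).cast rfl rfl PI
  refine ⟨I', P', lI, lP, ?_, ?_, ?_, ?_, rI, sP⟩
  · have := rI.mul rP hI lI
    rw [funext IP] at this
    exact this.unique hFG (lI.mul lP) hG
  · have := rP.mul rI hP lP
    rw [funext PI] at this
    exact this.unique hFG' (lP.mul lI) hG'
  · have := rI.mul hFG' hF' lI
    rw [funext FP] at this
    exact this.unique rI (lI.mul hG') lI
  · have := hFG'.mul rP hI hG'
    rw [funext IF] at this
    exact this.unique rP (hG'.mul lP) lP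

end TL

end Pool.Agent.P.MP_ac4909_gt
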