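import Pool.Agent.P.MP_ac4909_gt.VModel

/-! Coloured cups and caps in the vertex model. -/

namespace Pool.Agent.P.MP_ac4909_gt

variable {K : Type} [Field K] {R : Type} [Ring R] [Algebra K R]

theorem v12_gb_zero (Q : K) (m : ℕ) : ∀ {j : ℤ}, j < 0 ∨ (m : ℤ) < j → gb Q m j = 0 := by
  induction m with
  | zero =>
    intro j h
    rw [gb, if_neg (by omega)]
  | succ m ih =>
    intro j h
    rw [gb, ih (by omega), ih (by omega), mul_zero, add_zero]

theorem v12_gbZ (Q : K) (m : ℕ) (j : ℤ) : gbZ Q m j = gb Q m j := by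
  rw [gbZ, if_pos (Int.natCast_nonneg m), Int.toNat_natCast]

namespace Lv
variable (V : Lv R) (a : K) (ha : a ≠ 0)

/-- `y` kills the cups among the first `m` strands -/
def V12Kil (m : ℕ) (y : R) : Prop := ∀ k, k + 2 ≤ m → y * (V.tl a ha).U k = 0

variable {V a ha}

theorem V12Kil.Z {m : ℕ} {y : R} (h : V.V12Kil a ha (m + 1) y) : V.V12Kil a ha m (y * V.Z) :=
  fun k hk => by
    rw [mul_assoc, ← V.loc_mul_Z a ha (V.tl a ha).loc_U k, ← mul_assoc, h (k + 1) (by omega),
      zero_mul]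

theorem V12Kil.O {m : ℕ} {y : R} (h : V.V12Kil a ha (m + 1) y) : V.V12Kil a ha m (y * V.O) :=
  fun k hk => by
    rw [mul_assoc, ← V.loc_mul_O a ha (V.tl a ha).loc_U k, ← mul_assoc, h (k + 1) (by omega),
      zero_mul]

theorem V12Kil.OZ (s : ℕ) : ∀ {m : ℕ} {y : R}, V.V12Kil a ha m y → s + 1 ≤ m →
    y * V.O * V.Z ^ s = a ^ (-2 * (s : ℤ)) • (y * V.Z ^ s * V.O) := by
  induction s with
  | zero => intro m y _ _; simp
  | succ s ih =>
    intro m y h hs
    obtain ⟨m, rfl⟩ : ∃ k, m = k + 1 := ⟨m - 1, by omega⟩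
    have h0 := h 0 (by omega)
    rw [V.U_zero, mul_sub, sub_eq_zero, mul_smul_comm, ← mul_assoc, ← mul_assoc] at h0
    have h1 : y * V.O * V.Z = a ^ (-2 : ℤ) • (y * V.Z * V.O) := by
      rw [h0, smul_smul, zpow_neg, zpow_ofNat, inv_mul_cancel₀ (pow_ne_zero 2 ha), one_smul]
    rw [pow_succ', ← mul_assoc, h1, smul_mul_assoc, ih h.Z (by omega), smul_smul, ← mul_assoc,
      ← zpow_add₀ ha]
    congr 2
    push_cast
    ring

theorem V12Kil.mul_I (m : ℕ) : ∀ {y : R}, V.V12Kil a ha m y → ∀ s j : ℕ, s + j = m →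
    y * V.I a m j = gb (a ^ (-4 : ℤ)) m j • (y * V.Z ^ s * V.O ^ j) := by
  induction m with
  | zero =>
    intro y _ s j h
    obtain rfl : s = 0 := by omega
    obtain rfl : j = 0 := by omega
    simp [Lv.I, gb]
  | succ m ih =>
    intro y h s j hsj
    have h1 : y * V.Z * V.I a m j = gb (a ^ (-4 : ℤ)) m j • (y * V.Z ^ s * V.O ^ j) := by
      rcases s with _ | s
      · rw [V.I_eq_zero a m (by omega), v12_gb_zero _ m (by omega), mul_zero, zero_smul]
      · rw [ih h.Z s j (by omega), pow_succ', ← mul_assoc]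
    have h2 : y * V.O * V.I a m (j - 1) =
        (gb (a ^ (-4 : ℤ)) m (j - 1) * a ^ (-2 * (s : ℤ))) • (y * V.Z ^ s * V.O ^ j) := by
      rcases j with _ | j
      · rw [V.I_eq_zero a m (by omega), v12_gb_zero _ m (by omega), mul_zero, zero_mul, zero_smul]
      · rw [Nat.cast_succ, add_sub_cancel_right, ih h.O s j (by omega), h.OZ s (by omega),
          smul_mul_assoc, smul_smul, pow_succ', mul_assoc (y * V.Z ^ s)]
    have e : (m : ℤ) + 1 - j = s := by omega
    rw [Lv.I, gb, mul_add, mul_smul_comm, ← mul_assoc, ← mul_assoc, h1, h2, smul_smul, ← add_smul,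
      e, ← zpow_mul, mul_left_comm, ← zpow_add₀ ha, mul_comm (gb _ m (j - 1))]
    congr 4
    ring

theorem V12Kil.mul_cupC (m : ℕ) : ∀ {y : R}, V.V12Kil a ha m y →
    y * (V.tl a ha).cupC m 0 = ∑ j ∈ Finset.range (m + 1),
      (-a ^ 2) ^ j • (y * V.Z ^ (m - j) * V.O ^ j * V.I a m ((m : ℤ) - j)) := by
  induction m with
  | zero => intro y _; simp [TL.cupC, Lv.I]
  | succ m ih =>
    intro y h
    have hZ := V.loc_mul_Z a ha ((V.tl a ha).loc_cupC m) 0
    have hO := V.loc_mul_O a ha ((V.tl a ha).loc_cupC m) 0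
    have e : y * (V.tl a ha).cupC (m + 1) 0 = y * V.Z * (V.tl a ha).cupC m 0 * V.O +
        (-a ^ 2) • (y * V.O * (V.tl a ha).cupC m 0 * V.Z) := by
      rw [TL.cupC, V.U_zero, mul_sub, mul_smul_comm, ← mul_assoc _ V.Z, ← mul_assoc _ V.O, hZ, hO,
        mul_sub, mul_smul_comm, neg_smul, sub_eq_add_neg]
      simp only [mul_assoc]
    rw [e, ih h.Z, ih h.O]
    simp only [V.I_succ' a ha m, mul_add, smul_add, Finset.sum_add_distrib]
    congr 1
    · rw [Finset.sum_range_succ _ (m + 1), V.I_eq_zero a m (j := _ - _ - 1) (by omega), zero_mul,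
        mul_zero, smul_zero, add_zero, Finset.sum_mul]
      refine Finset.sum_congr rfl fun j hj => ?_
      have hj := Finset.mem_range.1 hj
      have e1 : m + 1 - j = m - j + 1 := by omega
      have e2 : ((m + 1 : ℕ) : ℤ) - j - 1 = m - j := by omega
      rw [e1, e2, pow_succ' V.Z, smul_mul_assoc]
      simp only [mul_assoc]
    · rw [Finset.sum_range_succ' _ (m + 1), V.I_eq_zero a m (j := _ - (0 : ℕ)) (by omega), zero_mul,
        smul_zero, mul_zero, smul_zero, add_zero, Finset.sum_mul, Finset.smul_sum]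
      refine Finset.sum_congr rfl fun j hj => ?_
      have hj := Finset.mem_range.1 hj
      have e1 : m + 1 - (j + 1) = m - j := by omega
      have e2 : ((m + 1 : ℕ) : ℤ) - (j + 1 : ℕ) = m - j := by omega
      have e3 : ((m - j : ℕ) : ℤ) = m - j := by omega
      rw [e1, e2, h.OZ (m - j) (by omega), e3, pow_succ' (-a ^ 2), pow_succ' V.O]
      simp only [mul_assoc, smul_mul_assoc, mul_smul_comm, smul_smul]

variable (V a ha)

theorem cup_formula (m : ℕ) (hm : Adm a m)
    (hg : ∀ j : ℤ, 0 ≤ j → j ≤ m → gb (a ^ (-4 : ℤ)) m j ≠ 0) :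
    (V.tl a ha).f m 0 * (V.tl a ha).cupC m 0 =
      ∑ j ∈ Finset.Icc (0 : ℤ) m, cuC a m j • (V.I a m j * V.I a m (m - j)) := by
  have hk : V.V12Kil a ha m ((V.tl a ha).f m 0) := fun k hk => by
    have := (V.tl a ha).f_mul_U hm hk 0
    rwa [zero_add] at this
  rw [hk.mul_cupC]
  refine Finset.sum_bij (fun j _ => (j : ℤ)) (fun j hj => ?_) (fun i _ j _ h => by omega)
    (fun j hj => ?_) fun j hj => ?_
  · have hj := Finset.mem_range.1 hj
    exact Finset.mem_Icc.2 (by omega)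
  · have hj := Finset.mem_Icc.1 hj
    exact ⟨j.toNat, Finset.mem_range.2 (by omega), by omega⟩
  · have hj := Finset.mem_range.1 hj
    have h1 := hk.mul_I m (m - j) j (by omega)
    rw [V.f_mul_I] at h1
    rw [h1, cuC, v12_gbZ, smul_mul_assoc, smul_smul, mul_assoc _ (gb _ _ _)⁻¹,
      inv_mul_cancel₀ (hg j (by omega) (by omega)), mul_one, neg_pow, zpow_natCast, zpow_mul,
      zpow_natCast, zpow_ofNat]

theorem v12_cap (m : ℕ) : ∀ j j' : ℤ,
    (V.tl a ha).capC m 0 * (V.I a m j * V.I a m j') = caC a m j j' • (1 : R) := by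
  induction m with
  | zero =>
    intro j j'
    rw [caC, v12_gbZ]
    by_cases h : j = 0 <;> by_cases h' : j' = 0 <;> simp [TL.capC, Lv.I, gb, h, h']
  | succ m ih =>
    intro j j'
    have hZ : ∀ i i' (x : R), (V.tl a ha).capC m (0 + 1) * (V.Z * (V.I a m i * (V.I a m i' * x))) =
        caC a m i i' • (V.Z * x) := fun i i' x => by
      rw [← mul_assoc, V.loc_mul_Z a ha ((V.tl a ha).loc_capC m) 0, ← mul_assoc (V.I a m i),
        mul_assoc, ← mul_assoc _ _ x, ih, smul_mul_assoc, one_mul, mul_smul_comm]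
    have hO : ∀ i i' (x : R), (V.tl a ha).capC m (0 + 1) * (V.O * (V.I a m i * (V.I a m i' * x))) =
        caC a m i i' • (V.O * x) := fun i i' x => by
      rw [← mul_assoc, V.loc_mul_O a ha ((V.tl a ha).loc_capC m) 0, ← mul_assoc (V.I a m i),
        mul_assoc, ← mul_assoc _ _ x, ih, smul_mul_assoc, one_mul, mul_smul_comm]
    rw [V.I_succ' a ha m j', Lv.I, TL.capC]
    simp only [mul_add, add_mul, mul_assoc, smul_mul_assoc, mul_smul_comm, hZ, hO, V.C_ZZ, V.C_OO,
      V.C_ZO, V.C_OZ, smul_zero, add_zero, zero_add, smul_smul, ← add_smul]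
    congr 1
    simp only [caC, v12_gbZ]
    by_cases h : j + j' = (m + 1 : ℕ)
    · obtain rfl : j' = m + 1 - j := by omega
      have e1 : ((m + 1 : ℕ) : ℤ) - j = m - j + 1 := by omega
      have e2 : (m : ℤ) - (j - 1) = m - j + 1 := by omega
      have e3 : (m : ℤ) + 1 - j = m - j + 1 := by omega
      rw [if_pos h, if_pos (by omega), if_pos (by omega), gb, e1, e2, e3]
      generalize (m : ℤ) - j = s
      have e4 : (a ^ (-4 : ℤ)) ^ (s + 1) = a ^ (-2 * (s + 1)) * a ^ (-2 * (s + 1)) := by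
        rw [← zpow_mul, ← zpow_add₀ ha]
        congr 1
        ring
      have e5 : a ^ (-2 * (s + 1)) = a ^ (-2 * s) * a⁻¹ ^ 2 := by
        rw [inv_pow, ← zpow_ofNat, ← zpow_neg, ← zpow_add₀ ha]
        congr 1
        ring
      rw [e4, zpow_add_one₀ (by norm_num : (-1 : K) ≠ 0), e5]
      ring
    · rw [if_neg h, if_neg (by omega), if_neg (by omega)]
      simp

theorem cap_formula (m : ℕ) (j j' : ℤ) :
    (V.tl a ha).capC m 0 * (V.tl a ha).f m 0 * (V.I a m j * V.I a m j') =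
      caC a m j j' • (1 : R) := by
  rw [mul_assoc, ← mul_assoc _ (V.I a m j), V.f_mul_I, V.v12_cap]

end Lv

end Pool.Agent.P.MP_ac4909_gt
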